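import Pool.Agent.Lib.UD95.Defs3

/-!
# Row CMP: comparison of two functions, up to a rotation of every window
-/

set_option autoImplicit false
open Finset Polynomial MeasureTheory

namespace Pool.Agent.UD

open Pool.Agent.Lib.MP_663568_nt Pool.Agent.Lib.MP_663568_nt.Katai
  Pool.Agent.Lib.MP_663568_nt.Nul Pool.Agent.TU

namespace Cmp

lemma sum_le (S : Finset ℕ) (n : ℕ) (a a' : ℕ → ℂ) (w : ℂ) (hw : ‖w‖ = 1) (e : ℕ → ℂ)
    (he : ∀ h, ‖e h‖ = 1) :
    ‖∑ h ∈ S, a (n + h) * e h‖ ≤ ‖∑ h ∈ S, a' (n + h) * e h‖ +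
      ∑ h ∈ S, ‖a' (n + h) - w * a (n + h)‖ := by
  have h1 : ‖∑ h ∈ S, a (n + h) * e h‖ = ‖w * ∑ h ∈ S, a (n + h) * e h‖ := by
    rw [norm_mul, hw, one_mul]
  have h2 : w * ∑ h ∈ S, a (n + h) * e h = ∑ h ∈ S, a' (n + h) * e h -
      ∑ h ∈ S, (a' (n + h) - w * a (n + h)) * e h := by
    rw [mul_sum, ← sum_sub_distrib]
    exact sum_congr rfl fun h _ => by ring
  rw [h1, h2]
  refine (norm_sub_le _ _).trans (add_le_add_right ?_ _)
  refine (norm_sum_le _ _).trans (le_of_eq ?_)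
  exact sum_congr rfl fun h _ => by rw [norm_mul, he, mul_one]

lemma sum_le' (S : Finset ℕ) (n : ℕ) (a a' : ℕ → ℂ) (w : ℂ) (hw : ‖w‖ = 1) (e : ℕ → ℂ)
    (he : ∀ h, ‖e h‖ = 1) :
    ‖∑ h ∈ S, a' (n + h) * e h‖ ≤ ‖∑ h ∈ S, a (n + h) * e h‖ +
      ∑ h ∈ S, ‖a' (n + h) - w * a (n + h)‖ := by
  have h1 : ‖∑ h ∈ S, a (n + h) * e h‖ = ‖w * ∑ h ∈ S, a (n + h) * e h‖ := by
    rw [norm_mul, hw, one_mul]
  have h2 : ∑ h ∈ S, a' (n + h) * e h = w * ∑ h ∈ S, a (n + h) * e h +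
      ∑ h ∈ S, (a' (n + h) - w * a (n + h)) * e h := by
    rw [mul_sum, ← sum_add_distrib]
    exact sum_congr rfl fun h _ => by ring
  rw [h1, h2]
  refine (norm_add_le _ _).trans (add_le_add_right ?_ _)
  refine (norm_sum_le _ _).trans (le_of_eq ?_)
  exact sum_congr rfl fun h _ => by rw [norm_mul, he, mul_one]

lemma norm_le_card (S : Finset ℕ) (n : ℕ) (a : ℕ → ℂ) (ha : ∀ n, ‖a n‖ ≤ 1) (e : ℕ → ℂ)
    (he : ∀ h, ‖e h‖ = 1) : ‖∑ h ∈ S, a (n + h) * e h‖ ≤ S.card := by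
  refine (norm_sum_le _ _).trans ?_
  refine (sum_le_card_nsmul S _ 1 fun h _ => ?_).trans (by simp)
  rw [norm_mul, he, mul_one]
  exact ha _

/-- comparison of suprema -/
lemma iSup_le_add {ι : Type*} (f g : ι → ℝ) (K : ℝ) (hK : 0 ≤ K) (hg : BddAbove (Set.range g))
    (hg0 : ∀ i, 0 ≤ g i) (h : ∀ i, f i ≤ g i + K) : ⨆ i, f i ≤ (⨆ i, g i) + K := by
  have h0 : 0 ≤ ⨆ i, g i := Real.iSup_nonneg hg0
  refine Real.iSup_le (fun i => (h i).trans ?_) (by positivity)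
  exact add_le_add_left (le_ciSup hg i) K

end Cmp

theorem rowCmp : Cmp_stmt := by
  intro N H a a' u E hu ha ha' hE
  have hee : ∀ x : ℝ, ‖ee x‖ = 1 := norm_ee
  constructor
  · intro t B
    unfold SA
    rw [← sum_add_distrib]
    refine sum_le_sum fun n hn => ?_
    rw [← mul_add]
    refine mul_le_mul_of_nonneg_left ?_ (by positivity)
    have hE0 : 0 ≤ E n := (sum_nonneg fun _ _ => norm_nonneg _).trans (hE n hn)
    refine Cmp.iSup_le_add _ _ _ hE0 ?_ (fun _ => norm_nonneg _) fun α => ?_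
    · refine ⟨((Icc 1 H).card : ℝ), ?_⟩
      rintro _ ⟨α, rfl⟩
      exact Cmp.norm_le_card _ n a' ha' (fun h => ee (ph (α : Fin t → ℝ) (h : ℝ))) fun _ => hee _
    · refine (Cmp.sum_le _ n a a' (u n) (hu n) (fun h => ee (ph (α : Fin t → ℝ) (h : ℝ)))
        fun _ => hee _).trans ?_
      exact add_le_add_right (hE n hn) _
  · intro σ Q
    unfold UU
    rw [mul_sum, ← sum_add_distrib]
    refine sum_le_sum fun n hn => ?_
    have h0 : UW σ Q H a' n ≤ UW σ Q H a n + Q * E n := by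
      unfold UW
      have h1 : ∀ q ∈ Icc 1 Q, ∑ b ∈ range q, (⨆ α : Fin σ → ℝ,
          ‖∑ h ∈ Icc 1 H with (n + h) % q = b, a' (n + h) * ee (ph α (h : ℝ))‖) ≤
          ∑ b ∈ range q, (⨆ α : Fin σ → ℝ,
          ‖∑ h ∈ Icc 1 H with (n + h) % q = b, a (n + h) * ee (ph α (h : ℝ))‖) + E n := by
        intro q hq
        have hq1 : 1 ≤ q := (mem_Icc.1 hq).1
        have h2 : ∑ b ∈ range q, ∑ h ∈ Icc 1 H with (n + h) % q = b,
            ‖a' (n + h) - u n * a (n + h)‖ = ∑ h ∈ Icc 1 H, ‖a' (n + h) - u n * a (n + h)‖ :=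
          sum_fiberwise_of_maps_to (fun h _ => mem_range.2 (Nat.mod_lt _ hq1)) _
        refine le_trans ?_ (add_le_add_right (hE n hn) _)
        rw [← h2, ← sum_add_distrib]
        refine sum_le_sum fun b _ => ?_
        refine Cmp.iSup_le_add _ _ _ (sum_nonneg fun _ _ => norm_nonneg _) ?_
          (fun _ => norm_nonneg _) fun α => ?_
        · refine ⟨((Finset.filter (fun h => (n + h) % q = b) (Icc 1 H)).card : ℝ), ?_⟩
          rintro _ ⟨α, rfl⟩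
          exact Cmp.norm_le_card _ n a ha (fun h => ee (ph α (h : ℝ))) fun _ => hee _
        · exact Cmp.sum_le' _ n a a' (u n) (hu n) (fun h => ee (ph α (h : ℝ))) fun _ => hee _
      refine (sum_le_sum h1).trans (le_of_eq ?_)
      rw [sum_add_distrib, sum_const, Nat.card_Icc, nsmul_eq_mul]
      simp
    calc (1 / (n : ℝ)) * UW σ Q H a' n ≤ (1 / (n : ℝ)) * (UW σ Q H a n + Q * E n) :=
          mul_le_mul_of_nonneg_left h0 (by positivity)
      _ = _ := by ring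

end Pool.Agent.UD
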