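import Mathlib
import Pool.Agent.Lib.TU.Defs

/-!
# Universal dichotomy for closed sets of polynomial phases (MP_663568_nt): definitions and rows

For which sets `B` of polynomial phases is the correlation of EVERY bounded multiplicative function
with the phases of `B` in the windows of length `H` controlled by its averages over arithmetic
progressions?  Exactly for those whose rational sections are null sets; the functions `n ^ (i T)` are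
the universal obstruction.  Paper text: /team-store/tt6_663568_UD.md (helper95).
-/

set_option autoImplicit false
open Finset Polynomial MeasureTheory

namespace Pool.Agent.UD

open Pool.Agent.Lib.MP_663568_nt Pool.Agent.Lib.MP_663568_nt.Katai
  Pool.Agent.Lib.MP_663568_nt.Nul Pool.Agent.TU

/-- Sequences bounded by one, with `a (p k) = a (p) a (k)` for the primes `p` not dividing `k`. -/
def Mult : Set (ℕ → ℂ) :=
  {a | (∀ n, ‖a n‖ ≤ 1) ∧ ∀ p k : ℕ, p.Prime → ¬ p ∣ k → a (p * k) = a p * a k}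

/-- The functions `n ^ (i T)`, `T` real. -/
def Arch : Set (ℕ → ℂ) :=
  {a | ∃ T : ℝ, ∀ n : ℕ, a n = Complex.exp ((T * Real.log n : ℝ) * Complex.I)}

/-- The averages of `a` over the arithmetic progressions of modulus at most `Q` in the windows of
length `L`. -/
noncomputable def AP (Q L N : ℕ) (a : ℕ → ℂ) : ℝ :=
  ∑ n ∈ Icc 1 N, (1 / (n : ℝ)) * ∑ q ∈ Icc 1 Q, ∑ b ∈ range q,
    ‖∑ h ∈ Icc 1 L with (n + h) % q = b, a (n + h)‖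

/-- The average over the windows of length `H` of the supremum over the phases of `B`. -/
noncomputable def SA {t : ℕ} (a : ℕ → ℂ) (B : Set (Fin t → ℝ)) (N H : ℕ) : ℝ :=
  ∑ n ∈ Icc 1 N, (1 / (n : ℝ)) * ⨆ α : {α : Fin t → ℝ // α ∈ B},
    ‖∑ h ∈ Icc 1 H, a (n + h) * ee (ph (α : Fin t → ℝ) (h : ℝ))‖

/-- The phases of `B` are controlled by arithmetic progressions for the functions of the class
`𝒞`. -/
def Ctrl {t : ℕ} (𝒞 : Set (ℕ → ℂ)) (B : Set (Fin t → ℝ)) : Prop :=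
  ∀ ε : ℝ, 0 < ε → ∃ C : ℕ, ∀ L : ℕ, 1 ≤ L → ∃ H₀ : ℕ, ∀ H N : ℕ, H₀ ≤ H → H ^ C ≤ N →
    ∀ a ∈ 𝒞, SA a B N H ≤ (ε * Real.log N + C * AP C L N a / L) * H

/-! ### Positive part -/

/-- The supremum over the polynomials of degree at most `s` with `s`-th coefficient near `T`. -/
noncomputable def FA (a : ℕ → ℂ) (s : ℕ) (T : Set ℝ) (ρ : ℝ) (l n : ℕ) : ℝ :=
  ⨆ P : {P : ℝ[X] // P.natDegree ≤ s ∧ ∃ x ∈ T, |P.coeff s - x| ≤ ρ},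
    ‖∑ h ∈ Icc 1 l, a (n + h) * ee ((P : ℝ[X]).eval (h : ℝ))‖

/-- Row S1: degree one, closed null sets (`SmallSets` outside of the major arcs, progressions
inside). -/
def S1_stmt : Prop := ∀ T : Set ℝ, IsClosed T → volume T = 0 →
  (∀ x ∈ T, ∀ z : ℤ, x + (z : ℝ) ∈ T) → ∀ ε : ℝ, 0 < ε → ∃ ρ : ℝ, 0 < ρ ∧ ∃ C : ℕ,
  ∀ L : ℕ, 1 ≤ L → ∃ l : ℕ, 1 ≤ l ∧ ∃ N₀ : ℕ, ∀ N : ℕ, N₀ ≤ N → ∀ a ∈ Mult,
    ∑ n ∈ Icc 1 N, (1 / (n : ℝ)) * FA a 1 T ρ l n ≤ (ε * Real.log N + C * AP C L N a / L) * l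

/-- Row S2: degree at least two, closed null sets without rational points (`SmallSets`). -/
def S2_stmt : Prop := ∀ s : ℕ, 2 ≤ s → ∀ T : Set ℝ, IsClosed T → volume T = 0 →
  (∀ x ∈ T, ∀ z : ℤ, x + (z : ℝ) ∈ T) → (∀ x ∈ T, Irrational x) → ∀ ε : ℝ, 0 < ε →
  ∃ ρ : ℝ, 0 < ρ ∧ ∃ l : ℕ, 1 ≤ l ∧ ∃ N₀ : ℕ, ∀ N : ℕ, N₀ ≤ N → ∀ a ∈ Mult,
    ∑ n ∈ Icc 1 N, (1 / (n : ℝ)) * FA a s T ρ l n ≤ ε * Real.log N * l

/-- The clusters of windows. -/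
def Cl (a : ℕ → ℂ) (t s D : ℕ) (B : Set (Fin t → ℝ)) (Q c c₄ : ℝ) (e : ℕ) (K : ℝ) (H m : ℕ) :
    Prop :=
  H ≤ m ∧ ∃ R : ℝ[X], R.natDegree ≤ t ∧ Near t s D Q H R ∧
    c * H ≤ ‖∑ y ∈ Icc 1 H, a (m + y) * ee (R.eval (y : ℝ))‖ ∧
    c₄ * H ≤ Nat.card {k : ℕ // k ∈ Icc 1 (H / e) ∧ tv t R (k : ℝ) ∈ Nb B (K / H)}

open Classical in
/-- Row G: the clusters have small density. -/
def G_stmt : Prop := ∀ (t : ℕ) (B : Set (Fin t → ℝ)), IsClosed B → Per B → NullSec B →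
  ∀ (c c₄ : ℝ) (e : ℕ) (K : ℝ), 0 < c → c ≤ 1 → 0 < c₄ → 1 ≤ e → 0 < K →
  ∀ s : ℕ, 1 ≤ s → s ≤ t → ∀ (D : ℕ) (Q ε : ℝ), 1 ≤ D → 1 ≤ Q → 0 < ε →
  ∃ C : ℕ, ∀ L : ℕ, 1 ≤ L → ∃ H₀ : ℕ, ∀ H N : ℕ, H₀ ≤ H → H ≤ N → ∀ a ∈ Mult,
    ∑ m ∈ Icc 1 N with Cl a t s D B Q c c₄ e K H m, (1 / (m : ℝ)) ≤
      ε * Real.log N + C * AP C L N a / L

/-- Row P: the positive part. -/
def P_stmt : Prop := ∀ t : ℕ, 1 ≤ t → ∀ B : Set (Fin t → ℝ), IsClosed B → Per B → NullSec B →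
  Ctrl Mult B

/-! ### Negative part -/

/-- The local coefficients of `n ^ (i T)`. -/
noncomputable def bt (s : ℕ) (n T : ℝ) : Fin s → ℝ :=
  fun i => (-1) ^ i.val * T / (2 * Real.pi * (i.val + 1) * n ^ (i.val + 1))

/-- Row N1: the local expansion. -/
def N1_stmt : Prop := ∀ (s n h : ℕ) (T : ℝ), 0 ≤ T → 1 ≤ h → 2 * h ≤ n →
  ‖Complex.exp ((T * Real.log ((n + h : ℕ) : ℝ) : ℝ) * Complex.I) -
    Complex.exp ((T * Real.log n : ℝ) * Complex.I) * ee (ph (bt s n T) (h : ℝ))‖ ≤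
    2 * T * ((h : ℝ) / n) ^ (s + 1)

/-- Row N2: a rational linear twist with a large complete sum. -/
def N2_stmt : Prop := ∀ (t s : ℕ), 1 ≤ s → s ≤ t → ∀ r : Fin t → ℚ, ∃ ζ : Fin s → ℝ,
  ∃ c : ℝ, 0 < c ∧ ∃ H₀ : ℕ, ∀ H : ℕ, H₀ ≤ H →
    c * H ≤ ‖∑ h ∈ Icc 1 H, ee (ph (glue s ζ (fun i => ((r i : ℚ) : ℝ))) (h : ℝ))‖

/-- The parameters of the counterexample: `N = m ^ (4 s + 4)`, `T` between `TT` and `2 TT`. -/
def NN (s m : ℕ) : ℕ := m ^ (4 * s + 4)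

/-- The range of `T`. -/
def TT (s m : ℕ) : ℕ := m ^ ((4 * s + 4) * s + (2 * s + 2))

open Classical in
/-- Row N3: on average over `T`, the local coefficients of `n ^ (i T)` are equidistributed. -/
def N3_stmt : Prop := ∀ s : ℕ, 1 ≤ s → ∀ C : Set (Fin s → ℝ), IsClosed C → Per C →
  volume C ≠ 0 → ∃ w : ℝ, 0 < w ∧ ∀ (ζ : Fin s → ℝ) (δ : ℝ), 0 < δ → ∃ m₀ : ℕ, ∀ m : ℕ, m₀ ≤ m →
    w * TT s m * Real.log m ≤ ∑ T ∈ Ico (TT s m) (2 * TT s m),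
      ∑ n ∈ Icc (m ^ (4 * s + 3)) (NN s m) with
        (∃ y ∈ C, ∀ i, |bt s n T i + y i - ζ i| ≤ δ), (1 / (n : ℝ))

/-- Row N5: on average over `T`, the function `n ^ (i T)` has small averages over progressions. -/
def N5_stmt : Prop := ∀ s Q L : ℕ, 1 ≤ s → 1 ≤ Q → 1 ≤ L → ∃ m₀ : ℕ, ∀ m : ℕ, m₀ ≤ m →
  ∑ T ∈ Ico (TT s m) (2 * TT s m),
    AP Q L (NN s m) (fun n => Complex.exp ((((T : ℕ) : ℝ) * Real.log n : ℝ) * Complex.I)) ≤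
      4 * Q ^ 2 * Real.sqrt L * Real.log (NN s m) * TT s m

/-- Row N6: the negative part. -/
def N6_stmt : Prop := ∀ t : ℕ, 1 ≤ t → ∀ B : Set (Fin t → ℝ), IsClosed B → Per B →
  ¬ NullSec B → ¬ Ctrl Arch B

end Pool.Agent.UD
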