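import Mathlib
import Pool.Agent.Lib.UD95.Defs
import Pool.Agent.Lib.TUK.Defs4

/-!
# Complexity of sets of polynomial phases (MP_663568_nt): the universal dichotomy in every degree

`B` is controlled, uniformly for all bounded multiplicative functions, by the polynomial phases of
degree at most `σ` if and only if its rational sections of dimension greater than `σ` are null sets.
-/

set_option autoImplicit false
open Finset Polynomial MeasureTheory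

namespace Pool.Agent.UD

open Pool.Agent.Lib.MP_663568_nt Pool.Agent.Lib.MP_663568_nt.Katai
  Pool.Agent.Lib.MP_663568_nt.Nul Pool.Agent.TU

/-- One window: the polynomial phases of degree at most `σ` on the progressions of modulus at most
`Q`. -/
noncomputable def UW (σ Q L : ℕ) (a : ℕ → ℂ) (n : ℕ) : ℝ :=
  ∑ q ∈ Icc 1 Q, ∑ b ∈ range q, ⨆ α : Fin σ → ℝ,
    ‖∑ h ∈ Icc 1 L with (n + h) % q = b, a (n + h) * ee (ph α (h : ℝ))‖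

/-- The average of `UW` over the windows of length `L`. -/
noncomputable def UU (σ Q L N : ℕ) (a : ℕ → ℂ) : ℝ := ∑ n ∈ Icc 1 N, (1 / (n : ℝ)) * UW σ Q L a n

/-- `B` is controlled by the phases of degree at most `σ` for the functions of the class `𝒞`. -/
def CtrlS {t : ℕ} (σ : ℕ) (𝒞 : Set (ℕ → ℂ)) (B : Set (Fin t → ℝ)) : Prop :=
  ∀ ε : ℝ, 0 < ε → ∃ C : ℕ, ∀ L : ℕ, 1 ≤ L → ∃ H₀ : ℕ, ∀ H N : ℕ, H₀ ≤ H → H ^ C ≤ N →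
    ∀ a ∈ 𝒞, SA a B N H ≤ (ε * Real.log N + C * UU σ C L N a / L) * H

/-- The rational sections of dimension greater than `σ` are null sets. -/
def NullAbove {t : ℕ} (σ : ℕ) (B : Set (Fin t → ℝ)) : Prop :=
  ∀ s : ℕ, σ < s → s ≤ t → ∀ r : Fin t → ℚ,
    volume {y : Fin s → ℝ | glue s y (fun i => ((r i : ℚ) : ℝ)) ∈ B} = 0

/-- Row S3: degree `σ + 1 ≥ 2`, closed null sets, rational numbers allowed. -/
def S3_stmt : Prop := ∀ σ : ℕ, 1 ≤ σ → ∀ T : Set ℝ, IsClosed T → volume T = 0 →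
  (∀ x ∈ T, ∀ z : ℤ, x + (z : ℝ) ∈ T) → ∀ ε : ℝ, 0 < ε → ∃ ρ : ℝ, 0 < ρ ∧ ∃ C : ℕ,
  ∀ L : ℕ, 1 ≤ L → ∃ l : ℕ, 1 ≤ l ∧ ∃ N₀ : ℕ, ∀ N : ℕ, N₀ ≤ N → ∀ a ∈ Mult,
    ∑ n ∈ Icc 1 N, (1 / (n : ℝ)) * FA a (σ + 1) T ρ l n ≤
      (ε * Real.log N + C * UU σ 1 L N a / L) * l

open Classical in
/-- Row G2: the clusters have small density. -/
def G2_stmt : Prop := ∀ (t σ : ℕ) (B : Set (Fin t → ℝ)), σ ≤ t → IsClosed B → Per B →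
  NullAbove σ B →
  ∀ (c c₄ : ℝ) (e : ℕ) (K : ℝ), 0 < c → c ≤ 1 → 0 < c₄ → 1 ≤ e → 0 < K →
  ∀ s : ℕ, 1 ≤ s → σ ≤ s → s ≤ t → ∀ (D : ℕ) (Q ε : ℝ), 1 ≤ D → 1 ≤ Q → 0 < ε →
  ∃ C : ℕ, ∀ L : ℕ, 1 ≤ L → ∃ H₀ : ℕ, ∀ H N : ℕ, H₀ ≤ H → H ≤ N → ∀ a ∈ Mult,
    ∑ m ∈ Icc 1 N with Cl a t s D B Q c c₄ e K H m, (1 / (m : ℝ)) ≤
      ε * Real.log N + C * UU σ C L N a / L

/-- Row P2: the positive part. -/
def P2_stmt : Prop := ∀ t : ℕ, 1 ≤ t → ∀ σ : ℕ, σ ≤ t → ∀ B : Set (Fin t → ℝ), IsClosed B →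
  Per B → NullAbove σ B → CtrlS σ Mult B

/-- Row N7: on average over `T`, the function `n ^ (i T)`, `T` about `N ^ (s + 1 / 2)`, has small
correlation with the phases of degree at most `σ < s` in the windows of a long fixed length. -/
def N7_stmt : Prop := ∀ σ s Q : ℕ, σ < s → 1 ≤ Q → ∀ η : ℝ, 0 < η → ∃ L : ℕ, 1 ≤ L ∧
  ∃ m₀ : ℕ, ∀ m : ℕ, m₀ ≤ m →
  ∑ T ∈ Ico (TT s m) (2 * TT s m),
    UU σ Q L (NN s m) (fun n => Complex.exp ((((T : ℕ) : ℝ) * Real.log n : ℝ) * Complex.I)) ≤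
      η * L * Real.log (NN s m) * TT s m

/-- Row N7a: the case `σ ≥ 1`, whole windows. -/
def N7a_stmt : Prop := ∀ σ s : ℕ, 1 ≤ σ → σ < s → ∀ η : ℝ, 0 < η → ∃ L₀ : ℕ, ∀ L : ℕ, L₀ ≤ L →
  ∃ m₀ : ℕ, ∀ m : ℕ, m₀ ≤ m →
  ∑ T ∈ Ico (TT s m) (2 * TT s m),
    UU σ 1 L (NN s m) (fun n => Complex.exp ((((T : ℕ) : ℝ) * Real.log n : ℝ) * Complex.I)) ≤
      η * L * Real.log (NN s m) * TT s m

/-- Row VDC: `σ` differences remove the polynomial phases of degree at most `σ`. For `x : ℕ → ℂ` the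
differences are `Δ_k x (h) = x (h + k) * conj (x h)`. -/
noncomputable def Dif : List ℕ → (ℕ → ℂ) → ℕ → ℂ
  | [], x => x
  | k :: ks, x => Dif ks fun h => x (h + k) * (starRingEnd ℂ) (x h)

/-- Row VDC. -/
def VDC_stmt : Prop := ∀ σ : ℕ, 1 ≤ σ → ∀ κ : ℝ, 0 < κ → ∃ K : ℕ, 1 ≤ K ∧ ∃ L₀ : ℕ, ∀ L : ℕ,
  L₀ ≤ L → ∀ x : ℕ → ℂ, (∀ n, ‖x n‖ ≤ 1) → ∀ P : ℝ[X], P.natDegree ≤ σ →
    (‖∑ h ∈ Icc 1 L, x h * ee (P.eval (h : ℝ))‖ / L) ^ (2 ^ σ) ≤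
      κ + ∑ k ∈ Fintype.piFinset (fun _ : Fin σ => Icc 1 K),
        ‖∑ h ∈ Icc 1 L, Dif (List.ofFn k) x h‖ / L

/-- Row N8: the negative part. -/
def N8_stmt : Prop := ∀ t : ℕ, 1 ≤ t → ∀ σ : ℕ, ∀ B : Set (Fin t → ℝ), IsClosed B → Per B →
  ¬ NullAbove σ B → ¬ CtrlS σ Arch B

end Pool.Agent.UD
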