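import Pool.Agent.Lib.UD95.Defs
import Pool.Agent.Lib.MP_663568_nt.Poly

/-!
# Row N6: the negative part of the universal dichotomy
-/

set_option autoImplicit false
open Finset Polynomial MeasureTheory Filter Topology

namespace Pool.Agent.UD

open Pool.Agent.Lib.MP_663568_nt Pool.Agent.Lib.MP_663568_nt.Katai
  Pool.Agent.Lib.MP_663568_nt.Nul Pool.Agent.TU

lemma ph_continuous {t : ℕ} (h : ℝ) : Continuous fun α : Fin t → ℝ => ph α h := by
  unfold ph
  fun_prop

lemma glue_continuous {t s : ℕ} (r : Fin t → ℝ) :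
    Continuous fun y : Fin s → ℝ => glue s y r := by
  refine continuous_pi fun i => ?_
  unfold glue
  by_cases h : i.val < s
  · simp only [h, dite_true]
    exact continuous_apply _
  · simp only [h, dite_false]
    exact continuous_const

/-- The first coordinates separate. -/
lemma ph_glue {t s : ℕ} (hst : s ≤ t) (y : Fin s → ℝ) (r : Fin t → ℝ) (h : ℝ) :
    ph (glue s y r) h = ph y h + ph (glue s (0 : Fin s → ℝ) r) h := by
  have h1 : ∀ i : Fin t, glue s y r i * h ^ (i.val + 1) =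
      (if hi : i.val < s then y ⟨i.val, hi⟩ * h ^ (i.val + 1) else 0) +
        glue s (0 : Fin s → ℝ) r i * h ^ (i.val + 1) := by
    intro i
    unfold glue
    by_cases hi : i.val < s
    · simp [hi]
    · simp [hi]
  have h2 : ∑ i : Fin t, (if hi : i.val < s then y ⟨i.val, hi⟩ * h ^ (i.val + 1) else 0) =
      ∑ i : Fin s, y i * h ^ (i.val + 1) := by
    rw [← Finset.sum_filter_add_sum_filter_not Finset.univ (fun i : Fin t => i.val < s)]
    have h3 : ∑ i ∈ Finset.univ.filter (fun i : Fin t => ¬ i.val < s),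
        (if hi : i.val < s then y ⟨i.val, hi⟩ * h ^ (i.val + 1) else 0) = 0 := by
      refine Finset.sum_eq_zero fun i hi => ?_
      rw [Finset.mem_filter] at hi
      simp [hi.2]
    rw [h3, add_zero]
    refine Finset.sum_bij' (fun i hi => ⟨i.val, (Finset.mem_filter.1 hi).2⟩)
      (fun i _ => ⟨i.val, by omega⟩) ?_ ?_ ?_ ?_ ?_
    · intro i hi; exact Finset.mem_univ _
    · intro i _; exact Finset.mem_filter.2 ⟨Finset.mem_univ _, i.2⟩
    · intro i _; rfl
    · intro i _; rfl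
    · intro i hi
      simp [(Finset.mem_filter.1 hi).2]
  unfold ph
  rw [Finset.sum_congr rfl fun i _ => h1 i, Finset.sum_add_distrib, h2]

lemma ph_add {s : ℕ} (x y : Fin s → ℝ) (h : ℝ) : ph (x + y) h = ph x h + ph y h := by
  unfold ph
  rw [← Finset.sum_add_distrib]
  refine Finset.sum_congr rfl fun i _ => ?_
  rw [Pi.add_apply]
  ring

lemma ph_close {s : ℕ} (x y : Fin s → ℝ) (δ : ℝ) (hδ : 0 ≤ δ) (h : ∀ i, |x i - y i| ≤ δ)
    {k H : ℕ} (hk1 : 1 ≤ k) (hk : k ≤ H) :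
    |ph x (k : ℝ) - ph y (k : ℝ)| ≤ s * δ * (H : ℝ) ^ s := by
  unfold ph
  rw [← Finset.sum_sub_distrib]
  have h1 : ∀ i : Fin s, |x i * (k : ℝ) ^ (i.val + 1) - y i * (k : ℝ) ^ (i.val + 1)| ≤
      δ * (H : ℝ) ^ s := by
    intro i
    rw [← sub_mul, abs_mul, abs_of_nonneg (by positivity : (0 : ℝ) ≤ (k : ℝ) ^ (i.val + 1))]
    refine mul_le_mul (h i) ?_ (by positivity) hδ
    have hk0 : (1 : ℝ) ≤ k := by exact_mod_cast hk1
    have hkH : (k : ℝ) ≤ H := by exact_mod_cast hk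
    calc (k : ℝ) ^ (i.val + 1) ≤ (k : ℝ) ^ s := pow_le_pow_right₀ hk0 (by omega)
      _ ≤ (H : ℝ) ^ s := pow_le_pow_left₀ (by linarith) hkH s
  refine (Finset.abs_sum_le_sum_abs _ _).trans ((Finset.sum_le_sum fun i _ => h1 i).trans ?_)
  rw [Finset.sum_const, Finset.card_univ, Fintype.card_fin, nsmul_eq_mul]
  linarith

lemma sup_bdd {t : ℕ} {a : ℕ → ℂ} (ha : ∀ n, ‖a n‖ ≤ 1) (B : Set (Fin t → ℝ)) (n H : ℕ) :
    BddAbove (Set.range fun α : {α : Fin t → ℝ // α ∈ B} =>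
      ‖∑ h ∈ Icc 1 H, a (n + h) * ee (ph (α : Fin t → ℝ) (h : ℝ))‖) := by
  refine ⟨H, ?_⟩
  rintro _ ⟨α, rfl⟩
  refine (norm_sum_le _ _).trans ?_
  have h1 : ∀ h ∈ Icc 1 H, ‖a (n + h) * ee (ph (α : Fin t → ℝ) (h : ℝ))‖ ≤ 1 := by
    intro h _
    rw [norm_mul, norm_ee, mul_one]
    exact ha _
  refine (Finset.sum_le_sum h1).trans ?_
  simp

/-- The function `n ^ (i T)`. -/
noncomputable def arch (T : ℝ) (n : ℕ) : ℂ := Complex.exp ((T * Real.log n : ℝ) * Complex.I)

lemma norm_arch (T : ℝ) (n : ℕ) : ‖arch T n‖ = 1 := by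
  unfold arch
  exact Complex.norm_exp_ofReal_mul_I _

/-- The lower bound for one window. -/
lemma window_lower (h1 : N1_stmt) {t s : ℕ} (hs : 1 ≤ s) (hst : s ≤ t) {r : Fin t → ℝ}
    {ζ : Fin s → ℝ} {c : ℝ} (hc : 0 < c) {H : ℕ} (hH : 1 ≤ H)
    (hζ : c * H ≤ ‖∑ h ∈ Icc 1 H, ee (ph (glue s ζ r) (h : ℝ))‖)
    {n : ℕ} {T : ℝ} (hT : 0 ≤ T) (hn : 2 * H ≤ n)
    (herr : 2 * T * ((H : ℝ) / n) ^ (s + 1) ≤ c / 4)
    {y : Fin s → ℝ} (hy : ∀ i, |bt s n T i + y i - ζ i| ≤ c / (8 * Real.pi * s * (H : ℝ) ^ s)) :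
    c / 2 * H ≤ ‖∑ h ∈ Icc 1 H, arch T (n + h) * ee (ph (glue s y r) (h : ℝ))‖ := by
  have hH0 : (0 : ℝ) < H := by exact_mod_cast hH
  have hs0 : (0 : ℝ) < s := by exact_mod_cast hs
  have hpi := Real.pi_pos
  have hn0 : (0 : ℝ) < n := by
    have : 0 < n := by omega
    exact_mod_cast this
  set E := fun h : ℕ => arch T (n + h) * ee (ph (glue s y r) (h : ℝ)) -
    arch T n * ee (ph (glue s ζ r) (h : ℝ)) with hE
  have hEb : ∀ h ∈ Icc 1 H, ‖E h‖ ≤ c / 2 := by
    intro h hh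
    rw [Finset.mem_Icc] at hh
    have e1 := h1 s n h T hT hh.1 (by omega)
    have e2 : E h = (arch T (n + h) - arch T n * ee (ph (bt s n T) (h : ℝ))) *
        ee (ph (glue s y r) (h : ℝ)) + arch T n *
        (ee (ph (glue s (bt s n T + y) r) (h : ℝ)) - ee (ph (glue s ζ r) (h : ℝ))) := by
      have e3 : ph (glue s (bt s n T + y) r) (h : ℝ) =
          ph (bt s n T) (h : ℝ) + ph (glue s y r) (h : ℝ) := by
        rw [ph_glue hst, ph_glue hst y, ph_add]
        ring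
      rw [hE, e3, ee_add]
      ring
    rw [e2]
    refine (norm_add_le _ _).trans ?_
    rw [norm_mul, norm_mul, norm_ee, mul_one, norm_arch, one_mul]
    have e4 : ‖arch T (n + h) - arch T n * ee (ph (bt s n T) (h : ℝ))‖ ≤ c / 4 := by
      refine le_trans ?_ herr
      refine e1.trans ?_
      refine mul_le_mul_of_nonneg_left ?_ (by positivity)
      refine pow_le_pow_left₀ (by positivity) ?_ _
      refine div_le_div_of_nonneg_right ?_ hn0.le
      exact_mod_cast hh.2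
    have e5 : ‖ee (ph (glue s (bt s n T + y) r) (h : ℝ)) - ee (ph (glue s ζ r) (h : ℝ))‖ ≤
        c / 4 := by
      refine (norm_ee_sub_ee_le _ _).trans ?_
      rw [ph_glue hst (bt s n T + y), ph_glue hst ζ, add_sub_add_right_eq_sub]
      have e6 := ph_close (bt s n T + y) ζ (c / (8 * Real.pi * s * (H : ℝ) ^ s))
        (by positivity) hy hh.1 hh.2
      calc 2 * Real.pi * |ph (bt s n T + y) (h : ℝ) - ph ζ (h : ℝ)|
          ≤ 2 * Real.pi * (s * (c / (8 * Real.pi * s * (H : ℝ) ^ s)) * (H : ℝ) ^ s) :=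
            mul_le_mul_of_nonneg_left e6 (by positivity)
        _ = c / 4 := by field_simp; ring
    linarith
  have hsum : ∑ h ∈ Icc 1 H, arch T (n + h) * ee (ph (glue s y r) (h : ℝ)) =
      arch T n * (∑ h ∈ Icc 1 H, ee (ph (glue s ζ r) (h : ℝ))) + ∑ h ∈ Icc 1 H, E h := by
    rw [Finset.mul_sum, ← Finset.sum_add_distrib]
    refine Finset.sum_congr rfl fun h _ => ?_
    rw [hE]
    ring
  have hEs : ‖∑ h ∈ Icc 1 H, E h‖ ≤ c / 2 * H := by
    refine (norm_sum_le _ _).trans ((Finset.sum_le_sum hEb).trans ?_)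
    rw [Finset.sum_const, Nat.card_Icc, nsmul_eq_mul, Nat.add_sub_cancel, mul_comm]
  have hmain : c * H ≤ ‖arch T n * (∑ h ∈ Icc 1 H, ee (ph (glue s ζ r) (h : ℝ)))‖ := by
    rw [norm_mul, norm_arch, one_mul]
    exact hζ
  rw [hsum]
  have e7 := norm_sub_norm_le (arch T n * (∑ h ∈ Icc 1 H, ee (ph (glue s ζ r) (h : ℝ))))
    (-(∑ h ∈ Icc 1 H, E h))
  rw [norm_neg, sub_neg_eq_add] at e7
  linarith

open Classical in
lemma sum_lift (S : Finset ℕ) (p : ℝ → Prop) (f : ℝ → ℝ) :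
    ∑ x ∈ (do let a ← S
              pure (a : ℝ)) with p x, f x =
      ∑ n ∈ S.filter (fun n : ℕ => p (n : ℝ)), f (n : ℝ) := by
  have h1 : (do let a ← S
                pure (a : ℝ)) = S.image (fun n : ℕ => (n : ℝ)) := by
    ext x
    simp [Finset.bind_def, Finset.pure_def, eq_comm]
  rw [h1, Finset.filter_image, Finset.sum_image]
  intro a _ b _ h
  have h2 : (a : ℝ) = (b : ℝ) := h
  exact_mod_cast h2

theorem rowN6 (h1 : N1_stmt) (h2 : N2_stmt) (h3 : N3_stmt) (h5 : N5_stmt) : N6_stmt := by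
  classical
  intro t ht B hBc hBp hnull hctrl
  unfold NullSec at hnull
  push Not at hnull
  obtain ⟨s, hs1, hst, r, hvol⟩ := hnull
  set C : Set (Fin s → ℝ) := {y | glue s y (fun i => ((r i : ℚ) : ℝ)) ∈ B} with hC
  have hCc : IsClosed C := hBc.preimage (glue_continuous _)
  have hCp : Per C := by
    intro y hy z
    rw [hC, Set.mem_setOf_eq] at hy ⊢
    have h6 := hBp _ hy (fun i => if h : i.val < s then z ⟨i.val, h⟩ else 0)
    convert! h6 using 1
    ext i
    unfold glue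
    by_cases hi : i.val < s
    · simp [hi]
    · simp [hi]
  obtain ⟨w, hw, h3'⟩ := h3 s hs1 C hCc hCp hvol
  obtain ⟨ζ, c, hc, Hc, hζ⟩ := h2 t s hs1 hst r
  have hs0 : (0 : ℝ) < s := by exact_mod_cast hs1
  -- constants
  set ε : ℝ := c * w / (8 * (4 * s + 4)) with hε
  have hε0 : 0 < ε := by positivity
  obtain ⟨Q, hQ⟩ := hctrl ε hε0
  set Q' : ℕ := max Q 1 with hQ'
  have hQ'1 : 1 ≤ Q' := le_max_right _ _
  have hQQ' : Q ≤ Q' := le_max_left _ _
  obtain ⟨L, hL1, hL⟩ : ∃ L : ℕ, 1 ≤ L ∧ 4 * (Q' : ℝ) ^ 3 ≤ ε * Real.sqrt L := by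
    obtain ⟨L, hL⟩ := exists_nat_ge ((4 * (Q' : ℝ) ^ 3 / ε) ^ 2 + 1)
    refine ⟨L, ?_, ?_⟩
    · have : (1 : ℝ) ≤ L := by
        have := sq_nonneg (4 * (Q' : ℝ) ^ 3 / ε)
        linarith
      exact_mod_cast this
    · have h6 : 4 * (Q' : ℝ) ^ 3 / ε ≤ Real.sqrt L := by
        refine Real.le_sqrt_of_sq_le ?_
        linarith
      rw [div_le_iff₀ hε0] at h6
      linarith
  obtain ⟨H₀, hH₀⟩ := hQ L hL1
  set H : ℕ := max (max H₀ Hc) 1 with hH
  have hH1 : 1 ≤ H := le_max_right _ _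
  have hHH : H₀ ≤ H := (le_max_left _ _).trans (le_max_left _ _)
  have hHc : Hc ≤ H := (le_max_right _ _).trans (le_max_left _ _)
  have hH0 : (0 : ℝ) < H := by exact_mod_cast hH1
  set δ : ℝ := c / (8 * Real.pi * s * (H : ℝ) ^ s) with hδ
  have hδ0 : 0 < δ := by have := Real.pi_pos; positivity
  obtain ⟨m₁, hm₁⟩ := h3' ζ δ hδ0
  obtain ⟨m₂, hm₂⟩ := h5 s Q' L hs1 hQ'1 hL1
  obtain ⟨m₃, hm₃⟩ := exists_nat_ge (16 * (H : ℝ) / c)
  set m : ℕ := max (max (max m₁ m₂) (max m₃ (2 * H))) (max (H ^ Q) 2) with hm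
  have hmm₁ : m₁ ≤ m := le_trans (le_trans (le_max_left _ _) (le_max_left _ _)) (le_max_left _ _)
  have hmm₂ : m₂ ≤ m := le_trans (le_trans (le_max_right _ _) (le_max_left _ _)) (le_max_left _ _)
  have hmm₃ : m₃ ≤ m := le_trans (le_trans (le_max_left _ _) (le_max_right _ _)) (le_max_left _ _)
  have hm2H : 2 * H ≤ m :=
    le_trans (le_trans (le_max_right _ _) (le_max_right _ _)) (le_max_left _ _)
  have hmQ : H ^ Q ≤ m := le_trans (le_max_left _ _) (le_max_right _ _)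
  have hm2 : 2 ≤ m := le_trans (le_max_right _ _) (le_max_right _ _)
  clear_value m
  have hm0 : (0 : ℝ) < m := by
    have : 0 < m := by omega
    exact_mod_cast this
  have hmpos : 0 < m := by omega
  have hlogm : 0 < Real.log m := Real.log_pos (by exact_mod_cast (by omega : 1 < m))
  have hHQN : H ^ Q ≤ NN s m := by
    unfold NN
    refine hmQ.trans ?_
    calc m = m ^ 1 := (pow_one m).symm
      _ ≤ m ^ (4 * s + 4) := Nat.pow_le_pow_right hmpos (by omega)
  have hlogN : Real.log (NN s m) = (4 * s + 4) * Real.log m := by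
    unfold NN
    push_cast
    rw [Real.log_pow]
    push_cast
    ring
  have hTT0 : (0 : ℝ) < TT s m := by
    unfold TT
    exact_mod_cast pow_pos hmpos _
  have hL0 : (0 : ℝ) < L := by exact_mod_cast hL1
  have hsqL : Real.sqrt L * Real.sqrt L = L := Real.mul_self_sqrt hL0.le
  have hsqL0 : 0 < Real.sqrt L := Real.sqrt_pos.2 hL0
  -- the lower bound for one `T`
  have hlow : ∀ T ∈ Ico (TT s m) (2 * TT s m),
      c / 2 * H * (∑ n ∈ (Icc (m ^ (4 * s + 3)) (NN s m)).filter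
        (fun n : ℕ => ∃ y ∈ C, ∀ i, |bt s (n : ℝ) T i + y i - ζ i| ≤ δ), (1 / (n : ℝ))) ≤
      SA (arch T) B (NN s m) H := by
    intro T hT
    rw [Finset.mem_Ico] at hT
    unfold SA
    rw [Finset.mul_sum]
    have hsub : (Icc (m ^ (4 * s + 3)) (NN s m)).filter
        (fun n : ℕ => ∃ y ∈ C, ∀ i, |bt s n T i + y i - ζ i| ≤ δ) ⊆ Icc 1 (NN s m) := by
      intro n hn
      rw [Finset.mem_filter, Finset.mem_Icc] at hn
      rw [Finset.mem_Icc]
      exact ⟨le_trans (Nat.one_le_pow _ _ hmpos) hn.1.1, hn.1.2⟩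
    have hBB := Finset.sum_le_sum_of_subset_of_nonneg (f := fun n : ℕ => (1 / (n : ℝ)) *
      ⨆ α : {α : Fin t → ℝ // α ∈ B},
        ‖∑ h ∈ Icc 1 H, arch T (n + h) * ee (ph (α : Fin t → ℝ) (h : ℝ))‖) hsub
      (fun n _ _ => mul_nonneg (by positivity) (Real.iSup_nonneg fun _ => norm_nonneg _))
    have hkey : ∀ n ∈ (Icc (m ^ (4 * s + 3)) (NN s m)).filter
        (fun n : ℕ => ∃ y ∈ C, ∀ i, |bt s n T i + y i - ζ i| ≤ δ),
        c / 2 * H * (1 / (n : ℝ)) ≤ (1 / (n : ℝ)) * ⨆ α : {α : Fin t → ℝ // α ∈ B},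
          ‖∑ h ∈ Icc 1 H, arch T (n + h) * ee (ph (α : Fin t → ℝ) (h : ℝ))‖ := by
      intro n hn
      rw [Finset.mem_filter, Finset.mem_Icc] at hn
      obtain ⟨⟨hn1, hn2⟩, y, hyC, hy⟩ := hn
      have hmn : m ≤ n := by
        refine le_trans ?_ hn1
        calc m = m ^ 1 := (pow_one m).symm
          _ ≤ m ^ (4 * s + 3) := Nat.pow_le_pow_right hmpos (by omega)
      have hn0 : (0 : ℝ) < n := by
        have : 0 < n := by omega
        exact_mod_cast this
      have herr : 2 * (T : ℝ) * ((H : ℝ) / n) ^ (s + 1) ≤ c / 4 := by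
        have e1 : ((H : ℝ) / n) ^ (s + 1) ≤ ((H : ℝ) / (m : ℝ) ^ (4 * s + 3)) ^ (s + 1) := by
          refine pow_le_pow_left₀ (by positivity) ?_ _
          refine div_le_div_of_nonneg_left hH0.le (by positivity) ?_
          exact_mod_cast hn1
        have e2 : (T : ℝ) ≤ 2 * TT s m := by exact_mod_cast hT.2.le
        have e3 : ((TT s m : ℕ) : ℝ) * (m : ℝ) ^ (s + 1) = ((m : ℝ) ^ (4 * s + 3)) ^ (s + 1) := by
          unfold TT
          push_cast
          rw [← pow_add, ← pow_mul]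
          congr 1
          ring
        have e4 : ((H : ℝ) / m) ≤ c / 16 := by
          have : 16 * (H : ℝ) / c ≤ m := hm₃.trans (by exact_mod_cast hmm₃)
          rw [div_le_iff₀ hc] at this
          rw [div_le_iff₀ hm0]
          linarith
        have e5 : (H : ℝ) / m ≤ 1 := by
          rw [div_le_one hm0]
          have : (2 : ℝ) * H ≤ m := by exact_mod_cast hm2H
          linarith
        have e6 : ((H : ℝ) / m) ^ (s + 1) ≤ c / 16 := by
          refine le_trans ?_ e4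
          calc ((H : ℝ) / m) ^ (s + 1) ≤ ((H : ℝ) / m) ^ 1 :=
                pow_le_pow_of_le_one (by positivity) e5 (by omega)
            _ = (H : ℝ) / m := pow_one _
        have e7 : (2 * (TT s m : ℝ)) * ((H : ℝ) / (m : ℝ) ^ (4 * s + 3)) ^ (s + 1) =
            2 * ((H : ℝ) / m) ^ (s + 1) := by
          rw [div_pow, div_pow, ← e3]
          field_simp
        calc 2 * (T : ℝ) * ((H : ℝ) / n) ^ (s + 1)
            ≤ 2 * (2 * TT s m) * ((H : ℝ) / (m : ℝ) ^ (4 * s + 3)) ^ (s + 1) := by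
              refine mul_le_mul (by linarith) e1 (by positivity) (by positivity)
          _ = 2 * ((2 * (TT s m : ℝ)) * ((H : ℝ) / (m : ℝ) ^ (4 * s + 3)) ^ (s + 1)) := by ring
          _ = 2 * (2 * ((H : ℝ) / m) ^ (s + 1)) := by rw [e7]
          _ ≤ c / 4 := by linarith
      have hwin := window_lower h1 hs1 hst hc hH1 (hζ H hHc) (n := n) (T := (T : ℝ))
        (Nat.cast_nonneg T) (by omega) herr (y := y) hy
      have hsup : c / 2 * H ≤ ⨆ α : {α : Fin t → ℝ // α ∈ B},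
          ‖∑ h ∈ Icc 1 H, arch T (n + h) * ee (ph (α : Fin t → ℝ) (h : ℝ))‖ := by
        refine hwin.trans ?_
        exact le_ciSup (sup_bdd (fun n => (norm_arch T n).le) B n H)
          (⟨glue s y (fun i => ((r i : ℚ) : ℝ)), hyC⟩ : {α : Fin t → ℝ // α ∈ B})
      calc c / 2 * H * (1 / (n : ℝ)) = (1 / (n : ℝ)) * (c / 2 * H) := by ring
        _ ≤ _ := mul_le_mul_of_nonneg_left hsup (by positivity)
    exact (Finset.sum_le_sum hkey).trans hBB
  -- the upper bound for one `T`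
  have hup : ∀ T ∈ Ico (TT s m) (2 * TT s m), SA (arch T) B (NN s m) H ≤
      (ε * Real.log (NN s m) + Q' * AP Q' L (NN s m) (arch T) / L) * H := by
    intro T _
    have e1 := hH₀ H (NN s m) hHH hHQN (arch T) ⟨T, fun n => rfl⟩
    refine e1.trans (mul_le_mul_of_nonneg_right ?_ hH0.le)
    have e2 : AP Q L (NN s m) (arch T) ≤ AP Q' L (NN s m) (arch T) := by
      unfold AP
      refine Finset.sum_le_sum fun n _ => mul_le_mul_of_nonneg_left ?_ (by positivity)
      refine Finset.sum_le_sum_of_subset_of_nonneg (Finset.Icc_subset_Icc_right hQQ')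
        fun q _ _ => Finset.sum_nonneg fun b _ => norm_nonneg _
    have e3 : 0 ≤ AP Q L (NN s m) (arch T) := by
      unfold AP
      exact Finset.sum_nonneg fun n _ => mul_nonneg (by positivity)
        (Finset.sum_nonneg fun q _ => Finset.sum_nonneg fun b _ => norm_nonneg _)
    have e4 : (Q : ℝ) ≤ Q' := by exact_mod_cast hQQ'
    have e5 : (Q : ℝ) * AP Q L (NN s m) (arch T) ≤ Q' * AP Q' L (NN s m) (arch T) :=
      mul_le_mul e4 e2 e3 (by positivity)
    have e6 := div_le_div_of_nonneg_right e5 hL0.le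
    linarith
  have hsumlow := Finset.sum_le_sum hlow
  have hsumup := Finset.sum_le_sum hup
  rw [← Finset.mul_sum] at hsumlow
  rw [← Finset.sum_mul, Finset.sum_add_distrib, Finset.sum_const, Nat.card_Ico,
    nsmul_eq_mul, ← Finset.sum_div, ← Finset.mul_sum] at hsumup
  have hcard : ((2 * TT s m - TT s m : ℕ) : ℝ) = TT s m := by
    congr 1
    omega
  rw [hcard] at hsumup
  have e1 : w * TT s m * Real.log m ≤ ∑ T ∈ Ico (TT s m) (2 * TT s m),
      ∑ n ∈ (Icc (m ^ (4 * s + 3)) (NN s m)).filter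
        (fun n : ℕ => ∃ y ∈ C, ∀ i, |bt s (n : ℝ) T i + y i - ζ i| ≤ δ), (1 / (n : ℝ)) :=
    (hm₁ m hmm₁).trans_eq (Finset.sum_congr rfl fun T _ =>
      sum_lift _ (fun x : ℝ => ∃ y ∈ C, ∀ i, |bt s x T i + y i - ζ i| ≤ δ) (fun x => 1 / x))
  have e2 := hm₂ m hmm₂
  have e3 : c / 2 * H * (w * TT s m * Real.log m) ≤
      (TT s m * (ε * Real.log (NN s m)) + Q' * (4 * Q' ^ 2 * Real.sqrt L *
        Real.log (NN s m) * TT s m) / L) * H := by
    refine (mul_le_mul_of_nonneg_left e1 (by positivity)).trans (hsumlow.trans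
      (hsumup.trans (mul_le_mul_of_nonneg_right ?_ hH0.le)))
    have e4 := div_le_div_of_nonneg_right (mul_le_mul_of_nonneg_left e2
      (Nat.cast_nonneg Q' : (0 : ℝ) ≤ Q')) hL0.le
    exact add_le_add le_rfl e4
  have e4 : (Q' : ℝ) * (4 * Q' ^ 2 * Real.sqrt L * Real.log (NN s m) * TT s m) / L ≤
      ε * Real.log (NN s m) * TT s m := by
    have hlN : 0 ≤ Real.log (NN s m) := by rw [hlogN]; positivity
    rw [div_le_iff₀ hL0]
    have e5 : (Q' : ℝ) * (4 * Q' ^ 2 * Real.sqrt L * Real.log (NN s m) * TT s m) =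
        (4 * (Q' : ℝ) ^ 3) * (Real.sqrt L * (Real.log (NN s m) * TT s m)) := by ring
    have e6 : ε * Real.log (NN s m) * TT s m * L =
        (ε * Real.sqrt L) * (Real.sqrt L * (Real.log (NN s m) * TT s m)) := by
      have e7 : ε * Real.log (NN s m) * TT s m * (Real.sqrt L * Real.sqrt L) =
          (ε * Real.sqrt L) * (Real.sqrt L * (Real.log (NN s m) * TT s m)) := by ring
      rw [hsqL] at e7
      exact e7
    rw [e5, e6]
    exact mul_le_mul_of_nonneg_right hL (by positivity)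
  have e5 : c / 2 * H * (w * TT s m * Real.log m) ≤
      (2 * ε * Real.log (NN s m) * TT s m) * H := by
    refine e3.trans (mul_le_mul_of_nonneg_right ?_ hH0.le)
    linarith
  rw [hlogN, hε] at e5
  have e6 : 2 * (c * w / (8 * (4 * (s : ℝ) + 4))) * ((4 * s + 4) * Real.log m) * TT s m * H =
      c * w * (TT s m * Real.log m * H) / 4 := by
    field_simp
    ring
  rw [e6] at e5
  have e7 : c / 2 * H * (w * TT s m * Real.log m) = c * w * (TT s m * Real.log m * H) / 2 := by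
    ring
  rw [e7] at e5
  have e8 : 0 < c * w * (TT s m * Real.log m * H) := by positivity
  linarith

end Pool.Agent.UD
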