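import Mathlib
import Pool.Agent.Lib.UD95.Defs2
import Pool.Agent.Lib.UD95.N6

/-!
# Complexity of sets of polynomial phases (MP_663568_nt): individual multiplicative functions

If a rational section of dimension greater than `σ` is not a null set, there are ONE completely
multiplicative function `a` with `|a(n)| = 1` and `M_j → ∞` such that all the averages of degree at
most `σ` of `a` vanish along `M_j` and the average for `B` does not.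

Idea.  `a(p) = p ^ (i T_j)` for the primes between `M_(j-1)` and `M_j`, where `T_j` is good (row Sel,
as in N8) and `p ^ (i T_j)` is near `a(p)` for the primes up to `M_(j-1)` (row K, Kronecker, relatively
dense: a bounded change of `T` does not change the windows, row Lift).
-/

set_option autoImplicit false
open Finset Polynomial MeasureTheory

namespace Pool.Agent.UD

open Pool.Agent.Lib.MP_663568_nt Pool.Agent.Lib.MP_663568_nt.Katai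
  Pool.Agent.Lib.MP_663568_nt.Nul Pool.Agent.TU

/-- The averages of degree at most `σ` of `a` vanish along `M`. -/
def Vanishing (σ : ℕ) (a : ℕ → ℂ) (M : ℕ → ℕ) : Prop :=
  ∀ Q : ℕ, ∀ ε : ℝ, 0 < ε → ∃ L : ℕ, 1 ≤ L ∧ ∀ᶠ j in Filter.atTop,
    UU σ Q L (M j) a ≤ ε * L * Real.log (M j)

/-- The average for `B` is small along `M`. -/
def Unif {t : ℕ} (a : ℕ → ℂ) (B : Set (Fin t → ℝ)) (M : ℕ → ℕ) : Prop :=
  ∀ ε : ℝ, 0 < ε → ∃ H₀ : ℕ, ∀ H : ℕ, H₀ ≤ H → ∀ᶠ j in Filter.atTop,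
    SA a B (M j) H ≤ ε * H * Real.log (M j)

/-- The completely multiplicative functions with values of modulus one. -/
def CMul : Set (ℕ → ℂ) :=
  {a | a 0 = 0 ∧ (∀ m n : ℕ, a (m * n) = a m * a n) ∧ ∀ n : ℕ, n ≠ 0 → ‖a n‖ = 1}

/-- Row K (Kronecker): `(p ^ (i T))_(p ≤ M)` comes near every point, in every interval of length
`R`. -/
def K_stmt : Prop := ∀ (M : ℕ) (z : ℕ → ℂ), (∀ p, ‖z p‖ = 1) → ∀ δ : ℝ, 0 < δ →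
  ∃ R : ℝ, 0 < R ∧ ∀ T₀ : ℝ, ∃ T : ℝ, T₀ ≤ T ∧ T ≤ T₀ + R ∧
    ∀ p : ℕ, p ≤ M → p.Prime → ‖z p - arch T p‖ ≤ δ

/-- Row Cmp: comparison of two functions, up to a rotation of every window. -/
def Cmp_stmt : Prop := ∀ (N H : ℕ) (a a' u : ℕ → ℂ) (E : ℕ → ℝ), (∀ n, ‖u n‖ = 1) →
  (∀ n, ‖a n‖ ≤ 1) → (∀ n, ‖a' n‖ ≤ 1) →
  (∀ n ∈ Icc 1 N, ∑ h ∈ Icc 1 H, ‖a' (n + h) - u n * a (n + h)‖ ≤ E n) →
  (∀ (t : ℕ) (B : Set (Fin t → ℝ)), SA a B N H ≤ SA a' B N H + ∑ n ∈ Icc 1 N, (1 / (n : ℝ)) * E n) ∧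
  ∀ σ Q : ℕ, UU σ Q H N a' ≤ UU σ Q H N a + Q * ∑ n ∈ Icc 1 N, (1 / (n : ℝ)) * E n

/-- Row Sel: a good `T` (averages over integers `T`, as in N8). -/
def Sel_stmt : Prop := ∀ t : ℕ, 1 ≤ t → ∀ σ : ℕ, ∀ B : Set (Fin t → ℝ), IsClosed B → Per B →
  ¬ NullAbove σ B → ∃ c : ℝ, 0 < c ∧ ∃ H₁ : ℕ, ∃ Lf : ℕ → ℕ, (∀ i, 1 ≤ Lf i) ∧
  ∀ J N₀ : ℕ, ∃ N : ℕ, N₀ ≤ N ∧ ∃ T : ℝ,
    (∀ H : ℕ, H₁ ≤ H → H ≤ J → c * H * Real.log N ≤ SA (arch T) B N H) ∧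
    ∀ i : ℕ, i ≤ J → UU σ i (Lf i) N (arch T) ≤ 1 / ((i : ℝ) + 1) * Lf i * Real.log N

/-- Row Lift: a good `T` with prescribed values at the small primes. -/
def Lift_stmt : Prop := ∀ t : ℕ, 1 ≤ t → ∀ σ : ℕ, ∀ B : Set (Fin t → ℝ), IsClosed B → Per B →
  ¬ NullAbove σ B → ∃ c : ℝ, 0 < c ∧ ∃ H₁ : ℕ, ∃ Lf : ℕ → ℕ, (∀ i, 1 ≤ Lf i) ∧
  ∀ (J M : ℕ) (z : ℕ → ℂ), (∀ p, ‖z p‖ = 1) → ∀ δ : ℝ, 0 < δ → ∀ N₀ : ℕ,
  ∃ N : ℕ, N₀ ≤ N ∧ ∃ T : ℝ, (∀ p : ℕ, p ≤ M → p.Prime → ‖z p - arch T p‖ ≤ δ) ∧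
    (∀ H : ℕ, H₁ ≤ H → H ≤ J → c * H * Real.log N ≤ SA (arch T) B N H) ∧
    ∀ i : ℕ, i ≤ J → UU σ i (Lf i) N (arch T) ≤ 2 / ((i : ℝ) + 1) * Lf i * Real.log N

/-- Row Glue: one function. -/
def Glue_stmt : Prop := ∀ t : ℕ, 1 ≤ t → ∀ σ : ℕ, ∀ B : Set (Fin t → ℝ), IsClosed B → Per B →
  ¬ NullAbove σ B → ∃ a ∈ CMul, ∃ M : ℕ → ℕ, Filter.Tendsto M Filter.atTop Filter.atTop ∧
    Vanishing σ a M ∧ ¬ Unif a B M

end Pool.Agent.UD
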