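import Mathlib
import Pool.Agent.Lib.UD95.Defs

/-!
# Universal dichotomy (MP_663568_nt), row FIN: arbitrary sets of phases and the equivalence
-/

set_option autoImplicit false
open Finset Polynomial MeasureTheory

namespace Pool.Agent.UD

open Pool.Agent.Lib.MP_663568_nt Pool.Agent.Lib.MP_663568_nt.Katai
  Pool.Agent.Lib.MP_663568_nt.Nul Pool.Agent.TU

/-- The closure of `B + ℤ^t`. -/
def Hull {t : ℕ} (B : Set (Fin t → ℝ)) : Set (Fin t → ℝ) :=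
  closure {α | ∃ β ∈ B, ∃ z : Fin t → ℤ, ∀ i, α i = β i + (z i : ℝ)}

lemma subset_Hull {t : ℕ} (B : Set (Fin t → ℝ)) : B ⊆ Hull B :=
  fun β hβ => subset_closure ⟨β, hβ, 0, fun i => by simp⟩

lemma isClosed_Hull {t : ℕ} (B : Set (Fin t → ℝ)) : IsClosed (Hull B) := isClosed_closure

lemma per_Hull {t : ℕ} (B : Set (Fin t → ℝ)) : Per (Hull B) := by
  intro α hα z
  have hc : Continuous fun x : Fin t → ℝ => fun i => x i + (z i : ℝ) := by fun_prop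
  refine map_mem_closure hc hα ?_
  rintro x ⟨β, hβ, w, hx⟩
  refine ⟨β, hβ, w + z, fun i => ?_⟩
  simp only [hx i, Pi.add_apply]
  push_cast
  ring

/-- One window. -/
noncomputable def WS (a : ℕ → ℂ) {t : ℕ} (n H : ℕ) (α : Fin t → ℝ) : ℝ :=
  ‖∑ h ∈ Icc 1 H, a (n + h) * ee (ph α (h : ℝ))‖

lemma continuous_WS (a : ℕ → ℂ) {t : ℕ} (n H : ℕ) : Continuous (WS a (t := t) n H) := by
  unfold WS ee ph
  fun_prop

lemma ee_int (z : ℤ) : ee (z : ℝ) = 1 := by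
  rw [ee]
  have : 2 * (Real.pi : ℂ) * Complex.I * ((z : ℝ) : ℂ) = z * (2 * Real.pi * Complex.I) := by
    push_cast; ring
  rw [this, Complex.exp_int_mul_two_pi_mul_I]

lemma WS_shift (a : ℕ → ℂ) {t : ℕ} (n H : ℕ) (α β : Fin t → ℝ) (z : Fin t → ℤ)
    (h : ∀ i, α i = β i + (z i : ℝ)) : WS a n H α = WS a n H β := by
  unfold WS
  congr 1
  refine sum_congr rfl fun k _ => ?_
  have h1 : ph α (k : ℝ) = ph β (k : ℝ) + ((∑ i : Fin t, z i * (k : ℤ) ^ (i.val + 1) : ℤ) : ℝ) := by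
    unfold ph
    push_cast
    rw [← sum_add_distrib]
    refine sum_congr rfl fun i _ => ?_
    rw [h i]; ring
  rw [h1, ee_add, ee_int, mul_one]

lemma bdd_WS (a : ℕ → ℂ) {t : ℕ} (n H : ℕ) (B : Set (Fin t → ℝ)) :
    BddAbove (Set.range fun α : {α : Fin t → ℝ // α ∈ B} => WS a n H (α : Fin t → ℝ)) := by
  refine ⟨∑ h ∈ Icc 1 H, ‖a (n + h)‖, ?_⟩
  rintro _ ⟨α, rfl⟩
  refine (norm_sum_le _ _).trans (le_of_eq ?_)
  refine sum_congr rfl fun h _ => ?_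
  rw [norm_mul, norm_ee, mul_one]

lemma iSup_Hull (a : ℕ → ℂ) {t : ℕ} (n H : ℕ) (B : Set (Fin t → ℝ)) :
    ⨆ α : {α : Fin t → ℝ // α ∈ Hull B}, WS a n H (α : Fin t → ℝ) =
      ⨆ α : {α : Fin t → ℝ // α ∈ B}, WS a n H (α : Fin t → ℝ) := by
  have hnn : ∀ α : Fin t → ℝ, 0 ≤ WS a n H α := fun α => norm_nonneg _
  apply le_antisymm
  · refine Real.iSup_le (fun α => ?_) (Real.iSup_nonneg fun _ => hnn _)
    have hcl : IsClosed {x : Fin t → ℝ | WS a n H x ≤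
        ⨆ α : {α : Fin t → ℝ // α ∈ B}, WS a n H (α : Fin t → ℝ)} :=
      isClosed_le (continuous_WS a n H) continuous_const
    refine (closure_minimal ?_ hcl) α.2
    rintro x ⟨β, hβ, z, hx⟩
    rw [Set.mem_setOf_eq, WS_shift a n H x β z hx]
    exact le_ciSup (bdd_WS a n H B) ⟨β, hβ⟩
  · refine Real.iSup_le (fun α => ?_) (Real.iSup_nonneg fun _ => hnn _)
    exact le_ciSup (bdd_WS a n H (Hull B)) ⟨α.1, subset_Hull B α.2⟩

lemma SA_Hull (a : ℕ → ℂ) {t : ℕ} (B : Set (Fin t → ℝ)) (N H : ℕ) :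
    SA a (Hull B) N H = SA a B N H := by
  unfold SA
  refine sum_congr rfl fun n _ => ?_
  congr 1
  exact iSup_Hull a n H B

lemma Ctrl_Hull (𝒞 : Set (ℕ → ℂ)) {t : ℕ} (B : Set (Fin t → ℝ)) :
    Ctrl 𝒞 (Hull B) ↔ Ctrl 𝒞 B := by
  unfold Ctrl
  simp only [SA_Hull]

lemma Ctrl_mono {𝒞 𝒞' : Set (ℕ → ℂ)} (h : 𝒞 ⊆ 𝒞') {t : ℕ} {B : Set (Fin t → ℝ)}
    (hB : Ctrl 𝒞' B) : Ctrl 𝒞 B := by
  intro ε hε
  obtain ⟨C, hC⟩ := hB ε hε
  refine ⟨C, fun L hL => ?_⟩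
  obtain ⟨H₀, hH₀⟩ := hC L hL
  exact ⟨H₀, fun H N h1 h2 a ha => hH₀ H N h1 h2 a (h ha)⟩

lemma Arch_subset : Arch ⊆ Mult := by
  rintro a ⟨T, ha⟩
  refine ⟨fun n => ?_, fun p k hp hpk => ?_⟩
  · rw [ha, Complex.norm_exp_ofReal_mul_I]
  · have hk : k ≠ 0 := by
      rintro rfl
      exact hpk (dvd_zero p)
    rw [ha, ha, ha, ← Complex.exp_add, Nat.cast_mul,
      Real.log_mul (by exact_mod_cast hp.ne_zero) (by exact_mod_cast hk)]
    congr 1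
    push_cast
    ring

/-- **The equivalence.** -/
theorem fin (hP : P_stmt) (hN : N6_stmt) {t : ℕ} (ht : 1 ≤ t) (B : Set (Fin t → ℝ)) :
    List.TFAE [∀ s : ℕ, 1 ≤ s → s ≤ t → ∀ r : Fin t → ℚ,
      volume {y : Fin s → ℝ | glue s y (fun i => ((r i : ℚ) : ℝ)) ∈ Hull B} = 0,
      Ctrl Mult B, Ctrl Arch B] := by
  tfae_have 1 → 2 := fun h =>
    (Ctrl_Hull Mult B).1 (hP t ht (Hull B) (isClosed_Hull B) (per_Hull B) h)
  tfae_have 2 → 3 := Ctrl_mono Arch_subset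
  tfae_have 3 → 1 := by
    intro h
    by_contra hcon
    exact hN t ht (Hull B) (isClosed_Hull B) (per_Hull B) hcon ((Ctrl_Hull Arch B).2 h)
  tfae_finish

end Pool.Agent.UD
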