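import Mathlib
import Pool.Agent.Lib.UD95.Fin
import Pool.Agent.Lib.UD95.Defs2

/-!
# Complexity of sets of phases (MP_663568_nt), row FIN2: arbitrary sets and the equivalence
-/

set_option autoImplicit false
open Finset Polynomial MeasureTheory

namespace Pool.Agent.UD

open Pool.Agent.Lib.MP_663568_nt Pool.Agent.Lib.MP_663568_nt.Katai
  Pool.Agent.Lib.MP_663568_nt.Nul Pool.Agent.TU

lemma CtrlS_Hull (σ : ℕ) (𝒞 : Set (ℕ → ℂ)) {t : ℕ} (B : Set (Fin t → ℝ)) :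
    CtrlS σ 𝒞 (Hull B) ↔ CtrlS σ 𝒞 B := by
  unfold CtrlS
  simp only [SA_Hull]

lemma CtrlS_mono (σ : ℕ) {𝒞 𝒞' : Set (ℕ → ℂ)} (h : 𝒞 ⊆ 𝒞') {t : ℕ} {B : Set (Fin t → ℝ)}
    (hB : CtrlS σ 𝒞' B) : CtrlS σ 𝒞 B := by
  intro ε hε
  obtain ⟨C, hC⟩ := hB ε hε
  refine ⟨C, fun L hL => ?_⟩
  obtain ⟨H₀, hH₀⟩ := hC L hL
  exact ⟨H₀, fun H N h1 h2 a ha => hH₀ H N h1 h2 a (h ha)⟩

/-- **The equivalence, every degree.** -/
theorem fin2 (hP : P2_stmt) (hN : N8_stmt) {t σ : ℕ} (ht : 1 ≤ t) (hσ : σ ≤ t)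
    (B : Set (Fin t → ℝ)) :
    List.TFAE [NullAbove σ (Hull B), CtrlS σ Mult B, CtrlS σ Arch B] := by
  tfae_have 1 → 2 := fun h =>
    (CtrlS_Hull σ Mult B).1 (hP t ht σ hσ (Hull B) (isClosed_Hull B) (per_Hull B) h)
  tfae_have 2 → 3 := CtrlS_mono σ Arch_subset
  tfae_have 3 → 1 := by
    intro h
    by_contra hcon
    exact hN t ht σ (Hull B) (isClosed_Hull B) (per_Hull B) hcon ((CtrlS_Hull σ Arch B).2 h)
  tfae_finish

end Pool.Agent.UD
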