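import Mathlib
import Pool.Agent.Lib.UD95.Defs

/-!
# Universal dichotomy (MP_663568_nt): elementary facts about the averages over progressions
-/

set_option autoImplicit false
open Finset

namespace Pool.Agent.UD

/-- The inner sum of `AP`. -/
noncomputable def V (Q L : ℕ) (a : ℕ → ℂ) (n : ℕ) : ℝ :=
  ∑ q ∈ Icc 1 Q, ∑ b ∈ range q, ‖∑ h ∈ Icc 1 L with (n + h) % q = b, a (n + h)‖

lemma V_nonneg (Q L : ℕ) (a : ℕ → ℂ) (n : ℕ) : 0 ≤ V Q L a n :=
  sum_nonneg fun _ _ => sum_nonneg fun _ _ => norm_nonneg _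

lemma V_mono {Q Q' : ℕ} (h : Q ≤ Q') (L : ℕ) (a : ℕ → ℂ) (n : ℕ) : V Q L a n ≤ V Q' L a n :=
  sum_le_sum_of_subset_of_nonneg (Icc_subset_Icc le_rfl h)
    fun _ _ _ => sum_nonneg fun _ _ => norm_nonneg _

lemma V_le (Q L : ℕ) {a : ℕ → ℂ} (ha : ∀ n, ‖a n‖ ≤ 1) (n : ℕ) : V Q L a n ≤ Q * L := by
  unfold V
  have h1 : ∀ q ∈ Icc 1 Q, ∑ b ∈ range q, ‖∑ h ∈ Icc 1 L with (n + h) % q = b, a (n + h)‖ ≤ L := by
    intro q hq
    have hq1 : 1 ≤ q := (mem_Icc.1 hq).1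
    calc ∑ b ∈ range q, ‖∑ h ∈ Icc 1 L with (n + h) % q = b, a (n + h)‖
        ≤ ∑ b ∈ range q, ((#{h ∈ Icc 1 L | (n + h) % q = b} : ℕ) : ℝ) := by
          refine sum_le_sum fun b _ => ?_
          refine (norm_sum_le _ _).trans ?_
          refine (sum_le_card_nsmul _ _ 1 fun h _ => ha _).trans ?_
          simp
      _ = L := by
          rw [← Nat.cast_sum, ← card_eq_sum_card_fiberwise (f := fun h => (n + h) % q)
            (fun h _ => by
              rw [Finset.mem_coe, mem_range]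
              exact Nat.mod_lt _ (by omega))]
          simp
  refine (sum_le_sum h1).trans ?_
  simp

lemma AP_eq (Q L N : ℕ) (a : ℕ → ℂ) : AP Q L N a = ∑ n ∈ Icc 1 N, (1 / (n : ℝ)) * V Q L a n := rfl

lemma AP_nonneg (Q L N : ℕ) (a : ℕ → ℂ) : 0 ≤ AP Q L N a := by
  rw [AP_eq]
  exact sum_nonneg fun n _ => mul_nonneg (by positivity) (V_nonneg _ _ _ _)

lemma AP_mono {Q Q' : ℕ} (h : Q ≤ Q') (L N : ℕ) (a : ℕ → ℂ) : AP Q L N a ≤ AP Q' L N a := by
  rw [AP_eq, AP_eq]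
  exact sum_le_sum fun n _ => mul_le_mul_of_nonneg_left (V_mono h L a n) (by positivity)

lemma AP_double (Q L N : ℕ) {a : ℕ → ℂ} (ha : ∀ n, ‖a n‖ ≤ 1) :
    AP Q L (2 * N) a ≤ AP Q L N a + Q * L := by
  rcases Nat.eq_zero_or_pos N with rfl | hN
  · simp only [mul_zero]
    have : (0 : ℝ) ≤ Q * L := by positivity
    linarith
  have hN0 : (0 : ℝ) < N := by exact_mod_cast hN
  rw [AP_eq, AP_eq]
  have h1 : Icc 1 (2 * N) = Icc 1 N ∪ Ioc N (2 * N) := by
    ext x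
    simp only [mem_Icc, mem_union, mem_Ioc]
    omega
  have h2 : Disjoint (Icc 1 N) (Ioc N (2 * N)) := by
    rw [disjoint_left]
    intro x hx hx'
    rw [mem_Icc] at hx
    rw [mem_Ioc] at hx'
    omega
  rw [h1, sum_union h2]
  have h3 : ∑ n ∈ Ioc N (2 * N), (1 / (n : ℝ)) * V Q L a n ≤ Q * L := by
    calc ∑ n ∈ Ioc N (2 * N), (1 / (n : ℝ)) * V Q L a n
        ≤ ∑ n ∈ Ioc N (2 * N), (1 / (N : ℝ)) * (Q * L) := by
          refine sum_le_sum fun n hn => ?_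
          rw [mem_Ioc] at hn
          have : (N : ℝ) ≤ n := by exact_mod_cast hn.1.le
          have h4 := V_le Q L ha n
          have h5 := V_nonneg Q L a n
          gcongr
      _ = Q * L := by
          rw [sum_const, Nat.card_Ioc, nsmul_eq_mul]
          have : 2 * N - N = N := by omega
          rw [this]
          field_simp
  linarith

/-- Combination of two error terms. -/
lemma AP_comb {C₁ C₂ C : ℕ} {x₁ : ℝ} (hx₁ : 0 ≤ x₁) (h1 : C₁ ≤ C) (h2 : C₂ ≤ C)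
    (h3 : x₁ + C₂ ≤ C) (L N : ℕ) (a : ℕ → ℂ) :
    x₁ * AP C₁ L N a / L + C₂ * AP C₂ L N a / L ≤ C * AP C L N a / L := by
  have hL : (0 : ℝ) ≤ L := Nat.cast_nonneg _
  rw [← add_div]
  apply div_le_div_of_nonneg_right _ hL
  have e1 := AP_mono h1 L N a
  have e2 := AP_mono h2 L N a
  have e3 := AP_nonneg C L N a
  calc x₁ * AP C₁ L N a + C₂ * AP C₂ L N a ≤ x₁ * AP C L N a + C₂ * AP C L N a := by gcongr
    _ = (x₁ + C₂) * AP C L N a := by ring
    _ ≤ C * AP C L N a := by gcongr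

end Pool.Agent.UD
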