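import Mathlib
import Pool.Agent.Lib.UD95.Defs2
import Pool.Agent.Lib.UD95.AP

/-!
# Complexity of sets of phases (MP_663568_nt): elementary facts about the averages `UU`
-/

set_option autoImplicit false
open Finset Polynomial

namespace Pool.Agent.UD

open Pool.Agent.Lib.MP_663568_nt Pool.Agent.Lib.MP_663568_nt.Katai
  Pool.Agent.Lib.MP_663568_nt.Nul Pool.Agent.TU

/-- The number of integers of a class bounds the sum. -/
lemma norm_class_le {a : ℕ → ℂ} (ha : ∀ n, ‖a n‖ ≤ 1) {σ : ℕ} (L n q b : ℕ) (α : Fin σ → ℝ) :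
    ‖∑ h ∈ Icc 1 L with (n + h) % q = b, a (n + h) * ee (ph α (h : ℝ))‖ ≤
      ((#{h ∈ Icc 1 L | (n + h) % q = b} : ℕ) : ℝ) := by
  refine (norm_sum_le _ _).trans ?_
  refine (sum_le_card_nsmul _ _ 1 fun h _ => ?_).trans (by simp)
  rw [norm_mul, norm_ee, mul_one]
  exact ha _

lemma bdd_class {a : ℕ → ℂ} (ha : ∀ n, ‖a n‖ ≤ 1) (σ L n q b : ℕ) :
    BddAbove (Set.range fun α : Fin σ → ℝ =>
      ‖∑ h ∈ Icc 1 L with (n + h) % q = b, a (n + h) * ee (ph α (h : ℝ))‖) := by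
  refine ⟨((#{h ∈ Icc 1 L | (n + h) % q = b} : ℕ) : ℝ), ?_⟩
  rintro _ ⟨α, rfl⟩
  exact norm_class_le ha L n q b α

lemma UW_nonneg (σ Q L : ℕ) (a : ℕ → ℂ) (n : ℕ) : 0 ≤ UW σ Q L a n :=
  sum_nonneg fun _ _ => sum_nonneg fun _ _ => Real.iSup_nonneg fun _ => norm_nonneg _

lemma UW_mono {Q Q' : ℕ} (h : Q ≤ Q') (σ L : ℕ) (a : ℕ → ℂ) (n : ℕ) :
    UW σ Q L a n ≤ UW σ Q' L a n :=
  sum_le_sum_of_subset_of_nonneg (Icc_subset_Icc le_rfl h)
    fun _ _ _ => sum_nonneg fun _ _ => Real.iSup_nonneg fun _ => norm_nonneg _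

lemma UW_le (σ Q L : ℕ) {a : ℕ → ℂ} (ha : ∀ n, ‖a n‖ ≤ 1) (n : ℕ) : UW σ Q L a n ≤ Q * L := by
  unfold UW
  have h1 : ∀ q ∈ Icc 1 Q, ∑ b ∈ range q, ⨆ α : Fin σ → ℝ,
      ‖∑ h ∈ Icc 1 L with (n + h) % q = b, a (n + h) * ee (ph α (h : ℝ))‖ ≤ L := by
    intro q hq
    have hq1 : 1 ≤ q := (mem_Icc.1 hq).1
    calc ∑ b ∈ range q, ⨆ α : Fin σ → ℝ,
        ‖∑ h ∈ Icc 1 L with (n + h) % q = b, a (n + h) * ee (ph α (h : ℝ))‖
        ≤ ∑ b ∈ range q, ((#{h ∈ Icc 1 L | (n + h) % q = b} : ℕ) : ℝ) := by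
          refine sum_le_sum fun b _ => ?_
          exact Real.iSup_le (fun α => norm_class_le ha L n q b α) (Nat.cast_nonneg _)
      _ = L := by
          rw [← Nat.cast_sum, ← card_eq_sum_card_fiberwise (f := fun h => (n + h) % q)
            (fun h _ => by
              rw [Finset.mem_coe, mem_range]
              exact Nat.mod_lt _ (by omega))]
          simp
  refine (sum_le_sum h1).trans ?_
  simp

lemma UU_nonneg (σ Q L N : ℕ) (a : ℕ → ℂ) : 0 ≤ UU σ Q L N a :=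
  sum_nonneg fun n _ => mul_nonneg (by positivity) (UW_nonneg _ _ _ _ _)

lemma UU_mono {Q Q' : ℕ} (h : Q ≤ Q') (σ L N : ℕ) (a : ℕ → ℂ) : UU σ Q L N a ≤ UU σ Q' L N a :=
  sum_le_sum fun n _ => mul_le_mul_of_nonneg_left (UW_mono h σ L a n) (by positivity)

lemma UU_double (σ Q L N : ℕ) {a : ℕ → ℂ} (ha : ∀ n, ‖a n‖ ≤ 1) :
    UU σ Q L (2 * N) a ≤ UU σ Q L N a + Q * L := by
  rcases Nat.eq_zero_or_pos N with rfl | hN
  · simp only [mul_zero]
    have : (0 : ℝ) ≤ Q * L := by positivity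
    linarith
  have hN0 : (0 : ℝ) < N := by exact_mod_cast hN
  unfold UU
  have h1 : Icc 1 (2 * N) = Icc 1 N ∪ Ioc N (2 * N) := by
    ext x
    simp only [mem_Icc, mem_union, mem_Ioc]
    omega
  have h2 : Disjoint (Icc 1 N) (Ioc N (2 * N)) := by
    rw [disjoint_left]
    intro x hx hx'
    rw [mem_Icc] at hx
    rw [mem_Ioc] at hx'
    omega
  rw [h1, sum_union h2]
  have h3 : ∑ n ∈ Ioc N (2 * N), (1 / (n : ℝ)) * UW σ Q L a n ≤ Q * L := by
    calc ∑ n ∈ Ioc N (2 * N), (1 / (n : ℝ)) * UW σ Q L a n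
        ≤ ∑ n ∈ Ioc N (2 * N), (1 / (N : ℝ)) * (Q * L) := by
          refine sum_le_sum fun n hn => ?_
          rw [mem_Ioc] at hn
          have : (N : ℝ) ≤ n := by exact_mod_cast hn.1.le
          have h4 := UW_le σ Q L ha n
          have h5 := UW_nonneg σ Q L a n
          gcongr
      _ = Q * L := by
          rw [sum_const, Nat.card_Ioc, nsmul_eq_mul]
          have : 2 * N - N = N := by omega
          rw [this]
          field_simp
  linarith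

/-- Combination of two error terms. -/
lemma UU_comb {C₁ C₂ C : ℕ} {x₁ : ℝ} (hx₁ : 0 ≤ x₁) (h1 : C₁ ≤ C) (h2 : C₂ ≤ C)
    (h3 : x₁ + C₂ ≤ C) (σ L N : ℕ) (a : ℕ → ℂ) :
    x₁ * UU σ C₁ L N a / L + C₂ * UU σ C₂ L N a / L ≤ C * UU σ C L N a / L := by
  have hL : (0 : ℝ) ≤ L := Nat.cast_nonneg _
  rw [← add_div]
  apply div_le_div_of_nonneg_right _ hL
  have e1 := UU_mono h1 σ L N a
  have e2 := UU_mono h2 σ L N a
  have e3 := UU_nonneg σ C L N a
  calc x₁ * UU σ C₁ L N a + C₂ * UU σ C₂ L N a ≤ x₁ * UU σ C L N a + C₂ * UU σ C L N a := by gcongr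
    _ = (x₁ + C₂) * UU σ C L N a := by ring
    _ ≤ C * UU σ C L N a := by gcongr

/-- Degree zero: averages over progressions. -/
lemma UW_zero (Q L : ℕ) (a : ℕ → ℂ) (n : ℕ) : UW 0 Q L a n = V Q L a n := by
  unfold UW V
  refine sum_congr rfl fun q _ => sum_congr rfl fun b _ => ?_
  have h0 : ∀ (α : Fin 0 → ℝ) (x : ℝ), ph α x = 0 := fun α x => by
    unfold ph; simp
  simp only [h0]
  rw [ciSup_const]
  congr 1
  refine sum_congr rfl fun h _ => ?_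
  simp [ee]

lemma UU_zero (Q L N : ℕ) (a : ℕ → ℂ) : UU 0 Q L N a = AP Q L N a := by
  rw [AP_eq]
  unfold UU
  exact sum_congr rfl fun n _ => by rw [UW_zero]

/-- Every polynomial of degree at most `σ` is admitted. -/
lemma le_UW {a : ℕ → ℂ} (ha : ∀ n, ‖a n‖ ≤ 1) {σ Q : ℕ} (hQ : 1 ≤ Q) (L n : ℕ) (P : ℝ[X])
    (hP : P.natDegree ≤ σ) :
    ‖∑ h ∈ Icc 1 L, a (n + h) * ee (P.eval (h : ℝ))‖ ≤ UW σ Q L a n := by
  refine le_trans ?_ (UW_mono hQ σ L a n)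
  unfold UW
  rw [Icc_self, sum_singleton, range_one, sum_singleton]
  refine le_trans (le_of_eq ?_) (le_ciSup (bdd_class ha σ L n 1 0) (fun i => P.coeff (i.val + 1)))
  have h1 : ∀ h : ℕ, P.eval (h : ℝ) = P.coeff 0 + ph (fun i : Fin σ => P.coeff (i.val + 1)) (h : ℝ) := by
    intro h
    rw [eval_eq_sum_range' (n := σ + 1) (by omega), sum_range_succ', pow_zero, mul_one, add_comm]
    congr 1
    unfold ph
    rw [← Fin.sum_univ_eq_sum_range (fun i => P.coeff (i + 1) * (h : ℝ) ^ (i + 1))]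
  have h2 : ∑ h ∈ Icc 1 L, a (n + h) * ee (P.eval (h : ℝ)) = ee (P.coeff 0) *
      ∑ h ∈ Icc 1 L with (n + h) % 1 = 0,
        a (n + h) * ee (ph (fun i : Fin σ => P.coeff (i.val + 1)) (h : ℝ)) := by
    have h3 : (Icc 1 L).filter (fun h => (n + h) % 1 = 0) = Icc 1 L :=
      filter_true_of_mem fun h _ => Nat.mod_one _
    rw [h3, mul_sum]
    refine sum_congr rfl fun h _ => ?_
    rw [h1, ee_add]
    ring
  rw [h2, norm_mul, norm_ee, one_mul]

end Pool.Agent.UD
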