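import Mathlib
import Pool.Agent.Lib.UD95.Fin2
import Pool.Agent.Lib.UD95.UU
import Pool.Agent.Lib.UD95.Defs3

/-!
# Complexity of sets of phases (MP_663568_nt), row FIN3: the equivalence with individual functions
-/

set_option autoImplicit false
open Finset Polynomial MeasureTheory

namespace Pool.Agent.UD

open Pool.Agent.Lib.MP_663568_nt Pool.Agent.Lib.MP_663568_nt.Katai
  Pool.Agent.Lib.MP_663568_nt.Nul Pool.Agent.TU

namespace F3

lemma CMul_subset : CMul ⊆ Mult := by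
  rintro a ⟨h0, hm, h1⟩
  refine ⟨fun n => ?_, fun p k _ _ => hm p k⟩
  rcases Nat.eq_zero_or_pos n with rfl | hn
  · rw [h0, norm_zero]
    exact zero_le_one
  · exact (h1 n hn.ne').le

lemma Unif_Hull {t : ℕ} (a : ℕ → ℂ) (B : Set (Fin t → ℝ)) (M : ℕ → ℕ) :
    Unif a (Hull B) M ↔ Unif a B M := by
  unfold Unif
  simp only [SA_Hull]

/-- Uniform control gives the statement for individual functions. -/
lemma indiv {t σ : ℕ} {B : Set (Fin t → ℝ)} {𝒞 : Set (ℕ → ℂ)} (h : CtrlS σ 𝒞 B) :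
    ∀ a ∈ 𝒞, ∀ M : ℕ → ℕ, Filter.Tendsto M Filter.atTop Filter.atTop → Vanishing σ a M →
      Unif a B M := by
  intro a ha M hM hV ε hε
  obtain ⟨C, hC⟩ := h (ε / 2) (by positivity)
  obtain ⟨L, hL, hVL⟩ := hV C (ε / (2 * ((C : ℝ) + 1))) (by positivity)
  obtain ⟨H₀, hH₀⟩ := hC L hL
  refine ⟨H₀, fun H hH => ?_⟩
  filter_upwards [hVL, hM.eventually_ge_atTop (H ^ C)] with j h1 h2
  have h3 := hH₀ H (M j) hH h2 a ha
  refine h3.trans ?_
  have hL0 : (0 : ℝ) < L := by exact_mod_cast hL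
  have hC0 : (0 : ℝ) ≤ C := Nat.cast_nonneg _
  have hlog : 0 ≤ Real.log (M j) := Real.log_natCast_nonneg _
  have h4 : C * UU σ C L (M j) a / L ≤ ε / 2 * Real.log (M j) := by
    rw [div_le_iff₀ hL0]
    calc (C : ℝ) * UU σ C L (M j) a ≤ C * (ε / (2 * ((C : ℝ) + 1)) * L * Real.log (M j)) := by
          gcongr
      _ = (C / (C + 1)) * (ε / 2 * Real.log (M j) * L) := by
          field_simp
      _ ≤ 1 * (ε / 2 * Real.log (M j) * L) := by
          apply mul_le_mul_of_nonneg_right _ (by positivity)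
          rw [div_le_one (by linarith)]
          linarith
      _ = _ := by ring
  calc (ε / 2 * Real.log (M j) + C * UU σ C L (M j) a / L) * H
      ≤ (ε / 2 * Real.log (M j) + ε / 2 * Real.log (M j)) * H := by gcongr
    _ = _ := by ring

end F3

/-- **The equivalence, with individual functions.** -/
theorem fin3 (hP : P2_stmt) (hN : N8_stmt) (hG : Glue_stmt) {t σ : ℕ} (ht : 1 ≤ t) (hσ : σ ≤ t)
    (B : Set (Fin t → ℝ)) :
    List.TFAE [NullAbove σ (Hull B),
      CtrlS σ Mult B,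
      ∀ a ∈ Mult, ∀ M : ℕ → ℕ, Filter.Tendsto M Filter.atTop Filter.atTop → Vanishing σ a M →
        Unif a B M,
      ∀ a ∈ CMul, ∀ M : ℕ → ℕ, Filter.Tendsto M Filter.atTop Filter.atTop → Vanishing σ a M →
        Unif a B M,
      CtrlS σ Arch B] := by
  tfae_have 1 → 2 := (fin2 hP hN ht hσ B).out 0 1 |>.1
  tfae_have 2 → 3 := F3.indiv
  tfae_have 3 → 4 := fun h a ha => h a (F3.CMul_subset ha)
  tfae_have 4 → 1 := by
    intro h
    by_contra hcon
    obtain ⟨a, ha, M, hM, hV, hU⟩ := hG t ht σ (Hull B) (isClosed_Hull B) (per_Hull B) hcon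
    exact hU ((F3.Unif_Hull a B M).2 (h a ha M hM hV))
  tfae_have 2 → 5 := (fin2 hP hN ht hσ B).out 1 2 |>.1
  tfae_have 5 → 1 := (fin2 hP hN ht hσ B).out 2 0 |>.1
  tfae_finish

end Pool.Agent.UD
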