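import Mathlib
import Pool.Agent.Lib.UD95.Defs3
import Pool.Agent.Lib.UD95.UU

/-!
# Complexity of sets of phases (MP_663568_nt), row GLUE: one multiplicative function
-/

set_option autoImplicit false
open Finset Polynomial MeasureTheory

namespace Pool.Agent.UD

open Pool.Agent.Lib.MP_663568_nt Pool.Agent.Lib.MP_663568_nt.Katai
  Pool.Agent.Lib.MP_663568_nt.Nul Pool.Agent.TU

namespace Gl

/-! ### Products over the list of the prime factors -/

lemma norm_prod_one {x : ℕ → ℂ} (hx : ∀ p, ‖x p‖ = 1) (l : List ℕ) : ‖(l.map x).prod‖ = 1 := by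
  induction l with
  | nil => simp
  | cons p l ih => rw [List.map_cons, List.prod_cons, norm_mul, hx, ih, one_mul]

lemma prod_sub {x y : ℕ → ℂ} (hx : ∀ p, ‖x p‖ = 1) (hy : ∀ p, ‖y p‖ = 1) (l : List ℕ) :
    ‖(l.map x).prod - (l.map y).prod‖ ≤ (l.map fun p => ‖x p - y p‖).sum := by
  induction l with
  | nil => simp
  | cons p l ih =>
    rw [List.map_cons, List.prod_cons, List.map_cons, List.prod_cons, List.map_cons,
      List.sum_cons]
    have h1 : x p * (l.map x).prod - y p * (l.map y).prod =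
        (x p - y p) * (l.map x).prod + y p * ((l.map x).prod - (l.map y).prod) := by ring
    rw [h1]
    refine (norm_add_le _ _).trans ?_
    rw [norm_mul, norm_mul, norm_prod_one hx, hy, mul_one, one_mul]
    linarith

/-- The completely multiplicative function with given values at the primes. -/
noncomputable def mk (z : ℕ → ℂ) (n : ℕ) : ℂ :=
  if n = 0 then 0 else (n.primeFactorsList.map z).prod

lemma mk_CMul {z : ℕ → ℂ} (hz : ∀ p, ‖z p‖ = 1) : mk z ∈ CMul := by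
  refine ⟨by simp [mk], fun m n => ?_, fun n hn => ?_⟩
  · rcases Nat.eq_zero_or_pos m with rfl | hm
    · simp [mk]
    rcases Nat.eq_zero_or_pos n with rfl | hn
    · simp [mk]
    have hmn : m * n ≠ 0 := Nat.mul_ne_zero hm.ne' hn.ne'
    unfold mk
    rw [if_neg hmn, if_neg hm.ne', if_neg hn.ne',
      ((Nat.perm_primeFactorsList_mul hm.ne' hn.ne').map z).prod_eq, List.map_append,
      List.prod_append]
  · unfold mk
    rw [if_neg hn]
    exact norm_prod_one hz _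

lemma norm_arch (T : ℝ) (n : ℕ) : ‖arch T n‖ = 1 := Complex.norm_exp_ofReal_mul_I _

lemma arch_mul (T : ℝ) {m n : ℕ} (hm : m ≠ 0) (hn : n ≠ 0) :
    arch T (m * n) = arch T m * arch T n := by
  unfold arch
  rw [← Complex.exp_add, Nat.cast_mul, Real.log_mul (by exact_mod_cast hm) (by exact_mod_cast hn)]
  congr 1
  push_cast
  ring

lemma arch_one (T : ℝ) : arch T 1 = 1 := by
  unfold arch
  simp

lemma arch_list (T : ℝ) (l : List ℕ) (hl : ∀ p ∈ l, p ≠ 0) :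
    arch T l.prod = (l.map (arch T)).prod := by
  induction l with
  | nil => simp [arch_one]
  | cons p l ih =>
    have h1 : l.prod ≠ 0 := by
      intro h
      exact hl 0 (List.mem_cons_of_mem _ (List.prod_eq_zero_iff.1 h)) rfl
    rw [List.prod_cons, arch_mul T (hl p List.mem_cons_self) h1, List.map_cons, List.prod_cons,
      ih fun q hq => hl q (List.mem_cons_of_mem _ hq)]

lemma arch_factors (T : ℝ) {n : ℕ} (hn : n ≠ 0) :
    arch T n = (n.primeFactorsList.map (arch T)).prod := by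
  conv_lhs => rw [← Nat.prod_primeFactorsList hn]
  exact arch_list T _ fun p hp => (Nat.prime_of_mem_primeFactorsList hp).ne_zero

/-- The number of the prime factors up to `M`, with multiplicity. -/
noncomputable def om (M n : ℕ) : ℝ := ∑ p ∈ (Icc 1 M).filter Nat.Prime, (n.factorization p : ℝ)

lemma om_nonneg (M n : ℕ) : 0 ≤ om M n := sum_nonneg fun _ _ => Nat.cast_nonneg _

lemma mk_sub {z : ℕ → ℂ} (hz : ∀ p, ‖z p‖ = 1) {T δ : ℝ} {M X : ℕ}
    (h1 : ∀ p : ℕ, p ≤ M → p.Prime → ‖z p - arch T p‖ ≤ δ)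
    (h2 : ∀ p : ℕ, M < p → p ≤ X → z p = arch T p) {n : ℕ} (hn : n ≠ 0) (hnX : n ≤ X) :
    ‖mk z n - arch T n‖ ≤ δ * om M n := by
  unfold mk
  rw [if_neg hn, arch_factors T hn]
  refine (prod_sub hz (norm_arch T) _).trans ?_
  rw [Finset.sum_list_map_count, om, mul_sum]
  have h3 : ∀ p ∈ n.primeFactorsList.toFinset, n.primeFactorsList.count p • ‖z p - arch T p‖ ≤
      if p ≤ M then δ * (n.factorization p : ℝ) else 0 := by
    intro p hp
    have hp' : p.Prime := Nat.prime_of_mem_primeFactorsList (List.mem_toFinset.1 hp)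
    have hpn : p ≤ n := Nat.le_of_mem_primeFactorsList (List.mem_toFinset.1 hp)
    rw [nsmul_eq_mul, Nat.primeFactorsList_count_eq]
    split_ifs with hpM
    · rw [mul_comm]
      exact mul_le_mul_of_nonneg_right (h1 p hpM hp') (Nat.cast_nonneg _)
    · rw [h2 p (by omega) (hpn.trans hnX), sub_self, norm_zero, mul_zero]
  refine (sum_le_sum h3).trans ?_
  rw [← sum_filter]
  refine le_of_eq_of_le ?_ (sum_le_sum_of_subset_of_nonneg (s := (n.primeFactorsList.toFinset).filter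
    fun p => p ≤ M) ?_ ?_)
  · rfl
  · intro p hp
    rw [mem_filter] at hp
    have hp' : p.Prime := Nat.prime_of_mem_primeFactorsList (List.mem_toFinset.1 hp.1)
    rw [mem_filter, mem_Icc]
    exact ⟨⟨hp'.one_lt.le, hp.2⟩, hp'⟩
  · intro p hp _
    rw [mem_filter, mem_Icc] at hp
    have hδ : 0 ≤ δ := (norm_nonneg _).trans (h1 p hp.1.2 hp.2)
    positivity

/-! ### The sum of `om` -/

lemma harm (N : ℕ) : ∑ n ∈ Icc 1 N, (1 / (n : ℝ)) ≤ 1 + Real.log N := by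
  have h := harmonic_le_one_add_log N
  rw [harmonic_eq_sum_Icc] at h
  push_cast at h
  simpa only [one_div] using h

lemma sum_dvd (X : ℕ) {d : ℕ} (hd : 1 ≤ d) :
    ∑ n ∈ (Icc 1 X).filter (fun n => d ∣ n), (1 / (n : ℝ)) ≤ 1 / d * (1 + Real.log X) := by
  have h1 : (Icc 1 X).filter (fun n => d ∣ n) ⊆ (Icc 1 X).image fun m => d * m := by
    intro n hn
    rw [mem_filter, mem_Icc] at hn
    obtain ⟨⟨hn1, hn2⟩, m, rfl⟩ := hn
    rw [mem_image]
    refine ⟨m, mem_Icc.2 ⟨?_, ?_⟩, rfl⟩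
    · rcases Nat.eq_zero_or_pos m with rfl | h
      · simp at hn1
      · exact h
    · exact (Nat.le_mul_of_pos_left m (by omega)).trans hn2
  have hd0 : (0 : ℝ) < d := by exact_mod_cast hd
  calc ∑ n ∈ (Icc 1 X).filter (fun n => d ∣ n), (1 / (n : ℝ))
      ≤ ∑ n ∈ (Icc 1 X).image (fun m => d * m), (1 / (n : ℝ)) :=
        sum_le_sum_of_subset_of_nonneg h1 fun _ _ _ => by positivity
    _ = ∑ m ∈ Icc 1 X, 1 / d * (1 / (m : ℝ)) := by
        rw [sum_image fun a _ b _ hab => Nat.eq_of_mul_eq_mul_left (by omega : 0 < d) hab]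
        refine sum_congr rfl fun m _ => ?_
        push_cast
        rw [one_div_mul_one_div]
    _ ≤ _ := by
        rw [← mul_sum]
        exact mul_le_mul_of_nonneg_left (harm X) (by positivity)

lemma sum_fac (X : ℕ) {p : ℕ} (hp : p.Prime) :
    ∑ n ∈ Icc 1 X, (1 / (n : ℝ)) * (n.factorization p : ℝ) ≤ 1 + Real.log X := by
  have hlog : 0 ≤ 1 + Real.log X := by
    have := Real.log_natCast_nonneg X
    linarith
  have h1 : ∀ n ∈ Icc 1 X, (1 / (n : ℝ)) * (n.factorization p : ℝ) ≤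
      ∑ i ∈ Ico 1 (X + 1), if p ^ i ∣ n then 1 / (n : ℝ) else 0 := by
    intro n hn
    rw [mem_Icc] at hn
    have h2 : n.factorization p ≤ #((Ico 1 (X + 1)).filter fun i => p ^ i ∣ n) := by
      have h3 : (Icc 1 (n.factorization p)) ⊆ (Ico 1 (X + 1)).filter fun i => p ^ i ∣ n := by
        intro i hi
        rw [mem_Icc] at hi
        rw [mem_filter, mem_Ico]
        have h4 : n.factorization p < n := Nat.factorization_lt p (by omega)
        exact ⟨⟨hi.1, by omega⟩, (pow_dvd_pow p hi.2).trans (Nat.ordProj_dvd n p)⟩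
      have := card_le_card h3
      rwa [Nat.card_Icc, Nat.add_sub_cancel] at this
    rw [← sum_filter, sum_const, nsmul_eq_mul, mul_comm]
    have h5 : (n.factorization p : ℝ) ≤ (#((Ico 1 (X + 1)).filter fun i => p ^ i ∣ n) : ℕ) := by
      exact_mod_cast h2
    exact mul_le_mul_of_nonneg_right h5 (by positivity)
  refine (sum_le_sum h1).trans ?_
  rw [sum_comm]
  have h2 : ∀ i ∈ Ico 1 (X + 1), ∑ n ∈ Icc 1 X, (if p ^ i ∣ n then 1 / (n : ℝ) else 0) ≤
      (1 / 2) ^ i * (1 + Real.log X) := by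
    intro i _
    rw [← sum_filter]
    refine (sum_dvd X (Nat.one_le_pow _ _ hp.pos)).trans ?_
    apply mul_le_mul_of_nonneg_right _ hlog
    push_cast
    rw [one_div_pow]
    apply one_div_le_one_div_of_le (by positivity)
    exact pow_le_pow_left₀ (by norm_num) (by exact_mod_cast hp.two_le) i
  refine (sum_le_sum h2).trans ?_
  rw [← sum_mul]
  have h3 : ∑ i ∈ Ico 1 (X + 1), ((1 : ℝ) / 2) ^ i ≤ 1 := by
    have h4 : ∀ n : ℕ, ∑ i ∈ Ico 1 (n + 1), ((1 : ℝ) / 2) ^ i = 1 - (1 / 2) ^ n := by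
      intro n
      induction n with
      | zero => simp
      | succ n ih =>
        rw [sum_Ico_succ_top (by omega), ih, pow_succ]
        ring
    rw [h4]
    have : (0 : ℝ) ≤ (1 / 2) ^ X := by positivity
    linarith
  calc _ ≤ 1 * (1 + Real.log X) := mul_le_mul_of_nonneg_right h3 hlog
    _ = _ := one_mul _

lemma sum_om (M X : ℕ) :
    ∑ n ∈ Icc 1 X, (1 / (n : ℝ)) * om M n ≤ M * (1 + Real.log X) := by
  have hlog : 0 ≤ 1 + Real.log X := by
    have := Real.log_natCast_nonneg X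
    linarith
  unfold om
  simp only [mul_sum]
  rw [sum_comm]
  refine (sum_le_card_nsmul _ _ (1 + Real.log X) fun p hp => ?_).trans ?_
  · exact sum_fac X (mem_filter.1 hp).2
  · rw [nsmul_eq_mul]
    apply mul_le_mul_of_nonneg_right _ hlog
    have := card_filter_le (Icc 1 M) Nat.Prime
    rw [Nat.card_Icc, Nat.add_sub_cancel] at this
    exact_mod_cast this

/-- The windows. -/
lemma window {D : ℕ → ℝ} (hD : ∀ n, 0 ≤ D n) (N H : ℕ) :
    ∑ n ∈ Icc 1 N, (1 / (n : ℝ)) * ∑ h ∈ Icc 1 H, D (n + h) ≤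
      H * (H + 1) * ∑ n ∈ Icc 1 (N + H), (1 / (n : ℝ)) * D n := by
  simp only [mul_sum]
  rw [sum_comm]
  have h1 : ∀ h ∈ Icc 1 H, ∑ n ∈ Icc 1 N, (1 / (n : ℝ)) * D (n + h) ≤
      (H + 1) * ∑ n ∈ Icc 1 (N + H), (1 / (n : ℝ)) * D n := by
    intro h hh
    rw [mem_Icc] at hh
    have h2 : ∀ n ∈ Icc 1 N, (1 / (n : ℝ)) * D (n + h) ≤
        (H + 1) * ((1 / ((n + h : ℕ) : ℝ)) * D (n + h)) := by
      intro n hn
      rw [mem_Icc] at hn
      rw [← mul_assoc]
      apply mul_le_mul_of_nonneg_right _ (hD _)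
      have hn0 : (0 : ℝ) < n := by exact_mod_cast hn.1
      have hn1 : (1 : ℝ) ≤ n := by exact_mod_cast hn.1
      have hhr : (h : ℝ) ≤ H := by exact_mod_cast hh.2
      have hh0 : (0 : ℝ) ≤ h := Nat.cast_nonneg _
      push_cast
      rw [mul_one_div, div_le_div_iff₀ hn0 (by positivity)]
      nlinarith
    refine (sum_le_sum h2).trans ?_
    rw [← mul_sum]
    refine mul_le_mul_of_nonneg_left ?_ (by positivity)
    rw [← sum_image (s := Icc 1 N) (g := fun n => n + h) (f := fun n : ℕ => (1 / (n : ℝ)) * D n)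
      fun a _ b _ hab => Nat.add_right_cancel hab]
    refine sum_le_sum_of_subset_of_nonneg ?_ fun n _ _ => mul_nonneg (by positivity) (hD n)
    intro n hn
    rw [mem_image] at hn
    obtain ⟨m, hm, rfl⟩ := hn
    rw [mem_Icc] at hm ⊢
    omega
  refine (sum_le_card_nsmul _ _ _ h1).trans (le_of_eq ?_)
  rw [Nat.card_Icc, Nat.add_sub_cancel, nsmul_eq_mul, ← mul_assoc, mul_sum]

/-- The error of one stage. -/
lemma stage {z : ℕ → ℂ} (hz : ∀ p, ‖z p‖ = 1) {T δ : ℝ} (hδ : 0 ≤ δ) {M N : ℕ}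
    (h1 : ∀ p : ℕ, p ≤ M → p.Prime → ‖z p - arch T p‖ ≤ δ)
    (h2 : ∀ p : ℕ, M < p → p ≤ 2 * N → z p = arch T p) {H : ℕ} (hHN : H ≤ N) (hN : 3 ≤ N) :
    ∑ n ∈ Icc 1 N, (1 / (n : ℝ)) * ∑ h ∈ Icc 1 H, ‖arch T (n + h) - 1 * mk z (n + h)‖ ≤
      3 * H * (H + 1) * M * δ * Real.log N := by
  have hN3 : (3 : ℝ) ≤ N := by exact_mod_cast hN
  have hlog1 : 1 ≤ Real.log N := by
    rw [Real.le_log_iff_exp_le (by linarith)]
    linarith [Real.exp_one_lt_three]
  have h3 : ∀ n ∈ Icc 1 N, ∑ h ∈ Icc 1 H, ‖arch T (n + h) - 1 * mk z (n + h)‖ ≤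
      ∑ h ∈ Icc 1 H, δ * om M (n + h) := by
    intro n hn
    rw [mem_Icc] at hn
    refine sum_le_sum fun h hh => ?_
    rw [mem_Icc] at hh
    rw [one_mul, norm_sub_rev]
    exact mk_sub hz h1 h2 (by omega) (by omega)
  have h4 : ∑ n ∈ Icc 1 N, (1 / (n : ℝ)) * ∑ h ∈ Icc 1 H, ‖arch T (n + h) - 1 * mk z (n + h)‖ ≤
      ∑ n ∈ Icc 1 N, (1 / (n : ℝ)) * ∑ h ∈ Icc 1 H, δ * om M (n + h) :=
    sum_le_sum fun n hn => mul_le_mul_of_nonneg_left (h3 n hn) (by positivity)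
  refine h4.trans ?_
  refine (window (D := fun n => δ * om M n) (fun n => mul_nonneg hδ (om_nonneg M n)) N H).trans ?_
  have h5 : ∑ n ∈ Icc 1 (N + H), (1 / (n : ℝ)) * (δ * om M n) =
      δ * ∑ n ∈ Icc 1 (N + H), (1 / (n : ℝ)) * om M n := by
    rw [mul_sum]
    refine sum_congr rfl fun n _ => ?_
    ring
  rw [h5]
  have h6 := sum_om M (N + H)
  have h7 : Real.log ((N + H : ℕ) : ℝ) ≤ Real.log N + 7 / 10 := by
    have h8 : Real.log ((N + H : ℕ) : ℝ) ≤ Real.log (2 * N) := by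
      apply Real.log_le_log
      · push_cast
        have : (0 : ℝ) ≤ H := Nat.cast_nonneg _
        linarith
      · push_cast
        have : (H : ℝ) ≤ N := by exact_mod_cast hHN
        linarith
    rw [Real.log_mul (by norm_num) (by linarith)] at h8
    linarith [Real.log_two_lt_d9]
  have h9 : 1 + Real.log ((N + H : ℕ) : ℝ) ≤ 3 * Real.log N := by linarith
  have h10 : ∑ n ∈ Icc 1 (N + H), (1 / (n : ℝ)) * om M n ≤ M * (3 * Real.log N) :=
    h6.trans (mul_le_mul_of_nonneg_left h9 (Nat.cast_nonneg _))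
  calc (H : ℝ) * (H + 1) * (δ * ∑ n ∈ Icc 1 (N + H), (1 / (n : ℝ)) * om M n)
      ≤ (H : ℝ) * (H + 1) * (δ * (M * (3 * Real.log N))) := by gcongr
    _ = _ := by ring

end Gl

open Gl in
/-- **Row GLUE.** -/
theorem rowGlue (hC : Cmp_stmt) (hL : Lift_stmt) : Glue_stmt := by
  classical
  intro t ht σ B hB hP hN
  obtain ⟨c, hc, H₁, Lf, hLf, hlift⟩ := hL t ht σ B hB hP hN
  obtain ⟨c', hc'⟩ : ∃ c' : ℝ, c' = min c 1 := ⟨_, rfl⟩
  have hc'0 : 0 < c' := by rw [hc']; exact lt_min hc one_pos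
  have hc'1 : c' ≤ 1 := by rw [hc']; exact min_le_right _ _
  have hc'c : c' ≤ c := by rw [hc']; exact min_le_left _ _
  -- the parameters
  obtain ⟨K, hK⟩ : ∃ K : ℕ → ℕ, ∀ j, K j = j + ∑ i ∈ range (j + 1), Lf i + 1 := ⟨_, fun _ => rfl⟩
  have hKj : ∀ j, j ≤ K j := fun j => by rw [hK]; omega
  have hKL : ∀ j i, i ≤ j → Lf i ≤ K j := fun j i hi => by
    have : Lf i ≤ ∑ i ∈ range (j + 1), Lf i :=
      single_le_sum (f := Lf) (fun _ _ => Nat.zero_le _) (mem_range.2 (by omega))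
    rw [hK]
    omega
  obtain ⟨δ, hδ⟩ : ∃ δ : ℕ → ℕ → ℝ, ∀ j N, δ j N =
      c' / (6 * ((K j : ℝ) + 1) ^ 4 * (2 * N + 1)) := ⟨_, fun _ _ => rfl⟩
  have hδ0 : ∀ j N, 0 < δ j N := fun j N => by rw [hδ]; positivity
  -- one step
  have step : ∀ (j : ℕ) (s : {s : ℕ × (ℕ → ℂ) // ∀ p, ‖s.2 p‖ = 1}),
      ∃ s' : {s : ℕ × (ℕ → ℂ) // ∀ p, ‖s.2 p‖ = 1},
        2 * s.1.1 + K j + j + 3 ≤ s'.1.1 ∧ (∀ p ≤ 2 * s.1.1, s'.1.2 p = s.1.2 p) ∧
        ∃ T : ℝ, (∀ p : ℕ, p ≤ 2 * s.1.1 → p.Prime → ‖s.1.2 p - arch T p‖ ≤ δ j s.1.1) ∧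
          (∀ p : ℕ, 2 * s.1.1 < p → s'.1.2 p = arch T p) ∧
          (∀ H : ℕ, H₁ ≤ H → H ≤ j → c * H * Real.log s'.1.1 ≤ SA (arch T) B s'.1.1 H) ∧
          ∀ i : ℕ, i ≤ j → UU σ i (Lf i) s'.1.1 (arch T) ≤
            2 / ((i : ℝ) + 1) * Lf i * Real.log s'.1.1 := by
    rintro j ⟨⟨N, z⟩, hz⟩
    obtain ⟨N', hN', T, h1, h2, h3⟩ := hlift j (2 * N) z hz (δ j N) (hδ0 j N) (2 * N + K j + j + 3)
    refine ⟨⟨(N', fun p => if p ≤ 2 * N then z p else arch T p), fun p => ?_⟩, hN', fun p hp => ?_,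
      T, h1, fun p hp => ?_, h2, h3⟩
    · show ‖if p ≤ 2 * N then z p else arch T p‖ = 1
      split_ifs
      · exact hz p
      · exact norm_arch T p
    · show (if p ≤ 2 * N then z p else arch T p) = z p
      rw [if_pos hp]
    · show (if p ≤ 2 * N then z p else arch T p) = arch T p
      rw [if_neg (not_le.2 hp)]
  choose f hf1 hf2 Tf hf3 hf4 hf5 hf6 using step
  obtain ⟨sq, hsq0, hsq⟩ : ∃ sq : ℕ → {s : ℕ × (ℕ → ℂ) // ∀ p, ‖s.2 p‖ = 1},
      sq 0 = ⟨(1, fun _ => 1), fun p => by simp⟩ ∧ ∀ j, sq (j + 1) = f j (sq j) :=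
    ⟨fun j => Nat.rec ⟨(1, fun _ => 1), fun p => by simp⟩ (fun j s => f j s) j, rfl, fun _ => rfl⟩
  obtain ⟨Nj, hNj⟩ : ∃ Nj : ℕ → ℕ, ∀ j, Nj j = (sq j).1.1 := ⟨_, fun _ => rfl⟩
  obtain ⟨zj, hzj⟩ : ∃ zj : ℕ → ℕ → ℂ, ∀ j p, zj j p = (sq j).1.2 p := ⟨_, fun _ _ => rfl⟩
  have g1 : ∀ j, 2 * Nj j + K j + j + 3 ≤ Nj (j + 1) := fun j => by
    rw [hNj, hNj, hsq]
    exact hf1 j (sq j)
  have g2 : ∀ j, ∀ p ≤ 2 * Nj j, zj (j + 1) p = zj j p := fun j p hp => by
    rw [hzj, hzj, hsq]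
    exact hf2 j (sq j) p (by rwa [hNj] at hp)
  have hzn : ∀ j p, ‖zj j p‖ = 1 := fun j p => by rw [hzj]; exact (sq j).2 p
  have hNge : ∀ j, j ≤ Nj j := by
    intro j
    induction j with
    | zero => exact Nat.zero_le _
    | succ j ih =>
      have := g1 j
      omega
  have hNmono : ∀ j k, Nj j ≤ Nj (j + k) := by
    intro j k
    induction k with
    | zero => exact le_rfl
    | succ k ih =>
      have := g1 (j + k)
      have h : Nj (j + (k + 1)) = Nj (j + k + 1) := rfl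
      omega
  have hstab : ∀ j k p, p ≤ 2 * Nj j → zj (j + k) p = zj j p := by
    intro j k p hp
    induction k with
    | zero => rfl
    | succ k ih =>
      have h : zj (j + (k + 1)) p = zj (j + k + 1) p := rfl
      rw [h, g2 (j + k) p (hp.trans (Nat.mul_le_mul_left 2 (hNmono j k))), ih]
  obtain ⟨zl, hzl⟩ : ∃ zl : ℕ → ℂ, ∀ p, zl p = zj p p := ⟨_, fun _ => rfl⟩
  have hzl1 : ∀ p, ‖zl p‖ = 1 := fun p => by rw [hzl]; exact hzn p p
  have hlim : ∀ j p, p ≤ 2 * Nj j → zl p = zj j p := by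
    intro j p hp
    rw [hzl]
    rcases Nat.le_total j p with h | h
    · obtain ⟨k, rfl⟩ := Nat.exists_eq_add_of_le h
      exact hstab j k _ hp
    · obtain ⟨k, rfl⟩ := Nat.exists_eq_add_of_le h
      exact (hstab p k p (by have := hNge p; omega)).symm
  obtain ⟨a, ha⟩ : ∃ a : ℕ → ℂ, a = mk zl := ⟨_, rfl⟩
  have haC : a ∈ CMul := by rw [ha]; exact mk_CMul hzl1
  have ha1 : ∀ n, ‖a n‖ ≤ 1 := by
    intro n
    rcases Nat.eq_zero_or_pos n with rfl | hn
    · rw [haC.1, norm_zero]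
      exact zero_le_one
    · exact (haC.2.2 n hn.ne').le
  obtain ⟨M, hM⟩ : ∃ M : ℕ → ℕ, ∀ j, M j = Nj (j + 1) := ⟨_, fun _ => rfl⟩
  have hMge : ∀ j, j ≤ M j := fun j => by
    rw [hM]
    have := hNge (j + 1)
    omega
  have hM3 : ∀ j, 3 ≤ M j := fun j => by
    rw [hM]
    have := g1 j
    omega
  have hMK : ∀ j, K j ≤ M j := fun j => by
    rw [hM]
    have := g1 j
    omega
  have hlogM : ∀ j, 1 ≤ Real.log (M j) := fun j => by
    have h3 : (3 : ℝ) ≤ M j := by exact_mod_cast hM3 j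
    rw [Real.le_log_iff_exp_le (by linarith)]
    linarith [Real.exp_one_lt_three]
  -- the error
  have herr : ∀ j H, H ≤ K j → ∑ n ∈ Icc 1 (M j), (1 / (n : ℝ)) *
      ∑ h ∈ Icc 1 H, ‖arch (Tf j (sq j)) (n + h) - 1 * a (n + h)‖ ≤
      c' / (2 * ((K j : ℝ) + 1) ^ 2) * Real.log (M j) := by
    intro j H hH
    have e1 := stage (z := zl) hzl1 (T := Tf j (sq j)) (hδ0 j (Nj j)).le (M := 2 * Nj j) (N := M j)
      (fun p hp hpp => by
        rw [hlim j p hp, hzj, hNj]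
        exact hf3 j (sq j) p (by rwa [hNj] at hp) hpp)
      (fun p hp1 hp2 => by
        rw [hlim (j + 1) p (by rwa [hM] at hp2), hzj, hsq]
        exact hf4 j (sq j) p (by rwa [hNj] at hp1))
      (hH.trans (hMK j)) (hM3 j)
    rw [ha]
    refine e1.trans ?_
    apply mul_le_mul_of_nonneg_right _ (by linarith [hlogM j])
    have hHr : (H : ℝ) ≤ K j := by exact_mod_cast hH
    have hK0 : (0 : ℝ) ≤ K j := Nat.cast_nonneg _
    have hH0 : (0 : ℝ) ≤ H := Nat.cast_nonneg _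
    have hN0 : (0 : ℝ) ≤ Nj j := Nat.cast_nonneg _
    have e2 : 3 * (H : ℝ) * (H + 1) ≤ 3 * ((K j : ℝ) + 1) ^ 2 := by nlinarith
    have e3 : ((2 * Nj j : ℕ) : ℝ) * δ j (Nj j) ≤ c' / (6 * ((K j : ℝ) + 1) ^ 4) := by
      rw [hδ]
      push_cast
      rw [mul_div_assoc', div_le_div_iff₀ (by positivity) (by positivity)]
      have : 0 ≤ c' * (6 * ((K j : ℝ) + 1) ^ 4) := by positivity
      nlinarith
    have e4 : 0 ≤ ((2 * Nj j : ℕ) : ℝ) * δ j (Nj j) :=
      mul_nonneg (Nat.cast_nonneg _) (hδ0 _ _).le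
    calc 3 * (H : ℝ) * (H + 1) * ((2 * Nj j : ℕ) : ℝ) * δ j (Nj j)
        = (3 * (H : ℝ) * (H + 1)) * (((2 * Nj j : ℕ) : ℝ) * δ j (Nj j)) := by ring
      _ ≤ (3 * ((K j : ℝ) + 1) ^ 2) * (c' / (6 * ((K j : ℝ) + 1) ^ 4)) :=
          mul_le_mul e2 e3 e4 (by positivity)
      _ = _ := by
          field_simp
          ring
  have harch1 : ∀ T n, ‖arch T n‖ ≤ 1 := fun T n => (norm_arch T n).le
  refine ⟨a, haC, M, ?_, ?_, ?_⟩
  · exact Filter.tendsto_atTop_mono hMge Filter.tendsto_id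
  · -- the averages of degree at most `σ` vanish
    intro Q ε hε
    obtain ⟨i, hi⟩ : ∃ i : ℕ, i = Q + ⌈3 / ε⌉₊ := ⟨_, rfl⟩
    refine ⟨Lf i, hLf i, ?_⟩
    filter_upwards [Filter.eventually_ge_atTop i] with j hj
    have e1 := (hC (M j) (Lf i) (arch (Tf j (sq j))) a (fun _ => 1)
      (fun n => ∑ h ∈ Icc 1 (Lf i), ‖arch (Tf j (sq j)) (n + h) - 1 * a (n + h)‖)
      (fun _ => by simp) (harch1 _) ha1 (fun n _ => by
        refine le_of_eq (sum_congr rfl fun h _ => ?_)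
        rw [one_mul, one_mul, norm_sub_rev])).2 σ i
    have e2 := herr j (Lf i) (hKL j i hj)
    have e3 : UU σ i (Lf i) (M j) (arch (Tf j (sq j))) ≤
        2 / ((i : ℝ) + 1) * Lf i * Real.log (M j) := by
      have := hf6 j (sq j) i hj
      rw [← hsq, ← hNj, ← hM] at this
      exact this
    have e4 := UU_mono (show Q ≤ i by omega) σ (Lf i) (M j) a
    have hi0 : (0 : ℝ) ≤ i := Nat.cast_nonneg _
    have hL1 : (1 : ℝ) ≤ Lf i := by exact_mod_cast hLf i
    have hlM := hlogM j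
    have e5 : (i : ℝ) * (c' / (2 * ((K j : ℝ) + 1) ^ 2) * Real.log (M j)) ≤
        1 / ((i : ℝ) + 1) * Lf i * Real.log (M j) := by
      rw [← mul_assoc]
      apply mul_le_mul_of_nonneg_right _ (by linarith)
      have hiK : (i : ℝ) ≤ K j := by exact_mod_cast hj.trans (hKj j)
      have e6 : (i : ℝ) * (c' / (2 * ((K j : ℝ) + 1) ^ 2)) ≤ 1 / ((i : ℝ) + 1) := by
        rw [mul_div_assoc', div_le_div_iff₀ (by positivity) (by positivity)]
        have : (i : ℝ) * c' ≤ i * 1 := by gcongr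
        nlinarith
      calc (i : ℝ) * (c' / (2 * ((K j : ℝ) + 1) ^ 2)) ≤ 1 / ((i : ℝ) + 1) * 1 := by
            rw [mul_one]; exact e6
        _ ≤ _ := by gcongr
    have e7 : (i : ℝ) * ∑ n ∈ Icc 1 (M j), (1 / (n : ℝ)) *
        ∑ h ∈ Icc 1 (Lf i), ‖arch (Tf j (sq j)) (n + h) - 1 * a (n + h)‖ ≤
        1 / ((i : ℝ) + 1) * Lf i * Real.log (M j) :=
      (mul_le_mul_of_nonneg_left e2 hi0).trans e5
    have e8 : 3 / ((i : ℝ) + 1) ≤ ε := by
      rw [div_le_iff₀ (by positivity)]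
      have h1 : 3 / ε ≤ i := by
        refine (Nat.le_ceil _).trans ?_
        rw [hi]
        exact_mod_cast Nat.le_add_left _ _
      rw [div_le_iff₀ hε] at h1
      nlinarith
    calc UU σ Q (Lf i) (M j) a ≤ UU σ i (Lf i) (M j) a := e4
      _ ≤ 2 / ((i : ℝ) + 1) * Lf i * Real.log (M j) + 1 / ((i : ℝ) + 1) * Lf i * Real.log (M j) := by
          linarith
      _ = 3 / ((i : ℝ) + 1) * (Lf i * Real.log (M j)) := by ring
      _ ≤ ε * (Lf i * Real.log (M j)) := by gcongr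
      _ = _ := by ring
  · -- the average for `B` does not
    intro hU
    obtain ⟨H₀, hH₀⟩ := hU (c / 4) (by positivity)
    obtain ⟨H, hH⟩ : ∃ H : ℕ, H = H₀ + H₁ + 1 := ⟨_, rfl⟩
    obtain ⟨j, hj1, hj2⟩ := ((hH₀ H (by omega)).and (Filter.eventually_ge_atTop H)).exists
    have e1 := (hC (M j) H a (arch (Tf j (sq j))) (fun _ => 1)
      (fun n => ∑ h ∈ Icc 1 H, ‖arch (Tf j (sq j)) (n + h) - 1 * a (n + h)‖)
      (fun _ => by simp) ha1 (harch1 _) (fun n _ => le_rfl)).1 t B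
    have e1' := (hC (M j) H (arch (Tf j (sq j))) a (fun _ => 1)
      (fun n => ∑ h ∈ Icc 1 H, ‖arch (Tf j (sq j)) (n + h) - 1 * a (n + h)‖)
      (fun _ => by simp) (harch1 _) ha1 (fun n _ => by
        refine le_of_eq (sum_congr rfl fun h _ => ?_)
        rw [one_mul, one_mul, norm_sub_rev])).1 t B
    have e2 := herr j H (hj2.trans (hKj j))
    have e3 : c * H * Real.log (M j) ≤ SA (arch (Tf j (sq j))) B (M j) H := by
      have := hf5 j (sq j) H (by omega) hj2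
      rw [← hsq, ← hNj, ← hM] at this
      exact this
    have hlM := hlogM j
    have hH1 : (1 : ℝ) ≤ H := by
      have : 1 ≤ H := by omega
      exact_mod_cast this
    have e4 : c' / (2 * ((K j : ℝ) + 1) ^ 2) ≤ c / 2 * H := by
      have hK0 : (0 : ℝ) ≤ K j := Nat.cast_nonneg _
      have h1 : c' / (2 * ((K j : ℝ) + 1) ^ 2) ≤ c' / 2 := by
        apply div_le_div_of_nonneg_left hc'0.le (by norm_num)
        nlinarith
      have h2 : c / 2 * 1 ≤ c / 2 * H := by gcongr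
      linarith
    have e5 : c' / (2 * ((K j : ℝ) + 1) ^ 2) * Real.log (M j) ≤ c / 2 * H * Real.log (M j) := by
      gcongr
    have e6 : 0 < c * H * Real.log (M j) := by positivity
    nlinarith

end Pool.Agent.UD
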