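import Mathlib
import Pool.Agent.Lib.UD95.Defs3
import Pool.Agent.Lib.MP_663568_q.Q02

/-!
# Row K: the theorem of Kronecker for the logarithms of the primes, relatively dense (MP_663568_nt)
-/

set_option autoImplicit false
open Finset Polynomial MeasureTheory

namespace Pool.Agent.UD

open Pool.Agent.Lib.MP_663568_nt Pool.Agent.Lib.MP_663568_nt.Katai
  Pool.Agent.Lib.MP_663568_nt.Nul Pool.Agent.TU

namespace RowK

/-- The logarithms of the primes are linearly independent over the integers. -/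
lemma log_indep (S : Finset ℕ) (hS : ∀ p ∈ S, p.Prime) (κ : ℕ → ℤ)
    (h : ∑ p ∈ S, (κ p : ℝ) * Real.log p = 0) : ∀ p ∈ S, κ p = 0 := by
  have hpos : ∀ f : ℕ → ℕ, 0 < ∏ p ∈ S, p ^ f p := fun f =>
    Finset.prod_pos fun p hp => pow_pos (hS p hp).pos _
  have hlog : ∀ f : ℕ → ℕ, Real.log ((∏ p ∈ S, p ^ f p : ℕ) : ℝ) =
      ∑ p ∈ S, (f p : ℝ) * Real.log p := by
    intro f
    push_cast
    rw [Real.log_prod fun p hp => ?_]
    · exact sum_congr rfl fun p _ => Real.log_pow _ _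
    · exact pow_ne_zero _ (by exact_mod_cast (hS p hp).ne_zero)
  have hfac : ∀ f : ℕ → ℕ, ∀ p ∈ S, (∏ q ∈ S, q ^ f q).factorization p = f p := by
    intro f p hp
    rw [Nat.factorization_prod fun q hq => pow_ne_zero _ (hS q hq).ne_zero, Finsupp.finset_sum_apply,
      sum_eq_single p]
    · rw [(hS p hp).factorization_pow, Finsupp.single_eq_same]
    · intro q hq hqp
      rw [(hS q hq).factorization_pow, Finsupp.single_eq_of_ne (Ne.symm hqp)]
    · intro h0; exact absurd hp h0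
  have hab : ∏ p ∈ S, p ^ (κ p).toNat = ∏ p ∈ S, p ^ (-κ p).toNat := by
    have h1 : Real.log ((∏ p ∈ S, p ^ (κ p).toNat : ℕ) : ℝ) =
        Real.log ((∏ p ∈ S, p ^ (-κ p).toNat : ℕ) : ℝ) := by
      rw [hlog fun p => (κ p).toNat, hlog fun p => (-κ p).toNat, ← sub_eq_zero,
        ← Finset.sum_sub_distrib, ← h]
      refine sum_congr rfl fun p _ => ?_
      rw [← sub_mul]
      congr 1
      have h2 : (((κ p).toNat : ℤ) : ℝ) - (((-κ p).toNat : ℤ) : ℝ) = ((κ p : ℤ) : ℝ) := by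
        rw [← Int.cast_sub]
        congr 1
        omega
      exact_mod_cast h2
    have h2 := Real.log_injOn_pos (Set.mem_Ioi.2 (by exact_mod_cast hpos fun p => (κ p).toNat))
      (Set.mem_Ioi.2 (by exact_mod_cast hpos fun p => (-κ p).toNat)) h1
    exact_mod_cast h2
  intro p hp
  have h1 := hfac (fun p => (κ p).toNat) p hp
  have h2 := hfac (fun p => (-κ p).toNat) p hp
  rw [hab, h2] at h1
  omega

/-- A finite family of positive numbers has a positive lower bound. -/
lemma exists_low {ι : Type} (S : Finset ι) (f : ι → ℝ) (hf : ∀ i ∈ S, 0 < f i) :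
    ∃ τ : ℝ, 0 < τ ∧ τ ≤ 1 ∧ ∀ i ∈ S, τ ≤ f i := by
  classical
  induction S using Finset.induction_on with
  | empty => exact ⟨1, one_pos, le_rfl, by simp⟩
  | insert a s _ ih =>
    obtain ⟨τ, h0, h1, h2⟩ := ih fun i hi => hf i (mem_insert_of_mem hi)
    refine ⟨min τ (f a), lt_min h0 (hf a (mem_insert_self _ _)), (min_le_left _ _).trans h1, ?_⟩
    intro i hi
    rcases mem_insert.1 hi with rfl | hi
    · exact min_le_right _ _
    · exact (min_le_left _ _).trans (h2 i hi)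

lemma norm_ee_sub_one (y : ℝ) : ‖ee y - 1‖ ≤ 2 * Real.pi * nd y := by
  obtain ⟨n, hn⟩ := nd_exists y
  have h1 : ee y = ee (y - n) := by rw [ee_sub, ee_int, map_one, mul_one]
  rw [h1, hn, ee, show (2 * Real.pi * Complex.I * ((y - n : ℝ) : ℂ) : ℂ) =
    Complex.I * ((2 * Real.pi * (y - n) : ℝ) : ℂ) by push_cast; ring]
  refine (Real.norm_exp_I_mul_ofReal_sub_one_le).trans (le_of_eq ?_)
  rw [Real.norm_eq_abs, abs_mul, abs_of_pos Real.two_pi_pos]

end RowK

open RowK in
theorem rowK : K_stmt := by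
  intro M z hz δ hδ
  have hpi := Real.pi_pos
  set S : Finset ℕ := (Icc 1 M).filter Nat.Prime with hS
  have hSp : ∀ p ∈ S, p.Prime := fun p hp => (mem_filter.1 hp).2
  obtain ⟨K, hK1, hK⟩ := Q.kr (σ := {p // p ∈ S}) (δ / (2 * Real.pi)) (by positivity)
  -- the step
  set A : ℝ := ∑ s : {p // p ∈ S}, Real.log (s : ℕ) with hA
  have hlog0 : ∀ s : {p // p ∈ S}, 0 ≤ Real.log (s : ℕ) := fun s =>
    Real.log_nonneg (by exact_mod_cast (hSp s s.2).one_le)
  have hA0 : 0 ≤ A := sum_nonneg fun s _ => hlog0 s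
  set h : ℝ := 1 / (K * A + 1) with hh
  have hKA : (0 : ℝ) ≤ K * A := by positivity
  have hh0 : 0 < h := by positivity
  set θ : {p // p ∈ S} → ℝ := fun s => h * Real.log (s : ℕ) / (2 * Real.pi) with hθ
  have hsmall : ∀ κ : {p // p ∈ S} → ℤ, (∀ s, |κ s| ≤ (K : ℤ)) →
      |∑ s, (κ s : ℝ) * θ s| ≤ 1 / 2 := by
    intro κ hκ
    have h1 : |∑ s, (κ s : ℝ) * θ s| ≤ ∑ s : {p // p ∈ S}, (K : ℝ) * θ s := by
      refine (abs_sum_le_sum_abs _ _).trans (sum_le_sum fun s _ => ?_)
      have hθ0 : 0 ≤ θ s := div_nonneg (mul_nonneg hh0.le (hlog0 s)) (by positivity)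
      rw [abs_mul, abs_of_nonneg hθ0]
      refine mul_le_mul_of_nonneg_right ?_ hθ0
      exact_mod_cast hκ s
    have h2 : ∑ s : {p // p ∈ S}, (K : ℝ) * θ s = (K * A) * h / (2 * Real.pi) := by
      rw [← mul_sum, hθ]
      simp only [mul_div_assoc]
      rw [← mul_sum, hA, ← sum_div]
      ring
    have h3 : (K * A) * h ≤ 1 := by
      rw [hh, mul_one_div, div_le_one (by positivity)]
      linarith
    rw [h2] at h1
    refine h1.trans ((div_le_div_of_nonneg_right h3 (by positivity)).trans ?_)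
    rw [div_le_div_iff₀ (by positivity) (by norm_num)]
    have := Real.pi_gt_three
    nlinarith
  -- the lower bound of the nonzero relations
  have hne : ∀ κ : {p // p ∈ S} → ℤ, κ ≠ 0 → ∑ s, (κ s : ℝ) * θ s ≠ 0 := by
    intro κ hκ h0
    apply hκ
    set κ' : ℕ → ℤ := fun p => if hp : p ∈ S then κ ⟨p, hp⟩ else 0 with hκ'
    have h1 : ∑ p ∈ S, (κ' p : ℝ) * Real.log p = 0 := by
      rw [← Finset.sum_coe_sort S (fun p => (κ' p : ℝ) * Real.log p)]
      have h2 : ∑ s : {p // p ∈ S}, (κ s : ℝ) * θ s =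
          h / (2 * Real.pi) * ∑ s : {p // p ∈ S}, (κ' s : ℝ) * Real.log (s : ℕ) := by
        rw [mul_sum]
        refine sum_congr rfl fun s _ => ?_
        have : κ' s = κ s := by rw [hκ']; simp
        rw [this, hθ]
        ring
      rw [h0] at h2
      rcases mul_eq_zero.1 h2.symm with h3 | h3
      · exact absurd h3 (by positivity)
      · exact h3
    have h2 := log_indep S hSp κ' h1
    funext s
    have h3 := h2 s s.2
    rw [hκ'] at h3
    simpa using h3
  obtain ⟨τ, hτ0, hτ1, hτ⟩ := exists_low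
    (((Fintype.piFinset fun _ : {p // p ∈ S} => Icc (-(K : ℤ)) K)).filter (fun κ => κ ≠ 0))
    (fun κ => |∑ s, (κ s : ℝ) * θ s|)
    (fun κ hκ => abs_pos.2 (hne κ (mem_filter.1 hκ).2))
  refine ⟨2 * (K / τ) * h, by positivity, fun T₀ => ?_⟩
  set T₁ : ℝ := T₀ + K / τ * h with hT₁
  set tt : {p // p ∈ S} → ℝ := fun s =>
    (Complex.arg (z s) - T₁ * Real.log (s : ℕ)) / (2 * Real.pi) with htt
  obtain ⟨r, hr, hr2⟩ := hK τ hτ0 hτ1 θ tt (by
    intro κ hκ
    by_cases h0 : κ = 0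
    · right
      rw [h0]
      simp
    · left
      rw [nd_eq_of_abs_le (hsmall κ hκ)]
      refine hτ κ (mem_filter.2 ⟨?_, h0⟩)
      rw [Fintype.mem_piFinset]
      intro s
      rw [mem_Icc]
      exact abs_le.1 (hκ s))
  have hrh : |(r : ℝ) * h| ≤ K / τ * h := by
    rw [abs_mul, abs_of_pos hh0]
    exact mul_le_mul_of_nonneg_right hr hh0.le
  rw [abs_le] at hrh
  refine ⟨T₁ + r * h, by rw [hT₁]; linarith [hrh.1], by rw [hT₁]; linarith [hrh.2], ?_⟩
  intro p hpM hp
  have hpS : p ∈ S := mem_filter.2 ⟨mem_Icc.2 ⟨hp.one_le, hpM⟩, hp⟩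
  have h1 := hr2 ⟨p, hpS⟩
  set y : ℝ := (r : ℝ) * θ ⟨p, hpS⟩ - tt ⟨p, hpS⟩ with hy
  have hy2 : 2 * Real.pi * y = (T₁ + r * h) * Real.log p - Complex.arg (z p) := by
    rw [hy, hθ, htt]
    field_simp
    ring
  have h3 : arch (T₁ + r * h) p = z p * ee y := by
    have h4 : z p = Complex.exp (Complex.arg (z p) * Complex.I) := by
      conv_lhs => rw [← Complex.norm_mul_exp_arg_mul_I (z p)]
      rw [hz p]
      simp
    have h5 : ee y = Complex.exp ((((T₁ + r * h) * Real.log p - Complex.arg (z p) : ℝ) : ℂ) *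
        Complex.I) := by
      rw [← hy2, ee]
      congr 1
      push_cast
      ring
    have h7 : z p * ee y = Complex.exp (Complex.arg (z p) * Complex.I) * ee y := by rw [← h4]
    rw [h7, h5, ← Complex.exp_add, arch]
    congr 1
    push_cast
    ring
  have h6 : z p - arch (T₁ + r * h) p = - (z p * (ee y - 1)) := by rw [h3]; ring
  rw [h6, norm_neg, norm_mul, hz p, one_mul]
  refine (norm_ee_sub_one y).trans ?_
  calc 2 * Real.pi * nd y ≤ 2 * Real.pi * (δ / (2 * Real.pi)) :=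
        mul_le_mul_of_nonneg_left h1 (by positivity)
    _ = δ := by field_simp

end Pool.Agent.UD
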