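import Pool.Agent.Lib.UD95.Defs3

/-!
# Row LIFT: a good `T` with prescribed values at the small primes
-/

set_option autoImplicit false
open Finset Polynomial MeasureTheory

namespace Pool.Agent.UD

open Pool.Agent.Lib.MP_663568_nt Pool.Agent.Lib.MP_663568_nt.Katai
  Pool.Agent.Lib.MP_663568_nt.Nul Pool.Agent.TU

namespace Lift

lemma norm_arch (T : ℝ) (n : ℕ) : ‖arch T n‖ = 1 := by
  unfold arch
  exact Complex.norm_exp_ofReal_mul_I _

lemma arch_add (T S : ℝ) (n : ℕ) : arch (T + S) n = arch S n * arch T n := by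
  unfold arch
  rw [← Complex.exp_add]
  congr 1
  push_cast
  ring

lemma arch_sub_le {S R : ℝ} (h0 : 0 ≤ S) (hS : S ≤ R) {n : ℕ} (hn : 1 ≤ n) (h : ℕ) :
    ‖arch S (n + h) - arch S n‖ ≤ R * h / n := by
  have hn' : (0 : ℝ) < n := by exact_mod_cast hn
  have e1 : arch S (n + h) - arch S n = arch S n *
      (Complex.exp (Complex.I * ((S * (Real.log ((n + h : ℕ) : ℝ) - Real.log n) : ℝ) : ℂ)) - 1) := by
    unfold arch
    rw [mul_sub, mul_one, ← Complex.exp_add]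
    congr 2
    push_cast
    ring
  rw [e1, norm_mul, norm_arch, one_mul]
  refine Real.norm_exp_I_mul_ofReal_sub_one_le.trans ?_
  have e2 : Real.log ((n + h : ℕ) : ℝ) - Real.log n = Real.log (1 + h / n) := by
    rw [← Real.log_div (by positivity) hn'.ne']
    congr 1
    push_cast
    field_simp
  have e3 : 0 ≤ Real.log (1 + (h : ℝ) / n) := Real.log_nonneg (by
    have : (0 : ℝ) ≤ h / n := by positivity
    linarith)
  have e4 : Real.log (1 + (h : ℝ) / n) ≤ h / n := by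
    have := Real.log_le_sub_one_of_pos (x := 1 + (h : ℝ) / n) (by positivity)
    linarith
  rw [e2, Real.norm_of_nonneg (mul_nonneg h0 e3), mul_div_assoc]
  exact mul_le_mul hS e4 e3 (h0.trans hS)

lemma sum_window {S R : ℝ} (h0 : 0 ≤ S) (hS : S ≤ R) (T₀ : ℝ) (H : ℕ) {n : ℕ} (hn : 1 ≤ n) :
    ∑ h ∈ Icc 1 H, ‖arch (T₀ + S) (n + h) - arch S n * arch T₀ (n + h)‖ ≤ R * H ^ 2 / n := by
  have hn' : (0 : ℝ) < n := by exact_mod_cast hn
  have hR : 0 ≤ R := h0.trans hS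
  have h1 : ∀ h ∈ Icc 1 H, ‖arch (T₀ + S) (n + h) - arch S n * arch T₀ (n + h)‖ ≤ R * H / n := by
    intro h hh
    have e : arch (T₀ + S) (n + h) - arch S n * arch T₀ (n + h) =
        (arch S (n + h) - arch S n) * arch T₀ (n + h) := by
      rw [arch_add]
      ring
    rw [e, norm_mul, norm_arch, mul_one]
    refine (arch_sub_le h0 hS hn h).trans ?_
    have : (h : ℝ) ≤ H := by exact_mod_cast (mem_Icc.1 hh).2
    gcongr
  refine (sum_le_card_nsmul _ _ _ h1).trans (le_of_eq ?_)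
  rw [Nat.card_Icc, nsmul_eq_mul]
  rw [Nat.add_sub_cancel]
  ring

lemma sum_inv_sq (N : ℕ) : ∑ n ∈ Icc 1 N, (1 : ℝ) / n ^ 2 ≤ 2 := by
  have h := sum_Ioo_inv_sq_le (α := ℝ) 0 (N + 1)
  have e : Ioo 0 (N + 1) = Icc 1 N := by
    ext x
    simp only [mem_Ioo, mem_Icc]
    omega
  rw [e] at h
  simpa using h

lemma sum_E (R : ℝ) (hR : 0 ≤ R) (H N : ℕ) :
    ∑ n ∈ Icc 1 N, (1 / (n : ℝ)) * (R * H ^ 2 / n) ≤ 2 * R * H ^ 2 := by
  have h1 := sum_inv_sq N
  have e : ∑ n ∈ Icc 1 N, (1 / (n : ℝ)) * (R * H ^ 2 / n) =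
      R * H ^ 2 * ∑ n ∈ Icc 1 N, (1 : ℝ) / n ^ 2 := by
    rw [mul_sum]
    exact sum_congr rfl fun n _ => by ring
  rw [e]
  calc R * H ^ 2 * ∑ n ∈ Icc 1 N, (1 : ℝ) / n ^ 2 ≤ R * H ^ 2 * 2 :=
        mul_le_mul_of_nonneg_left h1 (by positivity)
    _ = _ := by ring

end Lift

theorem rowLift (hK : K_stmt) (hC : Cmp_stmt) (hS : Sel_stmt) : Lift_stmt := by
  intro t ht σ B hB hP hN
  obtain ⟨c, hc, H₁, Lf, hLf, hsel⟩ := hS t ht σ B hB hP hN
  refine ⟨c / 2, by positivity, H₁, Lf, hLf, ?_⟩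
  intro J M z hz δ hδ N₀
  obtain ⟨R, hR, hKr⟩ := hK M z hz δ hδ
  set W : ℝ := 4 * R * J / c + ∑ i ∈ range (J + 1), 2 * i * (i + 1) * R * Lf i with hW
  obtain ⟨N, hNN, T₀, hsa, huu⟩ := hsel J (max N₀ (⌈Real.exp W⌉₊ + 1))
  have hN0 : N₀ ≤ N := (le_max_left _ _).trans hNN
  have hN1 : ⌈Real.exp W⌉₊ + 1 ≤ N := (le_max_right _ _).trans hNN
  have hlog : W ≤ Real.log N := by
    have h1 : Real.exp W ≤ N := by
      have h2 := Nat.le_ceil (Real.exp W)
      have h3 : ((⌈Real.exp W⌉₊ : ℕ) : ℝ) + 1 ≤ N := by exact_mod_cast hN1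
      linarith
    have h4 := Real.log_le_log (Real.exp_pos W) h1
    rwa [Real.log_exp] at h4
  obtain ⟨T, hT0, hTR, hT⟩ := hKr T₀
  have hs0 : 0 ≤ T - T₀ := by linarith
  have hsR : T - T₀ ≤ R := by linarith
  have hcmp := fun H : ℕ => hC N H (arch T₀) (arch T) (arch (T - T₀)) (fun n => R * H ^ 2 / n)
    (fun n => Lift.norm_arch _ _) (fun n => (Lift.norm_arch _ _).le)
    (fun n => (Lift.norm_arch _ _).le) (fun n hn => by
      have := Lift.sum_window hs0 hsR T₀ H (mem_Icc.1 hn).1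
      rwa [add_sub_cancel] at this)
  have hnn1 : ∀ i ∈ range (J + 1), (0 : ℝ) ≤ 2 * i * (i + 1) * R * Lf i := fun i _ => by positivity
  have hnn2 : (0 : ℝ) ≤ 4 * R * J / c := by positivity
  refine ⟨N, hN0, T, hT, ?_, ?_⟩
  · intro H h1 h2
    have e1 := (hcmp H).1 t B
    have e2 := Lift.sum_E R hR.le H N
    have e3 := hsa H h1 h2
    have hHJ : (H : ℝ) ≤ J := by exact_mod_cast h2
    have e4 : 4 * R * H / c ≤ Real.log N := by
      refine le_trans ?_ hlog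
      have : 4 * R * H / c ≤ 4 * R * J / c := by gcongr
      have := sum_nonneg hnn1
      linarith
    have e5 : 2 * R * (H : ℝ) ^ 2 ≤ c / 2 * H * Real.log N := by
      rw [div_le_iff₀ hc] at e4
      have : (0 : ℝ) ≤ H := by positivity
      nlinarith
    linarith
  · intro i hi
    have e1 := (hcmp (Lf i)).2 σ i
    have e2 := Lift.sum_E R hR.le (Lf i) N
    have e3 := huu i hi
    have e4 : 2 * i * (i + 1) * R * Lf i ≤ Real.log N := by
      refine le_trans ?_ hlog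
      have := single_le_sum hnn1 (mem_range.2 (Nat.lt_succ_of_le hi))
      linarith
    have e5 : (i : ℝ) * (2 * R * (Lf i : ℝ) ^ 2) ≤ 1 / ((i : ℝ) + 1) * Lf i * Real.log N := by
      have hi1 : (0 : ℝ) < (i : ℝ) + 1 := by positivity
      have hl : (0 : ℝ) ≤ Lf i := by positivity
      have e6 : (i : ℝ) * (2 * R * (Lf i : ℝ) ^ 2) =
          1 / ((i : ℝ) + 1) * Lf i * (2 * i * (i + 1) * R * Lf i) := by
        field_simp
      rw [e6]
      exact mul_le_mul_of_nonneg_left e4 (by positivity)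
    have e7 : (i : ℝ) * ∑ n ∈ Icc 1 N, (1 / (n : ℝ)) * (R * (Lf i : ℝ) ^ 2 / n) ≤
        (i : ℝ) * (2 * R * (Lf i : ℝ) ^ 2) := mul_le_mul_of_nonneg_left e2 (by positivity)
    have e8 : 2 / ((i : ℝ) + 1) * Lf i * Real.log N =
        1 / ((i : ℝ) + 1) * Lf i * Real.log N + 1 / ((i : ℝ) + 1) * Lf i * Real.log N := by ring
    rw [e8]
    linarith

end Pool.Agent.UD
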