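import Mathlib
import Pool.Agent.Lib.UD95.AP
import Pool.Agent.Lib.TU.G4
import Pool.Agent.Lib.TU.G

/-!
# Universal dichotomy (MP_663568_nt), row G: the clusters have small density

Adapted from Lib/TU/G3.lean and Lib/TU/G.lean.
-/

set_option autoImplicit false
open Finset Polynomial MeasureTheory

namespace Pool.Agent.UD

open Pool.Agent.Lib.MP_663568_nt Pool.Agent.Lib.MP_663568_nt.Katai
  Pool.Agent.Lib.MP_663568_nt.Nul Pool.Agent.TU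

lemma norm_sum_a_le (a : ℕ → ℂ) (ha : ∀ n, ‖a n‖ ≤ 1) (l n : ℕ) (f : ℕ → ℝ) :
    ‖∑ h ∈ Icc 1 l, a (n + h) * ee (f h)‖ ≤ l := by
  refine (norm_sum_le _ _).trans ?_
  calc ∑ h ∈ Icc 1 l, ‖a (n + h) * ee (f h)‖ ≤ ∑ h ∈ Icc 1 l, (1 : ℝ) := by
        refine sum_le_sum fun h _ => ?_
        rw [norm_mul, norm_ee, mul_one]
        exact ha _
    _ = l := by simp

lemma le_FA (a : ℕ → ℂ) (ha : ∀ n, ‖a n‖ ≤ 1) (s : ℕ) (T : Set ℝ) (ρ : ℝ) (l n : ℕ) (P : ℝ[X])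
    (hP : Fam s T ρ P) :
    ‖∑ h ∈ Icc 1 l, a (n + h) * ee (P.eval (h : ℝ))‖ ≤ FA a s T ρ l n := by
  unfold FA
  have hb : BddAbove (Set.range fun P : {P : ℝ[X] // P.natDegree ≤ s ∧
      ∃ x ∈ T, |P.coeff s - x| ≤ ρ} =>
      ‖∑ h ∈ Icc 1 l, a (n + h) * ee ((P : ℝ[X]).eval (h : ℝ))‖) := by
    refine ⟨l, ?_⟩
    rintro _ ⟨P, rfl⟩
    exact norm_sum_a_le a ha l n fun h => (P : ℝ[X]).eval (h : ℝ)
  exact le_ciSup hb ⟨P, hP⟩

lemma FA_nonneg (a : ℕ → ℂ) (s : ℕ) (T : Set ℝ) (ρ : ℝ) (l n : ℕ) : 0 ≤ FA a s T ρ l n :=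
  Real.iSup_nonneg fun _ => norm_nonneg _

open Classical in
/-- The terminal case. -/
lemma terminalA (a : ℕ → ℂ) (ha : ∀ n, ‖a n‖ ≤ 1) {t s D e l : ℕ} (hst : s ≤ t) (hD : 1 ≤ D) (he : 1 ≤ e)
    {T : Set ℝ} (hT : ∀ x ∈ T, ∀ z : ℤ, x + (z : ℝ) / D ∈ T) {Q c c₅ ρ₃ ρ ρ₄ : ℝ}
    (hQ : 0 ≤ Q) (hρ₃ : 0 ≤ ρ₃) (hρρ : ρ + (t + 1) * (2 * e) ^ t * ρ₃ ≤ ρ₄)
    {H M : ℕ} (hM : 1 ≤ M) (hMH : M ≤ H) (hHM : H ≤ 2 * e * M)
    (hE : ∀ g : ℝ[X], g.natDegree ≤ t →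
      (∀ j, 1 ≤ j → |g.coeff j| * (M : ℝ) ^ j ≤ 2 ^ (2 * t) * Q) →
      c₅ * M ≤ #{k ∈ Icc 1 M | ∃ x ∈ T, |g.eval ((k : ℕ) : ℝ) - x| ≤ ρ} →
      ∀ j, 1 ≤ j → |g.coeff j| * (M : ℝ) ^ j ≤ ρ₃) (hc₅ : 0 < c₅)
    (hF : ∀ b : ℕ → ℂ, (∀ n, ‖b n‖ ≤ 1) →
      ∀ R : ℝ[X], R.natDegree ≤ t → Near t s D Q H R →
      c * H ≤ ‖∑ y ∈ Icc 1 H, b y * ee (R.eval (y : ℝ))‖ →
      ∃ P : ℕ → ℝ[X], (∀ y, (P y).natDegree ≤ s ∧
          ∃ z : ℤ, (P y).coeff s = (taylor (y : ℝ) R).coeff s + (z : ℝ) / D) ∧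
        c / 2 * H * l ≤ D * ∑ y ∈ Icc 1 H, ‖∑ h ∈ Icc 1 l, b (y + h) * ee ((P y).eval (h : ℝ))‖)
    {m : ℕ} {R : ℝ[X]} (hR : R.natDegree ≤ t) (hN : Near t s D Q H R)
    (hcor : c * H ≤ ‖∑ y ∈ Icc 1 H, a (m + y) * ee (R.eval (y : ℝ))‖)
    (hmany : c₅ * M ≤ #{k ∈ Icc 1 M | ∃ i : Fin t, i.val + 1 = s ∧
      ∃ x ∈ T, |tv t R ((k : ℕ) : ℝ) i - x| ≤ ρ}) :
    c / 2 * H * l ≤ D * ∑ y ∈ Icc 1 H, FA a s T ρ₄ l (m + y) := by
  have hM0 : (0 : ℝ) < M := by exact_mod_cast hM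
  set g := slow t s D R with hg
  -- the slow part is close to `T` as often
  have hT' : ∀ x ∈ T, ∀ z : ℤ, x - (z : ℝ) / D ∈ T := by
    intro x hx z
    have := hT x hx (-z)
    push_cast at this
    rw [sub_eq_add_neg, ← neg_div]
    exact this
  have hsub : {k ∈ Icc 1 M | ∃ i : Fin t, i.val + 1 = s ∧ ∃ x ∈ T, |tv t R ((k : ℕ) : ℝ) i - x| ≤ ρ} ⊆
      {k ∈ Icc 1 M | ∃ x ∈ T, |g.eval ((k : ℕ) : ℝ) - x| ≤ ρ} := by
    intro k hk
    rw [mem_filter] at hk ⊢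
    refine ⟨hk.1, ?_⟩
    obtain ⟨i, hi, x, hx, hxk⟩ := hk.2
    obtain ⟨z, hz⟩ := slow_eval (s := s) (D := D) hR k
    refine ⟨x - (z : ℝ) / D, hT' x hx z, ?_⟩
    unfold tv at hxk
    rw [hi, hz] at hxk
    rw [show g.eval ((k : ℕ) : ℝ) - (x - (z : ℝ) / D) = g.eval ((k : ℕ) : ℝ) + (z : ℝ) / D - x by ring]
    exact hxk
  have hcard : c₅ * M ≤ #{k ∈ Icc 1 M | ∃ x ∈ T, |g.eval ((k : ℕ) : ℝ) - x| ≤ ρ} :=
    hmany.trans (by exact_mod_cast card_le_card hsub)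
  have hsmall := hE g (slow_natDegree t s D R)
    (fun j hj => slow_bound hD hQ hM hMH hN hR hst j hj) hcard
  -- one point
  obtain ⟨k₀, hk₀⟩ : {k ∈ Icc 1 M | ∃ x ∈ T, |g.eval ((k : ℕ) : ℝ) - x| ≤ ρ}.Nonempty := by
    rw [← card_pos]
    have : (0 : ℝ) < #{k ∈ Icc 1 M | ∃ x ∈ T, |g.eval ((k : ℕ) : ℝ) - x| ≤ ρ} :=
      lt_of_lt_of_le (by positivity) hcard
    exact_mod_cast this
  rw [mem_filter, mem_Icc] at hk₀
  obtain ⟨⟨-, hk₀M⟩, x₀, hx₀, hx₀k⟩ := hk₀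
  -- all points
  have hall : ∀ y ≤ H, ∀ w : ℤ, ∃ x ∈ T,
      |(taylor ((y : ℕ) : ℝ) R).coeff s + (w : ℝ) / D - x| ≤ ρ₄ := by
    intro y hy w
    obtain ⟨z, hz⟩ := slow_eval (s := s) (D := D) hR y
    have h1 := osc_le hM hHM (slow_natDegree t s D R) hρ₃ he hsmall hy (hk₀M.trans hMH)
    refine ⟨x₀ + ((z + w : ℤ) : ℝ) / D, hT x₀ hx₀ _, ?_⟩
    rw [hz]
    push_cast
    rw [show (slow t s D R).eval (y : ℝ) + (z : ℝ) / D + (w : ℝ) / D - (x₀ + ((z : ℝ) + w) / D) =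
      ((slow t s D R).eval (y : ℝ) - (slow t s D R).eval (k₀ : ℝ)) +
        ((slow t s D R).eval (k₀ : ℝ) - x₀) by ring]
    calc _ ≤ |(slow t s D R).eval (y : ℝ) - (slow t s D R).eval (k₀ : ℝ)| +
          |(slow t s D R).eval (k₀ : ℝ) - x₀| := abs_add_le _ _
      _ ≤ (t + 1) * (2 * e) ^ t * ρ₃ + ρ := add_le_add h1 hx₀k
      _ ≤ ρ₄ := by linarith
  -- the windows
  obtain ⟨P, hP, hsum⟩ := hF (fun y => a (m + y)) (fun _ => ha _) R hR hN hcor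
  refine hsum.trans ?_
  gcongr with y hy
  rw [mem_Icc] at hy
  have h2 : Fam s T ρ₄ (P y) := by
    obtain ⟨w, hw⟩ := (hP y).2
    refine ⟨(hP y).1, ?_⟩
    rw [hw]
    exact hall y hy.2 w
  have h3 := le_FA a ha s T ρ₄ l (m + y) (P y) h2
  simpa only [add_assoc] using h3

/-- **Row G.** -/
theorem rowG (hC : C_stmt) (hD : D_stmt) (hE : E_stmt) (hF : F_stmt) (hS1 : S1_stmt)
    (hS2 : S2_stmt) : G_stmt := by
  classical
  intro t B hB hP hNS c c₄ e K hc hc1 hc₄ he hK s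
  induction s with
  | zero => intro h; omega
  | succ s ih =>
    intro hs1 hst D Q ε hD1 hQ1 hε
    have hDr : (1 : ℝ) ≤ D := by exact_mod_cast hD1
    have hD0 : (0 : ℝ) < D := by linarith
    have her : (1 : ℝ) ≤ e := by exact_mod_cast he
    have hQ0 : (0 : ℝ) ≤ Q := by linarith
    obtain ⟨κ, hκ⟩ : ∃ κ : ℝ, κ = min 1 (c₄ / 4) := ⟨_, rfl⟩
    have hκ0 : 0 < κ := by rw [hκ]; positivity
    have hκ1 : κ ≤ 1 := by rw [hκ]; exact min_le_left _ _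
    have hκc : κ ≤ c₄ / 4 := by rw [hκ]; exact min_le_right _ _
    obtain ⟨T, hTc, hTv, hTinv, hTirr, hmaj⟩ := hC t B hB hP hNS (s + 1) hs1 hst D hD1 κ hκ0 hκ1
    have hTint : ∀ x ∈ T, ∀ z : ℤ, x + (z : ℝ) ∈ T := by
      intro x hx z
      have := hTinv x hx (z * D)
      push_cast at this
      rwa [mul_div_assoc, div_self hD0.ne', mul_one] at this
    obtain ⟨ε₂, hε₂⟩ : ∃ ε₂ : ℝ, ε₂ = c * ε / (32 * D) := ⟨_, rfl⟩
    have hε₂0 : 0 < ε₂ := by rw [hε₂]; positivity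
    obtain ⟨ρ₄, hρ₄, CS, hSl⟩ : ∃ ρ₄ : ℝ, 0 < ρ₄ ∧ ∃ CS : ℕ, ∀ L : ℕ, 1 ≤ L → ∃ l : ℕ, 1 ≤ l ∧
        ∃ N₀ : ℕ, ∀ N : ℕ, N₀ ≤ N → ∀ a ∈ Mult,
        ∑ n ∈ Icc 1 N, (1 / (n : ℝ)) * FA a (s + 1) T ρ₄ l n ≤
          (ε₂ * Real.log N + CS * AP CS L N a / L) * l := by
      rcases Nat.eq_zero_or_pos s with hs0 | hs
      · subst hs0
        exact hS1 T hTc hTv hTint ε₂ hε₂0
      · obtain ⟨ρ, hρ, l, hl, N₀, h⟩ := hS2 (s + 1) (by omega) T hTc hTv hTint (hTirr (by omega))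
          ε₂ hε₂0
        exact ⟨ρ, hρ, 0, fun L _ => ⟨l, hl, N₀, fun N hN a ha => by simpa using h N hN a ha⟩⟩
    obtain ⟨U, hU⟩ : ∃ U : ℝ, U = (t + 1) * (2 * e) ^ t := ⟨_, rfl⟩
    have hU0 : 0 < U := by rw [hU]; positivity
    obtain ⟨ρ₃, hρ₃⟩ : ∃ ρ₃ : ℝ, ρ₃ = ρ₄ / (2 * U) := ⟨_, rfl⟩
    have hρ₃0 : 0 < ρ₃ := by rw [hρ₃]; positivity
    obtain ⟨ρE, hρE, ME, hEE⟩ := hE T hTc hTv hTint t (2 ^ (2 * t) * Q) (c₄ / 4) ρ₃
      (by positivity) (by positivity) hρ₃0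
    obtain ⟨ρ, hρ⟩ : ∃ ρ : ℝ, ρ = min ρE (ρ₄ / 2) := ⟨_, rfl⟩
    have hρ0 : 0 < ρ := by rw [hρ]; positivity
    have hρρE : ρ ≤ ρE := by rw [hρ]; exact min_le_left _ _
    have hρρ₄ : ρ ≤ ρ₄ / 2 := by rw [hρ]; exact min_le_right _ _
    have hρρ : ρ + (t + 1) * (2 * e) ^ t * ρ₃ ≤ ρ₄ := by
      have : (t + 1) * (2 * (e : ℝ)) ^ t * ρ₃ = ρ₄ / 2 := by
        rw [← hU, hρ₃]; field_simp
      rw [this]; linarith
    obtain ⟨ρ', hρ', Λ, w, h0, h1, h2, h3⟩ := hmaj ρ hρ0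
    obtain ⟨W, hW⟩ : ∃ W : ℝ, W = ∑ l ∈ Λ, ‖w l‖ := ⟨_, rfl⟩
    have hW0 : 0 ≤ W := by rw [hW]; exact sum_nonneg fun _ _ => norm_nonneg _
    obtain ⟨δ, hδ⟩ : ∃ δ : ℝ, δ = κ / (W + 1) := ⟨_, rfl⟩
    have hδ0 : 0 < δ := by rw [hδ]; positivity
    have hWδ : (∑ l ∈ Λ, ‖w l‖) * δ ≤ κ := by
      rw [← hW, hδ, mul_div_assoc', div_le_iff₀ (by positivity)]
      nlinarith
    obtain ⟨L, hL⟩ := exists_bound Λ
    -- the triangular lemma
    obtain ⟨D', hD'1, Q', hQ'1, MD, hDD⟩ : ∃ D' : ℕ, 1 ≤ D' ∧ ∃ Q' : ℝ, 1 ≤ Q' ∧ ∃ MD : ℕ,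
        ∀ M : ℕ, MD ≤ M → ∀ R : ℝ[X], R.natDegree ≤ t →
        ∀ l : Fin t → ℤ, (∀ i, |l i| ≤ (L : ℤ)) → ¬ Low (s + 1) l →
        δ * M ≤ ‖∑ k ∈ Icc 1 M, ee (∑ i, (l i : ℝ) * tv t R (k : ℝ) i)‖ →
        1 ≤ s ∧ Near t s D' Q' M R := by
      rcases Nat.eq_zero_or_pos s with rfl | hs
      · refine ⟨1, le_rfl, 1, le_rfl, 0, fun M _ R _ l _ hlow _ => ?_⟩
        exact absurd (fun i hi => absurd hi (by omega)) hlow
      · obtain ⟨D', hD'1, Q', hQ'1, MD, h⟩ := hD t (s + 1) L (by omega) hst δ hδ0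
        refine ⟨D', hD'1, Q', hQ'1, MD, fun M hM R hR l hl1 hl2 hl3 => ⟨hs, ?_⟩⟩
        have := h M hM R hR l hl1 hl2 hl3
        rwa [Nat.add_sub_cancel] at this
    obtain ⟨Q'', hQ''⟩ : ∃ Q'' : ℝ, Q'' = Q' * (2 * e) ^ t := ⟨_, rfl⟩
    have hQ''1 : 1 ≤ Q'' := by
      rw [hQ'']
      have : (1 : ℝ) ≤ (2 * e) ^ t := one_le_pow₀ (by linarith)
      nlinarith
    -- the induction hypothesis
    obtain ⟨CI, hCI⟩ : ∃ CI : ℕ, 1 ≤ s → ∀ L : ℕ, 1 ≤ L → ∃ HI : ℕ, ∀ H N : ℕ, HI ≤ H → H ≤ N →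
        ∀ a ∈ Mult, ∑ m ∈ Icc 1 N with Cl a t s D' B Q'' c c₄ e K H m, (1 / (m : ℝ)) ≤
          ε / 2 * Real.log N + CI * AP CI L N a / L := by
      rcases Nat.eq_zero_or_pos s with rfl | hs
      · exact ⟨0, fun h => absurd h (by omega)⟩
      · obtain ⟨CI, hCI⟩ := ih hs (by omega) D' Q'' (ε / 2) hD'1 hQ''1 (by positivity)
        refine ⟨CI, fun _ L hL => ?_⟩
        obtain ⟨HI, hHI⟩ := hCI L hL
        exact ⟨HI, fun H N h1 h2 a ha => by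
          have := hHI H N h1 h2 a ha
          convert this⟩
    obtain ⟨x₁, hx₁⟩ : ∃ x₁ : ℝ, x₁ = 8 * D / c * CS := ⟨_, rfl⟩
    have hx₁0 : 0 ≤ x₁ := by rw [hx₁]; positivity
    refine ⟨CI + CS + ⌈x₁⌉₊, fun Lw hLw => ?_⟩
    have hLw0 : (0 : ℝ) < Lw := by exact_mod_cast hLw
    obtain ⟨l, hl1, N₀, hSl'⟩ := hSl Lw hLw
    obtain ⟨HI, hHI⟩ : ∃ HI : ℕ, 1 ≤ s → ∀ H N : ℕ, HI ≤ H → H ≤ N →
        ∀ a ∈ Mult, ∑ m ∈ Icc 1 N with Cl a t s D' B Q'' c c₄ e K H m, (1 / (m : ℝ)) ≤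
          ε / 2 * Real.log N + CI * AP CI Lw N a / Lw := by
      by_cases hs : 1 ≤ s
      · obtain ⟨HI, h⟩ := hCI hs Lw hLw
        exact ⟨HI, fun _ => h⟩
      · exact ⟨0, fun h => absurd h hs⟩
    obtain ⟨HF, hFF⟩ := hF t (s + 1) D l hs1 hst hD1 hl1 Q c hQ1 hc hc1
    obtain ⟨Y, hY⟩ : ∃ Y : ℝ, Y = (t + 1) * 2 ^ (2 * t) * Q := ⟨_, rfl⟩
    have hY0 : 0 ≤ Y := by rw [hY]; positivity
    obtain ⟨E, hE⟩ : ∃ E : ℕ, E = ⌈Real.exp (4 * (x₁ * CS) / ε)⌉₊ := ⟨_, rfl⟩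
    refine ⟨HI + HF + e * (ME + MD + 1) + l + 2 + ⌈K / ρ'⌉₊ + ⌈Y / ρ'⌉₊ + N₀ + E,
      fun H N hH hHN a haM => ?_⟩
    have ha := haM.1
    obtain ⟨M, hM⟩ : ∃ M : ℕ, M = H / e := ⟨_, rfl⟩
    have hMe : ME + MD + 1 ≤ M := by
      rw [hM, Nat.le_div_iff_mul_le (by omega)]
      calc (ME + MD + 1) * e = e * (ME + MD + 1) := by ring
        _ ≤ H := by omega
    have hMH : M ≤ H := by rw [hM]; exact Nat.div_le_self _ _
    have hHM : H ≤ 2 * e * M := by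
      have h4 : H < e * (H / e) + e := by
        have := Nat.lt_mul_div_succ H (show 0 < e by omega)
        rw [mul_add, mul_one] at this
        exact this
      rw [← hM] at h4
      have h5 : e ≤ e * M := Nat.le_mul_of_pos_right _ (by omega)
      calc H ≤ e * M + e := h4.le
        _ ≤ e * M + e * M := by omega
        _ = 2 * e * M := by ring
    have hH1 : 1 ≤ H := by omega
    have hH0 : (0 : ℝ) < H := by exact_mod_cast hH1
    have hM0 : (0 : ℝ) < M := by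
      have : 0 < M := by omega
      exact_mod_cast this
    have hMHr : (M : ℝ) ≤ H := by exact_mod_cast hMH
    have hKH : K / H ≤ ρ' := by
      rw [div_le_iff₀ hH0]
      have h4 : K / ρ' ≤ H := (Nat.le_ceil _).trans (by exact_mod_cast (by omega : ⌈K / ρ'⌉₊ ≤ H))
      rw [div_le_iff₀ hρ'] at h4
      linarith
    have hYH : Y / H ≤ ρ' := by
      rw [div_le_iff₀ hH0]
      have h4 : Y / ρ' ≤ H := (Nat.le_ceil _).trans (by exact_mod_cast (by omega : ⌈Y / ρ'⌉₊ ≤ H))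
      rw [div_le_iff₀ hρ'] at h4
      linarith
    -- the cases
    have hcases : ∀ m, Cl a t (s + 1) D B Q c c₄ e K H m →
        (1 ≤ s ∧ Cl a t s D' B Q'' c c₄ e K H m) ∨
        (H ≤ m ∧ c / 2 * H * l ≤ D * ∑ y ∈ Icc 1 H, FA a (s + 1) T ρ₄ l (m + y)) := by
      rintro m ⟨hHm, R, hR, hNear, hcor, hcard⟩
      by_cases hex : ∃ l ∈ Λ, ¬ Low (s + 1) l ∧
          δ * M ≤ ‖∑ k ∈ Icc 1 M, ee (∑ i, (l i : ℝ) * tv t R (k : ℝ) i)‖
      · obtain ⟨l', hl'Λ, hl'low, hl'⟩ := hex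
        obtain ⟨hs, hnear⟩ := hDD M (by omega) R hR l' (hL l' hl'Λ) hl'low hl'
        left
        refine ⟨hs, hHm, R, hR, ?_, hcor, hcard⟩
        rw [hQ'']
        exact near_scale (by omega) he hHM hH1 (by linarith) hnear
      · right
        push Not at hex
        refine ⟨hHm, ?_⟩
        have hup : ∀ k ∈ Icc 1 M, ∀ i : Fin t, s + 1 ≤ i.val →
            ∃ z : ℤ, |tv t R ((k : ℕ) : ℝ) i - (z : ℝ) / D| ≤ ρ' := by
          intro k hk i hi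
          rw [mem_Icc] at hk
          have hi2 := i.isLt
          obtain ⟨z, hz⟩ := upper_near (k := k) hD1 hQ0 hH1 hNear hR (j := i.val + 1) (by omega)
            (by omega) (hk.2.trans hMH)
          refine ⟨z, hz.trans ?_⟩
          rw [← hY]
          exact hYH
        have heq := equi_step B Λ w ρ' ρ κ δ T hκ0.le h0 h1 h2 h3 M
          (fun k => tv t R ((k : ℕ) : ℝ)) hup (fun l' hl' hlow => (hex l' hl' hlow).le) hδ0.le hWδ
        -- the number of good points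
        have hcard2 : c₄ * H ≤ #{k ∈ Icc 1 M | tv t R ((k : ℕ) : ℝ) ∈ Nb B ρ'} := by
          refine hcard.trans ?_
          have h4 : Nat.card {k : ℕ // k ∈ Icc 1 (H / e) ∧ tv t R (k : ℝ) ∈ Nb B (K / H)} =
              #{k ∈ Icc 1 M | tv t R ((k : ℕ) : ℝ) ∈ Nb B (K / H)} := by
            rw [← hM]
            have h40 : (fun k : ℕ => k ∈ Icc 1 M ∧ tv t R (k : ℝ) ∈ Nb B (K / H)) =
                fun k : ℕ => k ∈ {k ∈ Icc 1 M | tv t R ((k : ℕ) : ℝ) ∈ Nb B (K / H)} := by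
              funext k
              rw [mem_filter]
            rw [show {k : ℕ // k ∈ Icc 1 M ∧ tv t R (k : ℝ) ∈ Nb B (K / H)} =
              {k : ℕ // k ∈ {k ∈ Icc 1 M | tv t R ((k : ℕ) : ℝ) ∈ Nb B (K / H)}} from
                congrArg Subtype h40, Nat.card_eq_fintype_card, Fintype.card_coe]
          rw [h4]
          have h5 : {k ∈ Icc 1 M | tv t R ((k : ℕ) : ℝ) ∈ Nb B (K / H)} ⊆
              {k ∈ Icc 1 M | tv t R ((k : ℕ) : ℝ) ∈ Nb B ρ'} := by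
            intro k hk
            rw [mem_filter] at hk ⊢
            refine ⟨hk.1, ?_⟩
            obtain ⟨β, hβ, hk2⟩ := hk.2
            exact ⟨β, hβ, fun i => (hk2 i).trans hKH⟩
          exact_mod_cast card_le_card h5
        have hmany : c₄ / 4 * M ≤ #{k ∈ Icc 1 M | ∃ i : Fin t, i.val + 1 = s + 1 ∧
            ∃ x ∈ T, |tv t R ((k : ℕ) : ℝ) i - x| ≤ ρ} := by
          have h6 := hcard2.trans heq
          have h7 : 2 * κ * M ≤ 2 * (c₄ / 4) * H := by gcongr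
          have h8 : c₄ / 4 * M ≤ c₄ / 4 * H := by gcongr
          linarith
        exact terminalA a ha hst hD1 he hTinv hQ0 hρ₃0.le hρρ (by omega) hMH hHM
          (fun g hg1 hg2 hg3 => hEE M (by omega) g hg1 hg2 (hg3.trans (by
            have : {k ∈ Icc 1 M | ∃ x ∈ T, |g.eval ((k : ℕ) : ℝ) - x| ≤ ρ} ⊆
                {k ∈ Icc 1 M | ∃ x ∈ T, |g.eval ((k : ℕ) : ℝ) - x| ≤ ρE} := by
              intro k hk
              rw [mem_filter] at hk ⊢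
              obtain ⟨hk1, x, hx, hxk⟩ := hk
              exact ⟨hk1, x, hx, hxk.trans hρρE⟩
            exact_mod_cast card_le_card this)))
          (by positivity) (hFF H (by omega)) hR hNear hcor hmany
    -- the sum
    have hlogN : 0 ≤ Real.log N := Real.log_natCast_nonneg _
    have hN2 : 2 ≤ N := by omega
    have hNr : (2 : ℝ) ≤ N := by exact_mod_cast hN2
    have hlog2 : 0 < Real.log ((2 * N : ℕ) : ℝ) := by
      apply Real.log_pos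
      push_cast
      linarith
    obtain ⟨ε₃, hε₃⟩ : ∃ ε₃ : ℝ, ε₃ = ε₂ + CS * AP CS Lw (2 * N) a / Lw /
      Real.log ((2 * N : ℕ) : ℝ) := ⟨_, rfl⟩
    have hAP0 : 0 ≤ AP CS Lw (2 * N) a := AP_nonneg _ _ _ _
    have hε₃0 : 0 ≤ ε₃ := by rw [hε₃]; positivity
    have hterm := term_density (D := D) (l := l) hH1 hHN (by omega) hl1
      (fun n => FA a (s + 1) T ρ₄ l n) (fun n => FA_nonneg _ _ _ _ _ _) hc hε₃0
      (by
        refine (hSl' (2 * N) (by omega) a haM).trans (le_of_eq ?_)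
        rw [hε₃]
        field_simp)
    have hlogle : Real.log N ≤ Real.log ((2 * N : ℕ) : ℝ) := by
      apply Real.log_le_log (by linarith)
      push_cast
      linarith
    have hterm2 : 8 * D / c * ε₃ * Real.log N ≤
        ε / 2 * Real.log N + x₁ * AP CS Lw N a / Lw := by
      have e1 : 8 * D / c * ε₃ * Real.log N = ε / 4 * Real.log N +
          x₁ * (AP CS Lw (2 * N) a / Lw) * (Real.log N / Real.log ((2 * N : ℕ) : ℝ)) := by
        rw [hε₃, hε₂, hx₁]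
        field_simp
        ring
      have e2 : Real.log N / Real.log ((2 * N : ℕ) : ℝ) ≤ 1 := by
        rw [div_le_one hlog2]; exact hlogle
      have e3 : AP CS Lw (2 * N) a / Lw ≤ AP CS Lw N a / Lw + CS := by
        rw [div_add' _ _ _ hLw0.ne']
        exact div_le_div_of_nonneg_right (AP_double CS Lw N ha) hLw0.le
      have e4 : x₁ * CS ≤ ε / 4 * Real.log N := by
        have h5 : Real.exp (4 * (x₁ * CS) / ε) ≤ N := by
          refine (Nat.le_ceil _).trans ?_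
          rw [← hE]
          exact_mod_cast (by omega : E ≤ N)
        have h6 : 4 * (x₁ * CS) / ε ≤ Real.log N := by
          rw [Real.le_log_iff_exp_le (by linarith)]
          exact h5
        rw [div_le_iff₀ hε] at h6
        linarith
      have e5 : 0 ≤ x₁ * (AP CS Lw (2 * N) a / Lw) := by positivity
      calc 8 * D / c * ε₃ * Real.log N = ε / 4 * Real.log N +
          x₁ * (AP CS Lw (2 * N) a / Lw) * (Real.log N / Real.log ((2 * N : ℕ) : ℝ)) := e1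
        _ ≤ ε / 4 * Real.log N + x₁ * (AP CS Lw (2 * N) a / Lw) * 1 := by gcongr
        _ ≤ ε / 4 * Real.log N + x₁ * (AP CS Lw N a / Lw + CS) := by
            rw [mul_one]; gcongr
        _ = ε / 4 * Real.log N + x₁ * CS + x₁ * AP CS Lw N a / Lw := by ring
        _ ≤ ε / 4 * Real.log N + ε / 4 * Real.log N + x₁ * AP CS Lw N a / Lw := by gcongr
        _ = ε / 2 * Real.log N + x₁ * AP CS Lw N a / Lw := by ring
    have hcomb : x₁ * AP CS Lw N a / Lw + CI * AP CI Lw N a / Lw ≤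
        ((CI + CS + ⌈x₁⌉₊ : ℕ) : ℝ) * AP (CI + CS + ⌈x₁⌉₊) Lw N a / Lw := by
      refine AP_comb hx₁0 (by omega) (by omega) ?_ Lw N a
      push_cast
      have := Nat.le_ceil x₁
      have h5 : (0 : ℝ) ≤ CS := Nat.cast_nonneg _
      linarith
    calc ∑ m ∈ Icc 1 N with Cl a t (s + 1) D B Q c c₄ e K H m, (1 / (m : ℝ))
        ≤ ∑ m ∈ ((Icc 1 N).filter fun m => 1 ≤ s ∧ Cl a t s D' B Q'' c c₄ e K H m) ∪
            (Icc 1 N).filter (fun m => H ≤ m ∧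
              c / 2 * H * l ≤ D * ∑ y ∈ Icc 1 H, FA a (s + 1) T ρ₄ l (m + y)), (1 / (m : ℝ)) := by
          apply sum_le_sum_of_subset_of_nonneg
          · intro m hm
            rw [mem_filter] at hm
            rw [mem_union, mem_filter, mem_filter]
            rcases hcases m hm.2 with h | h
            · left; exact ⟨hm.1, h⟩
            · right; exact ⟨hm.1, h⟩
          · intro m _ _
            positivity
      _ ≤ ∑ m ∈ (Icc 1 N).filter (fun m => 1 ≤ s ∧ Cl a t s D' B Q'' c c₄ e K H m),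
            (1 / (m : ℝ)) +
          ∑ m ∈ (Icc 1 N).filter (fun m => H ≤ m ∧
              c / 2 * H * l ≤ D * ∑ y ∈ Icc 1 H, FA a (s + 1) T ρ₄ l (m + y)), (1 / (m : ℝ)) := by
          rw [← sum_union_inter]
          have : 0 ≤ ∑ m ∈ ((Icc 1 N).filter fun m => 1 ≤ s ∧ Cl a t s D' B Q'' c c₄ e K H m) ∩
            (Icc 1 N).filter (fun m => H ≤ m ∧
              c / 2 * H * l ≤ D * ∑ y ∈ Icc 1 H, FA a (s + 1) T ρ₄ l (m + y)), (1 / (m : ℝ)) :=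
            sum_nonneg fun m _ => by positivity
          linarith
      _ ≤ (ε / 2 * Real.log N + CI * AP CI Lw N a / Lw) +
          (ε / 2 * Real.log N + x₁ * AP CS Lw N a / Lw) := by
          apply add_le_add _ (hterm.trans hterm2)
          rcases Nat.eq_zero_or_pos s with hs0 | hs
          · have : (Icc 1 N).filter (fun m => 1 ≤ s ∧ Cl a t s D' B Q'' c c₄ e K H m) = ∅ := by
              apply filter_eq_empty_iff.2
              intro m _ h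
              omega
            rw [this, sum_empty]
            have := AP_nonneg CI Lw N a
            positivity
          · have h9 := hHI hs H N (by omega) hHN a haM
            refine le_trans (le_of_eq ?_) h9
            congr 1
            apply filter_congr
            intro m _
            constructor
            · exact fun h => h.2
            · exact fun h => ⟨hs, h⟩
      _ ≤ ε * Real.log N + ((CI + CS + ⌈x₁⌉₊ : ℕ) : ℝ) * AP (CI + CS + ⌈x₁⌉₊) Lw N a / Lw := by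
          linarith

end Pool.Agent.UD
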