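import Pool.Agent.Lib.UD95.Defs

/-!
# Row N1: the local expansion of `n ^ (i T)`
-/

set_option autoImplicit false
open Finset Polynomial MeasureTheory

namespace Pool.Agent.UD

open Pool.Agent.Lib.MP_663568_nt Pool.Agent.Lib.MP_663568_nt.Katai
  Pool.Agent.Lib.MP_663568_nt.Nul Pool.Agent.TU

theorem rowN1 : N1_stmt := by
  intro s n h T hT hh hn
  have hn0 : 0 < n := by omega
  have hnR : (0 : ℝ) < n := by exact_mod_cast hn0
  have hhR : (0 : ℝ) < h := by exact_mod_cast hh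
  set x : ℝ := -((h : ℝ) / n) with hx
  have hq0 : 0 ≤ (h : ℝ) / n := by positivity
  have hq : (h : ℝ) / n ≤ 1 / 2 := by
    rw [div_le_div_iff₀ hnR two_pos]
    have : ((2 * h : ℕ) : ℝ) ≤ n := by exact_mod_cast hn
    push_cast at this
    linarith
  have hax : |x| = (h : ℝ) / n := by rw [hx, abs_neg, abs_of_nonneg hq0]
  have h1 := Real.abs_log_sub_add_sum_range_le (x := x) (by rw [hax]; linarith) s
  rw [hax] at h1
  have h2 : Real.log (1 - x) = Real.log ((n + h : ℕ) : ℝ) - Real.log n := by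
    rw [← Real.log_div (by positivity) hnR.ne']
    congr 1
    rw [hx]
    push_cast
    field_simp
    ring
  set σ₀ : ℝ := ∑ i ∈ range s, x ^ (i + 1) / (i + 1) with hσ
  have h3 : ph (bt s n T) (h : ℝ) = -(T * σ₀) / (2 * Real.pi) := by
    rw [hσ, ← Fin.sum_univ_eq_sum_range (fun i => x ^ (i + 1) / ((i : ℝ) + 1)) s, mul_sum,
      ← sum_neg_distrib, sum_div, ph]
    refine sum_congr rfl fun i _ => ?_
    rw [bt, hx, neg_pow ((h : ℝ) / n), div_pow, pow_succ (-1 : ℝ)]
    field_simp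
  have h4 : Complex.exp ((T * Real.log n : ℝ) * Complex.I) * ee (ph (bt s n T) (h : ℝ)) =
      Complex.exp (Complex.I * ((T * Real.log n - T * σ₀ : ℝ) : ℂ)) := by
    rw [ee, ← Complex.exp_add, h3]
    congr 1
    have hpi : (Real.pi : ℂ) ≠ 0 := by exact_mod_cast Real.pi_ne_zero
    push_cast
    field_simp
    ring
  have h5 : Complex.exp ((T * Real.log ((n + h : ℕ) : ℝ) : ℝ) * Complex.I) =
      Complex.exp (Complex.I * ((T * Real.log n - T * σ₀ : ℝ) : ℂ)) *
        Complex.exp (Complex.I * ((T * (σ₀ + Real.log (1 - x)) : ℝ) : ℂ)) := by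
    rw [← Complex.exp_add, h2]
    congr 1
    push_cast
    ring
  rw [h4, h5]
  have h6 : Complex.exp (Complex.I * ((T * Real.log n - T * σ₀ : ℝ) : ℂ)) *
      Complex.exp (Complex.I * ((T * (σ₀ + Real.log (1 - x)) : ℝ) : ℂ)) -
      Complex.exp (Complex.I * ((T * Real.log n - T * σ₀ : ℝ) : ℂ)) =
      Complex.exp (Complex.I * ((T * Real.log n - T * σ₀ : ℝ) : ℂ)) *
        (Complex.exp (Complex.I * ((T * (σ₀ + Real.log (1 - x)) : ℝ) : ℂ)) - 1) := by ring
  rw [h6, norm_mul, mul_comm Complex.I, Complex.norm_exp_ofReal_mul_I, one_mul]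
  refine (Real.norm_exp_I_mul_ofReal_sub_one_le (x := T * (σ₀ + Real.log (1 - x)))).trans ?_
  rw [Real.norm_eq_abs, abs_mul, abs_of_nonneg hT, mul_comm 2 T, mul_assoc]
  refine mul_le_mul_of_nonneg_left (h1.trans ?_) hT
  rw [div_le_iff₀ (by linarith)]
  have h7 : 0 ≤ ((h : ℝ) / n) ^ (s + 1) := by positivity
  nlinarith

end Pool.Agent.UD
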