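import Mathlib
import Pool.Agent.Lib.UD95.Defs

/-!
# Row N2 of the universal dichotomy (MP_663568_nt): a rational linear twist with a large sum
-/

set_option autoImplicit false
open Finset

namespace Pool.Agent.UD

open Pool.Agent.Lib.MP_663568_nt Pool.Agent.Lib.MP_663568_nt.Katai
  Pool.Agent.Lib.MP_663568_nt.Nul Pool.Agent.TU

namespace N2aux

lemma ee_nat (n : ℕ) : ee (n : ℝ) = 1 := by
  have := ee_int (n : ℤ)
  simpa using this

/-- The sum of a periodic function over an initial segment. -/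
lemma norm_sum_periodic (χ : ℕ → ℂ) (q : ℕ) (hq : 1 ≤ q) (hχ : ∀ h, ‖χ h‖ ≤ 1)
    (hp : ∀ h, χ (h + q) = χ h) (h1 : 1 ≤ ‖∑ h ∈ range q, χ h‖) (H : ℕ)
    (hH : 2 * q * (q + 1) ≤ H) : 1 / (2 * (q : ℝ)) * H ≤ ‖∑ h ∈ Icc 1 H, χ h‖ := by
  have hper : ∀ k h : ℕ, χ (k * q + h) = χ h := by
    intro k
    induction k with
    | zero => intro h; simp
    | succ k ih =>
      intro h
      have : (k + 1) * q + h = k * q + h + q := by ring
      rw [this, hp, ih]
  have hblock : ∀ k : ℕ, ∑ h ∈ range (k * q), χ h = k * ∑ h ∈ range q, χ h := by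
    intro k
    induction k with
    | zero => simp
    | succ k ih =>
      have : (k + 1) * q = k * q + q := by ring
      rw [this, sum_range_add, ih]
      simp only [hper]
      push_cast
      ring
  set k := (H + 1) / q with hk
  set m := (H + 1) % q with hm
  have hdm : H + 1 = k * q + m := by
    rw [hk, hm, mul_comm]
    exact (Nat.div_add_mod (H + 1) q).symm
  have hmq : m < q := Nat.mod_lt _ (by omega)
  have hsum : ∑ h ∈ Icc 1 H, χ h = k * ∑ h ∈ range q, χ h +
      (∑ i ∈ range m, χ i - χ 0) := by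
    have h2 : ∑ h ∈ range (H + 1), χ h = χ 0 + ∑ h ∈ Icc 1 H, χ h := by
      rw [sum_range_succ', add_comm]
      congr 1
      rw [range_eq_Ico, sum_Ico_add' (fun h => χ h) 0 H 1]
      rfl
    have h3 : ∑ h ∈ range (H + 1), χ h = k * ∑ h ∈ range q, χ h + ∑ i ∈ range m, χ i := by
      rw [hdm, sum_range_add, hblock]
      simp only [hper]
    have h4 := h2.symm.trans h3
    linear_combination h4
  have hrem : ‖∑ i ∈ range m, χ i - χ 0‖ ≤ q := by
    have h5 : ‖∑ i ∈ range m, χ i‖ ≤ m := by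
      refine (norm_sum_le _ _).trans ?_
      refine (sum_le_sum fun i _ => hχ i).trans ?_
      simp
    have h6 := norm_sub_le (∑ i ∈ range m, χ i) (χ 0)
    have h7 := hχ 0
    have h8 : (m : ℝ) + 1 ≤ q := by exact_mod_cast hmq
    linarith
  have hmain : (k : ℝ) - q ≤ ‖∑ h ∈ Icc 1 H, χ h‖ := by
    rw [hsum]
    have h9 := norm_sub_le_norm_add ((k : ℂ) * ∑ h ∈ range q, χ h) (∑ i ∈ range m, χ i - χ 0)
    have h10 : (k : ℝ) ≤ ‖(k : ℂ) * ∑ h ∈ range q, χ h‖ := by
      rw [norm_mul, Complex.norm_natCast]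
      have : (0 : ℝ) ≤ k := Nat.cast_nonneg k
      nlinarith
    linarith
  have hq0 : (0 : ℝ) < q := by exact_mod_cast hq
  have hk2 : (H : ℝ) / q - 1 ≤ k := by
    rw [div_sub_one hq0.ne', div_le_iff₀ hq0]
    have h11 : H + 1 < k * q + q := by omega
    have h12 : (H : ℝ) + 1 < k * q + q := by exact_mod_cast h11
    linarith
  have hH' : (q : ℝ) + 1 ≤ H / (2 * q) := by
    rw [le_div_iff₀ (by positivity)]
    have : ((2 * q * (q + 1) : ℕ) : ℝ) ≤ H := by exact_mod_cast hH
    push_cast at this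
    linarith
  have h13 : (H : ℝ) / q = H / (2 * q) + H / (2 * q) := by
    field_simp
    ring
  have h14 : 1 / (2 * (q : ℝ)) * H = H / (2 * q) := by ring
  rw [h14]
  linarith

/-- Geometric sums over a full period. -/
lemma geom (q h : ℕ) (hq : 1 ≤ q) (hh : 0 < h) (hhq : h < q) :
    ∑ c ∈ range q, ee (-(c : ℝ) / q * h) = 0 := by
  have hq0 : (q : ℝ) ≠ 0 := by positivity
  have h1 : ∀ c : ℕ, ee (-(c : ℝ) / q * h) = ee (-(h : ℝ) / q) ^ c := by
    intro c
    induction c with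
    | zero =>
      have := ee_nat 0
      simpa using this
    | succ c ih =>
      rw [pow_succ, ← ih, ← ee_add]
      congr 1
      push_cast
      ring
  simp only [h1]
  have hne : ee (-(h : ℝ) / q) ≠ 1 := by
    rw [Ne, ee_eq_one_iff]
    rintro ⟨n, hn⟩
    rw [div_eq_iff hq0] at hn
    have h2 : -(h : ℤ) = n * q := by exact_mod_cast hn
    have h3 : (q : ℤ) ∣ h := ⟨-n, by linarith [h2]⟩
    have h4 : q ∣ h := by exact_mod_cast h3
    exact absurd (Nat.le_of_dvd hh h4) (by omega)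
  rw [geom_sum_eq hne]
  have h5 : ee (-(h : ℝ) / q) ^ q = 1 := by
    rw [← h1 q]
    have h6 : -(q : ℝ) / q * h = ((-(h : ℤ) : ℤ) : ℝ) := by
      push_cast
      field_simp
    rw [h6]
    exact ee_int _
  rw [h5]
  simp

end N2aux

open N2aux in
theorem rowN2 : N2_stmt := by
  intro t s hs hst r
  -- common denominator
  set q : ℕ := ∏ i, (r i).den with hqdef
  have hq : 1 ≤ q := by
    rw [hqdef]
    exact Finset.prod_pos fun i _ => (r i).pos
  have hq0 : (q : ℝ) ≠ 0 := by positivity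
  have hint : ∀ i, ∃ n : ℤ, ((r i : ℚ) : ℝ) * q = n := by
    intro i
    obtain ⟨m, hm⟩ : (r i).den ∣ q := Finset.dvd_prod_of_mem _ (mem_univ i)
    refine ⟨(r i).num * m, ?_⟩
    have h1 : ((r i : ℚ) : ℝ) * (r i).den = (r i).num := by
      have := Rat.mul_den_eq_num (r i)
      exact_mod_cast this
    rw [hm]
    push_cast
    rw [← h1]
    ring
  -- the periodic part
  set ψ : ℕ → ℂ := fun h => ee (∑ i : Fin t, if i.val < s then 0 else
    ((r i : ℚ) : ℝ) * (h : ℝ) ^ (i.val + 1)) with hψ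
  have hψp : ∀ h, ψ (h + q) = ψ h := by
    intro h
    have h1 : ∃ n : ℤ, (∑ i : Fin t, if i.val < s then 0 else
        ((r i : ℚ) : ℝ) * ((h + q : ℕ) : ℝ) ^ (i.val + 1)) =
        (∑ i : Fin t, if i.val < s then 0 else
        ((r i : ℚ) : ℝ) * (h : ℝ) ^ (i.val + 1)) + n := by
      have h2 : ∀ i : Fin t, ∃ n : ℤ, (if i.val < s then 0 else
          ((r i : ℚ) : ℝ) * ((h + q : ℕ) : ℝ) ^ (i.val + 1)) =
          (if i.val < s then 0 else ((r i : ℚ) : ℝ) * (h : ℝ) ^ (i.val + 1)) + n := by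
        intro i
        split_ifs with hi
        · exact ⟨0, by simp⟩
        · obtain ⟨n, hn⟩ := hint i
          obtain ⟨m, hm⟩ : ((h + q : ℕ) : ℤ) - (h : ℤ) ∣
              ((h + q : ℕ) : ℤ) ^ (i.val + 1) - (h : ℤ) ^ (i.val + 1) := sub_dvd_pow_sub_pow _ _ _
          refine ⟨n * m, ?_⟩
          have hm' : ((h + q : ℕ) : ℝ) ^ (i.val + 1) - (h : ℝ) ^ (i.val + 1) = q * m := by
            have h3 : ((((h + q : ℕ) : ℤ) ^ (i.val + 1) - (h : ℤ) ^ (i.val + 1) : ℤ) : ℝ) =
                (((((h + q : ℕ) : ℤ) - (h : ℤ)) * m : ℤ) : ℝ) := by rw [hm]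
            push_cast at h3 ⊢
            rw [h3]
            ring
          have h4 : ((h + q : ℕ) : ℝ) ^ (i.val + 1) = (h : ℝ) ^ (i.val + 1) + q * m := by
            linarith
          rw [h4, mul_add, ← mul_assoc, hn]
          push_cast
          ring
      choose n hn using h2
      refine ⟨∑ i, n i, ?_⟩
      rw [Int.cast_sum, ← sum_add_distrib]
      exact sum_congr rfl fun i _ => hn i
    obtain ⟨n, hn⟩ := h1
    simp only [hψ]
    rw [hn, ee_add, ee_int, mul_one]
  have hψ0 : ψ 0 = 1 := by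
    simp only [hψ]
    have h1 : (∑ i : Fin t, if i.val < s then 0 else
        ((r i : ℚ) : ℝ) * ((0 : ℕ) : ℝ) ^ (i.val + 1)) = ((0 : ℕ) : ℝ) := by
      simp
    rw [h1]
    exact ee_nat 0
  -- a large complete sum
  obtain ⟨c₀, hc₀⟩ : ∃ c₀ : ℕ, 1 ≤ ‖∑ h ∈ range q, ψ h * ee (-(c₀ : ℝ) / q * h)‖ := by
    by_contra hcon
    push Not at hcon
    have h1 : ∑ c ∈ range q, ∑ h ∈ range q, ψ h * ee (-(c : ℝ) / q * h) = q := by
      rw [sum_comm]
      simp only [← mul_sum]
      rw [sum_eq_single 0]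
      · rw [hψ0, one_mul]
        have h2 : ∀ c ∈ range q, ee (-(c : ℝ) / q * ((0 : ℕ) : ℝ)) = 1 := by
          intro c _
          have := ee_nat 0
          simpa using this
        rw [sum_congr rfl h2]
        simp
      · intro h hh hh0
        rw [geom q h hq (Nat.pos_of_ne_zero hh0) (mem_range.1 hh), mul_zero]
      · intro h0
        exact absurd (mem_range.2 (by omega)) h0
    have h3 : (q : ℝ) < q := by
      calc (q : ℝ) = ‖(q : ℂ)‖ := by simp
        _ = ‖∑ c ∈ range q, ∑ h ∈ range q, ψ h * ee (-(c : ℝ) / q * h)‖ := by rw [h1]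
        _ ≤ ∑ c ∈ range q, ‖∑ h ∈ range q, ψ h * ee (-(c : ℝ) / q * h)‖ := norm_sum_le _ _
        _ < ∑ c ∈ range q, (1 : ℝ) :=
            sum_lt_sum_of_nonempty (nonempty_range_iff.2 (by omega)) fun c _ => hcon c
        _ = q := by simp
    exact lt_irrefl _ h3
  -- the twist
  set ζ : Fin s → ℝ := fun i => if i.val = 0 then -(c₀ : ℝ) / q else 0 with hζ
  have hphase : ∀ h : ℕ, ee (ph (glue s ζ (fun i => ((r i : ℚ) : ℝ))) (h : ℝ)) =
      ψ h * ee (-(c₀ : ℝ) / q * h) := by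
    intro h
    simp only [hψ]
    rw [← ee_add]
    congr 1
    have ht : 0 < t := by omega
    have h1 : -(c₀ : ℝ) / q * h = ∑ i : Fin t, if i = ⟨0, ht⟩ then -(c₀ : ℝ) / q * h else 0 := by
      simp
    rw [h1, ← sum_add_distrib]
    unfold ph glue
    refine sum_congr rfl fun i _ => ?_
    by_cases hi : i.val < s
    · simp only [hi, dif_pos, if_true, hζ, zero_add]
      by_cases hi0 : i.val = 0
      · have : i = ⟨0, ht⟩ := Fin.ext hi0
        simp [this]
      · have : i ≠ ⟨0, ht⟩ := fun h' => hi0 (by rw [h'])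
        simp [hi0, this]
    · have : i ≠ ⟨0, ht⟩ := fun h' => hi (by rw [h']; exact hs)
      simp [hi, this]
  refine ⟨ζ, 1 / (2 * (q : ℝ)), by positivity, 2 * q * (q + 1), fun H hH => ?_⟩
  simp only [hphase]
  refine norm_sum_periodic (fun h => ψ h * ee (-(c₀ : ℝ) / q * h)) q hq ?_ ?_ hc₀ H hH
  · intro h
    simp only [hψ]
    rw [norm_mul, norm_ee, norm_ee, one_mul]
  · intro h
    rw [hψp]
    congr 1
    have h1 : -(c₀ : ℝ) / q * ((h + q : ℕ) : ℝ) = -(c₀ : ℝ) / q * h + ((-(c₀ : ℤ) : ℤ) : ℝ) := by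
      push_cast
      field_simp
      ring
    rw [h1, ee_add, ee_int, mul_one]

end Pool.Agent.UD
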