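import Pool.Agent.Lib.UD95.Defs
import Pool.Agent.Lib.TU.C3
import Pool.Agent.Lib.TUK.W3

/-!
# Row N3 (helper46): equidistribution of the local coefficients of `n ^ (i T)` on average over `T`
-/

set_option autoImplicit false
open Finset Polynomial MeasureTheory

namespace Pool.Agent.UD

open Pool.Agent.Lib.MP_663568_nt Pool.Agent.Lib.MP_663568_nt.Katai
  Pool.Agent.Lib.MP_663568_nt.Nul Pool.Agent.TU

namespace N3x

theorem four_abs_le {x : ℝ} (hx : |x| ≤ 1 / 2) : 4 * |x| ≤ ‖1 - ee x‖ := by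
  have hpi := Real.pi_pos
  have h1 : ‖1 - ee x‖ = ‖2 * Real.sin (Real.pi * x)‖ := by
    rw [norm_sub_rev]
    have h := Complex.norm_exp_I_mul_ofReal_sub_one (2 * Real.pi * x)
    rw [show 2 * Real.pi * x / 2 = Real.pi * x by ring] at h
    rw [← h, ee]
    congr 3
    push_cast
    ring
  rw [h1, norm_mul, Real.norm_eq_abs, Real.norm_eq_abs, abs_two]
  have h2 := Real.mul_abs_le_abs_sin (x := Real.pi * x) (by
    rw [abs_mul, abs_of_pos hpi]
    nlinarith)
  rw [abs_mul, abs_of_pos hpi] at h2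
  have h3 : 2 / Real.pi * (Real.pi * |x|) = 2 * |x| := by field_simp
  linarith

theorem geo {x : ℝ} (hx : |x| ≤ 1 / 2) (hx0 : x ≠ 0) (a b : ℕ) :
    ‖∑ T ∈ Ico a b, ee ((T : ℝ) * x)‖ ≤ 1 / (2 * |x|) := by
  have h1 : ∑ T ∈ Ico a b, ee ((T : ℝ) * x) =
      ∑ l ∈ Icc 1 (b - a), ee (x * l + ((a : ℝ) - 1) * x) := by
    have e : Icc 1 (b - a) = Ico 1 (b - a + 1) := by
      ext k
      simp only [mem_Icc, mem_Ico]
      omega
    rw [e, sum_Ico_eq_sum_range, sum_Ico_eq_sum_range]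
    refine sum_congr (by congr 1) fun k _ => ?_
    congr 1
    push_cast
    ring
  have h2 := geom_bound x (((a : ℝ) - 1) * x) (b - a)
  rw [← h1] at h2
  have h3 : 0 < |x| := abs_pos.2 hx0
  have h4 := four_abs_le hx
  rw [le_div_iff₀ (by positivity)]
  nlinarith [norm_nonneg (∑ T ∈ Ico a b, ee ((T : ℝ) * x))]

/-- The coefficient of `T` in the frequency `l`. -/
noncomputable def vv (s : ℕ) (l : Fin s → ℤ) (n : ℝ) : ℝ :=
  ∑ i : Fin s, (l i : ℝ) * ((-1) ^ i.val / (2 * Real.pi * (i.val + 1) * n ^ (i.val + 1)))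

theorem vv_eq {s : ℕ} (l : Fin s → ℤ) (ζ : Fin s → ℝ) (n T : ℝ) :
    ∑ i, (l i : ℝ) * (ζ i - bt s n T i) = ∑ i, (l i : ℝ) * ζ i + T * (-vv s l n) := by
  unfold vv bt
  rw [mul_neg, mul_sum, ← sub_eq_add_neg, ← sum_sub_distrib]
  refine sum_congr rfl fun i _ => ?_
  ring

theorem key {s : ℕ} (l : Fin s → ℤ) (hl : l ≠ 0) : ∃ n₀ : ℕ, ∀ n : ℕ, n₀ ≤ n →
    vv s l n ≠ 0 ∧ |vv s l n| ≤ 1 / 2 ∧
      1 / (2 * |vv s l n|) ≤ Real.pi * (s.factorial : ℝ) * (n : ℝ) ^ s := by
  classical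
  have hpi := Real.pi_pos
  obtain ⟨i₀, hi₀⟩ : ∃ i₀, l i₀ ≠ 0 := by
    by_contra h
    push Not at h
    exact hl (funext h)
  obtain ⟨c, hc⟩ : ∃ c : Fin s → ℤ, ∀ i : Fin s,
      c i = l i * (-1) ^ i.val * ((s.factorial / (i.val + 1) : ℕ) : ℤ) := ⟨_, fun _ => rfl⟩
  have hdvd : ∀ i : Fin s, (i.val + 1) ∣ s.factorial := fun i =>
    Nat.dvd_factorial (by omega) (by have := i.2; omega)
  have hc0 : c i₀ ≠ 0 := by
    rw [hc]
    have h1 : 0 < s.factorial / (i₀.val + 1) :=
      Nat.div_pos (Nat.le_of_dvd (Nat.factorial_pos s) (hdvd i₀)) (by omega)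
    have h2 : ((s.factorial / (i₀.val + 1) : ℕ) : ℤ) ≠ 0 := by exact_mod_cast h1.ne'
    exact mul_ne_zero (mul_ne_zero hi₀ (pow_ne_zero _ (by norm_num))) h2
  obtain ⟨P, hP⟩ : ∃ P : ℝ[X], P = ∑ i : Fin s, C (c i : ℝ) * X ^ (s - 1 - i.val) := ⟨_, rfl⟩
  have hPc : P.coeff (s - 1 - i₀.val) = c i₀ := by
    rw [hP, finsetSum_coeff, sum_eq_single i₀]
    · rw [coeff_C_mul, coeff_X_pow, if_pos rfl, mul_one]
    · intro i _ hi
      rw [coeff_C_mul, coeff_X_pow, if_neg, mul_zero]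
      intro h
      apply hi
      apply Fin.ext
      have := i.2
      have := i₀.2
      omega
    · intro h
      exact absurd (mem_univ i₀) h
  have hP0 : P ≠ 0 := by
    intro h
    rw [h, coeff_zero] at hPc
    exact hc0 (by exact_mod_cast hPc.symm)
  obtain ⟨x₀, hx₀⟩ := Filter.eventually_atTop.1 (eventually_atTop_not_isRoot P hP0)
  obtain ⟨Λ, hΛ⟩ : ∃ Λ : ℝ, Λ = ∑ i : Fin s, |(l i : ℝ)| := ⟨_, rfl⟩
  have hΛ0 : 0 ≤ Λ := by rw [hΛ]; exact sum_nonneg fun _ _ => abs_nonneg _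
  refine ⟨⌈x₀⌉₊ + ⌈2 * Λ⌉₊ + 1, fun n hn => ?_⟩
  have hn1 : (1 : ℝ) ≤ n := by
    have : 1 ≤ n := by omega
    exact_mod_cast this
  have hn0 : (0 : ℝ) < n := by linarith
  have hnx : x₀ ≤ n := (Nat.le_ceil x₀).trans (by
    have : ⌈x₀⌉₊ ≤ n := by omega
    exact_mod_cast this)
  have hnΛ : 2 * Λ ≤ n := (Nat.le_ceil (2 * Λ)).trans (by
    have : ⌈2 * Λ⌉₊ ≤ n := by omega
    exact_mod_cast this)
  have hev : P.eval (n : ℝ) = ((∑ i : Fin s, c i * (n : ℤ) ^ (s - 1 - i.val) : ℤ) : ℝ) := by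
    rw [hP, eval_finsetSum]
    push_cast
    refine sum_congr rfl fun i _ => ?_
    simp only [eval_mul, eval_C, eval_pow, eval_X]
  have hne : P.eval (n : ℝ) ≠ 0 := hx₀ _ hnx
  have hge : 1 ≤ |P.eval (n : ℝ)| := by
    rw [hev] at hne ⊢
    have h1 : (∑ i : Fin s, c i * (n : ℤ) ^ (s - 1 - i.val) : ℤ) ≠ 0 := by
      intro h
      exact hne (by rw [h, Int.cast_zero])
    have h2 := Int.one_le_abs h1
    exact_mod_cast h2
  have hrel : P.eval (n : ℝ) = 2 * Real.pi * s.factorial * (n : ℝ) ^ s * vv s l n := by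
    rw [hP, eval_finsetSum, vv, mul_sum]
    refine sum_congr rfl fun i _ => ?_
    simp only [eval_mul, eval_C, eval_pow, eval_X]
    have hi := i.2
    have e1 : (n : ℝ) ^ s = (n : ℝ) ^ (s - 1 - i.val) * (n : ℝ) ^ (i.val + 1) := by
      rw [← pow_add]
      congr 1
      omega
    have e2 : (c i : ℝ) = (l i : ℝ) * (-1) ^ i.val * ((s.factorial : ℝ) / (i.val + 1)) := by
      rw [hc, Int.cast_mul, Int.cast_mul, Int.cast_natCast,
        Nat.cast_div (hdvd i) (show ((i.val + 1 : ℕ) : ℝ) ≠ 0 by positivity)]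
      push_cast
      rfl
    rw [e1, e2]
    have h1 : (n : ℝ) ^ (i.val + 1) ≠ 0 := by positivity
    have h2 : ((i.val : ℝ) + 1) ≠ 0 := by positivity
    field_simp
  have hfac : (0 : ℝ) < s.factorial := by exact_mod_cast Nat.factorial_pos s
  have hns : (0 : ℝ) < (n : ℝ) ^ s := by positivity
  rw [hrel] at hne hge
  have hv0 : vv s l n ≠ 0 := fun h => hne (by rw [h, mul_zero])
  refine ⟨hv0, ?_, ?_⟩
  · have h1 : |vv s l n| ≤ ∑ i : Fin s, |(l i : ℝ)| / n := by
      unfold vv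
      refine (abs_sum_le_sum_abs _ _).trans (sum_le_sum fun i _ => ?_)
      rw [abs_mul, abs_div, abs_pow, abs_neg, abs_one, one_pow, div_eq_mul_one_div |(l i : ℝ)|]
      refine mul_le_mul_of_nonneg_left ?_ (abs_nonneg _)
      refine one_div_le_one_div_of_le hn0 ?_
      have h2 : 0 < 2 * Real.pi * ((i.val : ℝ) + 1) * (n : ℝ) ^ (i.val + 1) := by positivity
      rw [abs_of_pos h2]
      have h3 : (n : ℝ) ≤ (n : ℝ) ^ (i.val + 1) := le_self_pow₀ hn1 (by omega)
      have h4 : (1 : ℝ) ≤ 2 * Real.pi * ((i.val : ℝ) + 1) := by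
        have h5 := Real.pi_gt_three
        have h6 : (0 : ℝ) ≤ i.val := Nat.cast_nonneg _
        nlinarith
      calc (n : ℝ) ≤ 1 * (n : ℝ) ^ (i.val + 1) := by linarith
        _ ≤ _ := mul_le_mul_of_nonneg_right h4 (by positivity)
    rw [← sum_div, ← hΛ] at h1
    refine h1.trans ?_
    rw [div_le_div_iff₀ hn0 (by norm_num)]
    linarith
  · have hv : 0 < |vv s l n| := abs_pos.2 hv0
    rw [abs_mul, abs_of_pos (show (0 : ℝ) < 2 * Real.pi * s.factorial * (n : ℝ) ^ s by
      positivity)] at hge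
    rw [div_le_iff₀ (by positivity)]
    nlinarith

theorem harm {a : ℕ} (ha : 1 ≤ a) (b : ℕ) (hab : a ≤ b + 1) :
    Real.log ((b : ℝ) + 1) - Real.log a ≤ ∑ n ∈ Icc a b, (1 / (n : ℝ)) := by
  induction b with
  | zero =>
    have : a = 1 := by omega
    subst this
    simp
  | succ b ih =>
    rcases Nat.lt_or_ge (b + 1) a with h | h
    · have e : a = b + 1 + 1 := by omega
      subst e
      push_cast
      simp
    · rw [sum_Icc_succ_top h]
      have h1 := ih h
      have h2 : Real.log (((b + 1 : ℕ) : ℝ) + 1) - Real.log ((b : ℝ) + 1) ≤ 1 / ((b + 1 : ℕ) : ℝ) := by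
        rw [← Real.log_div (by positivity) (by positivity)]
        refine (Real.log_le_sub_one_of_pos (by positivity)).trans (le_of_eq ?_)
        push_cast
        field_simp
        ring
      linarith

/-- The mean of a trigonometric polynomial. -/
theorem mean_TP {s : ℕ} (Λ : Finset (Fin s → ℤ)) (w : (Fin s → ℤ) → ℂ) :
    ∫ z in C3aux.box s, TP Λ w z = ∑ l ∈ Λ, if l = 0 then w l else 0 := by
  unfold TP
  rw [integral_finsetSum]
  · refine sum_congr rfl fun l _ => ?_
    rw [integral_const_mul]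
    have h1 := C3aux.integral_box (le_refl s) l (0 : Fin s → ℝ)
    have h2 : ∀ z : Fin s → ℝ, glue s z (0 : Fin s → ℝ) = z := fun z => by
      funext i
      unfold glue
      rw [dif_pos i.2]
    simp only [h2] at h1
    have h3 : ee (∑ i : Fin s, if i.val < s then 0 else (l i : ℝ) * (0 : Fin s → ℝ) i) = 1 := by
      have h4 : ∑ i : Fin s, (if i.val < s then 0 else (l i : ℝ) * (0 : Fin s → ℝ) i) =
          ((0 : ℤ) : ℝ) := by
        rw [Int.cast_zero]
        exact sum_eq_zero fun i _ => if_pos i.2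
      rw [h4]
      exact ee_int 0
    rw [h1, h3, mul_one]
    by_cases hl : l = 0
    · rw [if_pos hl, prod_eq_one, mul_one]
      intro j _
      rw [hl]
      simp
    · rw [if_neg hl]
      obtain ⟨i, hi⟩ : ∃ i, l i ≠ 0 := by
        by_contra h
        push Not at h
        exact hl (funext h)
      rw [prod_eq_zero (mem_univ i), mul_zero]
      rw [if_neg]
      exact hi
  · intro l _
    refine Integrable.const_mul ?_ _
    refine (Continuous.continuousOn ?_).integrableOn_compact (C3aux.isCompact_box _)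
    refine C3aux.continuous_ee.comp ?_
    fun_prop

end N3x

open Classical in
/-- Row N3 with the sum over natural numbers. -/
def N3c_stmt : Prop := ∀ s : ℕ, 1 ≤ s → ∀ C : Set (Fin s → ℝ), IsClosed C → Per C →
  volume C ≠ 0 → ∃ w : ℝ, 0 < w ∧ ∀ (ζ : Fin s → ℝ) (δ : ℝ), 0 < δ → ∃ m₀ : ℕ, ∀ m : ℕ, m₀ ≤ m →
    w * TT s m * Real.log m ≤ ∑ T ∈ Ico (TT s m) (2 * TT s m),
      ∑ n ∈ (Icc (m ^ (4 * s + 3)) (NN s m)).filter
        (fun n : ℕ => ∃ y ∈ C, ∀ i, |bt s (n : ℝ) (T : ℝ) i + y i - ζ i| ≤ δ), (1 / (n : ℝ))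

open N3x in
open Classical in
/-- Row N3, over natural numbers. -/
theorem rowN3c : N3c_stmt := by
  intro s hs Cs hcl hP hC
  have hpi := Real.pi_pos
  have hne : Cs.Nonempty := by
    by_contra h
    rw [Set.not_nonempty_iff_eq_empty] at h
    exact hC (by rw [h, measure_empty])
  have hfin : volume (Cs ∩ C3aux.box s) ≠ ⊤ := by
    refine ne_top_of_le_ne_top ?_ (measure_mono Set.inter_subset_right)
    rw [C3aux.volume_box]
    exact ENNReal.one_ne_top
  obtain ⟨v, hv⟩ : ∃ v : ℝ, v = (volume (Cs ∩ C3aux.box s)).toReal := ⟨_, rfl⟩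
  have hv0 : 0 < v := by
    rw [hv]
    exact ENNReal.toReal_pos (TUK.W3aux.vol_box hP hC) hfin
  refine ⟨v / 2, by positivity, fun ζ δ hδ => ?_⟩
  -- the bump
  obtain ⟨G, hG⟩ : ∃ G : (Fin s → ℝ) → ℝ, ∀ x, G x = max 0 (1 - Metric.infDist x Cs / δ) :=
    ⟨_, fun _ => rfl⟩
  have hGc : Continuous G := by
    have h1 : G = fun x => max 0 (1 - Metric.infDist x Cs / δ) := funext hG
    rw [h1]
    have := Metric.continuous_infDist_pt Cs
    fun_prop
  have hG0 : ∀ x, 0 ≤ G x := fun x => by rw [hG]; exact le_max_left _ _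
  have hG1 : ∀ x, G x ≤ 1 := fun x => by
    rw [hG]
    refine max_le zero_le_one ?_
    have : 0 ≤ Metric.infDist x Cs / δ := div_nonneg Metric.infDist_nonneg hδ.le
    linarith
  have hGC : ∀ x ∈ Cs, G x = 1 := fun x hx => by
    rw [hG, Metric.infDist_zero_of_mem hx, zero_div, sub_zero, max_eq_right zero_le_one]
  have hGn : ∀ x, G x ≠ 0 → ∃ y ∈ Cs, ∀ i, |x i - y i| ≤ δ := fun x hx => by
    have h1 : Metric.infDist x Cs < δ := by
      by_contra hcon
      push Not at hcon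
      apply hx
      have h2 : 1 ≤ Metric.infDist x Cs / δ := (le_div_iff₀ hδ).2 (by linarith)
      rw [hG, max_eq_left (by linarith)]
    obtain ⟨y, hy, h2⟩ := (Metric.infDist_lt_iff hne).1 h1
    refine ⟨y, hy, fun i => ?_⟩
    have h3 := (dist_le_pi_dist x y i).trans h2.le
    rwa [Real.dist_eq] at h3
  obtain ⟨Λ, w, happ⟩ := C3aux.approx G hGc (fun c z => by
    rw [hG, hG, C3aux.infDist_add_int hne hP]) (show (0 : ℝ) < v / 8 by positivity)
  obtain ⟨w₀, hw₀⟩ : ∃ w₀ : ℂ, w₀ = ∑ l ∈ Λ, if l = 0 then w l else 0 := ⟨_, rfl⟩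
  obtain ⟨W, hW⟩ : ∃ W : ℝ, W = ∑ l ∈ Λ, ‖w l‖ := ⟨_, rfl⟩
  have hW0 : 0 ≤ W := by rw [hW]; exact sum_nonneg fun _ _ => norm_nonneg _
  -- the mean of the bump
  have hvol : volume.real (C3aux.box s) = 1 := by
    rw [Measure.real, C3aux.volume_box]
    simp
  have hGint : IntegrableOn G (C3aux.box s) :=
    hGc.continuousOn.integrableOn_compact (C3aux.isCompact_box _)
  have hmeanG : v ≤ ∫ z in C3aux.box s, G z := by
    calc v = ∫ z in C3aux.box s, Cs.indicator (fun _ => (1 : ℝ)) z := by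
          rw [integral_indicator hcl.measurableSet, integral_const, smul_eq_mul, mul_one,
            Measure.restrict_restrict hcl.measurableSet, hv]
          simp [Measure.real]
      _ ≤ _ := by
          refine setIntegral_mono ?_ hGint fun z => ?_
          · refine Integrable.indicator ?_ hcl.measurableSet
            exact (continuous_const.continuousOn).integrableOn_compact (C3aux.isCompact_box _)
          · by_cases hz : z ∈ Cs
            · rw [Set.indicator_of_mem hz, hGC z hz]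
            · rw [Set.indicator_of_notMem hz]
              exact hG0 z
  have hw₀re : 7 / 8 * v ≤ w₀.re := by
    have h1 : ‖((∫ z in C3aux.box s, G z : ℝ) : ℂ) - w₀‖ ≤ v / 8 := by
      rw [hw₀, ← mean_TP, ← integral_complex_ofReal, ← integral_sub]
      · have h2 := norm_setIntegral_le_of_norm_le_const (μ := volume) (s := C3aux.box s)
          (f := fun z => (G z : ℂ) - TP Λ w z) (C := v / 8)
          (by rw [C3aux.volume_box]; exact ENNReal.one_lt_top) (fun z _ => happ z)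
        refine h2.trans (le_of_eq ?_)
        rw [hvol, mul_one]
      · exact (Continuous.continuousOn
          (Complex.continuous_ofReal.comp hGc)).integrableOn_compact (C3aux.isCompact_box _)
      · exact (C3aux.continuous_TP Λ w).continuousOn.integrableOn_compact (C3aux.isCompact_box _)
    have h2 := (Complex.abs_re_le_norm _).trans h1
    rw [Complex.sub_re, Complex.ofReal_re] at h2
    have h3 := (abs_le.1 h2).2
    linarith
  -- thresholds
  have hkey : ∀ l : Fin s → ℤ, ∃ n₀ : ℕ, l ≠ 0 → ∀ n : ℕ, n₀ ≤ n → vv s l n ≠ 0 ∧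
      |vv s l n| ≤ 1 / 2 ∧ 1 / (2 * |vv s l n|) ≤ Real.pi * (s.factorial : ℝ) * (n : ℝ) ^ s := by
    intro l
    by_cases h : l = 0
    · exact ⟨0, fun h' => absurd h h'⟩
    · obtain ⟨n₀, h1⟩ := key l h
      exact ⟨n₀, fun _ => h1⟩
  choose nf hnf using hkey
  refine ⟨∑ l ∈ Λ, nf l + ⌈W * (Real.pi * s.factorial) / (v / 8)⌉₊ + 1, fun m hm => ?_⟩
  have hm1 : 1 ≤ m := by omega
  have hmr : (1 : ℝ) ≤ m := by exact_mod_cast hm1
  have hnle : ∀ l ∈ Λ, nf l ≤ m := by
    intro l hl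
    have := single_le_sum (f := nf) (fun _ _ => Nat.zero_le _) hl
    omega
  have hmW : W * (Real.pi * s.factorial) ≤ v / 8 * m := by
    have h1 := Nat.le_ceil (W * (Real.pi * s.factorial) / (v / 8))
    have h2 : (⌈W * (Real.pi * s.factorial) / (v / 8)⌉₊ : ℝ) ≤ m := by
      have : ⌈W * (Real.pi * s.factorial) / (v / 8)⌉₊ ≤ m := by omega
      exact_mod_cast this
    have h3 := h1.trans h2
    rwa [div_le_iff₀ (by positivity), mul_comm (m : ℝ)] at h3
  obtain ⟨Y, hY⟩ : ∃ Y : Finset ℕ, Y = Icc (m ^ (4 * s + 3)) (NN s m) := ⟨_, rfl⟩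
  obtain ⟨X, hX⟩ : ∃ X : Finset ℕ, X = Ico (TT s m) (2 * TT s m) := ⟨_, rfl⟩
  have hXc : (#X : ℝ) = TT s m := by
    rw [hX, Nat.card_Ico]
    congr 1
    omega
  have hYpos : ∀ n ∈ Y, m ≤ n := fun n hn => by
    rw [hY, mem_Icc] at hn
    exact (Nat.le_self_pow (by omega) m).trans hn.1
  have hTTpos : (0 : ℝ) ≤ TT s m := Nat.cast_nonneg _
  rw [← hX, ← hY]
  -- one `T`
  have hone : ∀ T ∈ X, ∑ n ∈ Y, (1 / (n : ℝ)) *
      ((TP Λ w (fun i => ζ i - bt s n T i)).re - v / 8) ≤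
      ∑ n ∈ Y.filter (fun n : ℕ => ∃ y ∈ Cs, ∀ i, |bt s (n : ℝ) (T : ℝ) i + y i - ζ i| ≤ δ),
        (1 / (n : ℝ)) := by
    intro T _
    rw [sum_filter]
    refine sum_le_sum fun n _ => ?_
    have hn0 : (0 : ℝ) ≤ 1 / (n : ℝ) := by positivity
    have h1 : (TP Λ w (fun i => ζ i - bt s n T i)).re - v / 8 ≤
        G (fun i => ζ i - bt s n T i) := by
      have h2 := (Complex.abs_re_le_norm _).trans (happ (fun i => ζ i - bt s n T i))
      rw [Complex.sub_re, Complex.ofReal_re] at h2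
      have h3 := (abs_le.1 h2).1
      linarith
    split_ifs with hc
    · refine (mul_le_mul_of_nonneg_left (h1.trans (hG1 _)) hn0).trans (le_of_eq (mul_one _))
    · have h4 : G (fun i => ζ i - bt s n T i) = 0 := by
        by_contra h5
        obtain ⟨y, hy, h6⟩ := hGn _ h5
        apply hc
        refine ⟨y, hy, fun i => ?_⟩
        rw [abs_sub_comm]
        have h7 := h6 i
        rwa [show ζ i - bt s n T i - y i = ζ i - (bt s n T i + y i) by ring] at h7
      rw [h4] at h1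
      exact (mul_le_mul_of_nonneg_left h1 hn0).trans (le_of_eq (mul_zero _))
  refine le_trans ?_ (sum_le_sum hone)
  rw [sum_comm]
  -- one `n`
  have hn : ∀ n ∈ Y, (5 / 8 * v * TT s m) * (1 / (n : ℝ)) ≤ ∑ T ∈ X, (1 / (n : ℝ)) *
      ((TP Λ w (fun i => ζ i - bt s n T i)).re - v / 8) := by
    intro n hn
    have hn0 : (0 : ℝ) ≤ 1 / (n : ℝ) := by positivity
    rw [← mul_sum, mul_comm]
    refine mul_le_mul_of_nonneg_left ?_ hn0
    rw [sum_sub_distrib, sum_const, nsmul_eq_mul, hXc, ← Complex.re_sum]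
    have hnm := hYpos n hn
    have hnN : (n : ℝ) ≤ (m : ℝ) ^ (4 * s + 4) := by
      rw [hY, mem_Icc] at hn
      have := hn.2
      unfold NN at this
      exact_mod_cast this
    have h1 : ‖∑ T ∈ X, TP Λ w (fun i => ζ i - bt s n T i) - TT s m * w₀‖ ≤
        W * (Real.pi * s.factorial * (n : ℝ) ^ s) := by
      have e1 : ∑ T ∈ X, TP Λ w (fun i => ζ i - bt s n T i) =
          ∑ l ∈ Λ, w l * (ee (∑ i, (l i : ℝ) * ζ i) *
            ∑ T ∈ X, ee ((T : ℝ) * (-vv s l n))) := by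
        unfold TP
        rw [sum_comm]
        refine sum_congr rfl fun l _ => ?_
        rw [mul_sum, mul_sum]
        refine sum_congr rfl fun T _ => ?_
        rw [vv_eq, ee_add]
      rw [e1, hw₀, mul_sum, ← sum_sub_distrib, hW, sum_mul]
      refine (norm_sum_le _ _).trans (sum_le_sum fun l hl => ?_)
      by_cases h0 : l = 0
      · rw [if_pos h0]
        have h2 : ∑ i, (l i : ℝ) * ζ i = ((0 : ℤ) : ℝ) := by
          rw [h0]
          simp
        have h3 : vv s l n = 0 := by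
          rw [h0]
          unfold vv
          simp
        have h4 : ∑ T ∈ X, ee ((T : ℝ) * (-vv s l n)) = (TT s m : ℂ) := by
          rw [h3]
          have h5 : ∀ T : ℕ, ee ((T : ℝ) * (-0)) = 1 := fun T => by
            rw [neg_zero, mul_zero]
            simpa using ee_int 0
          simp only [h5]
          rw [sum_const, nsmul_eq_mul, mul_one]
          exact_mod_cast hXc
        rw [h4, h2, ee_int, one_mul, mul_comm, sub_self, norm_zero]
        positivity
      · rw [if_neg h0, mul_zero, sub_zero, norm_mul, norm_mul, norm_ee, one_mul]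
        refine mul_le_mul_of_nonneg_left ?_ (norm_nonneg _)
        obtain ⟨k1, k2, k3⟩ := hnf l h0 n ((hnle l hl).trans hnm)
        rw [hX]
        refine (geo (x := -vv s l n) (by rwa [abs_neg]) (neg_ne_zero.2 k1) _ _).trans ?_
        rwa [abs_neg]
    have h2 : W * (Real.pi * s.factorial * (n : ℝ) ^ s) ≤ v / 8 * TT s m := by
      have h3 : (n : ℝ) ^ s ≤ (m : ℝ) ^ ((4 * s + 4) * s) := by
        rw [pow_mul]
        exact pow_le_pow_left₀ (Nat.cast_nonneg _) hnN s
      have h4 : (m : ℝ) * (m : ℝ) ^ ((4 * s + 4) * s) ≤ TT s m := by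
        unfold TT
        push_cast
        rw [← pow_succ']
        exact pow_le_pow_right₀ hmr (by omega)
      calc W * (Real.pi * s.factorial * (n : ℝ) ^ s)
          = W * (Real.pi * s.factorial) * (n : ℝ) ^ s := by ring
        _ ≤ (v / 8 * m) * (m : ℝ) ^ ((4 * s + 4) * s) :=
            mul_le_mul hmW h3 (by positivity) (by positivity)
        _ = v / 8 * ((m : ℝ) * (m : ℝ) ^ ((4 * s + 4) * s)) := by ring
        _ ≤ _ := mul_le_mul_of_nonneg_left h4 (by positivity)
    have h5 := (Complex.abs_re_le_norm _).trans (h1.trans h2)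
    have h5' : ((TT s m : ℂ) * w₀).re = TT s m * w₀.re := by
      rw [← Complex.ofReal_natCast, Complex.re_ofReal_mul]
    rw [Complex.sub_re, h5'] at h5
    have h6 := (abs_le.1 h5).1
    have h7 : (TT s m : ℝ) * (7 / 8 * v) ≤ TT s m * w₀.re :=
      mul_le_mul_of_nonneg_left hw₀re hTTpos
    linarith
  refine le_trans ?_ (sum_le_sum hn)
  rw [← mul_sum]
  have hlog : Real.log m ≤ ∑ n ∈ Y, (1 / (n : ℝ)) := by
    have hmp : 1 ≤ m ^ (4 * s + 3) := Nat.one_le_pow _ _ hm1
    have hmN : m ^ (4 * s + 3) ≤ NN s m := Nat.pow_le_pow_right hm1 (by omega)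
    have h1 := harm hmp (NN s m) (hmN.trans (Nat.le_succ _))
    rw [← hY] at h1
    refine le_trans ?_ h1
    have h2 : Real.log ((NN s m : ℕ) : ℝ) ≤ Real.log ((NN s m : ℝ) + 1) := by
      refine Real.log_le_log ?_ (by linarith)
      have : 0 < NN s m := by omega
      exact_mod_cast this
    have h3 : Real.log ((NN s m : ℕ) : ℝ) = (4 * s + 4 : ℕ) * Real.log m := by
      unfold NN
      push_cast
      rw [Real.log_pow]
      push_cast
      ring
    have h4 : Real.log ((m ^ (4 * s + 3) : ℕ) : ℝ) = (4 * s + 3 : ℕ) * Real.log m := by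
      push_cast
      rw [Real.log_pow]
      push_cast
      ring
    rw [h4]
    rw [h3] at h2
    push_cast at h2 ⊢
    linarith
  have hlog0 : 0 ≤ Real.log m := Real.log_nonneg hmr
  have h8 : (0 : ℝ) ≤ 5 / 8 * v * TT s m := by positivity
  have h9 := mul_le_mul_of_nonneg_left hlog h8
  refine le_trans ?_ h9
  have h10 : 0 ≤ v * TT s m * Real.log m := by positivity
  linarith

/-- Row N3. -/
theorem rowN3 : N3_stmt := by
  classical
  intro s hs C hcl hP hC
  obtain ⟨w, hw, h⟩ := rowN3c s hs C hcl hP hC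
  refine ⟨w, hw, fun ζ δ hδ => ?_⟩
  obtain ⟨m₀, h1⟩ := h ζ δ hδ
  refine ⟨m₀, fun m hm => (h1 m hm).trans (le_of_eq ?_)⟩
  refine sum_congr rfl fun T _ => ?_
  have e : (do let a ← Icc (m ^ (4 * s + 3)) (NN s m); pure (a : ℝ) : Finset ℝ) =
      (Icc (m ^ (4 * s + 3)) (NN s m)).image (fun a : ℕ => (a : ℝ)) := by
    ext x
    simp
  rw [e, filter_image, sum_image fun a _ b _ hab => Nat.cast_injective hab]

end Pool.Agent.UD
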