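import Pool.Agent.Lib.UD95.Defs

/-!
# UD, row N5: averages of `n ^ (i T)` over progressions (helper16)
-/

set_option autoImplicit false
open Finset Polynomial MeasureTheory

namespace Pool.Agent.UD

open Pool.Agent.Lib.MP_663568_nt Pool.Agent.Lib.MP_663568_nt.Katai
  Pool.Agent.Lib.MP_663568_nt.Nul Pool.Agent.TU

namespace N5x

/-- the geometric sum -/
lemma geom (M : ℕ) (θ : ℝ) (h0 : θ ≠ 0) (h1 : |θ| ≤ 7 / 10) :
    ‖∑ T ∈ Ico M (2 * M), Complex.exp ((((T : ℕ) : ℝ) * θ : ℝ) * Complex.I)‖ ≤ 7 / |θ| := by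
  obtain ⟨z, hz⟩ : ∃ z, z = Complex.exp ((θ : ℂ) * Complex.I) := ⟨_, rfl⟩
  have hzn : ‖z‖ = 1 := by rw [hz]; exact Complex.norm_exp_ofReal_mul_I _
  have hp : 0 < |θ| := abs_pos.2 h0
  have e1 : ∀ T : ℕ, Complex.exp ((((T : ℕ) : ℝ) * θ : ℝ) * Complex.I) = z ^ T := by
    intro T
    rw [hz, ← Complex.exp_nat_mul]
    congr 1
    push_cast
    ring
  have h2 : 3 / 10 * |θ| ≤ ‖z - 1‖ := by
    have hx : ‖(θ : ℂ) * Complex.I‖ = |θ| := by
      rw [norm_mul, Complex.norm_I, mul_one, Complex.norm_real, Real.norm_eq_abs]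
    have h3 := Complex.norm_exp_sub_one_sub_id_le (x := (θ : ℂ) * Complex.I) (by rw [hx]; linarith)
    rw [hx, ← hz] at h3
    have h4 : ‖(θ : ℂ) * Complex.I‖ ≤ ‖z - 1‖ + ‖z - 1 - (θ : ℂ) * Complex.I‖ := by
      have : (θ : ℂ) * Complex.I = (z - 1) - (z - 1 - (θ : ℂ) * Complex.I) := by ring
      calc ‖(θ : ℂ) * Complex.I‖ = ‖(z - 1) - (z - 1 - (θ : ℂ) * Complex.I)‖ := by rw [← this]
        _ ≤ _ := norm_sub_le _ _
    rw [hx] at h4
    nlinarith
  have h3 : z ≠ 1 := by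
    intro h
    rw [h, sub_self, norm_zero] at h2
    linarith
  have h5 : ∑ T ∈ Ico M (2 * M), Complex.exp ((((T : ℕ) : ℝ) * θ : ℝ) * Complex.I) =
      (z ^ (2 * M) - z ^ M) / (z - 1) := by
    rw [sum_congr rfl fun T _ => e1 T, geom_sum_Ico h3 (by omega)]
  rw [h5, norm_div]
  have h6 : ‖z ^ (2 * M) - z ^ M‖ ≤ 2 := by
    refine (norm_sub_le _ _).trans ?_
    rw [norm_pow, norm_pow, hzn, one_pow, one_pow]
    norm_num
  have h7 : 0 < ‖z - 1‖ := lt_of_lt_of_le (by positivity) h2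
  rw [div_le_div_iff₀ h7 hp]
  nlinarith

/-- the sum over a part of a window -/
noncomputable def Sw (n : ℕ) (A : Finset ℕ) (T : ℕ) : ℂ :=
  ∑ h ∈ A, Complex.exp ((((T : ℕ) : ℝ) * Real.log ((n + h : ℕ) : ℝ) : ℝ) * Complex.I)

lemma Sw_le (n : ℕ) (A : Finset ℕ) (T : ℕ) : ‖Sw n A T‖ ≤ A.card := by
  unfold Sw
  refine (norm_sum_le _ _).trans ?_
  refine (sum_le_card_nsmul _ _ 1 fun h _ => ?_).trans (by simp)
  exact (Complex.norm_exp_ofReal_mul_I _).le

lemma log_gap {a b N : ℕ} (ha : 1 ≤ a) (hab : a < b) (hb : b ≤ 2 * N) (h2 : b ≤ 2 * a) :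
    |Real.log b - Real.log a| ≤ 7 / 10 ∧ 1 / (2 * (N : ℝ)) ≤ |Real.log b - Real.log a| := by
  have ha0 : (0 : ℝ) < a := by exact_mod_cast ha
  have hb0 : (0 : ℝ) < b := by exact_mod_cast (by omega : 0 < b)
  have habr : (a : ℝ) + 1 ≤ b := by exact_mod_cast hab
  have h2r : (b : ℝ) ≤ 2 * a := by exact_mod_cast h2
  have hbN : (b : ℝ) ≤ 2 * N := by exact_mod_cast hb
  have h3 : Real.log a ≤ Real.log b := Real.log_le_log ha0 (by linarith)
  rw [abs_of_nonneg (by linarith)]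
  constructor
  · have h4 : Real.log b ≤ Real.log (2 * a) := Real.log_le_log hb0 h2r
    rw [Real.log_mul (by norm_num) ha0.ne'] at h4
    have := Real.log_two_lt_d9
    linarith
  · have h5 := Real.log_le_sub_one_of_pos (x := (a : ℝ) / b) (by positivity)
    rw [Real.log_div ha0.ne' hb0.ne'] at h5
    have h6 : (a : ℝ) / b - 1 ≤ -(1 / b) := by
      rw [div_sub_one hb0.ne', ← neg_div, div_le_div_iff_of_pos_right hb0]
      linarith
    have h7 : 1 / (2 * (N : ℝ)) ≤ 1 / b := one_div_le_one_div_of_le hb0 hbN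
    linarith

/-- the first moment over `T` -/
theorem moment {n L M N : ℕ} {A : Finset ℕ} (hA : A ⊆ Icc 1 L) (hn : L ≤ n) (hn1 : 1 ≤ n)
    (hnN : n ≤ N) (hM : 14 * L * N ≤ M) :
    ∑ T ∈ Ico M (2 * M), ‖Sw n A T‖ ≤ √(2 * (L : ℝ)) * M := by
  have hN1 : 1 ≤ N := hn1.trans hnN
  have hN0 : (0 : ℝ) < N := by exact_mod_cast hN1
  have hcard : (A.card : ℝ) ≤ L := by
    have := card_le_card hA
    rw [Nat.card_Icc, Nat.add_sub_cancel] at this
    exact_mod_cast this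
  have hM0 : (0 : ℝ) ≤ M := Nat.cast_nonneg _
  have hL0 : (0 : ℝ) ≤ L := Nat.cast_nonneg _
  have hmem : ∀ h ∈ A, 1 ≤ h ∧ h ≤ L := fun h hh => mem_Icc.1 (hA hh)
  -- the second moment
  have h2 : ∑ T ∈ Ico M (2 * M), ‖Sw n A T‖ ^ 2 ≤ 2 * L * M := by
    have e1 : ((∑ T ∈ Ico M (2 * M), ‖Sw n A T‖ ^ 2 : ℝ) : ℂ) =
        ∑ h ∈ A, ∑ k ∈ A, ∑ T ∈ Ico M (2 * M), Complex.exp ((((T : ℕ) : ℝ) *
          (Real.log ((n + h : ℕ) : ℝ) - Real.log ((n + k : ℕ) : ℝ)) : ℝ) * Complex.I) := by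
      have e2 : ∀ T : ℕ, ((‖Sw n A T‖ ^ 2 : ℝ) : ℂ) = ∑ h ∈ A, ∑ k ∈ A,
          Complex.exp ((((T : ℕ) : ℝ) *
            (Real.log ((n + h : ℕ) : ℝ) - Real.log ((n + k : ℕ) : ℝ)) : ℝ) * Complex.I) := by
        intro T
        rw [Complex.ofReal_pow, ← Complex.mul_conj', Sw, map_sum, sum_mul_sum]
        refine sum_congr rfl fun h _ => sum_congr rfl fun k _ => ?_
        rw [← Complex.exp_conj, ← Complex.exp_add]
        congr 1
        simp only [map_mul, Complex.conj_ofReal, Complex.conj_I]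
        push_cast
        ring
      rw [Complex.ofReal_sum, sum_congr rfl fun T _ => e2 T, sum_comm]
      exact sum_congr rfl fun h _ => sum_comm
    have h3 : ∑ T ∈ Ico M (2 * M), ‖Sw n A T‖ ^ 2 ≤
        ‖((∑ T ∈ Ico M (2 * M), ‖Sw n A T‖ ^ 2 : ℝ) : ℂ)‖ := by
      rw [Complex.norm_real]
      exact le_abs_self _
    refine h3.trans ?_
    rw [e1]
    have h4 : ∀ h ∈ A, ∀ k ∈ A, ‖∑ T ∈ Ico M (2 * M), Complex.exp ((((T : ℕ) : ℝ) *
          (Real.log ((n + h : ℕ) : ℝ) - Real.log ((n + k : ℕ) : ℝ)) : ℝ) * Complex.I)‖ ≤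
        (if h = k then (M : ℝ) else 0) + 14 * N := by
      intro h hh k hk
      obtain ⟨hh1, hh2⟩ := hmem h hh
      obtain ⟨hk1, hk2⟩ := hmem k hk
      by_cases hhk : h = k
      · rw [if_pos hhk]
        refine (norm_sum_le _ _).trans ?_
        refine (sum_le_card_nsmul _ _ 1 fun h _ => (Complex.norm_exp_ofReal_mul_I _).le).trans ?_
        rw [Nat.card_Ico, nsmul_eq_mul, mul_one]
        have : 2 * M - M = M := by omega
        rw [this]
        linarith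
      · rw [if_neg hhk, zero_add]
        have hgap : |Real.log ((n + h : ℕ) : ℝ) - Real.log ((n + k : ℕ) : ℝ)| ≤ 7 / 10 ∧
            1 / (2 * (N : ℝ)) ≤ |Real.log ((n + h : ℕ) : ℝ) - Real.log ((n + k : ℕ) : ℝ)| := by
          rcases Nat.lt_or_gt_of_ne hhk with hlt | hlt
          · rw [abs_sub_comm]
            exact log_gap (by omega) (by omega) (by omega) (by omega)
          · exact log_gap (by omega) (by omega) (by omega) (by omega)
        have hpos : 0 < |Real.log ((n + h : ℕ) : ℝ) - Real.log ((n + k : ℕ) : ℝ)| :=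
          lt_of_lt_of_le (by positivity) hgap.2
        refine (geom M _ (abs_pos.1 hpos) hgap.1).trans ?_
        rw [div_le_iff₀ hpos]
        have := hgap.2
        rw [div_le_iff₀ (by positivity)] at this
        nlinarith
    refine (norm_sum_le _ _).trans ?_
    refine (sum_le_sum fun h hh => (norm_sum_le _ _).trans (sum_le_sum fun k hk => h4 h hh k hk)).trans
      ?_
    have h5 : ∑ h ∈ A, ∑ k ∈ A, ((if h = k then (M : ℝ) else 0) + 14 * N) =
        A.card * M + A.card * (A.card * (14 * N)) := by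
      simp only [sum_add_distrib, sum_ite_eq, sum_const, nsmul_eq_mul]
      congr 1
      rw [sum_congr rfl fun h hh => if_pos hh, sum_const, nsmul_eq_mul]
    rw [h5]
    have hM' : 14 * (L : ℝ) * N ≤ M := by exact_mod_cast hM
    calc (A.card : ℝ) * M + A.card * (A.card * (14 * N))
        ≤ L * M + L * (L * (14 * N)) := by gcongr
      _ = L * M + L * (14 * L * N) := by ring
      _ ≤ L * M + L * M := by gcongr
      _ = _ := by ring
  -- Cauchy
  have h6 := sq_sum_le_card_mul_sum_sq (s := Ico M (2 * M)) (f := fun T => ‖Sw n A T‖)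
  have h7 : (((Ico M (2 * M)).card : ℕ) : ℝ) = M := by
    rw [Nat.card_Ico]
    congr 1
    omega
  rw [h7] at h6
  have h8 : (∑ T ∈ Ico M (2 * M), ‖Sw n A T‖) ^ 2 ≤ (√(2 * (L : ℝ)) * M) ^ 2 := by
    rw [mul_pow, Real.sq_sqrt (by positivity)]
    calc (∑ T ∈ Ico M (2 * M), ‖Sw n A T‖) ^ 2 ≤ M * ∑ T ∈ Ico M (2 * M), ‖Sw n A T‖ ^ 2 := h6
      _ ≤ M * (2 * L * M) := by gcongr
      _ = _ := by ring
  exact abs_le_of_sq_le_sq' h8 (by positivity) |>.2

lemma harm (N : ℕ) : ∑ n ∈ Icc 1 N, (1 / (n : ℝ)) ≤ 1 + Real.log N := by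
  have h := harmonic_le_one_add_log N
  rw [harmonic_eq_sum_Icc] at h
  push_cast at h
  simpa only [one_div] using h

end N5x

open N5x

theorem rowN5 : N5_stmt := by
  intro s Q L hs hQ hL
  refine ⟨max (14 * L) ⌈Real.exp (2 + (L : ℝ) ^ 2)⌉₊, fun m hm => ?_⟩
  have hm1 : 14 * L ≤ m := (le_max_left _ _).trans hm
  have hm2 : Real.exp (2 + (L : ℝ) ^ 2) ≤ m :=
    (Nat.le_ceil _).trans (by exact_mod_cast (le_max_right _ _).trans hm)
  have hm0 : 1 ≤ m := by omega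
  obtain ⟨N, hN⟩ : ∃ N, N = NN s m := ⟨_, rfl⟩
  obtain ⟨M, hM⟩ : ∃ M, M = TT s m := ⟨_, rfl⟩
  have hmN : m ≤ N := by
    rw [hN, NN]
    calc m = m ^ 1 := (pow_one m).symm
      _ ≤ _ := Nat.pow_le_pow_right hm0 (by omega)
  have hNM : 14 * L * N ≤ M := by
    rw [hN, hM, NN, TT, pow_add m ((4 * s + 4) * s)]
    have h1 : m ^ (4 * s + 4) ≤ m ^ ((4 * s + 4) * s) := Nat.pow_le_pow_right hm0 (by nlinarith)
    have h2 : m ≤ m ^ (2 * s + 2) := by
      calc m = m ^ 1 := (pow_one m).symm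
        _ ≤ _ := Nat.pow_le_pow_right hm0 (by omega)
    calc 14 * L * m ^ (4 * s + 4) ≤ m ^ (2 * s + 2) * m ^ ((4 * s + 4) * s) :=
          Nat.mul_le_mul (hm1.trans h2) h1
      _ = _ := mul_comm _ _
  rw [← hN, ← hM]
  have hN1 : 1 ≤ N := hm0.trans hmN
  have hlog : 2 + (L : ℝ) ^ 2 ≤ Real.log N := by
    rw [Real.le_log_iff_exp_le (by exact_mod_cast hN1)]
    exact hm2.trans (by exact_mod_cast hmN)
  have hM0 : (0 : ℝ) ≤ M := Nat.cast_nonneg _
  have hL1 : (1 : ℝ) ≤ L := by exact_mod_cast hL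
  have hQ0 : (0 : ℝ) ≤ Q := Nat.cast_nonneg _
  -- one window
  have hwin : ∀ n ∈ Icc 1 N, ∀ A ⊆ Icc 1 L, ∑ T ∈ Ico M (2 * M), ‖Sw n A T‖ ≤
      (√(2 * (L : ℝ)) + if n < L then (L : ℝ) else 0) * M := by
    intro n hn A hA
    rw [mem_Icc] at hn
    by_cases hnL : n < L
    · rw [if_pos hnL]
      have h1 : ∑ T ∈ Ico M (2 * M), ‖Sw n A T‖ ≤ L * M := by
        have hcard : (A.card : ℝ) ≤ L := by
          have := card_le_card hA
          rw [Nat.card_Icc, Nat.add_sub_cancel] at this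
          exact_mod_cast this
        refine (sum_le_card_nsmul _ _ (L : ℝ) fun T _ => (Sw_le n A T).trans hcard).trans ?_
        rw [Nat.card_Ico, nsmul_eq_mul]
        have : 2 * M - M = M := by omega
        rw [this, mul_comm]
      have h2 : 0 ≤ √(2 * (L : ℝ)) * M := by positivity
      linarith
    · rw [if_neg hnL, add_zero]
      exact moment hA (by omega) hn.1 hn.2 hNM
  -- exchange the sums
  have hex : ∑ T ∈ Ico M (2 * M), AP Q L N (fun n => Complex.exp ((((T : ℕ) : ℝ) *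
      Real.log n : ℝ) * Complex.I)) =
      ∑ n ∈ Icc 1 N, (1 / (n : ℝ)) * ∑ q ∈ Icc 1 Q, ∑ b ∈ range q,
        ∑ T ∈ Ico M (2 * M), ‖Sw n ((Icc 1 L).filter fun h => (n + h) % q = b) T‖ := by
    unfold AP
    rw [sum_comm]
    refine sum_congr rfl fun n _ => ?_
    rw [← mul_sum]
    congr 1
    rw [sum_comm]
    refine sum_congr rfl fun q _ => ?_
    rw [sum_comm]
    rfl
  rw [hex]
  have hstep : ∀ n ∈ Icc 1 N, (1 / (n : ℝ)) * ∑ q ∈ Icc 1 Q, ∑ b ∈ range q,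
        ∑ T ∈ Ico M (2 * M), ‖Sw n ((Icc 1 L).filter fun h => (n + h) % q = b) T‖ ≤
      (Q : ℝ) ^ 2 * M * (√(2 * (L : ℝ)) * (1 / (n : ℝ)) + if n < L then (L : ℝ) else 0) := by
    intro n hn
    have hn1 : (1 : ℝ) ≤ n := by exact_mod_cast (mem_Icc.1 hn).1
    have hn1' : 1 / (n : ℝ) ≤ 1 := by
      rw [div_le_one (by linarith)]
      exact hn1
    obtain ⟨W, hW⟩ : ∃ W : ℝ, W = (√(2 * (L : ℝ)) + if n < L then (L : ℝ) else 0) * M := ⟨_, rfl⟩
    have hite : 0 ≤ (if n < L then (L : ℝ) else 0) := by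
      split_ifs
      · positivity
      · exact le_rfl
    have hW0 : 0 ≤ W := by rw [hW]; positivity
    have h1 : ∑ q ∈ Icc 1 Q, ∑ b ∈ range q,
        ∑ T ∈ Ico M (2 * M), ‖Sw n ((Icc 1 L).filter fun h => (n + h) % q = b) T‖ ≤
        (Q : ℝ) ^ 2 * W := by
      have h2 : ∀ q ∈ Icc 1 Q, ∑ b ∈ range q,
          ∑ T ∈ Ico M (2 * M), ‖Sw n ((Icc 1 L).filter fun h => (n + h) % q = b) T‖ ≤ Q * W := by
        intro q hq
        refine (sum_le_card_nsmul _ _ W fun b _ => ?_).trans ?_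
        · rw [hW]
          exact hwin n hn _ (filter_subset _ _)
        · rw [card_range, nsmul_eq_mul]
          have : (q : ℝ) ≤ Q := by exact_mod_cast (mem_Icc.1 hq).2
          gcongr
      refine (sum_le_card_nsmul _ _ _ h2).trans (le_of_eq ?_)
      rw [Nat.card_Icc, Nat.add_sub_cancel, nsmul_eq_mul]
      ring
    calc (1 / (n : ℝ)) * ∑ q ∈ Icc 1 Q, ∑ b ∈ range q,
        ∑ T ∈ Ico M (2 * M), ‖Sw n ((Icc 1 L).filter fun h => (n + h) % q = b) T‖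
        ≤ (1 / (n : ℝ)) * ((Q : ℝ) ^ 2 * W) := by gcongr
      _ = (Q : ℝ) ^ 2 * M * (√(2 * (L : ℝ)) * (1 / (n : ℝ)) +
          (1 / (n : ℝ)) * if n < L then (L : ℝ) else 0) := by rw [hW]; ring
      _ ≤ (Q : ℝ) ^ 2 * M * (√(2 * (L : ℝ)) * (1 / (n : ℝ)) +
          1 * if n < L then (L : ℝ) else 0) := by gcongr
      _ = _ := by rw [one_mul]
  refine (sum_le_sum hstep).trans ?_
  rw [← mul_sum, sum_add_distrib, ← mul_sum]
  have hharm := harm N
  have hite : ∑ n ∈ Icc 1 N, (if n < L then (L : ℝ) else 0) ≤ (L : ℝ) ^ 2 := by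
    rw [← sum_filter, sum_const, nsmul_eq_mul, sq]
    have : ((Icc 1 N).filter fun n => n < L).card ≤ L := by
      have h1 : ((Icc 1 N).filter fun n => n < L) ⊆ range L := by
        intro n hn
        exact mem_range.2 (mem_filter.1 hn).2
      simpa using card_le_card h1
    have : (((Icc 1 N).filter fun n => n < L).card : ℝ) ≤ L := by exact_mod_cast this
    gcongr
  have hsq : √(2 * (L : ℝ)) = √2 * √L := Real.sqrt_mul (by norm_num) _
  have hs2 : √2 ≤ 3 / 2 := by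
    rw [Real.sqrt_le_left (by norm_num)]
    norm_num
  have hs20 : 0 ≤ √(2 : ℝ) := Real.sqrt_nonneg _
  have hsL : 1 ≤ √(L : ℝ) := Real.one_le_sqrt.2 hL1
  have hlast : √(2 * (L : ℝ)) * ∑ n ∈ Icc 1 N, (1 / (n : ℝ)) +
      ∑ n ∈ Icc 1 N, (if n < L then (L : ℝ) else 0) ≤ 4 * √L * Real.log N := by
    have h1 : √(2 * (L : ℝ)) * ∑ n ∈ Icc 1 N, (1 / (n : ℝ)) ≤
        3 / 2 * √L * (1 + Real.log N) := by
      rw [hsq]
      have : 0 ≤ 1 + Real.log N := by nlinarith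
      calc √2 * √L * ∑ n ∈ Icc 1 N, (1 / (n : ℝ)) ≤ √2 * √L * (1 + Real.log N) := by gcongr
        _ ≤ 3 / 2 * √L * (1 + Real.log N) := by gcongr
    have h2 : (L : ℝ) ^ 2 ≤ √L * (L : ℝ) ^ 2 := le_mul_of_one_le_left (by positivity) hsL
    have h3 : 3 / 2 * √L * (1 + Real.log N) + √L * (L : ℝ) ^ 2 ≤ 4 * √L * Real.log N := by
      have h4 : 3 / 2 * (1 + Real.log N) + (L : ℝ) ^ 2 ≤ 4 * Real.log N := by nlinarith
      have h5 := mul_le_mul_of_nonneg_left h4 (by linarith : 0 ≤ √(L : ℝ))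
      nlinarith
    linarith
  calc (Q : ℝ) ^ 2 * M * (√(2 * (L : ℝ)) * ∑ n ∈ Icc 1 N, (1 / (n : ℝ)) +
      ∑ n ∈ Icc 1 N, (if n < L then (L : ℝ) else 0))
      ≤ (Q : ℝ) ^ 2 * M * (4 * √L * Real.log N) := by gcongr
    _ = _ := by ring

end Pool.Agent.UD
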