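import Mathlib
import Pool.Agent.Lib.UD95.Defs2
import Pool.Agent.Lib.UD95.AP
import Pool.Agent.Lib.TUK.E5

/-!
# Universal dichotomy (MP_663568_nt), row N7: progressions are absorbed in the linear coefficient
(helper62)
-/

set_option autoImplicit false
open Finset Polynomial MeasureTheory

namespace Pool.Agent.UD

open Pool.Agent.Lib.MP_663568_nt Pool.Agent.Lib.MP_663568_nt.Katai
  Pool.Agent.Lib.MP_663568_nt.Nul Pool.Agent.TU

namespace N7y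

lemma UW_zero (Q L : ℕ) (a : ℕ → ℂ) (n : ℕ) : UW 0 Q L a n = V Q L a n := by
  unfold UW V
  refine sum_congr rfl fun q _ => sum_congr rfl fun b _ => ?_
  rw [ciSup_unique]
  congr 1
  refine sum_congr rfl fun h _ => ?_
  have h1 : ee (0 : ℝ) = 1 := by simp [ee]
  have h2 : ∀ α : Fin 0 → ℝ, ph α (h : ℝ) = 0 := by
    intro α
    unfold ph
    exact sum_eq_zero fun i _ => i.elim0
  rw [h2, h1, mul_one]

/-- One window. -/
noncomputable def W (σ L : ℕ) (a : ℕ → ℂ) (n : ℕ) (α : Fin σ → ℝ) : ℝ :=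
  ‖∑ h ∈ Icc 1 L, a (n + h) * ee (ph α (h : ℝ))‖

lemma bdd_W (σ L : ℕ) (a : ℕ → ℂ) (n : ℕ) : BddAbove (Set.range (W σ L a n)) := by
  refine ⟨∑ h ∈ Icc 1 L, ‖a (n + h)‖, ?_⟩
  rintro _ ⟨α, rfl⟩
  refine (norm_sum_le _ _).trans (le_of_eq ?_)
  refine sum_congr rfl fun h _ => ?_
  rw [norm_mul, norm_ee, mul_one]

lemma UW_one (σ L : ℕ) (a : ℕ → ℂ) (n : ℕ) : UW σ 1 L a n = ⨆ α, W σ L a n α := by
  unfold UW W
  rw [Icc_self, sum_singleton, sum_range_one]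
  congr 1
  ext α
  congr 2
  refine filter_true_of_mem fun h _ => ?_
  exact Nat.mod_one _

/-- a linear term is absorbed in the linear coefficient -/
lemma exists_add {σ : ℕ} (hσ : 1 ≤ σ) (α : Fin σ → ℝ) (c : ℝ) :
    ∃ α' : Fin σ → ℝ, ∀ x : ℝ, ph α' x = ph α x + c * x := by
  refine ⟨α + Pi.single (⟨0, hσ⟩ : Fin σ) c, fun x => ?_⟩
  unfold ph
  simp only [Pi.add_apply, add_mul]
  rw [sum_add_distrib]
  congr 1
  rw [sum_eq_single (⟨0, hσ⟩ : Fin σ)]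
  · simp
  · intro i _ hi
    rw [Pi.single_eq_of_ne hi, zero_mul]
  · intro h
    exact absurd (mem_univ _) h

lemma prog_le {σ : ℕ} (hσ : 1 ≤ σ) {q : ℕ} (hq : 1 ≤ q) (b L : ℕ) (a : ℕ → ℂ) (n : ℕ)
    (α : Fin σ → ℝ) :
    ‖∑ h ∈ Icc 1 L with (n + h) % q = b, a (n + h) * ee (ph α (h : ℝ))‖ ≤
      q * ⨆ α, W σ L a n α := by
  obtain ⟨c, hc, hg⟩ := TUK.RE5.fourierB q hq (fun h => if (n + h) % q = b then 1 else 0)
    (fun h => by
      have : (n + (h + q)) % q = (n + h) % q := by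
        rw [← add_assoc, Nat.add_mod_right]
      simp only [this])
    (fun h => by
      show ‖(if (n + h) % q = b then (1 : ℂ) else 0)‖ ≤ 1
      split_ifs <;> simp)
  have e1 : ∑ h ∈ Icc 1 L with (n + h) % q = b, a (n + h) * ee (ph α (h : ℝ)) =
      ∑ j ∈ range q, c j * ∑ h ∈ Icc 1 L, a (n + h) * (ee (ph α (h : ℝ)) *
        ee ((j : ℝ) * ((h : ℝ) / q))) := by
    simp_rw [mul_sum]
    rw [sum_comm, sum_filter]
    refine sum_congr rfl fun h _ => ?_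
    have e2 : (if (n + h) % q = b then a (n + h) * ee (ph α (h : ℝ)) else 0) =
        (if (n + h) % q = b then (1 : ℂ) else 0) * (a (n + h) * ee (ph α (h : ℝ))) := by
      split_ifs <;> simp
    rw [e2, hg h, sum_mul]
    refine sum_congr rfl fun j _ => ?_
    ring
  rw [e1]
  refine (norm_sum_le _ _).trans ?_
  have e3 : ∀ j ∈ range q, ‖c j * ∑ h ∈ Icc 1 L, a (n + h) * (ee (ph α (h : ℝ)) *
        ee ((j : ℝ) * ((h : ℝ) / q)))‖ ≤ ⨆ α, W σ L a n α := by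
    intro j _
    obtain ⟨α', hα'⟩ := exists_add hσ α ((j : ℝ) / q)
    have e4 : ∑ h ∈ Icc 1 L, a (n + h) * (ee (ph α (h : ℝ)) * ee ((j : ℝ) * ((h : ℝ) / q))) =
        ∑ h ∈ Icc 1 L, a (n + h) * ee (ph α' (h : ℝ)) := by
      refine sum_congr rfl fun h _ => ?_
      rw [← ee_add, hα']
      congr 2
      ring
    rw [norm_mul, e4]
    have h0 : 0 ≤ ‖∑ h ∈ Icc 1 L, a (n + h) * ee (ph α' (h : ℝ))‖ := norm_nonneg _
    calc ‖c j‖ * ‖∑ h ∈ Icc 1 L, a (n + h) * ee (ph α' (h : ℝ))‖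
        ≤ 1 * ‖∑ h ∈ Icc 1 L, a (n + h) * ee (ph α' (h : ℝ))‖ :=
          mul_le_mul_of_nonneg_right (hc j) h0
      _ = W σ L a n α' := one_mul _
      _ ≤ _ := le_ciSup (bdd_W σ L a n) α'
  refine (sum_le_sum e3).trans ?_
  rw [sum_const, card_range, nsmul_eq_mul]

lemma UW_one_nonneg (σ L : ℕ) (a : ℕ → ℂ) (n : ℕ) : 0 ≤ UW σ 1 L a n := by
  rw [UW_one]
  exact Real.iSup_nonneg fun _ => norm_nonneg _

lemma UW_le {σ : ℕ} (hσ : 1 ≤ σ) (Q L : ℕ) (a : ℕ → ℂ) (n : ℕ) :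
    UW σ Q L a n ≤ (Q : ℝ) ^ 3 * UW σ 1 L a n := by
  have h0 := UW_one_nonneg σ L a n
  rw [UW_one] at h0 ⊢
  unfold UW
  have h1 : ∀ q ∈ Icc 1 Q, ∑ b ∈ range q, ⨆ α : Fin σ → ℝ,
      ‖∑ h ∈ Icc 1 L with (n + h) % q = b, a (n + h) * ee (ph α (h : ℝ))‖ ≤
        (Q : ℝ) * (Q * ⨆ α, W σ L a n α) := by
    intro q hq
    rw [mem_Icc] at hq
    have hqQ : (q : ℝ) ≤ Q := by exact_mod_cast hq.2
    have h2 : ∀ b ∈ range q, ⨆ α : Fin σ → ℝ,
        ‖∑ h ∈ Icc 1 L with (n + h) % q = b, a (n + h) * ee (ph α (h : ℝ))‖ ≤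
          Q * ⨆ α, W σ L a n α := by
      intro b _
      refine ciSup_le fun α => (prog_le hσ hq.1 b L a n α).trans ?_
      exact mul_le_mul_of_nonneg_right hqQ h0
    refine (sum_le_sum h2).trans ?_
    rw [sum_const, card_range, nsmul_eq_mul]
    exact mul_le_mul_of_nonneg_right hqQ (by positivity)
  refine (sum_le_sum h1).trans ?_
  rw [sum_const, Nat.card_Icc, nsmul_eq_mul, Nat.add_sub_cancel]
  exact le_of_eq (by ring)

lemma UU_le {σ : ℕ} (hσ : 1 ≤ σ) (Q L N : ℕ) (a : ℕ → ℂ) :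
    UU σ Q L N a ≤ (Q : ℝ) ^ 3 * UU σ 1 L N a := by
  unfold UU
  rw [mul_sum]
  refine sum_le_sum fun n _ => ?_
  calc (1 / (n : ℝ)) * UW σ Q L a n ≤ (1 / (n : ℝ)) * ((Q : ℝ) ^ 3 * UW σ 1 L a n) :=
        mul_le_mul_of_nonneg_left (UW_le hσ Q L a n) (by positivity)
    _ = _ := by ring

end N7y

theorem rowN7 (h5 : N5_stmt) (ha : N7a_stmt) : N7_stmt := by
  intro σ s Q hσ hQ η hη
  have hQ1 : (1 : ℝ) ≤ Q := by exact_mod_cast hQ
  rcases Nat.eq_zero_or_pos σ with rfl | hσ0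
  · -- degree zero
    obtain ⟨L, hL⟩ := exists_nat_ge (max 1 ((4 * (Q : ℝ) ^ 2 / η) ^ 2))
    have hL1 : (1 : ℝ) ≤ L := (le_max_left _ _).trans hL
    have hL2 : (4 * (Q : ℝ) ^ 2 / η) ^ 2 ≤ L := (le_max_right _ _).trans hL
    have hL3 : 4 * (Q : ℝ) ^ 2 / η ≤ √L := Real.le_sqrt_of_sq_le hL2
    have hL1' : 1 ≤ L := by exact_mod_cast hL1
    obtain ⟨m₀, hm₀⟩ := h5 s Q L (by omega) hQ hL1'
    refine ⟨L, hL1', max m₀ 1, fun m hm => ?_⟩
    have h1 := hm₀ m ((le_max_left _ _).trans hm)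
    have hm1 : 1 ≤ m := (le_max_right _ _).trans hm
    have e1 : ∀ a : ℕ → ℂ, UU 0 Q L (NN s m) a = AP Q L (NN s m) a := by
      intro a
      rw [AP_eq]
      unfold UU
      refine sum_congr rfl fun n _ => ?_
      rw [N7y.UW_zero]
    simp only [e1]
    refine h1.trans ?_
    have h2 : 4 * (Q : ℝ) ^ 2 * √L ≤ η * L := by
      have h3 : 4 * (Q : ℝ) ^ 2 ≤ η * √L := by
        rw [div_le_iff₀ hη] at hL3
        linarith
      calc 4 * (Q : ℝ) ^ 2 * √L ≤ (η * √L) * √L :=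
            mul_le_mul_of_nonneg_right h3 (Real.sqrt_nonneg _)
        _ = η * (√L * √L) := by ring
        _ = η * L := by rw [Real.mul_self_sqrt (by positivity)]
    have h4 : 0 ≤ Real.log (NN s m) := Real.log_natCast_nonneg _
    have h5 : (0 : ℝ) ≤ TT s m := Nat.cast_nonneg _
    calc 4 * (Q : ℝ) ^ 2 * √L * Real.log (NN s m) * TT s m
        = (4 * (Q : ℝ) ^ 2 * √L) * (Real.log (NN s m) * TT s m) := by ring
      _ ≤ (η * L) * (Real.log (NN s m) * TT s m) :=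
          mul_le_mul_of_nonneg_right h2 (mul_nonneg h4 h5)
      _ = _ := by ring
  · -- positive degree
    have hQ3 : (0 : ℝ) < (Q : ℝ) ^ 3 := by positivity
    obtain ⟨L₀, hL₀⟩ := ha σ s hσ0 hσ (η / (Q : ℝ) ^ 3) (div_pos hη hQ3)
    obtain ⟨m₀, hm₀⟩ := hL₀ (max L₀ 1) (le_max_left _ _)
    refine ⟨max L₀ 1, le_max_right _ _, m₀, fun m hm => ?_⟩
    have h1 := hm₀ m hm
    have h2 : ∀ T ∈ Ico (TT s m) (2 * TT s m),
        UU σ Q (max L₀ 1) (NN s m)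
          (fun n => Complex.exp ((((T : ℕ) : ℝ) * Real.log n : ℝ) * Complex.I)) ≤
        (Q : ℝ) ^ 3 * UU σ 1 (max L₀ 1) (NN s m)
          (fun n => Complex.exp ((((T : ℕ) : ℝ) * Real.log n : ℝ) * Complex.I)) :=
      fun T _ => N7y.UU_le hσ0 Q _ _ _
    refine (sum_le_sum h2).trans ?_
    rw [← mul_sum]
    refine (mul_le_mul_of_nonneg_left h1 hQ3.le).trans (le_of_eq ?_)
    field_simp

end Pool.Agent.UD
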