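import Pool.Agent.Lib.UD95.Defs2
import Pool.Agent.Lib.UD95.N5

/-!
# Row N7a: `n ^ (i T)` has small correlation with the phases of degree at most `σ`
-/

set_option autoImplicit false
open Finset Polynomial MeasureTheory

namespace Pool.Agent.UD

open Pool.Agent.Lib.MP_663568_nt Pool.Agent.Lib.MP_663568_nt.Katai
  Pool.Agent.Lib.MP_663568_nt.Nul Pool.Agent.TU

namespace N7x

/-! ### Differences of the logarithm -/

/-- Iterated differences of a function of a real variable. -/
noncomputable def DR : List ℕ → (ℝ → ℝ) → ℝ → ℝ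
  | [], f => f
  | k :: ks, f => DR ks fun x => f (x + k) - f x

/-- The product of the entries. -/
def Pk (ks : List ℕ) : ℕ := ks.prod

lemma DR_sub (ks : List ℕ) : ∀ f g : ℝ → ℝ,
    DR ks (fun x => f x - g x) = fun x => DR ks f x - DR ks g x := by
  induction ks with
  | nil => intro f g; rfl
  | cons k ks ih =>
    intro f g
    have h1 : (fun x => (fun x => f x - g x) (x + k) - (fun x => f x - g x) x) =
        fun x => (fun x => f (x + k) - f x) x - (fun x => g (x + k) - g x) x := by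
      funext x
      simp only
      ring
    show DR ks _ = _
    rw [h1, ih]
    rfl

lemma DR_shift (ks : List ℕ) : ∀ (f : ℝ → ℝ) (c : ℝ) (x : ℝ),
    DR ks (fun y => f (y + c)) x = DR ks f (x + c) := by
  induction ks with
  | nil => intro f c x; rfl
  | cons k ks ih =>
    intro f c x
    show DR ks (fun y => f (y + k + c) - f (y + c)) x = DR ks (fun y => f (y + k) - f y) (x + c)
    rw [← ih (fun y => f (y + k) - f y) c x]
    congr 1
    funext y
    rw [add_right_comm]

/-- Iterated mean value theorem. -/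
lemma DR_mean (ks : List ℕ) (hks : ∀ k ∈ ks, 1 ≤ k) : ∀ (F : ℕ → ℝ → ℝ),
    (∀ i x, 0 < x → HasDerivAt (F i) (F (i + 1) x) x) → ∀ x : ℝ, 0 < x →
    ∃ ξ : ℝ, x ≤ ξ ∧ ξ ≤ x + (ks.sum : ℕ) ∧ DR ks (F 0) x = (ks.prod : ℕ) * F ks.length ξ := by
  induction ks with
  | nil =>
    intro F _ x _
    exact ⟨x, le_rfl, by simp, by simp [DR]⟩
  | cons k ks ih =>
    intro F hF x hx
    have hk : 1 ≤ k := hks k (List.mem_cons_self ..)
    have hk0 : (0 : ℝ) < k := by exact_mod_cast hk
    obtain ⟨ξ, h1, h2, h3⟩ := ih (fun j hj => hks j (List.mem_cons_of_mem _ hj))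
      (fun i y => F i (y + k) - F i y) (fun i y hy => by
        have e1 : HasDerivAt (fun y => F i (y + k)) (F (i + 1) (y + k)) y := by
          have e2 := hF i (y + k) (by positivity)
          exact e2.comp_add_const y (k : ℝ)
        exact e1.sub (hF i y hy)) x hx
    have hξ : 0 < ξ := hx.trans_le h1
    obtain ⟨c, hc, hc2⟩ := exists_hasDerivAt_eq_slope (F ks.length) (F (ks.length + 1))
      (a := ξ) (b := ξ + k) (by linarith)
      (fun y hy => (hF _ y (hξ.trans_le hy.1)).continuousAt.continuousWithinAt)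
      (fun y hy => hF _ y (hξ.trans hy.1))
    refine ⟨c, h1.trans hc.1.le, ?_, ?_⟩
    · rw [List.sum_cons, Nat.cast_add]
      have := hc.2
      linarith
    · show DR ks (fun y => F 0 (y + k) - F 0 y) x = _
      rw [h3, List.prod_cons, List.length_cons, hc2]
      rw [add_sub_cancel_left]
      push_cast
      field_simp

/-- The derivatives of the logarithm. -/
noncomputable def LF : ℕ → ℝ → ℝ
  | 0, x => Real.log x
  | i + 1, x => (-1) ^ i * (i.factorial : ℝ) / x ^ (i + 1)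

lemma LF_deriv (i : ℕ) (x : ℝ) (hx : 0 < x) : HasDerivAt (LF i) (LF (i + 1) x) x := by
  cases i with
  | zero =>
    have h := Real.hasDerivAt_log hx.ne'
    refine h.congr_deriv ?_
    simp [LF]
  | succ i =>
    have h1 : HasDerivAt (fun y : ℝ => y ^ (i + 1)) (((i + 1 : ℕ) : ℝ) * x ^ i) x := by
      have := hasDerivAt_pow (i + 1) x
      simpa using this
    have h2 := (hasDerivAt_const x ((-1) ^ i * (i.factorial : ℝ))).fun_div h1
      (pow_ne_zero _ hx.ne')
    refine h2.congr_deriv ?_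
    show _ = (-1) ^ (i + 1) * ((i + 1).factorial : ℝ) / x ^ (i + 1 + 1)
    rw [Nat.factorial_succ, zero_mul, zero_sub, pow_succ (-1 : ℝ), div_eq_div_iff
      (by positivity) (by positivity)]
    push_cast
    ring

/-- The gaps of the differences of the logarithm. -/
lemma gap (ks : List ℕ) (hks : ∀ k ∈ ks, 1 ≤ k) (x : ℝ) (hx : 0 < x) (d : ℕ) (hd : 1 ≤ d) :
    |DR ks Real.log (x + d) - DR ks Real.log x| ≤
        d * ks.prod * ks.length.factorial / x ^ (ks.length + 1) ∧
      1 / (x + d + ks.sum) ^ (ks.length + 1) ≤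
        |DR ks Real.log (x + d) - DR ks Real.log x| := by
  have h1 : DR ks Real.log (x + d) - DR ks Real.log x = DR (d :: ks) (LF 0) x := by
    have e1 : DR (d :: ks) (LF 0) = DR ks fun y => (fun z => Real.log (z + d)) y - Real.log y :=
      rfl
    rw [e1, DR_sub]
    show _ = DR ks (fun z => Real.log (z + d)) x - DR ks Real.log x
    rw [DR_shift]
  obtain ⟨ξ, h2, h3, h4⟩ := DR_mean (d :: ks) (fun k hk => by
    rcases List.mem_cons.1 hk with rfl | hk
    · exact hd
    · exact hks k hk) LF LF_deriv x hx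
  rw [h1, h4, List.prod_cons, List.length_cons]
  have hξ : 0 < ξ := hx.trans_le h2
  have h5 : |((d * ks.prod : ℕ) : ℝ) * LF (ks.length + 1) ξ| =
      d * ks.prod * ks.length.factorial / ξ ^ (ks.length + 1) := by
    show |((d * ks.prod : ℕ) : ℝ) * ((-1) ^ ks.length * (ks.length.factorial : ℝ) /
      ξ ^ (ks.length + 1))| = _
    rw [abs_mul, abs_div, abs_mul, abs_pow, abs_neg, abs_one, one_pow, one_mul, Nat.abs_cast,
      Nat.abs_cast, abs_of_pos (pow_pos hξ _)]
    push_cast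
    ring
  rw [h5]
  have hprod : 1 ≤ ks.prod := List.one_le_prod_of_one_le hks
  constructor
  · exact div_le_div_of_nonneg_left (by positivity) (by positivity)
      (pow_le_pow_left₀ hx.le h2 _)
  · refine div_le_div₀ (by positivity) ?_ (by positivity) (pow_le_pow_left₀ hξ.le ?_ _)
    · have h6 : 1 ≤ d * ks.prod * ks.length.factorial :=
        Nat.one_le_iff_ne_zero.2 (Nat.mul_ne_zero (Nat.mul_ne_zero (by omega) (by omega))
          (Nat.factorial_ne_zero _))
      exact_mod_cast h6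
    · refine h3.trans (le_of_eq ?_)
      rw [List.sum_cons]
      push_cast
      ring

/-- The differences of the phases. -/
lemma Dif_exp (ks : List ℕ) (T : ℝ) : ∀ (f : ℝ → ℝ) (n : ℝ),
    Dif ks (fun h : ℕ => Complex.exp ((T * f (n + h) : ℝ) * Complex.I)) =
      fun h : ℕ => Complex.exp ((T * DR ks f (n + h) : ℝ) * Complex.I) := by
  induction ks with
  | nil => intro f n; rfl
  | cons k ks ih =>
    intro f n
    show Dif ks _ = _
    have h1 : (fun h : ℕ => Complex.exp ((T * f (n + (h + k : ℕ)) : ℝ) * Complex.I) *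
        (starRingEnd ℂ) (Complex.exp ((T * f (n + h) : ℝ) * Complex.I))) =
        fun h : ℕ => Complex.exp ((T * (fun y => f (y + k) - f y) (n + h) : ℝ) * Complex.I) := by
      funext h
      rw [← Complex.exp_conj, ← Complex.exp_add]
      congr 1
      simp only [map_mul, Complex.conj_ofReal, Complex.conj_I]
      push_cast
      rw [← add_assoc]
      ring
    have h2 : (fun h : ℕ => (fun h : ℕ => Complex.exp ((T * f (n + h) : ℝ) * Complex.I)) (h + k) *
        (starRingEnd ℂ) ((fun h : ℕ => Complex.exp ((T * f (n + h) : ℝ) * Complex.I)) h)) =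
        fun h : ℕ => Complex.exp ((T * f (n + (h + k : ℕ)) : ℝ) * Complex.I) *
        (starRingEnd ℂ) (Complex.exp ((T * f (n + h) : ℝ) * Complex.I)) := rfl
    rw [h2, h1]
    exact ih (fun y => f (y + k) - f y) n

/-! ### The moment over `T` -/

/-- The first moment over `T`. -/
theorem moment {L M : ℕ} {D : ℕ → ℝ} {ℓ : ℝ} (hℓ : 0 < ℓ)
    (hD : ∀ h ∈ Icc 1 L, ∀ k ∈ Icc 1 L, h < k → |D k - D h| ≤ 7 / 10 ∧ ℓ ≤ |D k - D h|)
    (hM : 7 * (L : ℝ) ≤ ℓ * M) :
    ∑ T ∈ Ico M (2 * M), ‖∑ h ∈ Icc 1 L, Complex.exp ((((T : ℕ) : ℝ) * D h : ℝ) * Complex.I)‖ ≤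
      √(2 * (L : ℝ)) * M := by
  have hM0 : (0 : ℝ) ≤ M := Nat.cast_nonneg _
  have hL0 : (0 : ℝ) ≤ L := Nat.cast_nonneg _
  set S : ℕ → ℂ := fun T => ∑ h ∈ Icc 1 L, Complex.exp ((((T : ℕ) : ℝ) * D h : ℝ) * Complex.I)
    with hS
  -- the second moment
  have h2 : ∑ T ∈ Ico M (2 * M), ‖S T‖ ^ 2 ≤ 2 * L * M := by
    have e1 : ((∑ T ∈ Ico M (2 * M), ‖S T‖ ^ 2 : ℝ) : ℂ) =
        ∑ h ∈ Icc 1 L, ∑ k ∈ Icc 1 L, ∑ T ∈ Ico M (2 * M), Complex.exp ((((T : ℕ) : ℝ) *
          (D h - D k) : ℝ) * Complex.I) := by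
      have e2 : ∀ T : ℕ, ((‖S T‖ ^ 2 : ℝ) : ℂ) = ∑ h ∈ Icc 1 L, ∑ k ∈ Icc 1 L,
          Complex.exp ((((T : ℕ) : ℝ) * (D h - D k) : ℝ) * Complex.I) := by
        intro T
        rw [Complex.ofReal_pow, ← Complex.mul_conj', hS]
        simp only
        rw [map_sum, sum_mul_sum]
        refine sum_congr rfl fun h _ => sum_congr rfl fun k _ => ?_
        rw [← Complex.exp_conj, ← Complex.exp_add]
        congr 1
        simp only [map_mul, Complex.conj_ofReal, Complex.conj_I]
        push_cast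
        ring
      rw [Complex.ofReal_sum, sum_congr rfl fun T _ => e2 T, sum_comm]
      exact sum_congr rfl fun h _ => sum_comm
    have h3 : ∑ T ∈ Ico M (2 * M), ‖S T‖ ^ 2 ≤
        ‖((∑ T ∈ Ico M (2 * M), ‖S T‖ ^ 2 : ℝ) : ℂ)‖ := by
      rw [Complex.norm_real]
      exact le_abs_self _
    refine h3.trans ?_
    rw [e1]
    have h4 : ∀ h ∈ Icc 1 L, ∀ k ∈ Icc 1 L, ‖∑ T ∈ Ico M (2 * M), Complex.exp ((((T : ℕ) : ℝ) *
          (D h - D k) : ℝ) * Complex.I)‖ ≤ (if h = k then (M : ℝ) else 0) + 7 / ℓ := by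
      intro h hh k hk
      by_cases hhk : h = k
      · rw [if_pos hhk]
        refine (norm_sum_le _ _).trans ?_
        refine (sum_le_card_nsmul _ _ 1 fun h _ => (Complex.norm_exp_ofReal_mul_I _).le).trans ?_
        rw [Nat.card_Ico, nsmul_eq_mul, mul_one]
        have : 2 * M - M = M := by omega
        rw [this]
        have : 0 ≤ 7 / ℓ := by positivity
        linarith
      · rw [if_neg hhk, zero_add]
        have hgap : |D h - D k| ≤ 7 / 10 ∧ ℓ ≤ |D h - D k| := by
          rcases Nat.lt_or_gt_of_ne hhk with hlt | hlt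
          · rw [abs_sub_comm]
            exact hD h hh k hk hlt
          · exact hD k hk h hh hlt
        have hpos : 0 < |D h - D k| := hℓ.trans_le hgap.2
        refine (N5x.geom M _ (abs_pos.1 hpos) hgap.1).trans ?_
        exact div_le_div_of_nonneg_left (by norm_num) hℓ hgap.2
    refine (norm_sum_le _ _).trans ?_
    refine (sum_le_sum fun h hh => (norm_sum_le _ _).trans
      (sum_le_sum fun k hk => h4 h hh k hk)).trans ?_
    have h5 : ∑ h ∈ Icc 1 L, ∑ k ∈ Icc 1 L, ((if h = k then (M : ℝ) else 0) + 7 / ℓ) =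
        L * M + L * (L * (7 / ℓ)) := by
      simp only [sum_add_distrib, sum_ite_eq, sum_const, nsmul_eq_mul]
      rw [sum_congr rfl fun h hh => if_pos hh, sum_const, nsmul_eq_mul, Nat.card_Icc,
        Nat.add_sub_cancel]
    rw [h5]
    have h6 : (L : ℝ) * (7 / ℓ) ≤ M := by
      rw [← mul_div_assoc, div_le_iff₀ hℓ]
      linarith
    calc (L : ℝ) * M + L * (L * (7 / ℓ)) ≤ L * M + L * M := by gcongr
      _ = _ := by ring
  -- Cauchy
  have h6 := sq_sum_le_card_mul_sum_sq (s := Ico M (2 * M)) (f := fun T => ‖S T‖)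
  have h7 : (((Ico M (2 * M)).card : ℕ) : ℝ) = M := by
    rw [Nat.card_Ico]
    congr 1
    omega
  rw [h7] at h6
  have h8 : (∑ T ∈ Ico M (2 * M), ‖S T‖) ^ 2 ≤ (√(2 * (L : ℝ)) * M) ^ 2 := by
    rw [mul_pow, Real.sq_sqrt (by positivity)]
    calc (∑ T ∈ Ico M (2 * M), ‖S T‖) ^ 2 ≤ M * ∑ T ∈ Ico M (2 * M), ‖S T‖ ^ 2 := h6
      _ ≤ M * (2 * L * M) := by gcongr
      _ = _ := by ring
  exact abs_le_of_sq_le_sq' h8 (by positivity) |>.2

/-- The windows with modulus one. -/
lemma UW_one (σ L : ℕ) (a : ℕ → ℂ) (n : ℕ) : UW σ 1 L a n = ⨆ α : Fin σ → ℝ,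
    ‖∑ h ∈ Icc 1 L, a (n + h) * ee (ph α (h : ℝ))‖ := by
  unfold UW
  rw [Icc_self, sum_singleton, range_one, sum_singleton]
  simp only [Nat.mod_one, filter_true]

/-- A phase as a polynomial. -/
lemma ph_poly {σ : ℕ} (α : Fin σ → ℝ) : ∃ P : ℝ[X], P.natDegree ≤ σ ∧
    ∀ x : ℝ, P.eval x = ph α x := by
  refine ⟨∑ i : Fin σ, C (α i) * X ^ (i.val + 1), ?_, fun x => ?_⟩
  · refine natDegree_sum_le_of_forall_le _ _ fun i _ => ?_
    refine (natDegree_C_mul_X_pow_le _ _).trans ?_
    have := i.2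
    omega
  · rw [eval_finsetSum]
    unfold ph
    refine sum_congr rfl fun i _ => ?_
    rw [eval_mul, eval_C, eval_pow, eval_X]

end N7x

open N7x

/-- Row N7a. -/
theorem rowN7a (hV : VDC_stmt) : N7a_stmt := by
  intro σ s hσ hσs η hη
  set p : ℕ := 2 ^ σ with hp
  have hp1 : 1 ≤ p := Nat.one_le_two_pow
  set κ : ℝ := (η / 4) ^ p / 2 with hκ
  have hκ0 : 0 < κ := by positivity
  obtain ⟨K, hK, L₁, hL₁⟩ := hV σ hσ κ hκ0
  refine ⟨max (max L₁ 1) ⌈2 * ((K : ℝ) ^ σ) ^ 2 / κ ^ 2⌉₊, fun L hL => ?_⟩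
  have hLL₁ : L₁ ≤ L := ((le_max_left _ _).trans (le_max_left _ _)).trans hL
  have hL1 : 1 ≤ L := ((le_max_right _ _).trans (le_max_left _ _)).trans hL
  have hLκ : 2 * ((K : ℝ) ^ σ) ^ 2 / κ ^ 2 ≤ L :=
    (Nat.le_ceil _).trans (Nat.cast_le.2 ((le_max_right _ _).trans hL))
  have hL0 : (0 : ℝ) < L := by exact_mod_cast hL1
  -- small `n`
  set n₁ : ℕ := L + σ * K + 2 * L * K ^ σ * σ.factorial with hn₁
  refine ⟨max (max 2 (7 * L * 2 ^ s)) ⌈Real.exp (1 + 4 * n₁ / η)⌉₊, fun m hm => ?_⟩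
  have hm2 : 2 ≤ m := ((le_max_left _ _).trans (le_max_left _ _)).trans hm
  have hm7 : 7 * L * 2 ^ s ≤ m := ((le_max_right _ _).trans (le_max_left _ _)).trans hm
  have hme : Real.exp (1 + 4 * n₁ / η) ≤ m :=
    (Nat.le_ceil _).trans (Nat.cast_le.2 ((le_max_right _ _).trans hm))
  obtain ⟨N, hN⟩ : ∃ N, N = NN s m := ⟨_, rfl⟩
  obtain ⟨M, hM⟩ : ∃ M, M = TT s m := ⟨_, rfl⟩
  rw [← hN, ← hM]
  have hm0 : 1 ≤ m := by omega
  have hmN : m ≤ N := by
    rw [hN, NN]
    calc m = m ^ 1 := (pow_one m).symm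
      _ ≤ _ := Nat.pow_le_pow_right hm0 (by omega)
  have hN1 : 1 ≤ N := hm0.trans hmN
  have hN0 : (0 : ℝ) < N := by exact_mod_cast hN1
  have hM0 : (0 : ℝ) ≤ M := Nat.cast_nonneg _
  have hlog : 1 + 4 * n₁ / η ≤ Real.log N := by
    rw [Real.le_log_iff_exp_le hN0]
    exact hme.trans (by exact_mod_cast hmN)
  -- the number of `T`
  have hNM : 7 * L * (2 * N) ^ (σ + 1) ≤ M := by
    have h1 : (2 * N) ^ (σ + 1) ≤ (2 * N) ^ s := Nat.pow_le_pow_right (by omega) hσs
    have h2 : m ≤ m ^ (2 * s + 2) := by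
      calc m = m ^ 1 := (pow_one m).symm
        _ ≤ _ := Nat.pow_le_pow_right hm0 (by omega)
    calc 7 * L * (2 * N) ^ (σ + 1) ≤ 7 * L * (2 * N) ^ s := Nat.mul_le_mul_left _ h1
      _ = (7 * L * 2 ^ s) * N ^ s := by rw [mul_pow]; ring
      _ ≤ m ^ (2 * s + 2) * N ^ s := Nat.mul_le_mul_right _ (hm7.trans h2)
      _ = M := by rw [hN, hM, NN, TT, ← pow_mul, ← pow_add]; congr 1; ring
  -- the sequences
  set a : ℕ → ℕ → ℂ := fun T n => Complex.exp ((((T : ℕ) : ℝ) * Real.log n : ℝ) * Complex.I)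
    with ha
  have ha1 : ∀ T n, ‖a T n‖ = 1 := fun T n => Complex.norm_exp_ofReal_mul_I _
  -- trivial bound
  have htriv : ∀ T n, UW σ 1 L (a T) n ≤ L := by
    intro T n
    rw [UW_one]
    refine ciSup_le fun α => ?_
    refine (norm_sum_le _ _).trans ?_
    refine (sum_le_card_nsmul _ _ 1 fun h _ => ?_).trans (by simp)
    rw [norm_mul, ha1, one_mul]
    unfold ee
    rw [show (2 * Real.pi * Complex.I * (ph α (h : ℝ) : ℝ) : ℂ) =
      ((2 * Real.pi * ph α (h : ℝ) : ℝ) : ℂ) * Complex.I by push_cast; ring]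
    exact (Complex.norm_exp_ofReal_mul_I _).le
  have hUW0 : ∀ T n, 0 ≤ UW σ 1 L (a T) n := by
    intro T n
    rw [UW_one]
    exact Real.iSup_nonneg fun α => norm_nonneg _
  -- large `n`
  have hlarge : ∀ n ∈ Icc 1 N, n₁ ≤ n →
      ∑ T ∈ Ico M (2 * M), UW σ 1 L (a T) n ≤ L * M * (η / 4) := by
    intro n hn hnn
    rw [mem_Icc] at hn
    have hn0 : (0 : ℝ) < n := by exact_mod_cast hn.1
    set P := Fintype.piFinset (fun _ : Fin σ => Icc 1 K) with hP
    set E : ℕ → ℝ := fun T => ∑ k ∈ P, ‖∑ h ∈ Icc 1 L, Dif (List.ofFn k)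
      (fun h => a T (n + h)) h‖ / L with hE
    have hE0 : ∀ T, 0 ≤ E T := fun T => sum_nonneg fun k _ => by positivity
    -- one `T`
    have hone : ∀ T, (UW σ 1 L (a T) n / L) ^ p ≤ κ + E T := by
      intro T
      set r : ℝ := (κ + E T) ^ ((p : ℝ)⁻¹) with hr
      have hκE : 0 ≤ κ + E T := add_nonneg hκ0.le (hE0 T)
      have hr0 : 0 ≤ r := Real.rpow_nonneg hκE _
      have hrp : r ^ p = κ + E T := Real.rpow_inv_natCast_pow hκE (by omega)
      have h1 : UW σ 1 L (a T) n ≤ L * r := by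
        rw [UW_one]
        refine ciSup_le fun α => ?_
        obtain ⟨Q, hQ, hQ'⟩ := ph_poly α
        have h2 := hL₁ L hLL₁ (fun h => a T (n + h)) (fun h => (ha1 T _).le) Q hQ
        rw [← hrp.trans rfl] at h2
        have h3 := le_of_pow_le_pow_left₀ (by omega) hr0 h2
        rw [div_le_iff₀ hL0, mul_comm] at h3
        simp only [hQ'] at h3
        exact h3
      rw [← hrp]
      refine pow_le_pow_left₀ (div_nonneg (hUW0 T n) hL0.le) ?_ p
      rw [div_le_iff₀ hL0, mul_comm]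
      exact h1
    -- the average of `E`
    have hsumE : ∑ T ∈ Ico M (2 * M), E T ≤ κ * M := by
      have h1 : ∀ k ∈ P, ∑ T ∈ Ico M (2 * M), ‖∑ h ∈ Icc 1 L, Dif (List.ofFn k)
          (fun h => a T (n + h)) h‖ ≤ √(2 * (L : ℝ)) * M := by
        intro k hk
        rw [hP, Fintype.mem_piFinset] at hk
        have hk1 : ∀ j ∈ List.ofFn k, 1 ≤ j := by
          intro j hj
          obtain ⟨i, rfl⟩ := (List.mem_ofFn' _ _).1 hj
          exact (mem_Icc.1 (hk i)).1
        have hlen : (List.ofFn k).length = σ := List.length_ofFn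
        have hsum : (List.ofFn k).sum ≤ σ * K := by
          rw [List.sum_ofFn]
          calc ∑ i, k i ≤ ∑ _i : Fin σ, K := sum_le_sum fun i _ => (mem_Icc.1 (hk i)).2
            _ = σ * K := by simp
        have hprod : (List.ofFn k).prod ≤ K ^ σ := by
          rw [List.prod_ofFn]
          calc ∏ i, k i ≤ ∏ _i : Fin σ, K := prod_le_prod' fun i _ => (mem_Icc.1 (hk i)).2
            _ = K ^ σ := by simp
        have h2 : ∀ T : ℕ, ∀ h : ℕ, Dif (List.ofFn k) (fun h => a T (n + h)) h =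
            Complex.exp ((((T : ℕ) : ℝ) * DR (List.ofFn k) Real.log ((n : ℝ) + h) : ℝ) *
              Complex.I) := by
          intro T h
          have h3 : (fun h => a T (n + h)) = fun h : ℕ =>
              Complex.exp ((((T : ℕ) : ℝ) * Real.log ((n : ℝ) + h) : ℝ) * Complex.I) := by
            funext h
            rw [ha]
            push_cast
            rfl
          rw [h3, Dif_exp]
        simp only [h2]
        refine moment (D := fun h => DR (List.ofFn k) Real.log ((n : ℝ) + h))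
          (ℓ := 1 / (2 * (N : ℝ)) ^ (σ + 1)) (by positivity) ?_ ?_
        · intro h hh h' hh' hlt
          rw [mem_Icc] at hh hh'
          have h3 := gap (List.ofFn k) hk1 ((n : ℝ) + h) (by positivity) (h' - h) (by omega)
          have h4 : (n : ℝ) + h + ((h' - h : ℕ) : ℝ) = n + h' := by
            rw [Nat.cast_sub hlt.le]
            ring
          rw [h4, hlen] at h3
          refine ⟨h3.1.trans ?_, le_trans ?_ h3.2⟩
          · have h5 : (((h' - h : ℕ) : ℝ) * ((List.ofFn k).prod : ℕ) * (σ.factorial : ℝ)) ≤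
                L * K ^ σ * σ.factorial := by
              have h6 : (h' - h) * (List.ofFn k).prod * σ.factorial ≤
                  L * K ^ σ * σ.factorial :=
                Nat.mul_le_mul_right _ (Nat.mul_le_mul (by omega) hprod)
              exact_mod_cast h6
            have h6 : ((n : ℝ) + h) ≤ ((n : ℝ) + h) ^ (σ + 1) := by
              have h7 : (1 : ℝ) ≤ (n : ℝ) + h := by
                have : (1 : ℝ) ≤ n := by exact_mod_cast hn.1
                have : (0 : ℝ) ≤ h := Nat.cast_nonneg _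
                linarith
              calc ((n : ℝ) + h) = ((n : ℝ) + h) ^ 1 := (pow_one _).symm
                _ ≤ _ := pow_le_pow_right₀ h7 (by omega)
            rw [div_le_iff₀ (by positivity)]
            have h7 : 2 * ((L : ℝ) * K ^ σ * σ.factorial) ≤ (n : ℝ) + h := by
              have h8 : 2 * L * K ^ σ * σ.factorial ≤ n + h := by omega
              have h9 : ((2 * L * K ^ σ * σ.factorial : ℕ) : ℝ) ≤ ((n + h : ℕ) : ℝ) :=
                Nat.cast_le.2 h8
              push_cast at h9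
              linarith
            nlinarith
          · refine one_div_le_one_div_of_le (by positivity) (pow_le_pow_left₀ (by positivity) ?_ _)
            have h5 : n + h' + (List.ofFn k).sum ≤ 2 * N := by omega
            have h6 : ((n + h' + (List.ofFn k).sum : ℕ) : ℝ) ≤ ((2 * N : ℕ) : ℝ) :=
              Nat.cast_le.2 h5
            push_cast at h6 ⊢
            linarith
        · rw [one_div, ← div_eq_inv_mul, le_div_iff₀ (by positivity)]
          have h3 : ((7 * L * (2 * N) ^ (σ + 1) : ℕ) : ℝ) ≤ M := Nat.cast_le.2 hNM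
          push_cast at h3
          exact h3
      rw [hE]
      rw [sum_comm]
      have hPc : (P.card : ℝ) = (K : ℝ) ^ σ := by
        rw [hP, Fintype.card_piFinset_const, Nat.card_Icc, Nat.add_sub_cancel]
        push_cast
        rfl
      calc ∑ k ∈ P, ∑ T ∈ Ico M (2 * M), ‖∑ h ∈ Icc 1 L, Dif (List.ofFn k)
            (fun h => a T (n + h)) h‖ / L
          ≤ ∑ _k ∈ P, √(2 * (L : ℝ)) * M / L := by
            refine sum_le_sum fun k hk => ?_
            rw [← sum_div]
            exact div_le_div_of_nonneg_right (h1 k hk) hL0.le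
        _ = (K : ℝ) ^ σ * (√(2 * (L : ℝ)) / L) * M := by
            rw [sum_const, nsmul_eq_mul, hPc]
            ring
        _ ≤ κ * M := by
            refine mul_le_mul_of_nonneg_right ?_ hM0
            rw [← mul_div_assoc, div_le_iff₀ hL0]
            have h3 : ((K : ℝ) ^ σ * √(2 * (L : ℝ))) ^ 2 ≤ (κ * L) ^ 2 := by
              rw [mul_pow, Real.sq_sqrt (by positivity), mul_pow]
              rw [div_le_iff₀ (by positivity)] at hLκ
              nlinarith
            exact (abs_le_of_sq_le_sq' h3 (by positivity)).2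
    -- power mean
    have hcardM : (((Ico M (2 * M)).card : ℕ) : ℝ) = M := by
      rw [Nat.card_Ico]
      congr 1
      omega
    rcases Nat.eq_zero_or_pos M with hM00 | hMpos
    · rw [hM00]
      simp
    have hMR : (0 : ℝ) < M := by exact_mod_cast hMpos
    have h1 := pow_sum_div_card_le_sum_pow (s := Ico M (2 * M))
      (f := fun T => UW σ 1 L (a T) n / L) (fun T _ => div_nonneg (hUW0 T n) hL0.le) (p - 1)
    rw [Nat.sub_add_cancel hp1, hcardM, div_le_iff₀ (by positivity)] at h1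
    have h2 : ∑ T ∈ Ico M (2 * M), (UW σ 1 L (a T) n / L) ^ p ≤ 2 * κ * M := by
      refine (sum_le_sum fun T _ => hone T).trans ?_
      rw [sum_add_distrib, sum_const, nsmul_eq_mul, hcardM]
      linarith
    have h3 : (∑ T ∈ Ico M (2 * M), UW σ 1 L (a T) n / L) ^ p ≤ (M * (η / 4)) ^ p := by
      refine h1.trans ?_
      calc (∑ T ∈ Ico M (2 * M), (UW σ 1 L (a T) n / L) ^ p) * (M : ℝ) ^ (p - 1)
          ≤ 2 * κ * M * (M : ℝ) ^ (p - 1) := by gcongr
        _ = (M : ℝ) ^ p * (2 * κ) := by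
            rw [mul_assoc (2 * κ), ← pow_succ', Nat.sub_add_cancel hp1]
            ring
        _ = (M * (η / 4)) ^ p := by
            rw [hκ, mul_pow]
            ring
    have h4 := le_of_pow_le_pow_left₀ (by omega) (by positivity) h3
    rw [← sum_div, div_le_iff₀ hL0] at h4
    calc ∑ T ∈ Ico M (2 * M), UW σ 1 L (a T) n ≤ M * (η / 4) * L := h4
      _ = _ := by ring
  -- all `n`
  have hall : ∀ n ∈ Icc 1 N, (1 / (n : ℝ)) * ∑ T ∈ Ico M (2 * M), UW σ 1 L (a T) n ≤
      L * M * ((η / 4) * (1 / (n : ℝ)) + if n < n₁ then (1 : ℝ) else 0) := by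
    intro n hn
    have hn1 : (1 : ℝ) ≤ n := by exact_mod_cast (mem_Icc.1 hn).1
    have hn1' : 1 / (n : ℝ) ≤ 1 := by
      rw [div_le_one (by linarith)]
      exact hn1
    have hn0' : 0 ≤ 1 / (n : ℝ) := by positivity
    by_cases hnn : n < n₁
    · rw [if_pos hnn]
      have h1 : ∑ T ∈ Ico M (2 * M), UW σ 1 L (a T) n ≤ L * M := by
        refine (sum_le_card_nsmul _ _ (L : ℝ) fun T _ => htriv T n).trans ?_
        rw [Nat.card_Ico, nsmul_eq_mul]
        have : 2 * M - M = M := by omega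
        rw [this, mul_comm]
      have h2 : (0 : ℝ) ≤ L * M := by positivity
      have h3 : 0 ≤ (L : ℝ) * M * ((η / 4) * (1 / (n : ℝ))) := by positivity
      calc (1 / (n : ℝ)) * ∑ T ∈ Ico M (2 * M), UW σ 1 L (a T) n
          ≤ (1 / (n : ℝ)) * (L * M) := mul_le_mul_of_nonneg_left h1 hn0'
        _ ≤ 1 * (L * M) := mul_le_mul_of_nonneg_right hn1' h2
        _ ≤ _ := by rw [mul_add]; linarith
    · rw [if_neg hnn, add_zero]
      have h1 := mul_le_mul_of_nonneg_left (hlarge n hn (by omega)) hn0'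
      calc (1 / (n : ℝ)) * ∑ T ∈ Ico M (2 * M), UW σ 1 L (a T) n
          ≤ (1 / (n : ℝ)) * (L * M * (η / 4)) := h1
        _ = _ := by ring
  have hex : ∑ T ∈ Ico M (2 * M), UU σ 1 L N (a T) =
      ∑ n ∈ Icc 1 N, (1 / (n : ℝ)) * ∑ T ∈ Ico M (2 * M), UW σ 1 L (a T) n := by
    unfold UU
    rw [sum_comm]
    exact sum_congr rfl fun n _ => (mul_sum _ _ _).symm
  show ∑ T ∈ Ico M (2 * M), UU σ 1 L N (a T) ≤ _
  rw [hex]
  refine (sum_le_sum hall).trans ?_
  rw [← mul_sum, sum_add_distrib, ← mul_sum]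
  have hharm := N5x.harm N
  have hite : ∑ n ∈ Icc 1 N, (if n < n₁ then (1 : ℝ) else 0) ≤ n₁ := by
    rw [← sum_filter, sum_const, nsmul_eq_mul, mul_one]
    have h1 : ((Icc 1 N).filter fun n => n < n₁) ⊆ range n₁ := by
      intro n hn
      exact mem_range.2 (mem_filter.1 hn).2
    have h2 := card_le_card h1
    rw [card_range] at h2
    exact_mod_cast h2
  have hn₁η : (n₁ : ℝ) ≤ η / 4 * (Real.log N - 1) := by
    have h1 : 4 * n₁ / η ≤ Real.log N - 1 := by linarith
    rw [div_le_iff₀ hη] at h1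
    linarith
  have hlog1 : 1 ≤ Real.log N := by
    have : 0 ≤ 4 * (n₁ : ℝ) / η := by positivity
    linarith
  have h1 : η / 4 * ∑ n ∈ Icc 1 N, (1 / (n : ℝ)) + ∑ n ∈ Icc 1 N, (if n < n₁ then (1 : ℝ) else 0) ≤
      η * Real.log N := by
    have h2 : η / 4 * ∑ n ∈ Icc 1 N, (1 / (n : ℝ)) ≤ η / 4 * (1 + Real.log N) := by gcongr
    nlinarith
  calc (L : ℝ) * M * (η / 4 * ∑ n ∈ Icc 1 N, (1 / (n : ℝ)) +
        ∑ n ∈ Icc 1 N, (if n < n₁ then (1 : ℝ) else 0)) ≤ L * M * (η * Real.log N) := by gcongr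
    _ = η * L * Real.log N * M := by ring

end Pool.Agent.UD
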