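import Pool.Agent.Lib.UD95.N6
import Pool.Agent.Lib.UD95.Defs2

/-!
# Row N8: the negative part in every degree
-/

set_option autoImplicit false
open Finset Polynomial MeasureTheory Filter Topology

namespace Pool.Agent.UD

open Pool.Agent.Lib.MP_663568_nt Pool.Agent.Lib.MP_663568_nt.Katai
  Pool.Agent.Lib.MP_663568_nt.Nul Pool.Agent.TU

lemma UW_nonneg8 (σ Q L : ℕ) (a : ℕ → ℂ) (n : ℕ) : 0 ≤ UW σ Q L a n :=
  Finset.sum_nonneg fun _ _ => Finset.sum_nonneg fun _ _ =>
    Real.iSup_nonneg fun _ => norm_nonneg _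

lemma UU_nonneg8 (σ Q L N : ℕ) (a : ℕ → ℂ) : 0 ≤ UU σ Q L N a :=
  Finset.sum_nonneg fun n _ => mul_nonneg (by positivity) (UW_nonneg8 σ Q L a n)

lemma UU_mono8 (σ L N : ℕ) {Q Q' : ℕ} (h : Q ≤ Q') (a : ℕ → ℂ) : UU σ Q L N a ≤ UU σ Q' L N a := by
  unfold UU
  refine Finset.sum_le_sum fun n _ => mul_le_mul_of_nonneg_left ?_ (by positivity)
  unfold UW
  exact Finset.sum_le_sum_of_subset_of_nonneg (Finset.Icc_subset_Icc_right h)
    fun q _ _ => Finset.sum_nonneg fun b _ => Real.iSup_nonneg fun _ => norm_nonneg _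

theorem rowN8 (h1 : N1_stmt) (h2 : N2_stmt) (h3 : N3_stmt) (h7 : N7_stmt) : N8_stmt := by
  classical
  intro t ht σ B hBc hBp hnull hctrl
  unfold NullAbove at hnull
  push Not at hnull
  obtain ⟨s, hσs, hst, r, hvol⟩ := hnull
  have hs1 : 1 ≤ s := by omega
  set C : Set (Fin s → ℝ) := {y | glue s y (fun i => ((r i : ℚ) : ℝ)) ∈ B} with hC
  have hCc : IsClosed C := hBc.preimage (glue_continuous _)
  have hCp : Per C := by
    intro y hy z
    rw [hC, Set.mem_setOf_eq] at hy ⊢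
    have h6 := hBp _ hy (fun i => if h : i.val < s then z ⟨i.val, h⟩ else 0)
    convert! h6 using 1
    ext i
    unfold glue
    by_cases hi : i.val < s
    · simp [hi]
    · simp [hi]
  obtain ⟨w, hw, h3'⟩ := h3 s hs1 C hCc hCp hvol
  obtain ⟨ζ, c, hc, Hc, hζ⟩ := h2 t s hs1 hst r
  have hs0 : (0 : ℝ) < s := by exact_mod_cast hs1
  -- constants
  set ε : ℝ := c * w / (8 * (4 * s + 4)) with hε
  have hε0 : 0 < ε := by positivity
  obtain ⟨Q, hQ⟩ := hctrl ε hε0
  set Q' : ℕ := max Q 1 with hQ'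
  have hQ'1 : 1 ≤ Q' := le_max_right _ _
  have hQQ' : Q ≤ Q' := le_max_left _ _
  have hQ'0 : (0 : ℝ) < Q' := by exact_mod_cast hQ'1
  obtain ⟨L, hL1, m₂, hm₂⟩ := h7 σ s Q' hσs hQ'1 (ε / Q') (by positivity)
  obtain ⟨H₀, hH₀⟩ := hQ L hL1
  set H : ℕ := max (max H₀ Hc) 1 with hH
  have hH1 : 1 ≤ H := le_max_right _ _
  have hHH : H₀ ≤ H := (le_max_left _ _).trans (le_max_left _ _)
  have hHc : Hc ≤ H := (le_max_right _ _).trans (le_max_left _ _)
  have hH0 : (0 : ℝ) < H := by exact_mod_cast hH1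
  set δ : ℝ := c / (8 * Real.pi * s * (H : ℝ) ^ s) with hδ
  have hδ0 : 0 < δ := by have := Real.pi_pos; positivity
  obtain ⟨m₁, hm₁⟩ := h3' ζ δ hδ0
  obtain ⟨m₃, hm₃⟩ := exists_nat_ge (16 * (H : ℝ) / c)
  set m : ℕ := max (max (max m₁ m₂) (max m₃ (2 * H))) (max (H ^ Q) 2) with hm
  have hmm₁ : m₁ ≤ m := le_trans (le_trans (le_max_left _ _) (le_max_left _ _)) (le_max_left _ _)
  have hmm₂ : m₂ ≤ m := le_trans (le_trans (le_max_right _ _) (le_max_left _ _)) (le_max_left _ _)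
  have hmm₃ : m₃ ≤ m := le_trans (le_trans (le_max_left _ _) (le_max_right _ _)) (le_max_left _ _)
  have hm2H : 2 * H ≤ m :=
    le_trans (le_trans (le_max_right _ _) (le_max_right _ _)) (le_max_left _ _)
  have hmQ : H ^ Q ≤ m := le_trans (le_max_left _ _) (le_max_right _ _)
  have hm2 : 2 ≤ m := le_trans (le_max_right _ _) (le_max_right _ _)
  clear_value m
  have hm0 : (0 : ℝ) < m := by
    have : 0 < m := by omega
    exact_mod_cast this
  have hmpos : 0 < m := by omega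
  have hlogm : 0 < Real.log m := Real.log_pos (by exact_mod_cast (by omega : 1 < m))
  have hHQN : H ^ Q ≤ NN s m := by
    unfold NN
    refine hmQ.trans ?_
    calc m = m ^ 1 := (pow_one m).symm
      _ ≤ m ^ (4 * s + 4) := Nat.pow_le_pow_right hmpos (by omega)
  have hlogN : Real.log (NN s m) = (4 * s + 4) * Real.log m := by
    unfold NN
    push_cast
    rw [Real.log_pow]
    push_cast
    ring
  have hTT0 : (0 : ℝ) < TT s m := by
    unfold TT
    exact_mod_cast pow_pos hmpos _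
  have hL0 : (0 : ℝ) < L := by exact_mod_cast hL1
  -- the lower bound for one `T`
  have hlow : ∀ T ∈ Ico (TT s m) (2 * TT s m),
      c / 2 * H * (∑ n ∈ (Icc (m ^ (4 * s + 3)) (NN s m)).filter
        (fun n : ℕ => ∃ y ∈ C, ∀ i, |bt s (n : ℝ) T i + y i - ζ i| ≤ δ), (1 / (n : ℝ))) ≤
      SA (arch T) B (NN s m) H := by
    intro T hT
    rw [Finset.mem_Ico] at hT
    unfold SA
    rw [Finset.mul_sum]
    have hsub : (Icc (m ^ (4 * s + 3)) (NN s m)).filter
        (fun n : ℕ => ∃ y ∈ C, ∀ i, |bt s n T i + y i - ζ i| ≤ δ) ⊆ Icc 1 (NN s m) := by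
      intro n hn
      rw [Finset.mem_filter, Finset.mem_Icc] at hn
      rw [Finset.mem_Icc]
      exact ⟨le_trans (Nat.one_le_pow _ _ hmpos) hn.1.1, hn.1.2⟩
    have hBB := Finset.sum_le_sum_of_subset_of_nonneg (f := fun n : ℕ => (1 / (n : ℝ)) *
      ⨆ α : {α : Fin t → ℝ // α ∈ B},
        ‖∑ h ∈ Icc 1 H, arch T (n + h) * ee (ph (α : Fin t → ℝ) (h : ℝ))‖) hsub
      (fun n _ _ => mul_nonneg (by positivity) (Real.iSup_nonneg fun _ => norm_nonneg _))
    have hkey : ∀ n ∈ (Icc (m ^ (4 * s + 3)) (NN s m)).filter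
        (fun n : ℕ => ∃ y ∈ C, ∀ i, |bt s n T i + y i - ζ i| ≤ δ),
        c / 2 * H * (1 / (n : ℝ)) ≤ (1 / (n : ℝ)) * ⨆ α : {α : Fin t → ℝ // α ∈ B},
          ‖∑ h ∈ Icc 1 H, arch T (n + h) * ee (ph (α : Fin t → ℝ) (h : ℝ))‖ := by
      intro n hn
      rw [Finset.mem_filter, Finset.mem_Icc] at hn
      obtain ⟨⟨hn1, hn2⟩, y, hyC, hy⟩ := hn
      have hmn : m ≤ n := by
        refine le_trans ?_ hn1
        calc m = m ^ 1 := (pow_one m).symm
          _ ≤ m ^ (4 * s + 3) := Nat.pow_le_pow_right hmpos (by omega)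
      have hn0 : (0 : ℝ) < n := by
        have : 0 < n := by omega
        exact_mod_cast this
      have herr : 2 * (T : ℝ) * ((H : ℝ) / n) ^ (s + 1) ≤ c / 4 := by
        have e1 : ((H : ℝ) / n) ^ (s + 1) ≤ ((H : ℝ) / (m : ℝ) ^ (4 * s + 3)) ^ (s + 1) := by
          refine pow_le_pow_left₀ (by positivity) ?_ _
          refine div_le_div_of_nonneg_left hH0.le (by positivity) ?_
          exact_mod_cast hn1
        have e2 : (T : ℝ) ≤ 2 * TT s m := by exact_mod_cast hT.2.le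
        have e3 : ((TT s m : ℕ) : ℝ) * (m : ℝ) ^ (s + 1) = ((m : ℝ) ^ (4 * s + 3)) ^ (s + 1) := by
          unfold TT
          push_cast
          rw [← pow_add, ← pow_mul]
          congr 1
          ring
        have e4 : ((H : ℝ) / m) ≤ c / 16 := by
          have : 16 * (H : ℝ) / c ≤ m := hm₃.trans (by exact_mod_cast hmm₃)
          rw [div_le_iff₀ hc] at this
          rw [div_le_iff₀ hm0]
          linarith
        have e5 : (H : ℝ) / m ≤ 1 := by
          rw [div_le_one hm0]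
          have : (2 : ℝ) * H ≤ m := by exact_mod_cast hm2H
          linarith
        have e6 : ((H : ℝ) / m) ^ (s + 1) ≤ c / 16 := by
          refine le_trans ?_ e4
          calc ((H : ℝ) / m) ^ (s + 1) ≤ ((H : ℝ) / m) ^ 1 :=
                pow_le_pow_of_le_one (by positivity) e5 (by omega)
            _ = (H : ℝ) / m := pow_one _
        have e7 : (2 * (TT s m : ℝ)) * ((H : ℝ) / (m : ℝ) ^ (4 * s + 3)) ^ (s + 1) =
            2 * ((H : ℝ) / m) ^ (s + 1) := by
          rw [div_pow, div_pow, ← e3]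
          field_simp
        calc 2 * (T : ℝ) * ((H : ℝ) / n) ^ (s + 1)
            ≤ 2 * (2 * TT s m) * ((H : ℝ) / (m : ℝ) ^ (4 * s + 3)) ^ (s + 1) := by
              refine mul_le_mul (by linarith) e1 (by positivity) (by positivity)
          _ = 2 * ((2 * (TT s m : ℝ)) * ((H : ℝ) / (m : ℝ) ^ (4 * s + 3)) ^ (s + 1)) := by ring
          _ = 2 * (2 * ((H : ℝ) / m) ^ (s + 1)) := by rw [e7]
          _ ≤ c / 4 := by linarith
      have hwin := window_lower h1 hs1 hst hc hH1 (hζ H hHc) (n := n) (T := (T : ℝ))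
        (Nat.cast_nonneg T) (by omega) herr (y := y) hy
      have hsup : c / 2 * H ≤ ⨆ α : {α : Fin t → ℝ // α ∈ B},
          ‖∑ h ∈ Icc 1 H, arch T (n + h) * ee (ph (α : Fin t → ℝ) (h : ℝ))‖ := by
        refine hwin.trans ?_
        exact le_ciSup (sup_bdd (fun n => (norm_arch T n).le) B n H)
          (⟨glue s y (fun i => ((r i : ℚ) : ℝ)), hyC⟩ : {α : Fin t → ℝ // α ∈ B})
      calc c / 2 * H * (1 / (n : ℝ)) = (1 / (n : ℝ)) * (c / 2 * H) := by ring
        _ ≤ _ := mul_le_mul_of_nonneg_left hsup (by positivity)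
    exact (Finset.sum_le_sum hkey).trans hBB
  -- the upper bound for one `T`
  have hup : ∀ T ∈ Ico (TT s m) (2 * TT s m), SA (arch T) B (NN s m) H ≤
      (ε * Real.log (NN s m) + Q' * UU σ Q' L (NN s m) (arch T) / L) * H := by
    intro T _
    have e1 := hH₀ H (NN s m) hHH hHQN (arch T) ⟨T, fun n => rfl⟩
    refine e1.trans (mul_le_mul_of_nonneg_right ?_ hH0.le)
    have e2 : UU σ Q L (NN s m) (arch T) ≤ UU σ Q' L (NN s m) (arch T) := UU_mono8 _ _ _ hQQ' _
    have e3 : 0 ≤ UU σ Q L (NN s m) (arch T) := UU_nonneg8 _ _ _ _ _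
    have e4 : (Q : ℝ) ≤ Q' := by exact_mod_cast hQQ'
    have e5 : (Q : ℝ) * UU σ Q L (NN s m) (arch T) ≤ Q' * UU σ Q' L (NN s m) (arch T) :=
      mul_le_mul e4 e2 e3 (by positivity)
    have e6 := div_le_div_of_nonneg_right e5 hL0.le
    linarith
  have hsumlow := Finset.sum_le_sum hlow
  have hsumup := Finset.sum_le_sum hup
  rw [← Finset.mul_sum] at hsumlow
  rw [← Finset.sum_mul, Finset.sum_add_distrib, Finset.sum_const, Nat.card_Ico,
    nsmul_eq_mul, ← Finset.sum_div, ← Finset.mul_sum] at hsumup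
  have hcard : ((2 * TT s m - TT s m : ℕ) : ℝ) = TT s m := by
    congr 1
    omega
  rw [hcard] at hsumup
  have e1 : w * TT s m * Real.log m ≤ ∑ T ∈ Ico (TT s m) (2 * TT s m),
      ∑ n ∈ (Icc (m ^ (4 * s + 3)) (NN s m)).filter
        (fun n : ℕ => ∃ y ∈ C, ∀ i, |bt s (n : ℝ) T i + y i - ζ i| ≤ δ), (1 / (n : ℝ)) :=
    (hm₁ m hmm₁).trans_eq (Finset.sum_congr rfl fun T _ =>
      sum_lift _ (fun x : ℝ => ∃ y ∈ C, ∀ i, |bt s x T i + y i - ζ i| ≤ δ) (fun x => 1 / x))
  have e2 := hm₂ m hmm₂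
  have e3 : c / 2 * H * (w * TT s m * Real.log m) ≤
      (TT s m * (ε * Real.log (NN s m)) + Q' * (ε / Q' * L *
        Real.log (NN s m) * TT s m) / L) * H := by
    refine (mul_le_mul_of_nonneg_left e1 (by positivity)).trans (hsumlow.trans
      (hsumup.trans (mul_le_mul_of_nonneg_right ?_ hH0.le)))
    have e4 := div_le_div_of_nonneg_right (mul_le_mul_of_nonneg_left e2
      (Nat.cast_nonneg Q' : (0 : ℝ) ≤ Q')) hL0.le
    exact add_le_add le_rfl e4
  have e4 : (Q' : ℝ) * (ε / Q' * L * Real.log (NN s m) * TT s m) / L =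
      ε * Real.log (NN s m) * TT s m := by
    field_simp
  rw [e4] at e3
  have e5 : c / 2 * H * (w * TT s m * Real.log m) ≤
      (2 * ε * Real.log (NN s m) * TT s m) * H := by
    refine e3.trans (mul_le_mul_of_nonneg_right ?_ hH0.le)
    linarith
  rw [hlogN, hε] at e5
  have e6 : 2 * (c * w / (8 * (4 * (s : ℝ) + 4))) * ((4 * s + 4) * Real.log m) * TT s m * H =
      c * w * (TT s m * Real.log m * H) / 4 := by
    field_simp
    ring
  rw [e6] at e5
  have e7 : c / 2 * H * (w * TT s m * Real.log m) = c * w * (TT s m * Real.log m * H) / 2 := by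
    ring
  rw [e7] at e5
  have e8 : 0 < c * w * (TT s m * Real.log m * H) := by positivity
  linarith

end Pool.Agent.UD
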