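import Mathlib
import Pool.Agent.Lib.UD95.AP
import Pool.Agent.Lib.TU.Z

/-!
# Universal dichotomy (MP_663568_nt), row P: the positive part

Adapted from Lib/TU/Z.lean.
-/

set_option autoImplicit false
open Finset Polynomial MeasureTheory

namespace Pool.Agent.UD

open Pool.Agent.Lib.MP_663568_nt Pool.Agent.Lib.MP_663568_nt.Katai
  Pool.Agent.Lib.MP_663568_nt.Nul Pool.Agent.TU

namespace PA

/-- The supremum in the theorem. -/
noncomputable def F (a : ℕ → ℂ) {t : ℕ} (B : Set (Fin t → ℝ)) (H n : ℕ) : ℝ :=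
  ⨆ α : {α : Fin t → ℝ // α ∈ B},
    ‖∑ h ∈ Icc 1 H, a (n + h) * ee (ph (α : Fin t → ℝ) (h : ℝ))‖

theorem norm_term_le {a : ℕ → ℂ} (ha : ∀ n, ‖a n‖ ≤ 1) (n : ℕ) (x : ℝ) : ‖a n * ee x‖ ≤ 1 := by
  rw [norm_mul, norm_ee, mul_one]
  exact ha n

theorem F_le {a : ℕ → ℂ} (ha : ∀ n, ‖a n‖ ≤ 1) {t : ℕ} (B : Set (Fin t → ℝ)) (H n : ℕ) :
    F a B H n ≤ H :=
  Real.iSup_le (fun α => ZZ.norm_sum_le_card
    (g := fun h => a (n + h) * ee (ph (α : Fin t → ℝ) (h : ℝ)))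
    (fun _ => norm_term_le ha _ _) H) (Nat.cast_nonneg H)

theorem exists_of_lt {a : ℕ → ℂ} {t : ℕ} {B : Set (Fin t → ℝ)} {H n : ℕ} {c : ℝ} (hc : 0 ≤ c)
    (h : c < F a B H n) : ∃ α ∈ B, c < ‖∑ h ∈ Icc 1 H, a (n + h) * ee (ph α (h : ℝ))‖ := by
  by_contra hne
  push Not at hne
  exact absurd (Real.iSup_le (fun α : {α : Fin t → ℝ // α ∈ B} => hne α.1 α.2) hc) (not_le.2 h)

/-- One window of length `M` with many good points is a cluster. -/
theorem cluster (hB2 : B2_stmt) {t : ℕ} (ht : 1 ≤ t) {c c₅ : ℝ} (hc : 0 < c) (hc1 : c ≤ 1)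
    (hc5 : 0 < c₅) : ∃ (D : ℕ) (K c₄ : ℝ) (e : ℕ), 1 ≤ D ∧ 0 < K ∧ 0 < c₄ ∧ 1 ≤ e ∧
    ∃ H₀ : ℕ, ∀ H : ℕ, H₀ ≤ H → 1 ≤ H / e ∧ ∀ a : ℕ → ℂ, (∀ n, ‖a n‖ ≤ 1) →
      ∀ B : Set (Fin t → ℝ), ∀ m : ℕ, H ≤ m →
      ∀ G : Finset ℕ, G ⊆ Icc 1 (H / e) → (∀ k ∈ G, 2 * c * H < F a B H (m + k)) →
      c₅ * (H / e : ℕ) < #G → Cl a t t 1 (Sh D B) 1 c c₄ e K H m := by
  obtain ⟨c₄, hc4, D, hD, K, hK, H₀, hmain⟩ := hB2 t ht c hc hc1
  set e : ℕ := ⌈2 / c⌉₊ + 1 with he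
  have he1 : 1 ≤ e := by omega
  have he0 : (0 : ℝ) < e := by exact_mod_cast he1
  have hec : 2 / c ≤ (e : ℝ) := by
    rw [he]; push_cast
    linarith [Nat.le_ceil (2 / c)]
  refine ⟨D, K, c₄ * c₅ / (2 * e), e, hD, hK, by positivity, he1, max H₀ (2 * e), ?_⟩
  intro H hH
  have hH0 : H₀ ≤ H := le_trans (le_max_left _ _) hH
  have hHe : 2 * e ≤ H := le_trans (le_max_right _ _) hH
  have hM1 : 1 ≤ H / e := (Nat.one_le_div_iff (by omega)).2 (by omega)
  have hMle : ((H / e : ℕ) : ℝ) * e ≤ H := by exact_mod_cast Nat.div_mul_le_self H e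
  have hMge : (H : ℝ) / (2 * e) ≤ ((H / e : ℕ) : ℝ) := by
    have h1 : H < (H / e + 1) * e := by
      have := Nat.lt_div_mul_add (a := H) (b := e) (by omega)
      nlinarith
    have h2 : (H : ℝ) < (((H / e : ℕ) : ℝ) + 1) * e := by exact_mod_cast h1
    have h3 : (1 : ℝ) ≤ ((H / e : ℕ) : ℝ) := by exact_mod_cast hM1
    rw [div_le_iff₀ (by positivity)]
    nlinarith
  refine ⟨hM1, fun a ha B m hm G hG hF hcard => ?_⟩
  have hGne : G.Nonempty := by
    rw [← Finset.card_pos]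
    have : (0 : ℝ) < #G := lt_of_le_of_lt (by positivity) hcard
    exact_mod_cast this
  choose! α hαB hα using fun k (hk : k ∈ G) =>
    exists_of_lt (B := B) (by positivity : (0 : ℝ) ≤ 2 * c * H) (hF k hk)
  have hwin : ∀ k ∈ G, c * H ≤ ‖∑ y ∈ Icc 1 H, a (m + y) * ee (ph (α k) ((y : ℝ) - (k : ℝ)))‖ := by
    intro k hk
    have hkM : k ≤ H / e := (Finset.mem_Icc.1 (hG hk)).2
    have hk2 : 2 * (k : ℝ) ≤ c * H := by
      have h1 : (k : ℝ) ≤ ((H / e : ℕ) : ℝ) := by exact_mod_cast hkM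
      have h2 : (k : ℝ) * e ≤ H := by nlinarith
      have h3 : 2 ≤ c * e := by
        rw [div_le_iff₀ hc] at hec
        linarith
      have h4 : (0 : ℝ) ≤ k := Nat.cast_nonneg k
      nlinarith
    have h1 := ZZ.shift_le (g := fun y => a (m + y) * ee (ph (α k) ((y : ℝ) - (k : ℝ))))
      (fun _ => norm_term_le ha _ _) k H
    have e1 : ∑ h ∈ Icc 1 H, a (m + (k + h)) * ee (ph (α k) (((k + h : ℕ) : ℝ) - (k : ℝ))) =
        ∑ h ∈ Icc 1 H, a (m + k + h) * ee (ph (α k) (h : ℝ)) := by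
      refine Finset.sum_congr rfl fun h _ => ?_
      push_cast
      rw [add_sub_cancel_left, add_assoc]
    have h2 := hα k hk
    rw [← e1] at h2
    have h3 : ‖∑ h ∈ Icc 1 H, a (m + (k + h)) * ee (ph (α k) (((k + h : ℕ) : ℝ) - (k : ℝ)))‖ ≤
      ‖∑ y ∈ Icc 1 H, a (m + y) * ee (ph (α k) ((y : ℝ) - (k : ℝ)))‖ + 2 * k := h1
    nlinarith
  obtain ⟨R, hR, hRc, G', hG', hG'c, hG'N⟩ := hmain H (H / e) hH0 (Nat.div_le_self H e) B
    (fun y => a (m + y)) (fun _ => ha _) G α hG hGne hαB hwin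
  refine ⟨hm, R, hR, fun j h1 h2 => absurd h1 (not_lt.2 h2), hRc, ?_⟩
  have hcardG' : #G' ≤ Nat.card {k : ℕ // k ∈ Icc 1 (H / e) ∧ tv t R (k : ℝ) ∈ Nb (Sh D B) (K / H)} := by
    have hfin : Finite {k : ℕ // k ∈ Icc 1 (H / e) ∧ tv t R (k : ℝ) ∈ Nb (Sh D B) (K / H)} :=
      Finite.of_injective
        (fun k => (⟨k.1, k.2.1⟩ : {k : ℕ // k ∈ Icc 1 (H / e)}))
        (fun a b h => Subtype.ext (congrArg (fun x => (x : {k : ℕ // k ∈ Icc 1 (H / e)}).1) h))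
    have := Nat.card_le_card_of_injective
      (fun k : {k : ℕ // k ∈ G'} => (⟨k.1, hG (hG' k.2), hG'N k.1 k.2⟩ :
        {k : ℕ // k ∈ Icc 1 (H / e) ∧ tv t R (k : ℝ) ∈ Nb (Sh D B) (K / H)}))
      (fun a b h => Subtype.ext (congrArg (fun x => (x : {k : ℕ // k ∈ Icc 1 (H / e) ∧
        tv t R (k : ℝ) ∈ Nb (Sh D B) (K / H)}).1) h))
    simpa using this
  have h5 : c₄ * c₅ / (2 * e) * H ≤ c₄ * (c₅ * ((H / e : ℕ) : ℝ)) := by
    have : c₄ * c₅ / (2 * e) * H = c₄ * (c₅ * (H / (2 * e))) := by ring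
    rw [this]
    gcongr
  have h6 : c₄ * (c₅ * ((H / e : ℕ) : ℝ)) ≤ c₄ * #G := by gcongr
  have h7 : ((#G' : ℕ) : ℝ) ≤ Nat.card {k : ℕ // k ∈ Icc 1 (H / e) ∧
      tv t R (k : ℝ) ∈ Nb (Sh D B) (K / H)} := by exact_mod_cast hcardG'
  linarith

end PA

open PA in
/-- **Row P.** -/
theorem rowP (hB2 : B2_stmt) (hB3 : B3_stmt) (hG : G_stmt) : P_stmt := by
  classical
  intro t ht B hB hP hN ε hε
  set ε₁ : ℝ := min ε 1 with hε1
  have hε1p : 0 < ε₁ := lt_min hε one_pos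
  have hε1le : ε₁ ≤ ε := min_le_left _ _
  have hε11 : ε₁ ≤ 1 := min_le_right _ _
  set c : ℝ := ε₁ / 16 with hcd
  have hc : 0 < c := by positivity
  have hc1 : c ≤ 1 := by rw [hcd]; linarith
  set c₅ : ℝ := ε₁ / 8 with hc5d
  have hc5 : 0 < c₅ := by positivity
  obtain ⟨D, K, c₄, e, hD, hK, hc4, he, H₁, hcl⟩ := cluster hB2 ht hc hc1 hc5
  obtain ⟨hShc, hShP, hShN⟩ := hB3 t D hD B hB hP hN
  obtain ⟨CG, hCG⟩ := hG t (Sh D B) hShc hShP hShN c c₄ e K hc hc1 hc4 he hK t ht le_rfl 1 1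
    (ε₁ / 8) le_rfl le_rfl (by positivity)
  obtain ⟨C, hC⟩ : ∃ C : ℕ, C = CG + ⌈24 / ε₁⌉₊ + 1 := ⟨_, rfl⟩
  refine ⟨C, fun L hL => ?_⟩
  obtain ⟨H₂, hG2⟩ := hCG L hL
  have hL0 : (0 : ℝ) < L := by exact_mod_cast hL
  refine ⟨max (max H₁ H₂) 3, fun H N hHH hHC a haM => ?_⟩
  have ha := haM.1
  have hH1 : H₁ ≤ H := le_trans (le_trans (le_max_left _ _) (le_max_left _ _)) hHH
  have hH2 : H₂ ≤ H := le_trans (le_trans (le_max_right _ _) (le_max_left _ _)) hHH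
  have hH4 : 3 ≤ H := le_trans (le_max_right _ _) hHH
  have hHN : H ≤ N := le_trans (Nat.le_self_pow (by omega) H) hHC
  have hH3r : (3 : ℝ) ≤ H := by exact_mod_cast hH4
  have hlogH : 1 ≤ Real.log H := by
    rw [Real.le_log_iff_exp_le (by linarith)]
    linarith [Real.exp_one_lt_three]
  have hlogC : 3 * Real.log H ≤ ε₁ / 8 * Real.log N := by
    have h1 : (C : ℝ) * Real.log H ≤ Real.log N := by
      rw [← Real.log_pow]
      apply Real.log_le_log (by positivity)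
      exact_mod_cast hHC
    have h2 : 24 / ε₁ ≤ C := by
      have := Nat.le_ceil (24 / ε₁)
      rw [hC]
      push_cast
      have h3 : (0 : ℝ) ≤ CG := Nat.cast_nonneg _
      linarith
    have h3 : 24 / ε₁ * Real.log H ≤ Real.log N := le_trans (by gcongr) h1
    calc 3 * Real.log H = ε₁ / 8 * (24 / ε₁ * Real.log H) := by field_simp; ring
      _ ≤ ε₁ / 8 * Real.log N := by gcongr
  obtain ⟨hM1, hcl'⟩ := hcl H hH1
  have hN3 : (3 : ℝ) ≤ N := by exact_mod_cast le_trans hH4 hHN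
  have hlog : 1 ≤ Real.log N := by
    rw [Real.le_log_iff_exp_le (by linarith)]
    linarith [Real.exp_one_lt_three]
  have hHp : (0 : ℝ) < H := by
    have : 0 < H := by omega
    exact_mod_cast this
  set W : Finset ℕ := (Icc 1 N).filter (fun n => 2 * H < n ∧ 2 * c * H < F a B H n) with hWd
  have hW : ∀ n ∈ W, 2 * H < n ∧ n ≤ N := by
    intro n hn
    rw [hWd, Finset.mem_filter, Finset.mem_Icc] at hn
    exact ⟨hn.2.1, hn.1.2⟩
  obtain ⟨X, hX⟩ : ∃ X : ℝ, X = CG * AP CG L N a / L := ⟨_, rfl⟩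
  have hX0 : 0 ≤ X := by
    have := AP_nonneg CG L N a
    rw [hX]; positivity
  -- the density of `W`
  have hden : ∑ n ∈ W, (1 / (n : ℝ)) ≤ c₅ * (1 + Real.log N) + (ε₁ / 8 * Real.log N + X) := by
    have hMp : (0 : ℝ) < ((H / e : ℕ) : ℝ) := by exact_mod_cast hM1
    have h1 := ZZ.dcount W N H (H / e) (Nat.div_le_self H e) hW
    have h2 : ∑ m ∈ (Icc 1 N).filter (fun m => H ≤ m),
        (1 / (m : ℝ)) * #{k ∈ Icc 1 (H / e) | m + k ∈ W} ≤
        ∑ m ∈ Icc 1 N, (1 / (m : ℝ)) * (c₅ * ((H / e : ℕ) : ℝ)) +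
        ∑ m ∈ Icc 1 N with Cl a t t 1 (Sh D B) 1 c c₄ e K H m, (1 / (m : ℝ)) * ((H / e : ℕ) : ℝ) := by
      rw [Finset.sum_filter, Finset.sum_filter, ← Finset.sum_add_distrib]
      refine Finset.sum_le_sum fun m hm => ?_
      have hm0 : (0 : ℝ) ≤ 1 / (m : ℝ) := by positivity
      by_cases hHm : H ≤ m
      · rw [if_pos hHm]
        by_cases hbig : c₅ * ((H / e : ℕ) : ℝ) < #{k ∈ Icc 1 (H / e) | m + k ∈ W}
        · have hC : Cl a t t 1 (Sh D B) 1 c c₄ e K H m := by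
            refine hcl' a ha B m hHm _ (Finset.filter_subset _ _) (fun k hk => ?_) hbig
            have := (Finset.mem_filter.1 hk).2
            rw [hWd, Finset.mem_filter] at this
            exact this.2.2
          rw [if_pos hC]
          have hle : ((#{k ∈ Icc 1 (H / e) | m + k ∈ W} : ℕ) : ℝ) ≤ ((H / e : ℕ) : ℝ) := by
            have := Finset.card_filter_le (Icc 1 (H / e)) (fun k => m + k ∈ W)
            rw [Nat.card_Icc, Nat.add_sub_cancel] at this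
            exact_mod_cast this
          have h3 : 1 / (m : ℝ) * ((#{k ∈ Icc 1 (H / e) | m + k ∈ W} : ℕ) : ℝ) ≤
              1 / (m : ℝ) * ((H / e : ℕ) : ℝ) := by gcongr
          have h4 : 0 ≤ 1 / (m : ℝ) * (c₅ * ((H / e : ℕ) : ℝ)) := by positivity
          linarith
        · push Not at hbig
          have h3 : 1 / (m : ℝ) * ((#{k ∈ Icc 1 (H / e) | m + k ∈ W} : ℕ) : ℝ) ≤
              1 / (m : ℝ) * (c₅ * ((H / e : ℕ) : ℝ)) := by gcongr
          have h4 : 0 ≤ (if Cl a t t 1 (Sh D B) 1 c c₄ e K H m then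
              1 / (m : ℝ) * ((H / e : ℕ) : ℝ) else 0) := by
            split_ifs
            · positivity
            · exact le_rfl
          linarith
      · rw [if_neg hHm]
        have h4 : 0 ≤ (if Cl a t t 1 (Sh D B) 1 c c₄ e K H m then
              1 / (m : ℝ) * ((H / e : ℕ) : ℝ) else 0) := by
            split_ifs
            · positivity
            · exact le_rfl
        have h5 : 0 ≤ 1 / (m : ℝ) * (c₅ * ((H / e : ℕ) : ℝ)) := by positivity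
        linarith
    rw [← Finset.sum_mul, ← Finset.sum_mul] at h2
    have h3 := hG2 H N hH2 hHN a haM
    rw [← hX] at h3
    have h4 := sum_inv_le_log N
    have h5 : ((H / e : ℕ) : ℝ) * ∑ n ∈ W, (1 / (n : ℝ)) ≤
        ((H / e : ℕ) : ℝ) * (c₅ * (1 + Real.log N) + (ε₁ / 8 * Real.log N + X)) := by
      refine (h1.trans h2).trans ?_
      have h6 : (∑ m ∈ Icc 1 N, (1 / (m : ℝ))) * (c₅ * ((H / e : ℕ) : ℝ)) ≤
          (1 + Real.log N) * (c₅ * ((H / e : ℕ) : ℝ)) := by gcongr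
      have h7 : (∑ m ∈ Icc 1 N with Cl a t t 1 (Sh D B) 1 c c₄ e K H m, (1 / (m : ℝ))) *
          ((H / e : ℕ) : ℝ) ≤ (ε₁ / 8 * Real.log N + X) * ((H / e : ℕ) : ℝ) := by gcongr
      nlinarith
    exact le_of_mul_le_mul_left h5 hMp
  -- the whole sum
  have hinit : ∑ n ∈ Icc 1 (2 * H), (1 / (n : ℝ)) ≤ 3 * Real.log H := by
    have h1 := sum_inv_le_log (2 * H)
    refine h1.trans ?_
    push_cast
    rw [Real.log_mul (by norm_num) (by positivity)]
    have := Real.log_two_lt_d9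
    linarith
  have hsplit : ∑ n ∈ Icc 1 N, (1 / (n : ℝ)) * F a B H n ≤
      ∑ n ∈ Icc 1 N, (1 / (n : ℝ)) * (2 * c * H) + (∑ n ∈ W, (1 / (n : ℝ)) * H +
        ∑ n ∈ Icc 1 N with n ≤ 2 * H, (1 / (n : ℝ)) * H) := by
    rw [hWd, Finset.sum_filter, Finset.sum_filter, ← Finset.sum_add_distrib,
      ← Finset.sum_add_distrib]
    refine Finset.sum_le_sum fun n _ => ?_
    have hn0 : (0 : ℝ) ≤ 1 / (n : ℝ) := by positivity
    have h1 : 1 / (n : ℝ) * F a B H n ≤ 1 / (n : ℝ) * H :=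
      mul_le_mul_of_nonneg_left (F_le ha B H n) hn0
    have h2 : 0 ≤ 1 / (n : ℝ) * (2 * c * H) := by positivity
    have h3 : 0 ≤ 1 / (n : ℝ) * (H : ℝ) := by positivity
    by_cases hb2 : n ≤ 2 * H
    · rw [if_pos hb2, if_neg (by omega)]
      linarith
    · rw [if_neg hb2]
      by_cases hb : 2 * c * H < F a B H n
      · rw [if_pos ⟨by omega, hb⟩]
        linarith
      · rw [if_neg (fun h => hb h.2), add_zero, add_zero]
        exact mul_le_mul_of_nonneg_left (not_lt.1 hb) hn0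
  have hsub : ∑ n ∈ Icc 1 N with n ≤ 2 * H, (1 / (n : ℝ)) * H ≤ (3 * Real.log H) * H := by
    rw [← Finset.sum_mul]
    refine mul_le_mul_of_nonneg_right (le_trans ?_ hinit) hHp.le
    refine Finset.sum_le_sum_of_subset_of_nonneg (fun n hn => ?_) (fun _ _ _ => by positivity)
    rw [Finset.mem_filter, Finset.mem_Icc] at hn
    rw [Finset.mem_Icc]
    omega
  rw [← Finset.sum_mul, ← Finset.sum_mul] at hsplit
  have h4 := sum_inv_le_log N
  refine le_trans (show _ ≤ _ from hsplit) ?_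
  have h6 : (∑ n ∈ Icc 1 N, (1 / (n : ℝ))) * (2 * c * H) ≤ (1 + Real.log N) * (2 * c * H) := by
    gcongr
  have h7 : (∑ n ∈ W, (1 / (n : ℝ))) * H ≤
      (c₅ * (1 + Real.log N) + (ε₁ / 8 * Real.log N + X)) * H := by gcongr
  have h8 : (1 + Real.log N) ≤ 2 * Real.log N := by linarith
  have h9 : (1 + Real.log N) * (2 * c * H) ≤ (2 * Real.log N) * (2 * c * H) := by gcongr
  have h10 : (c₅ * (1 + Real.log N) + (ε₁ / 8 * Real.log N + X)) * H ≤
      (c₅ * (2 * Real.log N) + (ε₁ / 8 * Real.log N + X)) * H := by gcongr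
  have h11 : ε₁ * H * Real.log N ≤ ε * H * Real.log N := by gcongr
  have h14 : (3 * Real.log H) * H ≤ (ε₁ / 8 * Real.log N) * H := by gcongr
  have h12 : (2 * Real.log N) * (2 * c * H) +
      (c₅ * (2 * Real.log N) + (ε₁ / 8 * Real.log N + X)) * H + (ε₁ / 8 * Real.log N) * H =
      3 / 4 * (ε₁ * H * Real.log N) + X * H := by
    rw [hcd, hc5d]; ring
  have h13 : 0 ≤ ε₁ * H * Real.log N := by positivity
  have h15 : X ≤ C * AP C L N a / L := by
    have := AP_comb (C₁ := 0) (C₂ := CG) (C := C) (x₁ := 0) le_rfl (by omega) (by omega)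
      (by rw [zero_add]; exact_mod_cast (by omega : CG ≤ C)) L N a
    rw [hX]
    simpa using this
  have h16 : X * H ≤ C * AP C L N a / L * H := by gcongr
  have h17 : (ε * Real.log N + C * AP C L N a / L) * H =
      ε * H * Real.log N + C * AP C L N a / L * H := by ring
  rw [h17]
  linarith

end Pool.Agent.UD
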