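import Mathlib
import Pool.Agent.Lib.UD95.UU
import Pool.Agent.Lib.UD95.P

/-!
# Complexity of sets of phases (MP_663568_nt), row P2: the positive part

Adapted from Lib/UD95/P.lean.
-/

set_option autoImplicit false
open Finset Polynomial MeasureTheory

namespace Pool.Agent.UD

open Pool.Agent.Lib.MP_663568_nt Pool.Agent.Lib.MP_663568_nt.Katai
  Pool.Agent.Lib.MP_663568_nt.Nul Pool.Agent.TU

open PA in
/-- **Row P2.** -/
theorem rowP2 (hB2 : B2_stmt) (hE7 : TUK.E7_stmt) (hG : G2_stmt) : P2_stmt := by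
  classical
  intro t ht σ hσt B hB hP hN ε hε
  set ε₁ : ℝ := min ε 1 with hε1
  have hε1p : 0 < ε₁ := lt_min hε one_pos
  have hε1le : ε₁ ≤ ε := min_le_left _ _
  have hε11 : ε₁ ≤ 1 := min_le_right _ _
  set c : ℝ := ε₁ / 16 with hcd
  have hc : 0 < c := by positivity
  have hc1 : c ≤ 1 := by rw [hcd]; linarith
  set c₅ : ℝ := ε₁ / 8 with hc5d
  have hc5 : 0 < c₅ := by positivity
  obtain ⟨D, K, c₄, e, hD, hK, hc4, he, H₁, hcl⟩ := cluster hB2 ht hc hc1 hc5
  obtain ⟨hShc, hShP, hShN'⟩ := hE7 t D hD B hB hP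
  have hShN : NullAbove σ (Sh D B) := by
    intro s' h1 h2 r
    by_contra h3
    obtain ⟨r', hr'⟩ := hShN' s' h2 ⟨r, h3⟩
    exact hr' (hN s' h1 h2 r')
  obtain ⟨CG, hCG⟩ := hG t σ (Sh D B) hσt hShc hShP hShN c c₄ e K hc hc1 hc4 he hK t ht hσt le_rfl 1 1
    (ε₁ / 8) le_rfl le_rfl (by positivity)
  obtain ⟨C, hC⟩ : ∃ C : ℕ, C = CG + ⌈24 / ε₁⌉₊ + 1 := ⟨_, rfl⟩
  refine ⟨C, fun L hL => ?_⟩
  obtain ⟨H₂, hG2⟩ := hCG L hL
  have hL0 : (0 : ℝ) < L := by exact_mod_cast hL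
  refine ⟨max (max H₁ H₂) 3, fun H N hHH hHC a haM => ?_⟩
  have ha := haM.1
  have hH1 : H₁ ≤ H := le_trans (le_trans (le_max_left _ _) (le_max_left _ _)) hHH
  have hH2 : H₂ ≤ H := le_trans (le_trans (le_max_right _ _) (le_max_left _ _)) hHH
  have hH4 : 3 ≤ H := le_trans (le_max_right _ _) hHH
  have hHN : H ≤ N := le_trans (Nat.le_self_pow (by omega) H) hHC
  have hH3r : (3 : ℝ) ≤ H := by exact_mod_cast hH4
  have hlogH : 1 ≤ Real.log H := by
    rw [Real.le_log_iff_exp_le (by linarith)]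
    linarith [Real.exp_one_lt_three]
  have hlogC : 3 * Real.log H ≤ ε₁ / 8 * Real.log N := by
    have h1 : (C : ℝ) * Real.log H ≤ Real.log N := by
      rw [← Real.log_pow]
      apply Real.log_le_log (by positivity)
      exact_mod_cast hHC
    have h2 : 24 / ε₁ ≤ C := by
      have := Nat.le_ceil (24 / ε₁)
      rw [hC]
      push_cast
      have h3 : (0 : ℝ) ≤ CG := Nat.cast_nonneg _
      linarith
    have h3 : 24 / ε₁ * Real.log H ≤ Real.log N := le_trans (by gcongr) h1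
    calc 3 * Real.log H = ε₁ / 8 * (24 / ε₁ * Real.log H) := by field_simp; ring
      _ ≤ ε₁ / 8 * Real.log N := by gcongr
  obtain ⟨hM1, hcl'⟩ := hcl H hH1
  have hN3 : (3 : ℝ) ≤ N := by exact_mod_cast le_trans hH4 hHN
  have hlog : 1 ≤ Real.log N := by
    rw [Real.le_log_iff_exp_le (by linarith)]
    linarith [Real.exp_one_lt_three]
  have hHp : (0 : ℝ) < H := by
    have : 0 < H := by omega
    exact_mod_cast this
  set W : Finset ℕ := (Icc 1 N).filter (fun n => 2 * H < n ∧ 2 * c * H < F a B H n) with hWd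
  have hW : ∀ n ∈ W, 2 * H < n ∧ n ≤ N := by
    intro n hn
    rw [hWd, Finset.mem_filter, Finset.mem_Icc] at hn
    exact ⟨hn.2.1, hn.1.2⟩
  obtain ⟨X, hX⟩ : ∃ X : ℝ, X = CG * UU σ CG L N a / L := ⟨_, rfl⟩
  have hX0 : 0 ≤ X := by
    have := UU_nonneg σ CG L N a
    rw [hX]; positivity
  -- the density of `W`
  have hden : ∑ n ∈ W, (1 / (n : ℝ)) ≤ c₅ * (1 + Real.log N) + (ε₁ / 8 * Real.log N + X) := by
    have hMp : (0 : ℝ) < ((H / e : ℕ) : ℝ) := by exact_mod_cast hM1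
    have h1 := ZZ.dcount W N H (H / e) (Nat.div_le_self H e) hW
    have h2 : ∑ m ∈ (Icc 1 N).filter (fun m => H ≤ m),
        (1 / (m : ℝ)) * #{k ∈ Icc 1 (H / e) | m + k ∈ W} ≤
        ∑ m ∈ Icc 1 N, (1 / (m : ℝ)) * (c₅ * ((H / e : ℕ) : ℝ)) +
        ∑ m ∈ Icc 1 N with Cl a t t 1 (Sh D B) 1 c c₄ e K H m, (1 / (m : ℝ)) * ((H / e : ℕ) : ℝ) := by
      rw [Finset.sum_filter, Finset.sum_filter, ← Finset.sum_add_distrib]
      refine Finset.sum_le_sum fun m hm => ?_
      have hm0 : (0 : ℝ) ≤ 1 / (m : ℝ) := by positivity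
      by_cases hHm : H ≤ m
      · rw [if_pos hHm]
        by_cases hbig : c₅ * ((H / e : ℕ) : ℝ) < #{k ∈ Icc 1 (H / e) | m + k ∈ W}
        · have hC : Cl a t t 1 (Sh D B) 1 c c₄ e K H m := by
            refine hcl' a ha B m hHm _ (Finset.filter_subset _ _) (fun k hk => ?_) hbig
            have := (Finset.mem_filter.1 hk).2
            rw [hWd, Finset.mem_filter] at this
            exact this.2.2
          rw [if_pos hC]
          have hle : ((#{k ∈ Icc 1 (H / e) | m + k ∈ W} : ℕ) : ℝ) ≤ ((H / e : ℕ) : ℝ) := by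
            have := Finset.card_filter_le (Icc 1 (H / e)) (fun k => m + k ∈ W)
            rw [Nat.card_Icc, Nat.add_sub_cancel] at this
            exact_mod_cast this
          have h3 : 1 / (m : ℝ) * ((#{k ∈ Icc 1 (H / e) | m + k ∈ W} : ℕ) : ℝ) ≤
              1 / (m : ℝ) * ((H / e : ℕ) : ℝ) := by gcongr
          have h4 : 0 ≤ 1 / (m : ℝ) * (c₅ * ((H / e : ℕ) : ℝ)) := by positivity
          linarith
        · push Not at hbig
          have h3 : 1 / (m : ℝ) * ((#{k ∈ Icc 1 (H / e) | m + k ∈ W} : ℕ) : ℝ) ≤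
              1 / (m : ℝ) * (c₅ * ((H / e : ℕ) : ℝ)) := by gcongr
          have h4 : 0 ≤ (if Cl a t t 1 (Sh D B) 1 c c₄ e K H m then
              1 / (m : ℝ) * ((H / e : ℕ) : ℝ) else 0) := by
            split_ifs
            · positivity
            · exact le_rfl
          linarith
      · rw [if_neg hHm]
        have h4 : 0 ≤ (if Cl a t t 1 (Sh D B) 1 c c₄ e K H m then
              1 / (m : ℝ) * ((H / e : ℕ) : ℝ) else 0) := by
            split_ifs
            · positivity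
            · exact le_rfl
        have h5 : 0 ≤ 1 / (m : ℝ) * (c₅ * ((H / e : ℕ) : ℝ)) := by positivity
        linarith
    rw [← Finset.sum_mul, ← Finset.sum_mul] at h2
    have h3 := hG2 H N hH2 hHN a haM
    rw [← hX] at h3
    have h4 := sum_inv_le_log N
    have h5 : ((H / e : ℕ) : ℝ) * ∑ n ∈ W, (1 / (n : ℝ)) ≤
        ((H / e : ℕ) : ℝ) * (c₅ * (1 + Real.log N) + (ε₁ / 8 * Real.log N + X)) := by
      refine (h1.trans h2).trans ?_
      have h6 : (∑ m ∈ Icc 1 N, (1 / (m : ℝ))) * (c₅ * ((H / e : ℕ) : ℝ)) ≤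
          (1 + Real.log N) * (c₅ * ((H / e : ℕ) : ℝ)) := by gcongr
      have h7 : (∑ m ∈ Icc 1 N with Cl a t t 1 (Sh D B) 1 c c₄ e K H m, (1 / (m : ℝ))) *
          ((H / e : ℕ) : ℝ) ≤ (ε₁ / 8 * Real.log N + X) * ((H / e : ℕ) : ℝ) := by gcongr
      nlinarith
    exact le_of_mul_le_mul_left h5 hMp
  -- the whole sum
  have hinit : ∑ n ∈ Icc 1 (2 * H), (1 / (n : ℝ)) ≤ 3 * Real.log H := by
    have h1 := sum_inv_le_log (2 * H)
    refine h1.trans ?_
    push_cast
    rw [Real.log_mul (by norm_num) (by positivity)]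
    have := Real.log_two_lt_d9
    linarith
  have hsplit : ∑ n ∈ Icc 1 N, (1 / (n : ℝ)) * F a B H n ≤
      ∑ n ∈ Icc 1 N, (1 / (n : ℝ)) * (2 * c * H) + (∑ n ∈ W, (1 / (n : ℝ)) * H +
        ∑ n ∈ Icc 1 N with n ≤ 2 * H, (1 / (n : ℝ)) * H) := by
    rw [hWd, Finset.sum_filter, Finset.sum_filter, ← Finset.sum_add_distrib,
      ← Finset.sum_add_distrib]
    refine Finset.sum_le_sum fun n _ => ?_
    have hn0 : (0 : ℝ) ≤ 1 / (n : ℝ) := by positivity
    have h1 : 1 / (n : ℝ) * F a B H n ≤ 1 / (n : ℝ) * H :=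
      mul_le_mul_of_nonneg_left (F_le ha B H n) hn0
    have h2 : 0 ≤ 1 / (n : ℝ) * (2 * c * H) := by positivity
    have h3 : 0 ≤ 1 / (n : ℝ) * (H : ℝ) := by positivity
    by_cases hb2 : n ≤ 2 * H
    · rw [if_pos hb2, if_neg (by omega)]
      linarith
    · rw [if_neg hb2]
      by_cases hb : 2 * c * H < F a B H n
      · rw [if_pos ⟨by omega, hb⟩]
        linarith
      · rw [if_neg (fun h => hb h.2), add_zero, add_zero]
        exact mul_le_mul_of_nonneg_left (not_lt.1 hb) hn0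
  have hsub : ∑ n ∈ Icc 1 N with n ≤ 2 * H, (1 / (n : ℝ)) * H ≤ (3 * Real.log H) * H := by
    rw [← Finset.sum_mul]
    refine mul_le_mul_of_nonneg_right (le_trans ?_ hinit) hHp.le
    refine Finset.sum_le_sum_of_subset_of_nonneg (fun n hn => ?_) (fun _ _ _ => by positivity)
    rw [Finset.mem_filter, Finset.mem_Icc] at hn
    rw [Finset.mem_Icc]
    omega
  rw [← Finset.sum_mul, ← Finset.sum_mul] at hsplit
  have h4 := sum_inv_le_log N
  refine le_trans (show _ ≤ _ from hsplit) ?_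
  have h6 : (∑ n ∈ Icc 1 N, (1 / (n : ℝ))) * (2 * c * H) ≤ (1 + Real.log N) * (2 * c * H) := by
    gcongr
  have h7 : (∑ n ∈ W, (1 / (n : ℝ))) * H ≤
      (c₅ * (1 + Real.log N) + (ε₁ / 8 * Real.log N + X)) * H := by gcongr
  have h8 : (1 + Real.log N) ≤ 2 * Real.log N := by linarith
  have h9 : (1 + Real.log N) * (2 * c * H) ≤ (2 * Real.log N) * (2 * c * H) := by gcongr
  have h10 : (c₅ * (1 + Real.log N) + (ε₁ / 8 * Real.log N + X)) * H ≤
      (c₅ * (2 * Real.log N) + (ε₁ / 8 * Real.log N + X)) * H := by gcongr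
  have h11 : ε₁ * H * Real.log N ≤ ε * H * Real.log N := by gcongr
  have h14 : (3 * Real.log H) * H ≤ (ε₁ / 8 * Real.log N) * H := by gcongr
  have h12 : (2 * Real.log N) * (2 * c * H) +
      (c₅ * (2 * Real.log N) + (ε₁ / 8 * Real.log N + X)) * H + (ε₁ / 8 * Real.log N) * H =
      3 / 4 * (ε₁ * H * Real.log N) + X * H := by
    rw [hcd, hc5d]; ring
  have h13 : 0 ≤ ε₁ * H * Real.log N := by positivity
  have h15 : X ≤ C * UU σ C L N a / L := by
    have := UU_comb (C₁ := 0) (C₂ := CG) (C := C) (x₁ := 0) le_rfl (by omega) (by omega)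
      (by rw [zero_add]; exact_mod_cast (by omega : CG ≤ C)) σ L N a
    rw [hX]
    simpa using this
  have h16 : X * H ≤ C * UU σ C L N a / L * H := by gcongr
  have h17 : (ε * Real.log N + C * UU σ C L N a / L) * H =
      ε * H * Real.log N + C * UU σ C L N a / L * H := by ring
  rw [h17]
  linarith

end Pool.Agent.UD
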