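import Pool.Agent.Lib.UD95.Defs
import Pool.Agent.Lib.TU.SS
import Pool.Agent.Lib.TU.S2

/-!
# UD, row S1: degree one, general multiplicative functions (helper16)
-/

set_option autoImplicit false
open Finset Polynomial MeasureTheory

namespace Pool.Agent.UD

open Pool.Agent.Lib.MP_663568_nt Pool.Agent.Lib.MP_663568_nt.Katai
  Pool.Agent.Lib.MP_663568_nt.Nul Pool.Agent.TU

namespace S1x

/-! ### windows and subwindows -/

lemma Dsucc (f : ℕ → ℂ) (l j : ℕ) :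
    ∑ h ∈ range l, f (h + (j + 1)) = ∑ h ∈ range l, f (h + j) + f (l + j) - f j := by
  have h1 := sum_range_succ (fun h => f (h + j)) l
  have h2 := sum_range_succ' (fun h => f (h + j)) l
  rw [h1] at h2
  have h3 : ∀ h, f (h + 1 + j) = f (h + (j + 1)) := fun h => by congr 1; ring
  simp only [h3, zero_add] at h2
  rw [h2]
  ring

lemma Ddiff (f : ℕ → ℂ) (hf : ∀ m, ‖f m‖ ≤ 1) (l j : ℕ) :
    ‖∑ h ∈ range l, f (h + (j + 1)) - ∑ h ∈ range l, f (h + 1)‖ ≤ 2 * j := by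
  induction j with
  | zero => simp
  | succ j ih =>
    have h1 : ∑ h ∈ range l, f (h + (j + 1 + 1)) - ∑ h ∈ range l, f (h + 1) =
        (∑ h ∈ range l, f (h + (j + 1)) - ∑ h ∈ range l, f (h + 1)) +
          (f (l + (j + 1)) - f (j + 1)) := by
      rw [Dsucc f l (j + 1)]
      ring
    rw [h1]
    refine (norm_add_le _ _).trans ?_
    have h2 : ‖f (l + (j + 1)) - f (j + 1)‖ ≤ 2 := by
      refine (norm_sub_le _ _).trans ?_
      linarith [hf (l + (j + 1)), hf (j + 1)]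
    push_cast
    linarith

lemma win_diff (f : ℕ → ℂ) (hf : ∀ m, ‖f m‖ ≤ 1) (l L : ℕ) :
    L * ‖∑ h ∈ Icc 1 l, f h‖ ≤ ∑ i ∈ range l, ‖∑ j ∈ Icc 1 L, f (i + j)‖ + 2 * (L : ℝ) ^ 2 := by
  have e0 : ∑ h ∈ Icc 1 l, f h = ∑ h ∈ range l, f (h + 1) := by
    rw [range_eq_Ico, sum_Ico_add' (fun h => f h) 0 l 1]
    rfl
  have e1 : ∑ j ∈ Icc 1 L, ∑ h ∈ range l, f (h + j) = ∑ j ∈ range L, ∑ h ∈ range l,
      f (h + (j + 1)) := by
    have h := sum_Ico_add' (fun j => ∑ h ∈ range l, f (h + j)) 0 L 1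
    rw [Nat.Ico_zero_eq_range] at h
    exact h.symm
  rw [e0]
  have h1 : ‖(L : ℂ) * ∑ h ∈ range l, f (h + 1) - ∑ j ∈ Icc 1 L, ∑ h ∈ range l, f (h + j)‖ ≤
      2 * (L : ℝ) ^ 2 := by
    rw [e1]
    have h2 : (L : ℂ) * ∑ h ∈ range l, f (h + 1) = ∑ j ∈ range L, ∑ h ∈ range l, f (h + 1) := by
      rw [sum_const, card_range, nsmul_eq_mul]
    rw [h2, ← sum_sub_distrib]
    refine (norm_sum_le _ _).trans ?_
    refine (sum_le_card_nsmul _ _ (2 * (L : ℝ)) fun j hj => ?_).trans ?_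
    · rw [norm_sub_rev]
      refine (Ddiff f hf l j).trans ?_
      have : (j : ℝ) ≤ L := by exact_mod_cast (mem_range.1 hj).le
      linarith
    · rw [card_range, nsmul_eq_mul]
      nlinarith
  have h3 : ‖(L : ℂ) * ∑ h ∈ range l, f (h + 1)‖ ≤
      ‖∑ j ∈ Icc 1 L, ∑ h ∈ range l, f (h + j)‖ + 2 * (L : ℝ) ^ 2 := by
    have h4 : (L : ℂ) * ∑ h ∈ range l, f (h + 1) = ∑ j ∈ Icc 1 L, ∑ h ∈ range l, f (h + j) +
      ((L : ℂ) * ∑ h ∈ range l, f (h + 1) - ∑ j ∈ Icc 1 L, ∑ h ∈ range l, f (h + j)) := by ring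
    rw [h4]
    exact (norm_add_le _ _).trans (by linarith)
  rw [norm_mul, Complex.norm_natCast] at h3
  refine h3.trans ?_
  have h5 : ‖∑ j ∈ Icc 1 L, ∑ h ∈ range l, f (h + j)‖ ≤
      ∑ i ∈ range l, ‖∑ j ∈ Icc 1 L, f (i + j)‖ := by
    rw [sum_comm]
    exact norm_sum_le _ _
  linarith

/-! ### progressions -/

lemma prog (a : ℕ → ℂ) (x L q : ℕ) (hq : 1 ≤ q) (b : ℤ) :
    ‖∑ j ∈ Icc 1 L, a (x + j) * ee ((b : ℝ) * j / q)‖ ≤
      ∑ r ∈ range q, ‖∑ j ∈ Icc 1 L with (x + j) % q = r, a (x + j)‖ := by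
  have hq0 : (q : ℝ) ≠ 0 := by exact_mod_cast (by omega : q ≠ 0)
  have h1 : ∀ j : ℕ, ee ((b : ℝ) * j / q) =
      ee (-((b : ℝ) * x / q)) * ee ((b : ℝ) * ((x + j) % q : ℕ) / q) := by
    intro j
    rw [← ee_add]
    obtain ⟨m, hm⟩ : ∃ m, m = (x + j) / q := ⟨_, rfl⟩
    obtain ⟨k, hk⟩ : ∃ k, k = (x + j) % q := ⟨_, rfl⟩
    have h2 : ((x + j : ℕ) : ℝ) = q * m + k := by
      rw [hm, hk]
      exact_mod_cast (Nat.div_add_mod (x + j) q).symm
    rw [← hk]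
    have h3 : (b : ℝ) * j / q = -((b : ℝ) * x / q) + (b : ℝ) * k / q + ((b * (m : ℤ) : ℤ) : ℝ) := by
      push_cast at h2 ⊢
      field_simp
      linear_combination (b : ℝ) * h2
    rw [h3, ee_add, ee_int, mul_one]
  have h4 : ∑ j ∈ Icc 1 L, a (x + j) * ee ((b : ℝ) * j / q) = ee (-((b : ℝ) * x / q)) *
      ∑ r ∈ range q, ee ((b : ℝ) * r / q) * ∑ j ∈ Icc 1 L with (x + j) % q = r, a (x + j) := by
    have h5 := sum_fiberwise_of_maps_to (s := Icc 1 L) (t := range q) (g := fun j => (x + j) % q)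
      (fun j _ => mem_range.2 (Nat.mod_lt _ (by omega)))
      (fun j => a (x + j) * ee ((b : ℝ) * ((x + j) % q : ℕ) / q))
    rw [sum_congr rfl fun j _ => by rw [h1 j]]
    have h6 : ∑ j ∈ Icc 1 L, a (x + j) * (ee (-((b : ℝ) * x / q)) *
        ee ((b : ℝ) * ((x + j) % q : ℕ) / q)) = ee (-((b : ℝ) * x / q)) *
        ∑ j ∈ Icc 1 L, a (x + j) * ee ((b : ℝ) * ((x + j) % q : ℕ) / q) := by
      rw [mul_sum]
      exact sum_congr rfl fun j _ => by ring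
    rw [h6, ← h5]
    congr 1
    refine sum_congr rfl fun r _ => ?_
    rw [mul_sum]
    refine sum_congr rfl fun j hj => ?_
    rw [(mem_filter.1 hj).2]
    ring
  rw [h4, norm_mul, norm_ee, one_mul]
  refine (norm_sum_le _ _).trans (sum_le_sum fun r _ => ?_)
  rw [norm_mul, norm_ee, one_mul]

/-- the average over the progressions in one window -/
noncomputable def V (C L : ℕ) (a : ℕ → ℂ) (x : ℕ) : ℝ :=
  ∑ q ∈ Icc 1 C, ∑ r ∈ range q, ‖∑ j ∈ Icc 1 L with (x + j) % q = r, a (x + j)‖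

lemma V_nonneg (C L : ℕ) (a : ℕ → ℂ) (x : ℕ) : 0 ≤ V C L a x :=
  sum_nonneg fun _ _ => sum_nonneg fun _ _ => norm_nonneg _

lemma V_le (C L : ℕ) {a : ℕ → ℂ} (ha : ∀ n, ‖a n‖ ≤ 1) (x : ℕ) : V C L a x ≤ C * L := by
  unfold V
  refine (sum_le_card_nsmul _ _ (L : ℝ) fun q hq => ?_).trans ?_
  · rw [mem_Icc] at hq
    have h5 := sum_fiberwise_of_maps_to (s := Icc 1 L) (t := range q) (g := fun j => (x + j) % q)
      (fun j _ => mem_range.2 (Nat.mod_lt _ (by omega))) (fun _ => (1 : ℝ))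
    have h6 : ∑ r ∈ range q, ‖∑ j ∈ Icc 1 L with (x + j) % q = r, a (x + j)‖ ≤
        ∑ r ∈ range q, ∑ j ∈ Icc 1 L with (x + j) % q = r, (1 : ℝ) :=
      sum_le_sum fun r _ => (norm_sum_le _ _).trans (sum_le_sum fun j _ => ha _)
    refine h6.trans (le_of_eq ?_)
    rw [h5]
    simp
  · rw [Nat.card_Icc, Nat.add_sub_cancel, nsmul_eq_mul]

lemma prog_V (a : ℕ → ℂ) (x C L q : ℕ) (hq : 1 ≤ q) (hqC : q ≤ C) (b : ℤ) :
    ‖∑ j ∈ Icc 1 L, a (x + j) * ee ((b : ℝ) * j / q)‖ ≤ V C L a x :=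
  (prog a x L q hq b).trans (single_le_sum
    (f := fun q => ∑ r ∈ range q, ‖∑ j ∈ Icc 1 L with (x + j) % q = r, a (x + j)‖)
    (fun _ _ => sum_nonneg fun _ _ => norm_nonneg _) (mem_Icc.2 ⟨hq, hqC⟩))

/-- the major arcs -/
theorem caseB {a : ℕ → ℂ} (ha : ∀ n, ‖a n‖ ≤ 1) {C L l q : ℕ} (hL : 1 ≤ L) (hq : 1 ≤ q)
    (hqC : q ≤ C) {δ : ℝ} {P : ℝ[X]} (hP : P.natDegree ≤ 1) {b : ℤ}
    (hb : |(q : ℝ) * P.coeff 1 - b| < δ) (n : ℕ) :
    ‖∑ h ∈ Icc 1 l, a (n + h) * ee (P.eval (h : ℝ))‖ ≤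
      (∑ i ∈ range l, V C L a (n + i)) / L + 2 * Real.pi * δ * L * l + 2 * L := by
  obtain ⟨α, hα⟩ : ∃ α, α = P.coeff 1 := ⟨_, rfl⟩
  obtain ⟨β, hβ⟩ : ∃ β, β = P.coeff 0 := ⟨_, rfl⟩
  have hev : ∀ x : ℝ, P.eval x = β + α * x := by
    intro x
    rw [eval_eq_sum_range' (n := 2) (by omega), sum_range_succ, sum_range_one, ← hα, ← hβ]
    ring
  rw [← hα] at hb
  have hq1 : (1 : ℝ) ≤ q := by exact_mod_cast hq
  have hq0 : (0 : ℝ) < q := by linarith
  have hδ : 0 < δ := lt_of_le_of_lt (abs_nonneg _) hb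
  have hL1 : (1 : ℝ) ≤ L := by exact_mod_cast hL
  obtain ⟨θ, hθ⟩ : ∃ θ, θ = α - b / q := ⟨_, rfl⟩
  have hθ1 : |θ| ≤ δ := by
    have h1 : (q : ℝ) * α - b = q * θ := by rw [hθ]; field_simp
    rw [h1, abs_mul, abs_of_pos hq0] at hb
    nlinarith [abs_nonneg θ]
  set f : ℕ → ℂ := fun h => a (n + h) * ee (P.eval (h : ℝ)) with hf
  have hf1 : ∀ m, ‖f m‖ ≤ 1 := fun m => by
    rw [hf]
    beta_reduce
    rw [norm_mul, norm_ee, mul_one]
    exact ha _
  have h1 := win_diff f hf1 l L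
  have h2 : ∀ i ∈ range l, ‖∑ j ∈ Icc 1 L, f (i + j)‖ ≤
      V C L a (n + i) + 2 * Real.pi * δ * L * L := by
    intro i _
    have e1 : ∀ j : ℕ, f (i + j) = ee (β + α * i) *
        (a (n + i + j) * ee ((b : ℝ) * j / q) + a (n + i + j) * ee ((b : ℝ) * j / q) *
          (ee (θ * j) - 1)) := by
      intro j
      have e2 : P.eval ((i + j : ℕ) : ℝ) = (β + α * i) + ((b : ℝ) * j / q + θ * j) := by
        rw [hev, hθ]
        push_cast
        field_simp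
        ring
      have e3 : n + (i + j) = n + i + j := by ring
      change a (n + (i + j)) * ee (P.eval ((i + j : ℕ) : ℝ)) = _
      rw [e2, e3, ee_add (β + α * i), ee_add ((b : ℝ) * j / q)]
      ring
    rw [sum_congr rfl fun j _ => e1 j, ← mul_sum, norm_mul, norm_ee, one_mul, sum_add_distrib]
    refine (norm_add_le _ _).trans (add_le_add (prog_V a (n + i) C L q hq hqC b) ?_)
    refine (norm_sum_le _ _).trans ?_
    refine (sum_le_card_nsmul _ _ (2 * Real.pi * δ * L) fun j hj => ?_).trans (le_of_eq ?_)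
    · rw [norm_mul, norm_mul, norm_ee, mul_one]
      have h4 := norm_ee_sub_one_le (θ * j)
      have hj1 : (j : ℝ) ≤ L := by exact_mod_cast (mem_Icc.1 hj).2
      have h5 : |θ * (j : ℝ)| ≤ δ * L := by
        rw [abs_mul, Nat.abs_cast]
        gcongr
      have hpi := Real.pi_pos
      calc ‖a (n + i + j)‖ * ‖ee (θ * j) - 1‖ ≤ 1 * (2 * Real.pi * (δ * L)) := by
            refine mul_le_mul (ha _) (h4.trans ?_) (norm_nonneg _) zero_le_one
            gcongr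
        _ = _ := by ring
    · rw [Nat.card_Icc, Nat.add_sub_cancel, nsmul_eq_mul]
      ring
  have h3 : ∑ i ∈ range l, ‖∑ j ∈ Icc 1 L, f (i + j)‖ ≤
      ∑ i ∈ range l, V C L a (n + i) + l * (2 * Real.pi * δ * L * L) := by
    refine (sum_le_sum h2).trans (le_of_eq ?_)
    rw [sum_add_distrib, sum_const, card_range, nsmul_eq_mul]
  have h6 : L * ‖∑ h ∈ Icc 1 l, f h‖ ≤
      L * ((∑ i ∈ range l, V C L a (n + i)) / L + 2 * Real.pi * δ * L * l + 2 * L) := by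
    have e : L * ((∑ i ∈ range l, V C L a (n + i)) / L + 2 * Real.pi * δ * L * l + 2 * L) =
        ∑ i ∈ range l, V C L a (n + i) + l * (2 * Real.pi * δ * L * L) + 2 * (L : ℝ) ^ 2 := by
      field_simp
    rw [e]
    linarith
  exact le_of_mul_le_mul_left h6 (by linarith)

/-! ### shifts of the logarithmic average -/

lemma shift_one' (W : ℕ → ℝ) {K : ℝ} (hW0 : ∀ n, 0 ≤ W n) (hW : ∀ n, W n ≤ K) (N : ℕ) :
    ∑ n ∈ Icc 1 N, (1 / (n : ℝ)) * W (n + 1) ≤ ∑ n ∈ Icc 1 N, (1 / (n : ℝ)) * W n +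
      (1 / ((N : ℝ) + 1)) * W (N + 1) + K * (1 - 1 / ((N : ℝ) + 1)) := by
  induction N with
  | zero => simpa using hW0 1
  | succ N ih =>
    rw [sum_Icc_succ_top (by omega), sum_Icc_succ_top (by omega)]
    push_cast
    have h1 : (1 / ((N : ℝ) + 1)) * W (N + 1 + 1) ≤ (1 / ((N : ℝ) + 1 + 1)) * W (N + 1 + 1) +
        K * (1 / ((N : ℝ) + 1) - 1 / ((N : ℝ) + 1 + 1)) := by
      have h2 : 0 ≤ 1 / ((N : ℝ) + 1) - 1 / ((N : ℝ) + 1 + 1) := by
        rw [sub_nonneg]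
        exact one_div_le_one_div_of_le (by positivity) (by linarith)
      nlinarith [hW (N + 1 + 1)]
    nlinarith

lemma shift_one (W : ℕ → ℝ) {K : ℝ} (hW0 : ∀ n, 0 ≤ W n) (hW : ∀ n, W n ≤ K) (N : ℕ) :
    ∑ n ∈ Icc 1 N, (1 / (n : ℝ)) * W (n + 1) ≤ ∑ n ∈ Icc 1 N, (1 / (n : ℝ)) * W n + K := by
  refine (shift_one' W hW0 hW N).trans ?_
  have h1 : (1 / ((N : ℝ) + 1)) * W (N + 1) ≤ (1 / ((N : ℝ) + 1)) * K :=
    mul_le_mul_of_nonneg_left (hW _) (by positivity)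
  nlinarith

lemma shift_many (W : ℕ → ℝ) {K : ℝ} (hW0 : ∀ n, 0 ≤ W n) (hW : ∀ n, W n ≤ K) (N i : ℕ) :
    ∑ n ∈ Icc 1 N, (1 / (n : ℝ)) * W (n + i) ≤ ∑ n ∈ Icc 1 N, (1 / (n : ℝ)) * W n + K * i := by
  induction i with
  | zero => simp
  | succ i ih =>
    have h1 := shift_one (fun n => W (n + i)) (fun n => hW0 _) (fun n => hW _) N
    have h2 : ∑ n ∈ Icc 1 N, (1 / (n : ℝ)) * W (n + (i + 1)) =
        ∑ n ∈ Icc 1 N, (1 / (n : ℝ)) * W (n + 1 + i) :=
      sum_congr rfl fun n _ => by congr 2; ring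
    rw [h2]
    push_cast
    linarith

lemma harm (N : ℕ) : ∑ n ∈ Icc 1 N, (1 / (n : ℝ)) ≤ 1 + Real.log N := by
  have h := harmonic_le_one_add_log N
  rw [harmonic_eq_sum_Icc] at h
  push_cast at h
  simpa only [one_div] using h

end S1x

open S1x

theorem rowS1 : S1_stmt := by
  intro T hc h0 hp ε hε
  obtain ⟨v, c, hv, hcc, C1, H₀, hmain⟩ := SS.smallSets PUnit 1 one_pos (fun _ => ⊤)
    antitone_const (fun _ _ => le_top) rfl (Subsingleton.elim _ _) ⊤ isClosed_univ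
    (fun _ => ⟨Set.univ, isCompact_univ, fun _ _ => Subgroup.mem_top _,
      fun x _ => ⟨x, Set.mem_univ _, 1, Subgroup.mem_top _, Subsingleton.elim _ _⟩⟩)
    (fun _ => 1) continuous_const (ε / 2) (by positivity)
  obtain ⟨R1, hR1, hvol⟩ := S2x.null_nbhd T hc h0 v hv
  obtain ⟨R, hR⟩ : ∃ R : ℝ, R = 2 * R1 := ⟨_, rfl⟩
  have hR1' : 0 < R1 := by linarith
  have hRp : 0 < R := by rw [hR]; linarith
  obtain ⟨C, hC⟩ : ∃ C : ℕ, C = max ⌊(C1 : ℝ) * R ^ C1⌋₊ 1 := ⟨_, rfl⟩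
  have hC1 : ⌊(C1 : ℝ) * R ^ C1⌋₊ ≤ C := by rw [hC]; exact le_max_left _ _
  have hCone : 1 ≤ C := by rw [hC]; exact le_max_right _ _
  refine ⟨1 / R, by positivity, C, fun L hL => ?_⟩
  have hL1 : (1 : ℝ) ≤ L := by exact_mod_cast hL
  obtain ⟨δ, hδ⟩ : ∃ δ : ℝ, δ = min (ε / (100 * L)) 1 := ⟨_, rfl⟩
  have hδ0 : 0 < δ := by rw [hδ]; exact lt_min (by positivity) one_pos
  have hδ1 : δ ≤ ε / (100 * L) := by rw [hδ]; exact min_le_left _ _
  obtain ⟨H₁, hH₁⟩ : ∃ H₁ : ℕ, ∀ H : ℕ, H₁ ≤ H → R / δ ≤ (H : ℝ) ^ c := by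
    have := (tendsto_rpow_atTop hcc).comp tendsto_natCast_atTop_atTop (α := ℕ)
    exact Filter.eventually_atTop.1 (this.eventually_ge_atTop (R / δ))
  obtain ⟨l, hl⟩ : ∃ l : ℕ, l = max (max H₀ H₁) (max ⌈100 * L / ε⌉₊ 1) := ⟨_, rfl⟩
  have hl0 : H₀ ≤ l := by rw [hl]; exact (le_max_left _ _).trans (le_max_left _ _)
  have hl1 : H₁ ≤ l := by rw [hl]; exact (le_max_right _ _).trans (le_max_left _ _)
  have hl2 : 100 * L / ε ≤ (l : ℝ) := by
    refine (Nat.le_ceil _).trans ?_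
    rw [hl]
    exact_mod_cast (le_max_left _ _).trans (le_max_right _ _)
  have hl3 : 1 ≤ l := by rw [hl]; exact (le_max_right _ _).trans (le_max_right _ _)
  have hl3' : (1 : ℝ) ≤ l := by exact_mod_cast hl3
  refine ⟨l, hl3, max l ⌈Real.exp (1 + 4 * C * l / ε)⌉₊, fun N hN a ha => ?_⟩
  obtain ⟨ha1, hmul⟩ := ha
  have hlN : l ≤ N := (le_max_left _ _).trans hN
  have hN2 : Real.exp (1 + 4 * C * l / ε) ≤ N :=
    (Nat.le_ceil _).trans (by exact_mod_cast (le_max_right _ _).trans hN)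
  have hN1 : (1 : ℝ) ≤ N := by exact_mod_cast hl3.trans hlN
  have hlog : 1 + 4 * C * l / ε ≤ Real.log N := by
    rw [Real.le_log_iff_exp_le (by linarith)]
    exact hN2
  have hlog1 : 1 ≤ Real.log N := by
    have : 0 ≤ 4 * (C : ℝ) * l / ε := by positivity
    linarith
  have key := hmain a ha1 hmul N l
    hl0 hlN R δ (by rw [hR]; linarith) hδ0
    (by rw [hδ]; exact min_le_right _ _) (hH₁ l hl1)
    (fun _ => {α | ∃ x ∈ T, |α - x| ≤ 1 / R}) (fun _ => by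
      refine le_trans (measure_mono ?_) hvol
      rintro y ⟨hy, α, ⟨x, hx, hxα⟩, b, hb⟩
      refine ⟨hy, x + ((-b : ℤ) : ℝ), hp x hx _, ?_⟩
      have h2 : 1 / R1 = 1 / R + 1 / R := by rw [hR]; field_simp; norm_num
      rw [h2]
      push_cast
      calc |x + -(b : ℝ) - y| = |-(α - x) + (α - y - b)| := by ring_nf
        _ ≤ |-(α - x)| + |α - y - b| := abs_add_le _ _
        _ ≤ _ := by rw [abs_neg]; linarith)
  beta_reduce at key
  -- the two parts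
  obtain ⟨GS, hGS⟩ : ∃ GS : ℕ → ℝ, GS = fun n => ⨆ i : {i : PUnit × PUnit × ℝ[X] //
      i ∈ SS.Index PUnit 1 {α | ∃ x ∈ T, |α - x| ≤ 1 / R} (C1 * R ^ C1) δ},
        ‖∑ h ∈ Finset.Icc 1 l, (1 : ℂ) *
          Complex.exp (2 * Real.pi * Complex.I * ((i.1.2.2.eval ((n + h : ℕ) : ℝ) : ℝ) : ℂ)) *
              a (n + h)‖ := ⟨_, rfl⟩
  have hGS0 : ∀ n, 0 ≤ GS n := fun n => by
    rw [hGS]
    exact Real.iSup_nonneg fun _ => norm_nonneg _
  obtain ⟨E, hE⟩ : ∃ E : ℝ, E = 2 * Real.pi * δ * L * l + 2 * L := ⟨_, rfl⟩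
  have hpi := Real.pi_pos
  have hE0 : 0 ≤ E := by rw [hE]; positivity
  have hFA : ∀ n, FA a 1 T (1 / R) l n ≤ GS n + ((∑ i ∈ range l, V C L a (n + i)) / L + E) := by
    intro n
    have hV0 : 0 ≤ (∑ i ∈ range l, V C L a (n + i)) / L :=
      div_nonneg (sum_nonneg fun _ _ => V_nonneg _ _ _ _) (by linarith)
    unfold FA
    refine Real.iSup_le ?_ (by linarith [hGS0 n])
    rintro ⟨P, hP, x, hx, hxP⟩
    by_cases hmaj : ∃ q : ℕ, 1 ≤ q ∧ (q : ℝ) ≤ C1 * R ^ C1 ∧ ∃ b : ℤ, |(q : ℝ) * P.coeff 1 - b| < δ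
    · obtain ⟨q, hq1, hq2, b, hb⟩ := hmaj
      have h1 := caseB ha1 (l := l) hL hq1 ((Nat.le_floor hq2).trans hC1) hP hb n
      rw [hE]
      linarith [hGS0 n]
    · push Not at hmaj
      have hmem : (((1 : PUnit), (1 : PUnit), taylor (-(n : ℝ)) P) : PUnit × PUnit × ℝ[X]) ∈
          SS.Index PUnit 1 {α | ∃ x ∈ T, |α - x| ≤ 1 / R} (C1 * R ^ C1) δ := by
        refine ⟨?_, ⟨P.coeff 1, ⟨x, hx, hxP⟩, 0, ?_⟩, ?_⟩
        · rw [natDegree_taylor]; exact hP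
        · rw [S2x.shift_coeff P 1 hP]; simp
        · intro q hq1 hq2 b
          simp only [S2x.shift_coeff P 1 hP]
          exact hmaj q hq1 hq2 b
      have hbdd : BddAbove (Set.range fun i : {i : PUnit × PUnit × ℝ[X] //
          i ∈ SS.Index PUnit 1 {α | ∃ x ∈ T, |α - x| ≤ 1 / R} (C1 * R ^ C1) δ} =>
            ‖∑ h ∈ Finset.Icc 1 l, (1 : ℂ) *
              Complex.exp (2 * Real.pi * Complex.I * ((i.1.2.2.eval ((n + h : ℕ) : ℝ) : ℝ) : ℂ)) *
                  a (n + h)‖) := by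
        refine ⟨l, ?_⟩
        rintro _ ⟨i, rfl⟩
        refine (norm_sum_le _ _).trans ?_
        refine (sum_le_card_nsmul _ _ 1 fun h _ => ?_).trans (by simp)
        rw [one_mul, norm_mul]
        refine mul_le_one₀ (norm_ee _).le (norm_nonneg _) (ha1 _)
      have h2 : ‖∑ h ∈ Icc 1 l, a (n + h) * ee (P.eval (h : ℝ))‖ ≤ GS n := by
        rw [hGS]
        refine le_trans (le_of_eq ?_) (le_ciSup hbdd ⟨_, hmem⟩)
        congr 1
        refine sum_congr rfl fun h _ => ?_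
        simp only [taylor_eval]
        rw [one_mul, mul_comm]
        congr 1
        rw [ee]
        congr 3
        push_cast
        ring_nf
      linarith
  -- the sum over the windows
  have hVK : ∀ n, V C L a n ≤ C * L := V_le C L ha1
  have hsumV : ∑ n ∈ Icc 1 N, (1 / (n : ℝ)) * ((∑ i ∈ range l, V C L a (n + i)) / L) ≤
      l * (AP C L N a / L) + C * (l : ℝ) ^ 2 := by
    have e1 : ∑ n ∈ Icc 1 N, (1 / (n : ℝ)) * ((∑ i ∈ range l, V C L a (n + i)) / L) =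
        (∑ i ∈ range l, ∑ n ∈ Icc 1 N, (1 / (n : ℝ)) * V C L a (n + i)) / L := by
      rw [sum_comm, sum_div]
      refine sum_congr rfl fun n _ => ?_
      rw [← mul_sum]
      ring
    rw [e1]
    have e2 : ∑ i ∈ range l, ∑ n ∈ Icc 1 N, (1 / (n : ℝ)) * V C L a (n + i) ≤
        l * (AP C L N a + C * L * l) := by
      refine (sum_le_card_nsmul _ _ (AP C L N a + C * L * l) fun i hi => ?_).trans ?_
      · refine (shift_many (V C L a) (V_nonneg C L a) hVK N i).trans ?_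
        have hi' : (i : ℝ) ≤ l := by exact_mod_cast (mem_range.1 hi).le
        have e3 : ∑ n ∈ Icc 1 N, (1 / (n : ℝ)) * V C L a n = AP C L N a := rfl
        rw [e3]
        gcongr
      · rw [card_range, nsmul_eq_mul]
    calc (∑ i ∈ range l, ∑ n ∈ Icc 1 N, (1 / (n : ℝ)) * V C L a (n + i)) / L
        ≤ (l * (AP C L N a + C * L * l)) / L := by gcongr
      _ = _ := by field_simp
  have hharm := harm N
  have hEl : E ≤ ε * l / 8 := by
    rw [hE]
    have h1 : 2 * Real.pi * δ * L * l ≤ 2 * Real.pi * (ε / (100 * L)) * L * l := by gcongr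
    have h2 : 2 * Real.pi * (ε / (100 * L)) * L * l = Real.pi / 50 * (ε * l) := by
      field_simp
      ring
    have h3 : Real.pi / 50 * (ε * l) ≤ 4 / 50 * (ε * l) := by
      have := Real.pi_le_four
      gcongr
    have h4 : 100 * (L : ℝ) ≤ ε * l := by
      rw [div_le_iff₀ hε] at hl2
      linarith
    linarith
  have hsumE : ∑ n ∈ Icc 1 N, (1 / (n : ℝ)) * E ≤ ε * l / 4 * Real.log N := by
    rw [← sum_mul]
    calc (∑ n ∈ Icc 1 N, (1 / (n : ℝ))) * E ≤ (1 + Real.log N) * (ε * l / 8) := by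
          have : 0 ≤ 1 + Real.log N := by linarith
          gcongr
      _ ≤ (2 * Real.log N) * (ε * l / 8) := by
          gcongr
          linarith
      _ = _ := by ring
  have hCl : (C : ℝ) * (l : ℝ) ^ 2 ≤ ε * l / 4 * Real.log N := by
    have h1 : 4 * C * l / ε ≤ Real.log N := by linarith
    rw [div_le_iff₀ hε] at h1
    nlinarith
  have hAP0 : 0 ≤ AP C L N a / L := by
    refine div_nonneg ?_ (by linarith)
    unfold AP
    exact sum_nonneg fun _ _ => mul_nonneg (by positivity)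
      (sum_nonneg fun _ _ => sum_nonneg fun _ _ => norm_nonneg _)
  have hCr : (1 : ℝ) ≤ C := by exact_mod_cast hCone
  have key' : ∑ n ∈ Icc 1 N, (1 / (n : ℝ)) * GS n ≤ ε / 2 * l * Real.log N := by
    rw [hGS]
    exact key
  calc ∑ n ∈ Icc 1 N, (1 / (n : ℝ)) * FA a 1 T (1 / R) l n
      ≤ ∑ n ∈ Icc 1 N, ((1 / (n : ℝ)) * GS n +
        ((1 / (n : ℝ)) * ((∑ i ∈ range l, V C L a (n + i)) / L) + (1 / (n : ℝ)) * E)) := by
        refine sum_le_sum fun n _ => ?_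
        rw [← mul_add, ← mul_add]
        exact mul_le_mul_of_nonneg_left (hFA n) (by positivity)
    _ = ∑ n ∈ Icc 1 N, (1 / (n : ℝ)) * GS n +
        (∑ n ∈ Icc 1 N, (1 / (n : ℝ)) * ((∑ i ∈ range l, V C L a (n + i)) / L) +
          ∑ n ∈ Icc 1 N, (1 / (n : ℝ)) * E) := by
        rw [sum_add_distrib, sum_add_distrib]
    _ ≤ ε / 2 * l * Real.log N + (l * (AP C L N a / L) + C * (l : ℝ) ^ 2 +
          ε * l / 4 * Real.log N) := by linarith
    _ ≤ (ε * Real.log N + C * AP C L N a / L) * l := by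
        have h1 : l * (AP C L N a / L) ≤ C * (l * (AP C L N a / L)) :=
          le_mul_of_one_le_left (by positivity) hCr
        have h2 : (ε * Real.log N + C * AP C L N a / L) * l =
            ε * l * Real.log N + C * (l * (AP C L N a / L)) := by ring
        rw [h2]
        linarith

end Pool.Agent.UD
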