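import Pool.Agent.Lib.UD95.Defs
import Pool.Agent.Lib.TU.SS
import Pool.Agent.Lib.TU.S2

/-!
# UD, row S2: degree at least two, general multiplicative functions (helper16)
-/

set_option autoImplicit false
open Finset Polynomial MeasureTheory

namespace Pool.Agent.UD

open Pool.Agent.Lib.MP_663568_nt Pool.Agent.Lib.MP_663568_nt.Katai
  Pool.Agent.Lib.MP_663568_nt.Nul Pool.Agent.TU Pool.Agent.TU.S2x

theorem rowS2 : S2_stmt := by
  intro s hs T hc h0 hp hi ε hε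
  obtain ⟨v, c, hv, hcc, C, H₀, hmain⟩ := SS.smallSets PUnit s (by omega) (fun _ => ⊤)
    antitone_const (fun _ _ => le_top) rfl (Subsingleton.elim _ _) ⊤ isClosed_univ
    (fun _ => ⟨Set.univ, isCompact_univ, fun _ _ => Subgroup.mem_top _,
      fun x _ => ⟨x, Set.mem_univ _, 1, Subgroup.mem_top _, Subsingleton.elim _ _⟩⟩)
    (fun _ => 1) continuous_const ε hε
  obtain ⟨R1, hR1, hvol⟩ := null_nbhd T hc h0 v hv
  obtain ⟨R, hR⟩ : ∃ R : ℝ, R = 2 * R1 := ⟨_, rfl⟩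
  have hR1' : 0 < R1 := by linarith
  have hRp : 0 < R := by rw [hR]; linarith
  obtain ⟨d, hd, hfar⟩ := far_rat T hc hp hi ⌊(C : ℝ) * R ^ C⌋₊
  obtain ⟨δ, hδ⟩ : ∃ δ : ℝ, δ = min (d / 2) 1 := ⟨_, rfl⟩
  have hδ0 : 0 < δ := by rw [hδ]; exact lt_min (by linarith) one_pos
  obtain ⟨H₁, hH₁⟩ : ∃ H₁ : ℕ, ∀ H : ℕ, H₁ ≤ H → R / δ ≤ (H : ℝ) ^ c := by
    have := (tendsto_rpow_atTop hcc).comp tendsto_natCast_atTop_atTop (α := ℕ)
    exact Filter.eventually_atTop.1 (this.eventually_ge_atTop (R / δ))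
  obtain ⟨l, hl⟩ : ∃ l : ℕ, l = max (max H₀ H₁) 1 := ⟨_, rfl⟩
  have hl0 : H₀ ≤ l := by rw [hl]; exact (le_max_left _ _).trans (le_max_left _ _)
  have hl1 : H₁ ≤ l := by rw [hl]; exact (le_max_right _ _).trans (le_max_left _ _)
  refine ⟨min (1 / R) (d / 2), lt_min (by positivity) (by linarith), l,
    by rw [hl]; exact le_max_right _ _, l, fun N hlN a ha => ?_⟩
  obtain ⟨ha1, hmul⟩ := ha
  set ρ := min (1 / R) (d / 2) with hρ
  have key := hmain a ha1 hmul N l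
    hl0 hlN R δ (by rw [hR]; linarith) hδ0
    (by rw [hδ]; exact min_le_right _ _) (hH₁ l hl1)
    (fun _ => {α | ∃ x ∈ T, |α - x| ≤ ρ}) (fun _ => by
      refine le_trans (measure_mono ?_) hvol
      rintro y ⟨hy, α, ⟨x, hx, hxα⟩, b, hb⟩
      refine ⟨hy, x + ((-b : ℤ) : ℝ), hp x hx _, ?_⟩
      have h1 : |α - x| ≤ 1 / R := hxα.trans (min_le_left _ _)
      have h2 : 1 / R1 = 1 / R + 1 / R := by rw [hR]; field_simp; norm_num
      rw [h2]
      push_cast
      calc |x + -(b : ℝ) - y| = |-(α - x) + (α - y - b)| := by ring_nf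
        _ ≤ |-(α - x)| + |α - y - b| := abs_add_le _ _
        _ ≤ _ := by rw [abs_neg]; linarith)
  have hring : ε * Real.log N * (l : ℝ) = ε * (l : ℝ) * Real.log N := by ring
  rw [hring]
  refine le_trans (sum_le_sum fun n hn => mul_le_mul_of_nonneg_left ?_ (by positivity)) key
  unfold FA
  refine Real.iSup_le ?_ (Real.iSup_nonneg fun _ => norm_nonneg _)
  rintro ⟨P, hP, x, hx, hxP⟩
  have hmem : (((1 : PUnit), (1 : PUnit), taylor (-(n : ℝ)) P) : PUnit × PUnit × ℝ[X]) ∈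
      SS.Index PUnit s {α | ∃ x ∈ T, |α - x| ≤ ρ} (C * R ^ C) δ := by
    refine ⟨?_, ⟨P.coeff s, ⟨x, hx, hxP⟩, 0, ?_⟩, ?_⟩
    · rw [natDegree_taylor]; exact hP
    · rw [shift_coeff P s hP]; simp
    · intro q hq1 hq2 b
      simp only [shift_coeff P s hP]
      have h1 := hfar q hq1 (Nat.le_floor hq2) b x hx
      have h2 : |P.coeff s - x| ≤ d / 2 := hxP.trans (min_le_right _ _)
      have hq : (1 : ℝ) ≤ q := by exact_mod_cast hq1
      have h3 : d / 2 ≤ |P.coeff s - (b : ℝ) / q| := by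
        have := abs_sub_abs_le_abs_sub (x - (b : ℝ) / q) (x - P.coeff s)
        have e1 : x - (b : ℝ) / q - (x - P.coeff s) = P.coeff s - (b : ℝ) / q := by ring
        rw [e1, abs_sub_comm x (P.coeff s)] at this
        linarith
      have h4 : (q : ℝ) * P.coeff s - b = q * (P.coeff s - (b : ℝ) / q) := by
        field_simp
      rw [h4, abs_mul, abs_of_pos (by linarith : (0 : ℝ) < q)]
      calc δ ≤ d / 2 := by rw [hδ]; exact min_le_left _ _
        _ ≤ |P.coeff s - (b : ℝ) / q| := h3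
        _ ≤ _ := le_mul_of_one_le_left (abs_nonneg _) hq
  have hbdd : BddAbove (Set.range fun i : {i : PUnit × PUnit × ℝ[X] //
      i ∈ SS.Index PUnit s {α | ∃ x ∈ T, |α - x| ≤ ρ} (C * R ^ C) δ} =>
        ‖∑ h ∈ Finset.Icc 1 l, (1 : ℂ) *
          Complex.exp (2 * Real.pi * Complex.I * ((i.1.2.2.eval ((n + h : ℕ) : ℝ) : ℝ) : ℂ)) *
              a (n + h)‖) := by
    refine ⟨l, ?_⟩
    rintro _ ⟨i, rfl⟩
    refine (norm_sum_le _ _).trans ?_
    refine (sum_le_card_nsmul _ _ 1 fun h _ => ?_).trans (by simp)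
    rw [one_mul, norm_mul]
    refine mul_le_one₀ (norm_ee _).le (norm_nonneg _) (ha1 _)
  refine le_trans (le_of_eq ?_) (le_ciSup hbdd ⟨_, hmem⟩)
  congr 1
  refine sum_congr rfl fun h _ => ?_
  simp only [taylor_eval]
  rw [one_mul, mul_comm]
  congr 1
  rw [ee]
  congr 3
  push_cast
  ring_nf

end Pool.Agent.UD
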