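import Pool.Agent.Lib.UD95.Defs2
import Pool.Agent.Lib.UD95.S1
import Pool.Agent.Lib.TUK.E5

/-!
# UD, row S3: degree `σ + 1 ≥ 2`, rational numbers allowed (helper46)
-/

set_option autoImplicit false
open Finset Polynomial MeasureTheory

namespace Pool.Agent.UD

open Pool.Agent.Lib.MP_663568_nt Pool.Agent.Lib.MP_663568_nt.Katai
  Pool.Agent.Lib.MP_663568_nt.Nul Pool.Agent.TU

namespace S3x

lemma UW_one (σ L : ℕ) (a : ℕ → ℂ) (n : ℕ) :
    UW σ 1 L a n = ⨆ α : Fin σ → ℝ, ‖∑ h ∈ Icc 1 L, a (n + h) * ee (ph α (h : ℝ))‖ := by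
  unfold UW
  rw [Icc_self, sum_singleton, sum_range_one]
  congr 1
  funext α
  congr 1
  rw [filter_true_of_mem]
  intro h _
  exact Nat.mod_one _

lemma bdd (σ L : ℕ) {a : ℕ → ℂ} (ha : ∀ n, ‖a n‖ ≤ 1) (n : ℕ) : BddAbove (Set.range
    fun α : Fin σ → ℝ => ‖∑ h ∈ Icc 1 L, a (n + h) * ee (ph α (h : ℝ))‖) := by
  refine ⟨L, ?_⟩
  rintro _ ⟨α, rfl⟩
  refine (norm_sum_le _ _).trans ?_
  refine (sum_le_card_nsmul _ _ 1 fun h _ => ?_).trans (by simp)
  rw [norm_mul, norm_ee, mul_one]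
  exact ha _

lemma UW_nonneg (σ L : ℕ) (a : ℕ → ℂ) (n : ℕ) : 0 ≤ UW σ 1 L a n := by
  rw [UW_one]
  exact Real.iSup_nonneg fun _ => norm_nonneg _

lemma UW_le (σ L : ℕ) {a : ℕ → ℂ} (ha : ∀ n, ‖a n‖ ≤ 1) (n : ℕ) : UW σ 1 L a n ≤ L := by
  rw [UW_one]
  refine Real.iSup_le (fun α => ?_) (Nat.cast_nonneg _)
  refine (norm_sum_le _ _).trans ?_
  refine (sum_le_card_nsmul _ _ 1 fun h _ => ?_).trans (by simp)
  rw [norm_mul, norm_ee, mul_one]
  exact ha _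

lemma le_UW {σ : ℕ} (L : ℕ) {a : ℕ → ℂ} (ha : ∀ n, ‖a n‖ ≤ 1) (n : ℕ) {Q : ℝ[X]}
    (hQ : Q.natDegree ≤ σ) :
    ‖∑ h ∈ Icc 1 L, a (n + h) * ee (Q.eval (h : ℝ))‖ ≤ UW σ 1 L a n := by
  rw [UW_one]
  refine le_trans (le_of_eq ?_) (le_ciSup (bdd σ L ha n) fun i => Q.coeff (i.val + 1))
  have h1 : ∀ x : ℝ, Q.eval x = ph (fun i : Fin σ => Q.coeff (i.val + 1)) x + Q.coeff 0 := by
    intro x
    rw [eval_eq_sum_range' (n := σ + 1) (by omega), sum_range_succ', pow_zero, mul_one]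
    congr 1
    unfold TU.ph
    rw [Fin.sum_univ_eq_sum_range (fun i => Q.coeff (i + 1) * x ^ (i + 1)) σ]
  have h2 : ∑ h ∈ Icc 1 L, a (n + h) * ee (Q.eval (h : ℝ)) =
      (∑ h ∈ Icc 1 L, a (n + h) * ee (ph (fun i : Fin σ => Q.coeff (i.val + 1)) (h : ℝ))) *
        ee (Q.coeff 0) := by
    rw [sum_mul]
    refine sum_congr rfl fun h _ => ?_
    rw [h1, ee_add]
    ring
  rw [h2, norm_mul, norm_ee, mul_one]

/-- the major arcs -/
theorem caseB {a : ℕ → ℂ} (ha : ∀ n, ‖a n‖ ≤ 1) {σ L l q : ℕ} (hσ : 1 ≤ σ) (hL : 1 ≤ L)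
    (hq : 1 ≤ q) {δ : ℝ} {P : ℝ[X]} (hP : P.natDegree ≤ σ + 1) {b : ℤ}
    (hb : |(q : ℝ) * P.coeff (σ + 1) - b| < δ) (n : ℕ) :
    ‖∑ h ∈ Icc 1 l, a (n + h) * ee (P.eval (h : ℝ))‖ ≤
      (∑ i ∈ range l, q * UW σ 1 L a (n + i)) / L + 2 * Real.pi * δ * (L : ℝ) ^ (σ + 1) * l +
        2 * L := by
  obtain ⟨α, hα⟩ : ∃ α, α = P.coeff (σ + 1) := ⟨_, rfl⟩
  rw [← hα] at hb
  have hq1 : (1 : ℝ) ≤ q := by exact_mod_cast hq
  have hq0 : (0 : ℝ) < q := by linarith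
  have hδ : 0 < δ := lt_of_le_of_lt (abs_nonneg _) hb
  have hL1 : (1 : ℝ) ≤ L := by exact_mod_cast hL
  have hpi := Real.pi_pos
  obtain ⟨θ, hθ⟩ : ∃ θ, θ = α - b / q := ⟨_, rfl⟩
  have hθ1 : |θ| ≤ δ := by
    have h1 : (q : ℝ) * α - b = q * θ := by rw [hθ]; field_simp
    rw [h1, abs_mul, abs_of_pos hq0] at hb
    nlinarith [abs_nonneg θ]
  set f : ℕ → ℂ := fun h => a (n + h) * ee (P.eval (h : ℝ)) with hf
  have hf1 : ∀ m, ‖f m‖ ≤ 1 := fun m => by
    rw [hf]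
    beta_reduce
    rw [norm_mul, norm_ee, mul_one]
    exact ha _
  have h1 := S1x.win_diff f hf1 l L
  obtain ⟨c, hc1, hc2⟩ := TUK.RE5.fourierB q hq
    (fun h => ee ((b : ℝ) / q * (h : ℝ) ^ (σ + 1)))
    (fun h => TUK.RE5.per_pow q (σ + 1) hq b h) (fun h => (norm_ee _).le)
  have h2 : ∀ i ∈ range l, ‖∑ j ∈ Icc 1 L, f (i + j)‖ ≤
      q * UW σ 1 L a (n + i) + 2 * Real.pi * δ * (L : ℝ) ^ (σ + 1) * L := by
    intro i _
    obtain ⟨P1, hP1⟩ : ∃ P1 : ℝ[X], P1 = taylor (i : ℝ) P - C α * X ^ (σ + 1) := ⟨_, rfl⟩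
    have hP1d : P1.natDegree ≤ σ := by
      rw [natDegree_le_iff_coeff_eq_zero]
      intro k hk
      rw [hP1, coeff_sub, coeff_C_mul, coeff_X_pow]
      rcases Nat.lt_or_ge (σ + 1) k with h | h
      · rw [if_neg (by omega), mul_zero, sub_zero, coeff_eq_zero_of_natDegree_lt]
        rw [natDegree_taylor]
        omega
      · have e : k = σ + 1 := by omega
        rw [if_pos e, e, S2x.shift_coeff P (σ + 1) hP, mul_one, ← hα, sub_self]
    have e1 : ∀ j : ℕ, f (i + j) =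
        (∑ r ∈ range q, c r * (a (n + i + j) * ee ((P1 + C ((r : ℝ) / q) * X).eval (j : ℝ)))) +
          a (n + i + j) * ee (P1.eval (j : ℝ)) * ee ((b : ℝ) / q * (j : ℝ) ^ (σ + 1)) *
            (ee (θ * (j : ℝ) ^ (σ + 1)) - 1) := by
      intro j
      have e2 : P.eval ((i + j : ℕ) : ℝ) = P1.eval (j : ℝ) +
          ((b : ℝ) / q * (j : ℝ) ^ (σ + 1) + θ * (j : ℝ) ^ (σ + 1)) := by
        rw [hP1, hθ, eval_sub, taylor_eval]
        simp only [eval_mul, eval_C, eval_pow, eval_X]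
        push_cast
        ring_nf
      have e3 : n + (i + j) = n + i + j := by ring
      change a (n + (i + j)) * ee (P.eval ((i + j : ℕ) : ℝ)) = _
      have e4 : ∑ r ∈ range q, c r * (a (n + i + j) *
          ee ((P1 + C ((r : ℝ) / q) * X).eval (j : ℝ))) =
          a (n + i + j) * ee (P1.eval (j : ℝ)) * ee ((b : ℝ) / q * (j : ℝ) ^ (σ + 1)) := by
        have h := hc2 j
        beta_reduce at h
        rw [h, mul_sum]
        refine sum_congr rfl fun r _ => ?_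
        have e5 : (P1 + C ((r : ℝ) / q) * X).eval (j : ℝ) = P1.eval (j : ℝ) +
            (r : ℝ) * ((j : ℝ) / q) := by
          simp only [eval_add, eval_mul, eval_C, eval_X]
          ring
        rw [e5, ee_add]
        ring
      rw [e4, e2, e3, ee_add, ee_add]
      ring
    rw [sum_congr rfl fun j _ => e1 j, sum_add_distrib]
    refine (norm_add_le _ _).trans (add_le_add ?_ ?_)
    · rw [sum_comm]
      refine (norm_sum_le _ _).trans ?_
      refine (sum_le_card_nsmul _ _ (UW σ 1 L a (n + i)) fun r _ => ?_).trans (le_of_eq ?_)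
      · rw [← mul_sum, norm_mul]
        have h3 := le_UW L ha (n + i) (Q := P1 + C ((r : ℝ) / q) * X) (by
          refine (natDegree_add_le _ _).trans (max_le hP1d ?_)
          exact ((natDegree_C_mul_le _ _).trans natDegree_X_le).trans hσ)
        calc ‖c r‖ * _ ≤ 1 * UW σ 1 L a (n + i) :=
              mul_le_mul (hc1 r) h3 (norm_nonneg _) zero_le_one
          _ = _ := one_mul _
      · rw [card_range, nsmul_eq_mul]
    · refine (norm_sum_le _ _).trans ?_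
      refine (sum_le_card_nsmul _ _ (2 * Real.pi * δ * (L : ℝ) ^ (σ + 1)) fun j hj => ?_).trans
        (le_of_eq ?_)
      · rw [norm_mul, norm_mul, norm_mul, norm_ee, norm_ee, mul_one, mul_one]
        have h4 := TUK.RE5.norm_ee_sub_one (θ * (j : ℝ) ^ (σ + 1))
        have hj1 : (j : ℝ) ≤ L := by exact_mod_cast (mem_Icc.1 hj).2
        have h5 : |θ * (j : ℝ) ^ (σ + 1)| ≤ δ * (L : ℝ) ^ (σ + 1) := by
          rw [abs_mul, abs_pow, Nat.abs_cast]
          gcongr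
        calc ‖a (n + i + j)‖ * ‖ee (θ * (j : ℝ) ^ (σ + 1)) - 1‖
            ≤ 1 * (2 * Real.pi * (δ * (L : ℝ) ^ (σ + 1))) := by
              refine mul_le_mul (ha _) (h4.trans ?_) (norm_nonneg _) zero_le_one
              gcongr
          _ = _ := by ring
      · rw [Nat.card_Icc, Nat.add_sub_cancel, nsmul_eq_mul]
        ring
  have h3 : ∑ i ∈ range l, ‖∑ j ∈ Icc 1 L, f (i + j)‖ ≤
      ∑ i ∈ range l, q * UW σ 1 L a (n + i) + l * (2 * Real.pi * δ * (L : ℝ) ^ (σ + 1) * L) := by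
    refine (sum_le_sum h2).trans (le_of_eq ?_)
    rw [sum_add_distrib, sum_const, card_range, nsmul_eq_mul]
  have h6 : L * ‖∑ h ∈ Icc 1 l, f h‖ ≤
      L * ((∑ i ∈ range l, q * UW σ 1 L a (n + i)) / L +
        2 * Real.pi * δ * (L : ℝ) ^ (σ + 1) * l + 2 * L) := by
    have e : L * ((∑ i ∈ range l, q * UW σ 1 L a (n + i)) / L +
        2 * Real.pi * δ * (L : ℝ) ^ (σ + 1) * l + 2 * L) =
        ∑ i ∈ range l, q * UW σ 1 L a (n + i) + l * (2 * Real.pi * δ * (L : ℝ) ^ (σ + 1) * L) +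
          2 * (L : ℝ) ^ 2 := by
      field_simp
    rw [e]
    linarith
  exact le_of_mul_le_mul_left h6 (by linarith)

end S3x

open S1x S3x

theorem rowS3 : S3_stmt := by
  intro σ hσ T hc h0 hp ε hε
  obtain ⟨v, c, hv, hcc, C1, H₀, hmain⟩ := SS.smallSets PUnit (σ + 1) (by omega) (fun _ => ⊤)
    antitone_const (fun _ _ => le_top) rfl (Subsingleton.elim _ _) ⊤ isClosed_univ
    (fun _ => ⟨Set.univ, isCompact_univ, fun _ _ => Subgroup.mem_top _,
      fun x _ => ⟨x, Set.mem_univ _, 1, Subgroup.mem_top _, Subsingleton.elim _ _⟩⟩)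
    (fun _ => 1) continuous_const (ε / 2) (by positivity)
  obtain ⟨R1, hR1, hvol⟩ := S2x.null_nbhd T hc h0 v hv
  obtain ⟨R, hR⟩ : ∃ R : ℝ, R = 2 * R1 := ⟨_, rfl⟩
  have hR1' : 0 < R1 := by linarith
  have hRp : 0 < R := by rw [hR]; linarith
  obtain ⟨C, hC⟩ : ∃ C : ℕ, C = max ⌊(C1 : ℝ) * R ^ C1⌋₊ 1 := ⟨_, rfl⟩
  have hC1 : ⌊(C1 : ℝ) * R ^ C1⌋₊ ≤ C := by rw [hC]; exact le_max_left _ _
  have hCone : 1 ≤ C := by rw [hC]; exact le_max_right _ _
  refine ⟨1 / R, by positivity, C, fun L hL => ?_⟩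
  have hL1 : (1 : ℝ) ≤ L := by exact_mod_cast hL
  have hLp : (1 : ℝ) ≤ (L : ℝ) ^ (σ + 1) := one_le_pow₀ hL1
  obtain ⟨δ, hδ⟩ : ∃ δ : ℝ, δ = min (ε / (100 * (L : ℝ) ^ (σ + 1))) 1 := ⟨_, rfl⟩
  have hδ0 : 0 < δ := by rw [hδ]; exact lt_min (by positivity) one_pos
  have hδ1 : δ ≤ ε / (100 * (L : ℝ) ^ (σ + 1)) := by rw [hδ]; exact min_le_left _ _
  obtain ⟨H₁, hH₁⟩ : ∃ H₁ : ℕ, ∀ H : ℕ, H₁ ≤ H → R / δ ≤ (H : ℝ) ^ c := by
    have := (tendsto_rpow_atTop hcc).comp tendsto_natCast_atTop_atTop (α := ℕ)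
    exact Filter.eventually_atTop.1 (this.eventually_ge_atTop (R / δ))
  obtain ⟨l, hl⟩ : ∃ l : ℕ, l = max (max H₀ H₁) (max ⌈100 * L / ε⌉₊ 1) := ⟨_, rfl⟩
  have hl0 : H₀ ≤ l := by rw [hl]; exact (le_max_left _ _).trans (le_max_left _ _)
  have hl1 : H₁ ≤ l := by rw [hl]; exact (le_max_right _ _).trans (le_max_left _ _)
  have hl2 : 100 * L / ε ≤ (l : ℝ) := by
    refine (Nat.le_ceil _).trans ?_
    rw [hl]
    exact_mod_cast (le_max_left _ _).trans (le_max_right _ _)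
  have hl3 : 1 ≤ l := by rw [hl]; exact (le_max_right _ _).trans (le_max_right _ _)
  have hl3' : (1 : ℝ) ≤ l := by exact_mod_cast hl3
  refine ⟨l, hl3, max l ⌈Real.exp (1 + 4 * C * l / ε)⌉₊, fun N hN a ha => ?_⟩
  obtain ⟨ha1, hmul⟩ := ha
  have hlN : l ≤ N := (le_max_left _ _).trans hN
  have hN2 : Real.exp (1 + 4 * C * l / ε) ≤ N :=
    (Nat.le_ceil _).trans (by exact_mod_cast (le_max_right _ _).trans hN)
  have hN1 : (1 : ℝ) ≤ N := by exact_mod_cast hl3.trans hlN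
  have hlog : 1 + 4 * C * l / ε ≤ Real.log N := by
    rw [Real.le_log_iff_exp_le (by linarith)]
    exact hN2
  have hlog1 : 1 ≤ Real.log N := by
    have : 0 ≤ 4 * (C : ℝ) * l / ε := by positivity
    linarith
  have key := hmain a ha1 hmul N l
    hl0 hlN R δ (by rw [hR]; linarith) hδ0
    (by rw [hδ]; exact min_le_right _ _) (hH₁ l hl1)
    (fun _ => {α | ∃ x ∈ T, |α - x| ≤ 1 / R}) (fun _ => by
      refine le_trans (measure_mono ?_) hvol
      rintro y ⟨hy, α, ⟨x, hx, hxα⟩, b, hb⟩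
      refine ⟨hy, x + ((-b : ℤ) : ℝ), hp x hx _, ?_⟩
      have h2 : 1 / R1 = 1 / R + 1 / R := by rw [hR]; field_simp; norm_num
      rw [h2]
      push_cast
      calc |x + -(b : ℝ) - y| = |-(α - x) + (α - y - b)| := by ring_nf
        _ ≤ |-(α - x)| + |α - y - b| := abs_add_le _ _
        _ ≤ _ := by rw [abs_neg]; linarith)
  beta_reduce at key
  -- the two parts
  obtain ⟨GS, hGS⟩ : ∃ GS : ℕ → ℝ, GS = fun n => ⨆ i : {i : PUnit × PUnit × ℝ[X] //
      i ∈ SS.Index PUnit (σ + 1) {α | ∃ x ∈ T, |α - x| ≤ 1 / R} (C1 * R ^ C1) δ},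
        ‖∑ h ∈ Finset.Icc 1 l, (1 : ℂ) *
          Complex.exp (2 * Real.pi * Complex.I * ((i.1.2.2.eval ((n + h : ℕ) : ℝ) : ℝ) : ℂ)) *
              a (n + h)‖ := ⟨_, rfl⟩
  have hGS0 : ∀ n, 0 ≤ GS n := fun n => by
    rw [hGS]
    exact Real.iSup_nonneg fun _ => norm_nonneg _
  obtain ⟨E, hE⟩ : ∃ E : ℝ, E = 2 * Real.pi * δ * (L : ℝ) ^ (σ + 1) * l + 2 * L := ⟨_, rfl⟩
  have hpi := Real.pi_pos
  have hE0 : 0 ≤ E := by rw [hE]; positivity
  have hFA : ∀ n, FA a (σ + 1) T (1 / R) l n ≤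
      GS n + ((∑ i ∈ range l, C * UW σ 1 L a (n + i)) / L + E) := by
    intro n
    have hV0 : 0 ≤ (∑ i ∈ range l, C * UW σ 1 L a (n + i)) / L :=
      div_nonneg (sum_nonneg fun _ _ => mul_nonneg (Nat.cast_nonneg _) (UW_nonneg _ _ _ _))
        (by linarith)
    unfold FA
    refine Real.iSup_le ?_ (by linarith [hGS0 n])
    rintro ⟨P, hP, x, hx, hxP⟩
    by_cases hmaj : ∃ q : ℕ, 1 ≤ q ∧ (q : ℝ) ≤ C1 * R ^ C1 ∧
        ∃ b : ℤ, |(q : ℝ) * P.coeff (σ + 1) - b| < δ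
    · obtain ⟨q, hq1, hq2, b, hb⟩ := hmaj
      have h1 := S3x.caseB ha1 (l := l) hσ hL hq1 hP hb n
      have hqC : (q : ℝ) ≤ C := by exact_mod_cast (Nat.le_floor hq2).trans hC1
      have h2 : (∑ i ∈ range l, q * UW σ 1 L a (n + i)) / (L : ℝ) ≤
          (∑ i ∈ range l, C * UW σ 1 L a (n + i)) / L := by
        refine div_le_div_of_nonneg_right (sum_le_sum fun i _ => ?_) (by linarith)
        exact mul_le_mul_of_nonneg_right hqC (UW_nonneg _ _ _ _)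
      rw [hE]
      linarith [hGS0 n]
    · push Not at hmaj
      have hmem : (((1 : PUnit), (1 : PUnit), taylor (-(n : ℝ)) P) : PUnit × PUnit × ℝ[X]) ∈
          SS.Index PUnit (σ + 1) {α | ∃ x ∈ T, |α - x| ≤ 1 / R} (C1 * R ^ C1) δ := by
        refine ⟨?_, ⟨P.coeff (σ + 1), ⟨x, hx, hxP⟩, 0, ?_⟩, ?_⟩
        · rw [natDegree_taylor]; exact hP
        · rw [S2x.shift_coeff P (σ + 1) hP]; simp
        · intro q hq1 hq2 b
          simp only [S2x.shift_coeff P (σ + 1) hP]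
          exact hmaj q hq1 hq2 b
      have hbdd : BddAbove (Set.range fun i : {i : PUnit × PUnit × ℝ[X] //
          i ∈ SS.Index PUnit (σ + 1) {α | ∃ x ∈ T, |α - x| ≤ 1 / R} (C1 * R ^ C1) δ} =>
            ‖∑ h ∈ Finset.Icc 1 l, (1 : ℂ) *
              Complex.exp (2 * Real.pi * Complex.I * ((i.1.2.2.eval ((n + h : ℕ) : ℝ) : ℝ) : ℂ)) *
                  a (n + h)‖) := by
        refine ⟨l, ?_⟩
        rintro _ ⟨i, rfl⟩
        refine (norm_sum_le _ _).trans ?_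
        refine (sum_le_card_nsmul _ _ 1 fun h _ => ?_).trans (by simp)
        rw [one_mul, norm_mul]
        refine mul_le_one₀ (norm_ee _).le (norm_nonneg _) (ha1 _)
      have h2 : ‖∑ h ∈ Icc 1 l, a (n + h) * ee (P.eval (h : ℝ))‖ ≤ GS n := by
        rw [hGS]
        refine le_trans (le_of_eq ?_) (le_ciSup hbdd ⟨_, hmem⟩)
        congr 1
        refine sum_congr rfl fun h _ => ?_
        simp only [taylor_eval]
        rw [one_mul, mul_comm]
        congr 1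
        rw [ee]
        congr 3
        push_cast
        ring_nf
      linarith
  -- the sum over the windows
  have hVK : ∀ n, UW σ 1 L a n ≤ L := UW_le σ L ha1
  have hsumV : ∑ n ∈ Icc 1 N, (1 / (n : ℝ)) * ((∑ i ∈ range l, C * UW σ 1 L a (n + i)) / L) ≤
      l * (C * UU σ 1 L N a / L) + C * (l : ℝ) ^ 2 := by
    have e1 : ∑ n ∈ Icc 1 N, (1 / (n : ℝ)) * ((∑ i ∈ range l, C * UW σ 1 L a (n + i)) / L) =
        (C * ∑ i ∈ range l, ∑ n ∈ Icc 1 N, (1 / (n : ℝ)) * UW σ 1 L a (n + i)) / L := by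
      rw [sum_comm, mul_sum, sum_div]
      refine sum_congr rfl fun n _ => ?_
      rw [← mul_sum, ← mul_sum]
      ring
    rw [e1]
    have e2 : ∑ i ∈ range l, ∑ n ∈ Icc 1 N, (1 / (n : ℝ)) * UW σ 1 L a (n + i) ≤
        l * (UU σ 1 L N a + L * l) := by
      refine (sum_le_card_nsmul _ _ (UU σ 1 L N a + L * l) fun i hi => ?_).trans ?_
      · refine (shift_many (UW σ 1 L a) (UW_nonneg σ L a) hVK N i).trans ?_
        have hi' : (i : ℝ) ≤ l := by exact_mod_cast (mem_range.1 hi).le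
        have e3 : ∑ n ∈ Icc 1 N, (1 / (n : ℝ)) * UW σ 1 L a n = UU σ 1 L N a := rfl
        rw [e3]
        gcongr
      · rw [card_range, nsmul_eq_mul]
    calc (C * ∑ i ∈ range l, ∑ n ∈ Icc 1 N, (1 / (n : ℝ)) * UW σ 1 L a (n + i)) / L
        ≤ (C * (l * (UU σ 1 L N a + L * l))) / L := by gcongr
      _ = _ := by field_simp
  have hharm := harm N
  have hEl : E ≤ ε * l / 8 := by
    rw [hE]
    have h1 : 2 * Real.pi * δ * (L : ℝ) ^ (σ + 1) * l ≤
        2 * Real.pi * (ε / (100 * (L : ℝ) ^ (σ + 1))) * (L : ℝ) ^ (σ + 1) * l := by gcongr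
    have h2 : 2 * Real.pi * (ε / (100 * (L : ℝ) ^ (σ + 1))) * (L : ℝ) ^ (σ + 1) * l =
        Real.pi / 50 * (ε * l) := by
      field_simp
      ring
    have h3 : Real.pi / 50 * (ε * l) ≤ 4 / 50 * (ε * l) := by
      have := Real.pi_le_four
      gcongr
    have h4 : 100 * (L : ℝ) ≤ ε * l := by
      rw [div_le_iff₀ hε] at hl2
      linarith
    linarith
  have hsumE : ∑ n ∈ Icc 1 N, (1 / (n : ℝ)) * E ≤ ε * l / 4 * Real.log N := by
    rw [← sum_mul]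
    calc (∑ n ∈ Icc 1 N, (1 / (n : ℝ))) * E ≤ (1 + Real.log N) * (ε * l / 8) := by
          have : 0 ≤ 1 + Real.log N := by linarith
          gcongr
      _ ≤ (2 * Real.log N) * (ε * l / 8) := by
          gcongr
          linarith
      _ = _ := by ring
  have hCl : (C : ℝ) * (l : ℝ) ^ 2 ≤ ε * l / 4 * Real.log N := by
    have h1 : 4 * C * l / ε ≤ Real.log N := by linarith
    rw [div_le_iff₀ hε] at h1
    nlinarith
  have key' : ∑ n ∈ Icc 1 N, (1 / (n : ℝ)) * GS n ≤ ε / 2 * l * Real.log N := by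
    rw [hGS]
    exact key
  calc ∑ n ∈ Icc 1 N, (1 / (n : ℝ)) * FA a (σ + 1) T (1 / R) l n
      ≤ ∑ n ∈ Icc 1 N, ((1 / (n : ℝ)) * GS n +
        ((1 / (n : ℝ)) * ((∑ i ∈ range l, C * UW σ 1 L a (n + i)) / L) +
          (1 / (n : ℝ)) * E)) := by
        refine sum_le_sum fun n _ => ?_
        rw [← mul_add, ← mul_add]
        exact mul_le_mul_of_nonneg_left (hFA n) (by positivity)
    _ = ∑ n ∈ Icc 1 N, (1 / (n : ℝ)) * GS n +
        (∑ n ∈ Icc 1 N, (1 / (n : ℝ)) * ((∑ i ∈ range l, C * UW σ 1 L a (n + i)) / L) +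
          ∑ n ∈ Icc 1 N, (1 / (n : ℝ)) * E) := by
        rw [sum_add_distrib, sum_add_distrib]
    _ ≤ ε / 2 * l * Real.log N + (l * (C * UU σ 1 L N a / L) + C * (l : ℝ) ^ 2 +
          ε * l / 4 * Real.log N) := by linarith
    _ ≤ (ε * Real.log N + C * UU σ 1 L N a / L) * l := by
        have h2 : (ε * Real.log N + C * UU σ 1 L N a / L) * l =
            ε * l * Real.log N + l * (C * UU σ 1 L N a / L) := by ring
        rw [h2]
        linarith

end Pool.Agent.UD
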