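import Pool.Agent.Lib.UD95.Defs2
import Pool.Agent.Lib.MP_663568_t3.TVdc

/-!
# Row VDC: `σ` differences remove the polynomial phases of degree at most `σ`
-/

set_option autoImplicit false
open Finset Polynomial MeasureTheory

namespace Pool.Agent.UD

open Pool.Agent.Lib.MP_663568_nt Pool.Agent.Lib.MP_663568_nt.Katai
  Pool.Agent.Lib.MP_663568_nt.Nul Pool.Agent.TU

/-- The inequality of van der Corput. -/
theorem vdcI (u : ℕ → ℂ) (hu : ∀ n, ‖u n‖ ≤ 1) {R L : ℕ} (hR : 1 ≤ R) (hL : 1 ≤ L) :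
    (‖∑ l ∈ Icc 1 L, u l‖ / L) ^ 2 ≤ 1 / R + 6 * R / L +
      2 / R * ∑ j ∈ Icc 1 R, ‖∑ l ∈ Icc 1 L, u (l + j) * (starRingEnd ℂ) (u l)‖ / L := by
  have hR0 : (0 : ℝ) < R := by exact_mod_cast hR
  have hL0 : (0 : ℝ) < L := by exact_mod_cast hL
  -- the correlations
  set γ : ℕ → ℝ := fun r => ‖∑ l ∈ Icc 1 L, u (l + r) * (starRingEnd ℂ) (u l)‖ with hγ
  have hγ0 : ∀ r, 0 ≤ γ r := fun r => norm_nonneg _
  have hγL : ∀ r, γ r ≤ L := by
    intro r
    refine (norm_sum_le _ _).trans ?_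
    have : ∀ l ∈ Icc 1 L, ‖u (l + r) * (starRingEnd ℂ) (u l)‖ ≤ 1 := by
      intro l _
      rw [norm_mul, RCLike.norm_conj]
      exact mul_le_one₀ (hu _) (norm_nonneg _) (hu _)
    refine (Finset.sum_le_sum this).trans ?_
    simp
  have hcorr1 : ∀ a r : ℕ, ‖∑ l ∈ Icc 1 L, u (l + (a + r)) * (starRingEnd ℂ) (u (l + a))‖ ≤
      γ r + 2 * a := by
    intro a r
    have h1 := T3.vdc_shift (fun l => u (l + r) * (starRingEnd ℂ) (u l)) (fun n => by
      rw [norm_mul, RCLike.norm_conj]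
      exact mul_le_one₀ (hu _) (norm_nonneg _) (hu _)) L a
    have h2 : ∑ l ∈ Icc 1 L, u (l + (a + r)) * (starRingEnd ℂ) (u (l + a)) =
        (∑ l ∈ Icc 1 L, u (l + a + r) * (starRingEnd ℂ) (u (l + a)) -
          ∑ l ∈ Icc 1 L, u (l + r) * (starRingEnd ℂ) (u l)) +
          ∑ l ∈ Icc 1 L, u (l + r) * (starRingEnd ℂ) (u l) := by
      rw [sub_add_cancel]
      refine Finset.sum_congr rfl fun l _ => ?_
      rw [add_assoc]
    rw [h2]
    refine (norm_add_le _ _).trans ?_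
    linarith
  have hcorr : ∀ a b : ℕ, a < R → b < R →
      ‖∑ l ∈ Icc 1 L, u (l + a) * (starRingEnd ℂ) (u (l + b))‖ ≤
        γ ((a - b) + (b - a)) + 2 * R := by
    intro a b ha hb
    have haR : (a : ℝ) ≤ R := by exact_mod_cast ha.le
    have hbR : (b : ℝ) ≤ R := by exact_mod_cast hb.le
    rcases le_total b a with hab | hab
    · have h1 := hcorr1 b (a - b)
      have h2 : b + (a - b) = a := by omega
      have h3 : (a - b) + (b - a) = a - b := by omega
      rw [h2] at h1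
      rw [h3]
      linarith
    · have h1 := hcorr1 a (b - a)
      have h2 : a + (b - a) = b := by omega
      have h3 : (a - b) + (b - a) = b - a := by omega
      rw [h2] at h1
      rw [h3]
      have h4 : ‖∑ l ∈ Icc 1 L, u (l + a) * (starRingEnd ℂ) (u (l + b))‖ =
          ‖∑ l ∈ Icc 1 L, u (l + b) * (starRingEnd ℂ) (u (l + a))‖ := by
        rw [← RCLike.norm_conj, map_sum]
        congr 1
        refine Finset.sum_congr rfl fun l _ => ?_
        rw [map_mul, RCLike.conj_conj, mul_comm]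
      rw [h4]
      linarith
  set Γ : ℝ := ∑ j ∈ range R, γ (j + 1) with hΓ
  have hΓ0 : 0 ≤ Γ := sum_nonneg fun _ _ => hγ0 _
  set V : ℕ → ℂ := fun l => ∑ a ∈ range R, u (l + a) with hV
  -- second moment
  have hV2 : ∑ l ∈ Icc 1 L, ‖V l‖ ^ 2 ≤ R * (L + 2 * Γ + R * (2 * R)) := by
    have h1 : ∀ l, ((‖V l‖ ^ 2 : ℝ) : ℂ) =
        ∑ a ∈ range R, ∑ b ∈ range R, u (l + a) * (starRingEnd ℂ) (u (l + b)) := by
      intro l
      rw [Complex.ofReal_pow, ← Complex.mul_conj', hV]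
      simp only
      rw [map_sum, Finset.sum_mul_sum]
    have h2 : ((∑ l ∈ Icc 1 L, ‖V l‖ ^ 2 : ℝ) : ℂ) =
        ∑ a ∈ range R, ∑ b ∈ range R, ∑ l ∈ Icc 1 L, u (l + a) * (starRingEnd ℂ) (u (l + b)) := by
      rw [Complex.ofReal_sum, Finset.sum_congr rfl fun l _ => h1 l, Finset.sum_comm]
      refine Finset.sum_congr rfl fun a _ => ?_
      rw [Finset.sum_comm]
    have h3 : ∑ l ∈ Icc 1 L, ‖V l‖ ^ 2 = ‖((∑ l ∈ Icc 1 L, ‖V l‖ ^ 2 : ℝ) : ℂ)‖ := by
      rw [Complex.norm_real, Real.norm_of_nonneg (Finset.sum_nonneg fun _ _ => by positivity)]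
    rw [h3, h2]
    refine (norm_sum_le _ _).trans ?_
    have h4 : ∀ a ∈ range R, ‖∑ b ∈ range R, ∑ l ∈ Icc 1 L,
        u (l + a) * (starRingEnd ℂ) (u (l + b))‖ ≤ L + 2 * Γ + R * (2 * R) := by
      intro a ha
      have ha' := Finset.mem_range.mp ha
      refine (norm_sum_le _ _).trans ?_
      have h5 : ∑ b ∈ range R, ‖∑ l ∈ Icc 1 L, u (l + a) * (starRingEnd ℂ) (u (l + b))‖ ≤
          ∑ b ∈ range R, (γ ((a - b) + (b - a)) + 2 * R) :=
        Finset.sum_le_sum fun b hb => hcorr a b ha' (Finset.mem_range.mp hb)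
      rw [Finset.sum_add_distrib, Finset.sum_const, Finset.card_range, nsmul_eq_mul] at h5
      have h6 := T3.vdc_dist γ hγ0 R a ha'
      have h7 := hγL 0
      linarith
    refine (Finset.sum_le_sum h4).trans ?_
    rw [Finset.sum_const, Finset.card_range, nsmul_eq_mul]
  -- Cauchy
  have hcau : ‖∑ l ∈ Icc 1 L, V l‖ ^ 2 ≤ L * ∑ l ∈ Icc 1 L, ‖V l‖ ^ 2 := by
    have h1 : ‖∑ l ∈ Icc 1 L, V l‖ ^ 2 ≤ (∑ l ∈ Icc 1 L, ‖V l‖) ^ 2 :=
      pow_le_pow_left₀ (norm_nonneg _) (norm_sum_le _ _) 2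
    have h2 := sq_sum_le_card_mul_sum_sq (s := Icc 1 L) (f := fun l => ‖V l‖)
    simp only [Nat.card_Icc, add_tsub_cancel_right] at h2
    exact h1.trans h2
  have hVT : ‖(R : ℂ) * ∑ l ∈ Icc 1 L, u l‖ ≤ ‖∑ l ∈ Icc 1 L, V l‖ + R * (2 * R) := by
    have h1 : ∑ l ∈ Icc 1 L, V l = ∑ a ∈ range R, ∑ l ∈ Icc 1 L, u (l + a) := by
      rw [hV, Finset.sum_comm]
    have h2 : (R : ℂ) * ∑ l ∈ Icc 1 L, u l = ∑ l ∈ Icc 1 L, V l -
        ∑ a ∈ range R, (∑ l ∈ Icc 1 L, u (l + a) - ∑ l ∈ Icc 1 L, u l) := by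
      rw [Finset.sum_sub_distrib, ← h1, Finset.sum_const, Finset.card_range, nsmul_eq_mul]
      ring
    rw [h2]
    refine (norm_sub_le _ _).trans ?_
    have h3 : ‖∑ a ∈ range R, (∑ l ∈ Icc 1 L, u (l + a) - ∑ l ∈ Icc 1 L, u l)‖ ≤
        ∑ a ∈ range R, (2 * R : ℝ) := by
      refine (norm_sum_le _ _).trans (Finset.sum_le_sum fun a ha => ?_)
      have ha' : (a : ℝ) ≤ R := by exact_mod_cast (Finset.mem_range.mp ha).le
      exact (T3.vdc_shift u hu L a).trans (by linarith)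
    rw [Finset.sum_const, Finset.card_range, nsmul_eq_mul] at h3
    linarith
  rw [norm_mul, Complex.norm_natCast] at hVT
  -- conclusion
  set X := ‖∑ l ∈ Icc 1 L, V l‖ with hX
  have hX0 : 0 ≤ X := norm_nonneg _
  set q := ‖∑ l ∈ Icc 1 L, u l‖ / L with hq
  have hq0 : 0 ≤ q := by positivity
  have hq1 : q ≤ 1 := by
    rw [hq, div_le_one hL0]
    refine (norm_sum_le _ _).trans ((Finset.sum_le_sum fun l _ => hu l).trans ?_)
    simp
  set s := X / (R * L) with hs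
  have hs0 : 0 ≤ s := by positivity
  have hqs : q ≤ s + 2 * R / L := by
    have h1 : (R : ℝ) * (L * q) ≤ R * L * s + R * (2 * R) := by
      rw [hq, hs, mul_div_cancel₀ _ hL0.ne', mul_div_cancel₀ _ (by positivity)]
      exact hVT
    have h2 : (R : ℝ) * L * s + R * (2 * R) = R * (L * (s + 2 * R / L)) := by
      field_simp
    rw [h2] at h1
    exact le_of_mul_le_mul_left (le_of_mul_le_mul_left h1 hR0) hL0
  have hs2 : s ^ 2 ≤ 1 / R + 2 * R / L + 2 / R * (Γ / L) := by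
    have h1 : X ^ 2 ≤ L * (R * (L + 2 * Γ + R * (2 * R))) :=
      hcau.trans (mul_le_mul_of_nonneg_left hV2 hL0.le)
    rw [hs, div_pow, div_le_iff₀ (by positivity)]
    have h2 : (1 / (R : ℝ) + 2 * R / L + 2 / R * (Γ / L)) * (R * L) ^ 2 =
        L * (R * (L + 2 * Γ + R * (2 * R))) := by
      field_simp
      ring
    rw [h2]
    exact h1
  have hq2 : q ^ 2 ≤ s ^ 2 + 4 * R / L := by
    have hδ : 0 ≤ 2 * (R : ℝ) / L := by positivity
    have e1 : 4 * (R : ℝ) / L = 2 * (2 * R / L) := by ring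
    rw [e1]
    rcases le_total q s with h1 | h1
    · nlinarith
    · nlinarith
  have hΓ' : ∑ j ∈ Icc 1 R, γ j / L = Γ / L := by
    rw [hΓ, ← sum_div]
    congr 1
    rw [Finset.range_eq_Ico, Finset.sum_Ico_add' γ 0 R 1, zero_add]
    refine sum_congr ?_ fun _ _ => rfl
    ext j
    rw [mem_Icc, mem_Ico]
    omega
  rw [hΓ']
  have e2 : 1 / (R : ℝ) + 6 * R / L = 1 / R + 2 * R / L + 4 * R / L := by ring
  rw [e2]
  linarith

lemma natDegree_diff {P : ℝ[X]} {σ : ℕ} (h : P.natDegree ≤ σ + 1) (c : ℝ) :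
    (taylor c P - P).natDegree ≤ σ := by
  by_cases h0 : P.natDegree = 0
  · rw [eq_C_of_natDegree_eq_zero h0, taylor_C, sub_self, natDegree_zero]
    exact Nat.zero_le _
  · have hP : P ≠ 0 := fun hp => h0 (by rw [hp, natDegree_zero])
    by_cases hd : taylor c P - P = 0
    · rw [hd, natDegree_zero]
      exact Nat.zero_le _
    · have ht : taylor c P ≠ 0 := by
        intro ht
        apply hP
        rw [← leadingCoeff_eq_zero] at ht ⊢
        rwa [leadingCoeff_taylor] at ht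
      have h1 : (taylor c P - P).degree < (taylor c P).degree := by
        refine degree_sub_lt_left ?_ ht (leadingCoeff_taylor _ _)
        rw [degree_eq_natDegree ht, degree_eq_natDegree hP, natDegree_taylor]
      have h2 := natDegree_lt_natDegree hd h1
      rw [natDegree_taylor] at h2
      omega

lemma add_pow_le_two {a b : ℝ} (ha : 0 ≤ a) (hb : 0 ≤ b) (n : ℕ) :
    (a + b) ^ n ≤ 2 ^ n * a ^ n + 2 ^ n * b ^ n := by
  rw [← mul_pow, ← mul_pow]
  rcases le_total a b with h | h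
  · have h1 : (a + b) ^ n ≤ (2 * b) ^ n := pow_le_pow_left₀ (by positivity) (by linarith) n
    have h2 : 0 ≤ (2 * a) ^ n := by positivity
    linarith
  · have h1 : (a + b) ^ n ≤ (2 * a) ^ n := pow_le_pow_left₀ (by positivity) (by linarith) n
    have h2 : 0 ≤ (2 * b) ^ n := by positivity
    linarith

lemma norm_ee' (x : ℝ) : ‖ee x‖ = 1 := by
  unfold ee
  rw [show (2 * Real.pi * Complex.I * (x : ℝ) : ℂ) =
    ((2 * Real.pi * x : ℝ) : ℂ) * Complex.I by push_cast; ring]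
  exact Complex.norm_exp_ofReal_mul_I _

/-- The induction. -/
theorem vdc_all (σ : ℕ) : ∀ κ : ℝ, 0 < κ → ∃ K : ℕ, 1 ≤ K ∧ ∃ L₀ : ℕ, ∀ L : ℕ,
    L₀ ≤ L → ∀ x : ℕ → ℂ, (∀ n, ‖x n‖ ≤ 1) → ∀ P : ℝ[X], P.natDegree ≤ σ →
    (‖∑ h ∈ Icc 1 L, x h * ee (P.eval (h : ℝ))‖ / L) ^ (2 ^ σ) ≤
      κ + ∑ k ∈ Fintype.piFinset (fun _ : Fin σ => Icc 1 K),
        ‖∑ h ∈ Icc 1 L, Dif (List.ofFn k) x h‖ / L := by
  induction σ with
  | zero =>
    intro κ hκ
    refine ⟨1, le_rfl, 0, fun L _ x _ P hP => ?_⟩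
    have h1 : P = C (P.coeff 0) := eq_C_of_natDegree_le_zero hP
    have h2 : ∑ h ∈ Icc 1 L, x h * ee (P.eval (h : ℝ)) =
        (∑ h ∈ Icc 1 L, x h) * ee (P.coeff 0) := by
      rw [sum_mul]
      refine sum_congr rfl fun h _ => ?_
      rw [h1, eval_C, coeff_C_zero]
    rw [h2, norm_mul, norm_ee', mul_one, pow_zero, pow_one]
    have h3 : Fintype.piFinset (fun _ : Fin 0 => Icc 1 1) = {fun i => i.elim0} := by
      ext k
      rw [Fintype.mem_piFinset, mem_singleton]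
      exact ⟨fun _ => funext fun i => i.elim0, fun _ i => i.elim0⟩
    rw [h3, sum_singleton, List.ofFn_zero]
    simp only [Dif]
    linarith
  | succ σ ih =>
    intro κ hκ
    set p : ℕ := 2 ^ σ with hp
    have hp1 : 1 ≤ p := Nat.one_le_two_pow
    obtain ⟨K₂, hK₂, L₂, hL₂⟩ := ih (κ / (2 * 4 ^ p)) (by positivity)
    set R : ℕ := max (4 ^ p) ⌈4 * 2 ^ p / κ⌉₊ with hR
    have hR4 : 4 ^ p ≤ R := le_max_left _ _
    have hR1 : 1 ≤ R := (Nat.one_le_pow _ _ (by norm_num)).trans hR4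
    have hR0 : (0 : ℝ) < R := by exact_mod_cast hR1
    have hRκ : 4 * 2 ^ p / κ ≤ R := (Nat.le_ceil _).trans (Nat.cast_le.2 (le_max_right _ _))
    refine ⟨max R K₂, hR1.trans (le_max_left _ _), max (max L₂ 1) (max (12 * R)
      ⌈24 * R * 2 ^ p / κ⌉₊), fun L hL x hx P hP => ?_⟩
    have hLL₂ : L₂ ≤ L := ((le_max_left _ _).trans (le_max_left _ _)).trans hL
    have hL1 : 1 ≤ L := ((le_max_right _ _).trans (le_max_left _ _)).trans hL
    have hL12 : 12 * R ≤ L := ((le_max_left _ _).trans (le_max_right _ _)).trans hL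
    have hLκ : 24 * R * 2 ^ p / κ ≤ L :=
      (Nat.le_ceil _).trans
        (Nat.cast_le.2 (((le_max_right _ _).trans (le_max_right _ _)).trans hL))
    have hL0 : (0 : ℝ) < L := by exact_mod_cast hL1
    -- van der Corput
    set y : ℕ → ℂ := fun h => x h * ee (P.eval (h : ℝ)) with hy
    have hy1 : ∀ n, ‖y n‖ ≤ 1 := fun n => by
      rw [hy]
      simp only
      rw [norm_mul, norm_ee', mul_one]
      exact hx n
    have h1 := vdcI y hy1 hR1 hL1
    set xj : ℕ → ℕ → ℂ := fun j h => x (h + j) * (starRingEnd ℂ) (x h) with hxj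
    have hxj1 : ∀ j n, ‖xj j n‖ ≤ 1 := fun j n => by
      rw [hxj]
      simp only
      rw [norm_mul, RCLike.norm_conj]
      exact mul_le_one₀ (hx _) (norm_nonneg _) (hx _)
    have hcor : ∀ j l : ℕ, y (l + j) * (starRingEnd ℂ) (y l) =
        xj j l * ee ((taylor (j : ℝ) P - P).eval (l : ℝ)) := by
      intro j l
      rw [eval_sub, taylor_eval, ee_sub, hy, hxj]
      simp only
      rw [map_mul]
      push_cast
      ring
    set g : ℕ → ℝ := fun j => ‖∑ l ∈ Icc 1 L, y (l + j) * (starRingEnd ℂ) (y l)‖ / L with hg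
    have hg0 : ∀ j, 0 ≤ g j := fun j => by positivity
    have hgI : ∀ j, g j ^ p ≤ κ / (2 * 4 ^ p) + ∑ k ∈ Fintype.piFinset (fun _ : Fin σ => Icc 1 K₂),
        ‖∑ h ∈ Icc 1 L, Dif (List.ofFn k) (xj j) h‖ / L := by
      intro j
      have h2 := hL₂ L hLL₂ (xj j) (hxj1 j) (taylor (j : ℝ) P - P) (natDegree_diff hP _)
      rw [hg]
      simp only [hcor]
      exact h2
    set u : ℝ := 1 / R + 6 * R / L with hu
    have hu0 : 0 ≤ u := by positivity
    have hu1 : u ≤ 1 := by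
      have h2 : 1 / (R : ℝ) ≤ 1 / 2 := by
        have h3 : (2 : ℝ) ≤ R := by
          have h4 : 4 ^ 1 ≤ 4 ^ p := Nat.pow_le_pow_right (by norm_num) hp1
          have h5 : 2 ≤ R := by omega
          exact_mod_cast h5
        exact one_div_le_one_div_of_le (by norm_num) h3
      have h3 : 6 * (R : ℝ) / L ≤ 1 / 2 := by
        rw [div_le_div_iff₀ hL0 (by norm_num)]
        have : ((12 * R : ℕ) : ℝ) ≤ L := by exact_mod_cast hL12
        push_cast at this
        linarith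
      linarith
    have huκ : 2 ^ p * u ≤ κ / 2 := by
      have h2 : 2 ^ p * (1 / (R : ℝ)) ≤ κ / 4 := by
        rw [div_le_iff₀ hκ] at hRκ
        rw [mul_one_div, div_le_div_iff₀ hR0 (by norm_num)]
        linarith
      have h3 : 2 ^ p * (6 * (R : ℝ) / L) ≤ κ / 4 := by
        rw [div_le_iff₀ hκ] at hLκ
        rw [← mul_div_assoc, div_le_div_iff₀ hL0 (by norm_num)]
        linarith
      rw [hu, mul_add]
      linarith
    -- powers
    have h2 : (‖∑ h ∈ Icc 1 L, x h * ee (P.eval (h : ℝ))‖ / L) ^ (2 ^ (σ + 1)) ≤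
        2 ^ p * u + 4 ^ p / R * ∑ j ∈ Icc 1 R, g j ^ p := by
      have e1 : 2 ^ (σ + 1) = 2 * p := by rw [hp, pow_succ, mul_comm]
      rw [e1, pow_mul]
      refine (pow_le_pow_left₀ (sq_nonneg _) h1 p).trans ?_
      have hS0 : 0 ≤ 2 / (R : ℝ) * ∑ j ∈ Icc 1 R, g j :=
        mul_nonneg (by positivity) (sum_nonneg fun j _ => hg0 j)
      refine (add_pow_le_two hu0 hS0 p).trans ?_
      refine add_le_add ?_ ?_
      · refine mul_le_mul_of_nonneg_left ?_ (by positivity)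
        calc u ^ p ≤ u ^ 1 := pow_le_pow_of_le_one hu0 hu1 hp1
          _ = u := pow_one u
      · have h3 := pow_sum_div_card_le_sum_pow (s := Icc 1 R) (f := g) (fun j _ => hg0 j) (p - 1)
        rw [Nat.sub_add_cancel hp1, Nat.card_Icc, Nat.add_sub_cancel, div_le_iff₀
          (by positivity)] at h3
        rw [mul_pow, div_pow]
        have h4 : (R : ℝ) ^ p = R ^ (p - 1) * R := by
          rw [← pow_succ, Nat.sub_add_cancel hp1]
        calc 2 ^ p * (2 ^ p / (R : ℝ) ^ p * (∑ j ∈ Icc 1 R, g j) ^ p)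
            ≤ 2 ^ p * (2 ^ p / (R : ℝ) ^ p * ((∑ j ∈ Icc 1 R, g j ^ p) * R ^ (p - 1))) := by
              gcongr
          _ = 4 ^ p / R * ∑ j ∈ Icc 1 R, g j ^ p := by
              rw [h4, show (4 : ℝ) ^ p = 2 ^ p * 2 ^ p by rw [← mul_pow]; norm_num]
              field_simp
    refine h2.trans ?_
    have h3 : 4 ^ p / (R : ℝ) * ∑ j ∈ Icc 1 R, g j ^ p ≤ κ / 2 +
        ∑ j ∈ Icc 1 R, ∑ k ∈ Fintype.piFinset (fun _ : Fin σ => Icc 1 K₂),
          ‖∑ h ∈ Icc 1 L, Dif (List.ofFn k) (xj j) h‖ / L := by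
      have h4 : 4 ^ p / (R : ℝ) ≤ 1 := by
        rw [div_le_one hR0]
        exact_mod_cast hR4
      have h5 : (0 : ℝ) ≤ 4 ^ p / (R : ℝ) := by positivity
      refine (mul_le_mul_of_nonneg_left (sum_le_sum fun j _ => hgI j) h5).trans ?_
      rw [sum_add_distrib, mul_add]
      refine add_le_add (le_of_eq ?_) ?_
      · rw [sum_const, Nat.card_Icc, Nat.add_sub_cancel, nsmul_eq_mul]
        field_simp
      · refine mul_le_of_le_one_left (sum_nonneg fun j _ => sum_nonneg fun k _ => ?_) h4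
        positivity
    have h4 : ∑ j ∈ Icc 1 R, ∑ k ∈ Fintype.piFinset (fun _ : Fin σ => Icc 1 K₂),
          ‖∑ h ∈ Icc 1 L, Dif (List.ofFn k) (xj j) h‖ / L ≤
        ∑ k ∈ Fintype.piFinset (fun _ : Fin (σ + 1) => Icc 1 (max R K₂)),
          ‖∑ h ∈ Icc 1 L, Dif (List.ofFn k) x h‖ / L := by
      rw [← sum_product']
      have hinj : Set.InjOn (fun e : ℕ × (Fin σ → ℕ) => (Fin.cons e.1 e.2 : Fin (σ + 1) → ℕ))
          ((Icc 1 R ×ˢ Fintype.piFinset fun _ : Fin σ => Icc 1 K₂ : Finset (ℕ × (Fin σ → ℕ))) :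
            Set (ℕ × (Fin σ → ℕ))) := by
        intro a _ b _ hab
        have h5 := Fin.cons_injective2 hab
        exact Prod.ext h5.1 h5.2
      have h5 : ∑ e ∈ Icc 1 R ×ˢ Fintype.piFinset (fun _ : Fin σ => Icc 1 K₂),
          ‖∑ h ∈ Icc 1 L, Dif (List.ofFn e.2) (xj e.1) h‖ / L =
          ∑ k ∈ (Icc 1 R ×ˢ Fintype.piFinset fun _ : Fin σ => Icc 1 K₂).image
            (fun e : ℕ × (Fin σ → ℕ) => (Fin.cons e.1 e.2 : Fin (σ + 1) → ℕ)),
            ‖∑ h ∈ Icc 1 L, Dif (List.ofFn k) x h‖ / L := by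
        rw [sum_image hinj]
        refine sum_congr rfl fun e _ => ?_
        rw [List.ofFn_cons]
        rfl
      rw [h5]
      refine sum_le_sum_of_subset_of_nonneg ?_ fun _ _ _ => by positivity
      intro k hk
      obtain ⟨e, he, rfl⟩ := mem_image.1 hk
      rw [mem_product, Fintype.mem_piFinset] at he
      rw [Fintype.mem_piFinset]
      intro i
      refine Fin.cases ?_ (fun i => ?_) i
      · rw [Fin.cons_zero]
        have := mem_Icc.1 he.1
        exact mem_Icc.2 ⟨this.1, this.2.trans (le_max_left _ _)⟩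
      · rw [Fin.cons_succ]
        have := mem_Icc.1 (he.2 i)
        exact mem_Icc.2 ⟨this.1, this.2.trans (le_max_right _ _)⟩
    linarith

theorem rowVDC : VDC_stmt := fun σ _ => vdc_all σ

end Pool.Agent.UD
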