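import Mathlib
import Pool.Agent.Lib.UD95.Fin2
import Pool.Agent.Lib.UD95.P2
import Pool.Agent.Lib.UD95.G2
import Pool.Agent.Lib.UD95.S1
import Pool.Agent.Lib.UD95.S2
import Pool.Agent.Lib.UD95.S3
import Pool.Agent.Lib.UD95.N1
import Pool.Agent.Lib.UD95.N2
import Pool.Agent.Lib.UD95.N3
import Pool.Agent.Lib.UD95.N5
import Pool.Agent.Lib.UD95.N7
import Pool.Agent.Lib.UD95.N7a
import Pool.Agent.Lib.UD95.N8
import Pool.Agent.Lib.UD95.VDC
import Pool.Agent.Lib.TU.Final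
import Pool.Agent.Lib.TUK.E1
import Pool.Agent.Lib.TUK.E7

/-!
# Complexity of sets of polynomial phases (MP_663568_nt): assembly
-/

set_option autoImplicit false

namespace Pool.Agent.UD

/-- The positive part. -/
theorem pos2 : P2_stmt :=
  rowP2 (TU.rowB2 TU.rowA TU.rowB1) TUK.rowE7
    (rowG2 TUK.rowE1 (TU.rowD TU.rowA) TU.rowE TU.rowF rowS1 rowS2 rowS3)

/-- The negative part. -/
theorem neg2 : N8_stmt :=
  rowN8 rowN1 rowN2 rowN3 (rowN7 rowN5 (rowN7a rowVDC))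

end Pool.Agent.UD
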