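import Pool.Agent.Lib.UD95.Defs3

/-!
# Row Sel: a good `T`
-/

set_option autoImplicit false
open Finset Polynomial MeasureTheory Filter Topology

namespace Pool.Agent.UD

open Pool.Agent.Lib.MP_663568_nt Pool.Agent.Lib.MP_663568_nt.Katai
  Pool.Agent.Lib.MP_663568_nt.Nul Pool.Agent.TU

lemma sel_harmonic (N : ℕ) (S : Finset ℕ) (hS : S ⊆ Icc 1 N) :
    ∑ n ∈ S, (1 / (n : ℝ)) ≤ 1 + Real.log N := by
  have h1 : ∑ n ∈ S, (1 / (n : ℝ)) ≤ ∑ n ∈ Icc 1 N, (1 / (n : ℝ)) :=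
    Finset.sum_le_sum_of_subset_of_nonneg hS fun n _ _ => by positivity
  refine h1.trans ?_
  have h2 := harmonic_le_one_add_log N
  have h3 : ((harmonic N : ℚ) : ℝ) = ∑ n ∈ Icc 1 N, (1 / (n : ℝ)) := by
    rw [harmonic_eq_sum_Icc]
    push_cast
    exact Finset.sum_congr rfl fun n _ => by rw [one_div]
  rwa [h3] at h2

open Classical in
/-- The lower bound for one `T`. -/
lemma sel_low (h1 : N1_stmt) {t s : ℕ} (hs1 : 1 ≤ s) (hst : s ≤ t) {r : Fin t → ℚ}
    {B : Set (Fin t → ℝ)} {C : Set (Fin s → ℝ)}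
    (hC : ∀ y ∈ C, glue s y (fun i => ((r i : ℚ) : ℝ)) ∈ B)
    {ζ : Fin s → ℝ} {c : ℝ} (hc : 0 < c) {H : ℕ} (hH1 : 1 ≤ H)
    (hζ : c * H ≤ ‖∑ h ∈ Icc 1 H, ee (ph (glue s ζ (fun i => ((r i : ℚ) : ℝ))) (h : ℝ))‖)
    {δ : ℝ} (hδ : δ ≤ c / (8 * Real.pi * s * (H : ℝ) ^ s)) {m : ℕ} (hm16 : 16 * (H : ℝ) / c ≤ m)
    (hm2H : 2 * H ≤ m) {T : ℕ} (hT : T ∈ Ico (TT s m) (2 * TT s m)) :
    c / 2 * H * (∑ n ∈ (Icc (m ^ (4 * s + 3)) (NN s m)).filter
        (fun n : ℕ => ∃ y ∈ C, ∀ i, |bt s (n : ℝ) T i + y i - ζ i| ≤ δ), (1 / (n : ℝ))) ≤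
      SA (arch T) B (NN s m) H := by
  have hH0 : (0 : ℝ) < H := by exact_mod_cast hH1
  have hmpos : 0 < m := by omega
  have hm0 : (0 : ℝ) < m := by exact_mod_cast hmpos
  have hTT0 : (0 : ℝ) < TT s m := by
    unfold TT
    exact_mod_cast pow_pos hmpos _
  rw [Finset.mem_Ico] at hT
  unfold SA
  rw [Finset.mul_sum]
  have hsub : (Icc (m ^ (4 * s + 3)) (NN s m)).filter
      (fun n : ℕ => ∃ y ∈ C, ∀ i, |bt s n T i + y i - ζ i| ≤ δ) ⊆ Icc 1 (NN s m) := by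
    intro n hn
    rw [Finset.mem_filter, Finset.mem_Icc] at hn
    rw [Finset.mem_Icc]
    exact ⟨le_trans (Nat.one_le_pow _ _ hmpos) hn.1.1, hn.1.2⟩
  have hBB := Finset.sum_le_sum_of_subset_of_nonneg (f := fun n : ℕ => (1 / (n : ℝ)) *
    ⨆ α : {α : Fin t → ℝ // α ∈ B},
      ‖∑ h ∈ Icc 1 H, arch T (n + h) * ee (ph (α : Fin t → ℝ) (h : ℝ))‖) hsub
    (fun n _ _ => mul_nonneg (by positivity) (Real.iSup_nonneg fun _ => norm_nonneg _))
  have hkey : ∀ n ∈ (Icc (m ^ (4 * s + 3)) (NN s m)).filter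
      (fun n : ℕ => ∃ y ∈ C, ∀ i, |bt s n T i + y i - ζ i| ≤ δ),
      c / 2 * H * (1 / (n : ℝ)) ≤ (1 / (n : ℝ)) * ⨆ α : {α : Fin t → ℝ // α ∈ B},
        ‖∑ h ∈ Icc 1 H, arch T (n + h) * ee (ph (α : Fin t → ℝ) (h : ℝ))‖ := by
    intro n hn
    rw [Finset.mem_filter, Finset.mem_Icc] at hn
    obtain ⟨⟨hn1, hn2⟩, y, hyC, hy⟩ := hn
    have hmn : m ≤ n := by
      refine le_trans ?_ hn1
      calc m = m ^ 1 := (pow_one m).symm
        _ ≤ m ^ (4 * s + 3) := Nat.pow_le_pow_right hmpos (by omega)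
    have hn0 : (0 : ℝ) < n := by
      have : 0 < n := by omega
      exact_mod_cast this
    have herr : 2 * (T : ℝ) * ((H : ℝ) / n) ^ (s + 1) ≤ c / 4 := by
      have e1 : ((H : ℝ) / n) ^ (s + 1) ≤ ((H : ℝ) / (m : ℝ) ^ (4 * s + 3)) ^ (s + 1) := by
        refine pow_le_pow_left₀ (by positivity) ?_ _
        refine div_le_div_of_nonneg_left hH0.le (by positivity) ?_
        exact_mod_cast hn1
      have e2 : (T : ℝ) ≤ 2 * TT s m := by exact_mod_cast hT.2.le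
      have e3 : ((TT s m : ℕ) : ℝ) * (m : ℝ) ^ (s + 1) = ((m : ℝ) ^ (4 * s + 3)) ^ (s + 1) := by
        unfold TT
        push_cast
        rw [← pow_add, ← pow_mul]
        congr 1
        ring
      have e4 : ((H : ℝ) / m) ≤ c / 16 := by
        have := hm16
        rw [div_le_iff₀ hc] at this
        rw [div_le_iff₀ hm0]
        linarith
      have e5 : (H : ℝ) / m ≤ 1 := by
        rw [div_le_one hm0]
        have : (2 : ℝ) * H ≤ m := by exact_mod_cast hm2H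
        linarith
      have e6 : ((H : ℝ) / m) ^ (s + 1) ≤ c / 16 := by
        refine le_trans ?_ e4
        calc ((H : ℝ) / m) ^ (s + 1) ≤ ((H : ℝ) / m) ^ 1 :=
              pow_le_pow_of_le_one (by positivity) e5 (by omega)
          _ = (H : ℝ) / m := pow_one _
      have e7 : (2 * (TT s m : ℝ)) * ((H : ℝ) / (m : ℝ) ^ (4 * s + 3)) ^ (s + 1) =
          2 * ((H : ℝ) / m) ^ (s + 1) := by
        rw [div_pow, div_pow, ← e3]
        field_simp
      calc 2 * (T : ℝ) * ((H : ℝ) / n) ^ (s + 1)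
          ≤ 2 * (2 * TT s m) * ((H : ℝ) / (m : ℝ) ^ (4 * s + 3)) ^ (s + 1) := by
            refine mul_le_mul (by linarith) e1 (by positivity) (by positivity)
        _ = 2 * ((2 * (TT s m : ℝ)) * ((H : ℝ) / (m : ℝ) ^ (4 * s + 3)) ^ (s + 1)) := by ring
        _ = 2 * (2 * ((H : ℝ) / m) ^ (s + 1)) := by rw [e7]
        _ ≤ c / 4 := by linarith
    have hwin := window_lower h1 hs1 hst hc hH1 hζ (n := n) (T := (T : ℝ))
      (Nat.cast_nonneg T) (by omega) herr (y := y) (fun i => (hy i).trans hδ)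
    have hsup : c / 2 * H ≤ ⨆ α : {α : Fin t → ℝ // α ∈ B},
        ‖∑ h ∈ Icc 1 H, arch T (n + h) * ee (ph (α : Fin t → ℝ) (h : ℝ))‖ := by
      refine hwin.trans ?_
      exact le_ciSup (sup_bdd (fun n => (norm_arch T n).le) B n H)
        (⟨glue s y (fun i => ((r i : ℚ) : ℝ)), hC y hyC⟩ : {α : Fin t → ℝ // α ∈ B})
    calc c / 2 * H * (1 / (n : ℝ)) = (1 / (n : ℝ)) * (c / 2 * H) := by ring
      _ ≤ _ := mul_le_mul_of_nonneg_left hsup (by positivity)
  exact (Finset.sum_le_sum hkey).trans hBB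

lemma sel_UU_nonneg (σ Q L N : ℕ) (a : ℕ → ℂ) : 0 ≤ UU σ Q L N a :=
  Finset.sum_nonneg fun _ _ => mul_nonneg (by positivity) (Finset.sum_nonneg fun _ _ =>
    Finset.sum_nonneg fun _ _ => Real.iSup_nonneg fun _ => norm_nonneg _)

/-- Selection: if the average of `G` is large and the averages of the `X i` are small, some `T` is
good. -/
lemma sel_select {S : Finset ℕ} (G : ℕ → ℝ) (X : ℕ → ℕ → ℝ) (J : ℕ) (w g : ℝ) (hw : 0 < w)
    (hS : 0 < S.card) (hG : w * S.card ≤ ∑ T ∈ S, G T) (hGg : ∀ T ∈ S, G T ≤ g) (hg : 0 < g)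
    (hX0 : ∀ i T, 0 ≤ X i T)
    (hX : ∀ i, i ≤ J → ∑ T ∈ S, X i T ≤ w / (4 * 2 ^ i * ((i + 1) * g)) * S.card) :
    ∃ T ∈ S, w / 2 ≤ G T ∧ ∀ i, i ≤ J → X i T ≤ 1 / ((i : ℝ) + 1) := by
  have hS0 : (0 : ℝ) < S.card := by exact_mod_cast hS
  have hlam : ∀ i : ℕ, (0 : ℝ) < ((i : ℝ) + 1) * g := fun i => by positivity
  -- the average of `G - ∑ lam i X i` is at least `w / 2`
  have h1 : ∑ T ∈ S, ∑ i ∈ range (J + 1), ((i : ℝ) + 1) * g * X i T ≤ w / 2 * S.card := by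
    rw [Finset.sum_comm]
    have h2 : ∀ i ∈ range (J + 1), ∑ T ∈ S, ((i : ℝ) + 1) * g * X i T ≤
        w / 4 * S.card * (1 / 2) ^ i := by
      intro i hi
      rw [← Finset.mul_sum]
      have h3 := mul_le_mul_of_nonneg_left (hX i (by rw [Finset.mem_range] at hi; omega))
        (hlam i).le
      refine h3.trans (le_of_eq ?_)
      have h4 := (hlam i).ne'
      rw [one_div, inv_pow]
      field_simp
    refine (Finset.sum_le_sum h2).trans ?_
    rw [← Finset.mul_sum]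
    have h3 : ∑ i ∈ range (J + 1), (1 / 2 : ℝ) ^ i ≤ 2 := by
      have h4 := sum_geometric_two_le (J + 1)
      exact h4
    have h4 : 0 ≤ w / 4 * S.card := by positivity
    calc w / 4 * S.card * ∑ i ∈ range (J + 1), (1 / 2 : ℝ) ^ i ≤ w / 4 * S.card * 2 :=
          mul_le_mul_of_nonneg_left h3 h4
      _ = w / 2 * S.card := by ring
  have h2 : ∑ T ∈ S, (w / 2 : ℝ) ≤
      ∑ T ∈ S, (G T - ∑ i ∈ range (J + 1), ((i : ℝ) + 1) * g * X i T) := by
    rw [Finset.sum_sub_distrib, Finset.sum_const, nsmul_eq_mul]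
    nlinarith
  obtain ⟨T, hT, hT2⟩ := Finset.exists_le_of_sum_le (Finset.card_pos.1 hS) h2
  have h3 : 0 ≤ ∑ i ∈ range (J + 1), ((i : ℝ) + 1) * g * X i T :=
    Finset.sum_nonneg fun i _ => mul_nonneg (hlam i).le (hX0 i T)
  refine ⟨T, hT, by linarith, fun i hi => ?_⟩
  have h4 : ((i : ℝ) + 1) * g * X i T ≤ ∑ i ∈ range (J + 1), ((i : ℝ) + 1) * g * X i T :=
    Finset.single_le_sum (f := fun i : ℕ => ((i : ℝ) + 1) * g * X i T)
      (fun i _ => mul_nonneg (hlam i).le (hX0 i T)) (Finset.mem_range.2 (by omega))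
  have h5 : ((i : ℝ) + 1) * g * X i T ≤ g := by
    have := hGg T hT
    linarith
  have h6 : ((i : ℝ) + 1) * X i T ≤ 1 := by
    have h7 : g * (((i : ℝ) + 1) * X i T) ≤ g * 1 := by linarith
    exact le_of_mul_le_mul_left h7 hg
  rw [le_div_iff₀ (by positivity)]
  linarith

theorem rowSel (h1 : N1_stmt) (h2 : N2_stmt) (h3 : N3_stmt) (h7 : N7_stmt) : Sel_stmt := by
  classical
  intro t ht σ B hBc hBp hnull
  unfold NullAbove at hnull
  push Not at hnull
  obtain ⟨s, hσs, hst, r, hvol⟩ := hnull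
  have hs1 : 1 ≤ s := by omega
  set C : Set (Fin s → ℝ) := {y | glue s y (fun i => ((r i : ℚ) : ℝ)) ∈ B} with hC
  have hCc : IsClosed C := hBc.preimage (glue_continuous _)
  have hCp : Per C := by
    intro y hy z
    rw [hC, Set.mem_setOf_eq] at hy ⊢
    have h6 := hBp _ hy (fun i => if h : i.val < s then z ⟨i.val, h⟩ else 0)
    convert! h6 using 1
    ext i
    unfold glue
    by_cases hi : i.val < s
    · simp [hi]
    · simp [hi]
  obtain ⟨w, hw, h3'⟩ := h3 s hs1 C hCc hCp hvol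
  obtain ⟨ζ, c, hc, Hc, hζ⟩ := h2 t s hs1 hst r
  have hs0 : (0 : ℝ) < s := by exact_mod_cast hs1
  set g : ℝ := 4 * s + 5 with hg
  have hg0 : 0 < g := by positivity
  have hη : ∀ i : ℕ, (0 : ℝ) < w / (4 * 2 ^ (i + 1) * ((((i + 1 : ℕ) : ℝ) + 1) * g)) :=
    fun i => by positivity
  have h7' : ∀ i : ℕ, ∃ L : ℕ, 1 ≤ L ∧ ∃ m₀ : ℕ, ∀ m : ℕ, m₀ ≤ m →
      ∑ T ∈ Ico (TT s m) (2 * TT s m), UU σ i L (NN s m) (arch T) ≤
      w / (4 * 2 ^ i * (((i : ℝ) + 1) * g)) * L * Real.log (NN s m) * TT s m := by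
    intro i
    rcases Nat.eq_zero_or_pos i with rfl | hi
    · refine ⟨1, le_rfl, 1, fun m hm => ?_⟩
      have e1 : ∀ T ∈ Ico (TT s m) (2 * TT s m), UU σ 0 1 (NN s m) (arch T) = 0 := by
        intro T _
        unfold UU UW
        simp
      rw [Finset.sum_eq_zero e1]
      have : 0 ≤ Real.log (NN s m) := Real.log_natCast_nonneg _
      positivity
    · exact h7 σ s i hσs hi _ (by positivity)
  choose Lf hLf1 m₀ hm₀ using h7'
  refine ⟨c * w / (4 * (4 * s + 4)), by positivity, max Hc 1, Lf, hLf1, fun J N₀ => ?_⟩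
  set J' : ℕ := max J 1 with hJ'
  have hJ'1 : 1 ≤ J' := le_max_right _ _
  have hJJ' : J ≤ J' := le_max_left _ _
  have hJ'0 : (0 : ℝ) < J' := by exact_mod_cast hJ'1
  set δ : ℝ := c / (8 * Real.pi * s * (J' : ℝ) ^ s) with hδ
  have hδ0 : 0 < δ := by have := Real.pi_pos; positivity
  obtain ⟨m₁, hm₁⟩ := h3' ζ δ hδ0
  obtain ⟨m₃, hm₃⟩ := exists_nat_ge (16 * (J' : ℝ) / c)
  set m₂ : ℕ := (range (J + 1)).sup m₀ with hm₂
  set m : ℕ := max (max (max m₁ m₂) (max m₃ (2 * J'))) (max N₀ 3) with hm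
  have hmm₁ : m₁ ≤ m := le_trans (le_trans (le_max_left _ _) (le_max_left _ _)) (le_max_left _ _)
  have hmm₂ : m₂ ≤ m := le_trans (le_trans (le_max_right _ _) (le_max_left _ _)) (le_max_left _ _)
  have hmm₃ : m₃ ≤ m := le_trans (le_trans (le_max_left _ _) (le_max_right _ _)) (le_max_left _ _)
  have hm2J : 2 * J' ≤ m :=
    le_trans (le_trans (le_max_right _ _) (le_max_right _ _)) (le_max_left _ _)
  have hmN : N₀ ≤ m := le_trans (le_max_left _ _) (le_max_right _ _)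
  have hm3 : 3 ≤ m := le_trans (le_max_right _ _) (le_max_right _ _)
  clear_value m
  have hmpos : 0 < m := by omega
  have hm0 : (0 : ℝ) < m := by exact_mod_cast hmpos
  have hlogm1 : 1 ≤ Real.log m := by
    rw [Real.le_log_iff_exp_le hm0]
    have e1 : (3 : ℝ) ≤ m := by exact_mod_cast hm3
    have e2 := Real.exp_one_lt_d9
    linarith
  have hlogm : 0 < Real.log m := by linarith
  have hlogN : Real.log (NN s m) = (4 * s + 4) * Real.log m := by
    unfold NN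
    push_cast
    rw [Real.log_pow]
    push_cast
    ring
  have hlogN0 : 0 < Real.log (NN s m) := by rw [hlogN]; positivity
  have hTT0 : (0 : ℝ) < TT s m := by
    unfold TT
    exact_mod_cast pow_pos hmpos _
  have hcard : (Ico (TT s m) (2 * TT s m)).card = TT s m := by
    rw [Nat.card_Ico]
    omega
  -- the quantities
  let GS : ℕ → Finset ℕ := fun T => (Icc (m ^ (4 * s + 3)) (NN s m)).filter
        (fun n : ℕ => ∃ y ∈ C, ∀ i, |bt s (n : ℝ) T i + y i - ζ i| ≤ δ)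
  let G : ℕ → ℝ := fun T => (∑ n ∈ GS T, (1 / (n : ℝ))) / Real.log m
  let X : ℕ → ℕ → ℝ := fun i T => UU σ i (Lf i) (NN s m) (arch T) /
    (Lf i * Real.log (NN s m))
  have hLf0 : ∀ i, (0 : ℝ) < Lf i := fun i => by exact_mod_cast hLf1 i
  obtain ⟨T, hT, hT1, hT2⟩ := sel_select (S := Ico (TT s m) (2 * TT s m)) G X J w g hw
    (by rw [hcard]; exact_mod_cast hTT0)
    (by
      rw [hcard]
      have e1 : w * TT s m * Real.log m ≤ ∑ T ∈ Ico (TT s m) (2 * TT s m),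
          ∑ n ∈ GS T, (1 / (n : ℝ)) :=
        (hm₁ m hmm₁).trans_eq (Finset.sum_congr rfl fun T _ =>
          sum_lift _ (fun x : ℝ => ∃ y ∈ C, ∀ i, |bt s x T i + y i - ζ i| ≤ δ) (fun x => 1 / x))
      change _ ≤ ∑ T ∈ Ico (TT s m) (2 * TT s m), (∑ n ∈ GS T, (1 / (n : ℝ))) / Real.log m
      rw [← Finset.sum_div, le_div_iff₀ hlogm]
      exact e1)
    (fun T hT => by
      change (∑ n ∈ GS T, (1 / (n : ℝ))) / Real.log m ≤ g
      rw [div_le_iff₀ hlogm]
      have e1 := sel_harmonic (NN s m) (GS T) (by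
        intro n hn
        rw [Finset.mem_filter, Finset.mem_Icc] at hn
        rw [Finset.mem_Icc]
        exact ⟨le_trans (Nat.one_le_pow _ _ hmpos) hn.1.1, hn.1.2⟩)
      rw [hlogN] at e1
      rw [hg]
      nlinarith)
    hg0
    (fun i T => div_nonneg (sel_UU_nonneg _ _ _ _ _) (mul_nonneg (hLf0 i).le hlogN0.le))
    (fun i hi => by
      rw [hcard]
      change ∑ T ∈ Ico (TT s m) (2 * TT s m), UU σ i (Lf i) (NN s m) (arch T) /
        (Lf i * Real.log (NN s m)) ≤ _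
      rw [← Finset.sum_div, div_le_iff₀ (mul_pos (hLf0 i) hlogN0)]
      have e1 := hm₀ i m (le_trans (Finset.le_sup (f := m₀) (Finset.mem_range.2 (by omega))) hmm₂)
      refine e1.trans (le_of_eq ?_)
      ring)
  refine ⟨NN s m, ?_, (T : ℝ), fun H hH1 hHJ => ?_, fun i hi => ?_⟩
  · refine hmN.trans ?_
    unfold NN
    calc m = m ^ 1 := (pow_one m).symm
      _ ≤ m ^ (4 * s + 4) := Nat.pow_le_pow_right hmpos (by omega)
  · have hHc : Hc ≤ H := (le_max_left _ _).trans hH1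
    have hH1' : 1 ≤ H := (le_max_right _ _).trans hH1
    have hHJ' : H ≤ J' := hHJ.trans hJJ'
    have hH0 : (0 : ℝ) < H := by exact_mod_cast hH1'
    have hHJ0 : (H : ℝ) ≤ J' := by exact_mod_cast hHJ'
    have e1 := sel_low h1 hs1 hst (r := r) (B := B) (C := C) (fun y hy => hy) hc hH1' (hζ H hHc)
      (δ := δ) (by
        rw [hδ]
        have := Real.pi_pos
        exact div_le_div_of_nonneg_left hc.le (by positivity)
          (mul_le_mul_of_nonneg_left (pow_le_pow_left₀ hH0.le hHJ0 s) (by positivity)))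
      (m := m) (by
        refine le_trans ?_ (hm₃.trans (by exact_mod_cast hmm₃))
        exact div_le_div_of_nonneg_right (by linarith) hc.le) (by omega) hT
    refine le_trans ?_ e1
    have e2 : w / 2 * Real.log m ≤ ∑ n ∈ GS T, (1 / (n : ℝ)) := by
      have e3 : w / 2 ≤ (∑ n ∈ GS T, (1 / (n : ℝ))) / Real.log m := hT1
      rwa [le_div_iff₀ hlogm] at e3
    have e3 : c / 2 * H * (w / 2 * Real.log m) ≤ c / 2 * H * ∑ n ∈ GS T, (1 / (n : ℝ)) :=
      mul_le_mul_of_nonneg_left e2 (by positivity)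
    refine le_trans (le_of_eq ?_) e3
    rw [hlogN]
    field_simp
    ring
  · have e1 : UU σ i (Lf i) (NN s m) (arch T) / (Lf i * Real.log (NN s m)) ≤
        1 / ((i : ℝ) + 1) := hT2 i hi
    rw [div_le_iff₀ (mul_pos (hLf0 i) hlogN0)] at e1
    refine e1.trans (le_of_eq ?_)
    ring

end Pool.Agent.UD
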