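import Mathlib
import Pool.Agent.Lib.UD95.Main
import Pool.Agent.Lib.UD95.Fin3
import Pool.Agent.Lib.UD95.Glue
import Pool.Agent.Lib.UD95.K
import Pool.Agent.Lib.UD95.Cmp
import Pool.Agent.Lib.UD95.Sel
import Pool.Agent.Lib.UD95.Lift

/-!
# Complexity of sets of polynomial phases (MP_663568_nt): assembly with individual functions
-/

set_option autoImplicit false

namespace Pool.Agent.UD

/-- One multiplicative function. -/
theorem glue3 : Glue_stmt :=
  rowGlue rowCmp (rowLift rowK rowCmp
    (rowSel rowN1 rowN2 rowN3 (rowN7 rowN5 (rowN7a rowVDC))))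

end Pool.Agent.UD
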